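import Pool.Agent.W822.ChSPb

/-!
# MP_332c83_pr (S19255), task CH-3 (sparse vectors), part 3: counting, rounding, union bound
-/

set_option autoImplicit false
open scoped Classical
open Finset Filter Topology

namespace Pool.Agent.W822.ChSP

open Pool.Agent.W839.Ch

/-! ### counting -/

/-- the value, `0` for `none` -/
def vl (a : Option ℤ) : ℤ := a.getD 0

lemma theta (s : ℝ) (hs : 0 < s) : ∃ Θ : ℝ, 0 < Θ ∧ ∀ R : ℤ,
    ∑ k ∈ Icc (-R) R, Real.exp (-(s * (k : ℝ) ^ 2)) ≤ Θ := by
  have h1 : Real.exp (-s) < 1 := by rw [Real.exp_lt_one_iff]; linarith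
  have h2 : Summable (fun k : ℤ => Real.exp (-s) ^ k.natAbs) := by
    apply Summable.of_nat_of_neg
    · simpa using summable_geometric_of_lt_one (Real.exp_pos _).le h1
    · simpa using summable_geometric_of_lt_one (Real.exp_pos _).le h1
  have h3 : ∀ k : ℤ, Real.exp (-(s * (k : ℝ) ^ 2)) ≤ Real.exp (-s) ^ k.natAbs := by
    intro k
    rw [← Real.exp_nat_mul]
    apply Real.exp_le_exp.2
    have h4 : (k.natAbs : ℝ) ≤ (k : ℝ) ^ 2 := by
      have h5 : |k| ≤ k ^ 2 := by
        rw [← sq_abs k]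
        rcases (abs_nonneg k).eq_or_lt with h | h
        · rw [← h]; norm_num
        · nlinarith
      have h6 : (k.natAbs : ℝ) = |(k : ℝ)| := by simp [Nat.cast_natAbs]
      rw [h6]
      exact_mod_cast h5
    nlinarith
  refine ⟨∑' k : ℤ, Real.exp (-s) ^ k.natAbs + 1, ?_, fun R => ?_⟩
  · have : 0 ≤ ∑' k : ℤ, Real.exp (-s) ^ k.natAbs := tsum_nonneg fun k => by positivity
    linarith
  · have h5 : ∑ k ∈ Icc (-R) R, Real.exp (-s) ^ k.natAbs ≤ ∑' k : ℤ, Real.exp (-s) ^ k.natAbs :=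
      h2.sum_le_tsum _ (fun k _ => by positivity)
    have h6 := sum_le_sum (fun k (_ : k ∈ Icc (-R) R) => h3 k)
    linarith

/-- the support -/
noncomputable def tp {n : ℕ} (g : Fin n → Option ℤ) : Finset (Fin n) := univ.filter (fun i => g i ≠ none)

/-- the codes -/
noncomputable def GG (n : ℕ) (ε : ℝ) : Finset (Fin n → Option ℤ) :=
  (Fintype.piFinset (fun _ : Fin n => insertNone (Icc (-(2 * n : ℤ)) (2 * n)))).filter
    (fun g => ((tp g).card : ℝ) ≤ ε * n ∧ ∑ i, ((vl (g i) : ℤ) : ℝ) ^ 2 ≤ 4 * n)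

lemma count (c : ℝ) (hc : 0 < c) : ∃ ε : ℝ, 0 < ε ∧ ∀ n : ℕ, ∀ ε' : ℝ, ε' ≤ ε →
    ((GG n ε').card : ℝ) ≤ Real.exp (c * n) := by
  set s : ℝ := c / 12 with hs
  have hs0 : 0 < s := by positivity
  obtain ⟨Θ, hΘ, hΘR⟩ := theta s hs0
  obtain ⟨σ, hσ0, hσ⟩ : ∃ σ : ℝ, 0 < σ ∧ Real.exp (-σ) * Θ ≤ c / 3 := by
    have h1 : Tendsto (fun σ : ℝ => Real.exp (-σ) * Θ) atTop (𝓝 (0 * Θ)) :=
      (Real.tendsto_exp_neg_atTop_nhds_zero).mul_const Θ
    rw [zero_mul] at h1
    have h2 := (h1.eventually_le_const (show (0 : ℝ) < c / 3 by positivity)).and (eventually_gt_atTop 0)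
    obtain ⟨σ, h3, h4⟩ := h2.exists
    exact ⟨σ, h4, h3⟩
  refine ⟨c / (3 * σ), by positivity, ?_⟩
  intro n ε' hε'
  set w : Option ℤ → ℝ := fun a => Real.exp (-((if a = none then 0 else σ) + s * ((vl a : ℤ) : ℝ) ^ 2)) with hw
  set S : Finset (Option ℤ) := insertNone (Icc (-(2 * n : ℤ)) (2 * n)) with hS
  have hw0 : ∀ a, 0 < w a := fun a => Real.exp_pos _
  have hσε : σ * ε' ≤ c / 3 := by
    calc σ * ε' ≤ σ * (c / (3 * σ)) := mul_le_mul_of_nonneg_left hε' hσ0.le
      _ = c / 3 := by field_simp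
  have h1 : ∀ g ∈ GG n ε', (1 : ℝ) ≤ Real.exp (2 * c / 3 * n) * ∏ i, w (g i) := by
    intro g hg
    unfold GG at hg
    rw [mem_filter] at hg
    rw [hw]
    simp only
    rw [← Real.exp_sum, ← Real.exp_add]
    apply Real.one_le_exp
    rw [sum_neg_distrib, sum_add_distrib, ← mul_sum]
    have h2 : ∑ i, (if g i = none then 0 else σ) = σ * (tp g).card := by
      unfold tp
      rw [card_filter]
      push_cast
      rw [mul_sum]
      apply sum_congr rfl
      intro i _
      by_cases h : g i = none <;> simp [h]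
    rw [h2]
    have h3 : σ * ((tp g).card : ℝ) ≤ σ * (ε' * n) := mul_le_mul_of_nonneg_left hg.2.1 hσ0.le
    have h4 : s * ∑ i, ((vl (g i) : ℤ) : ℝ) ^ 2 ≤ s * (4 * n) := mul_le_mul_of_nonneg_left hg.2.2 hs0.le
    have h5 : s * (4 * n) = c / 3 * n := by rw [hs]; ring
    have h6 : σ * (ε' * n) ≤ c / 3 * n := by
      have := mul_le_mul_of_nonneg_right hσε (Nat.cast_nonneg (α := ℝ) n)
      linarith
    linarith
  have h7 : ∑ a ∈ S, w a ≤ Real.exp (c / 3) := by
    rw [hS, sum_insertNone]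
    have h8 : w none = 1 := by simp [hw, vl]
    have h9 : ∀ k : ℤ, w (some k) = Real.exp (-σ) * Real.exp (-(s * (k : ℝ) ^ 2)) := by
      intro k
      rw [hw, ← Real.exp_add]
      simp [vl]
      ring_nf
    simp only [h8, h9]
    rw [← mul_sum]
    have h10 : Real.exp (-σ) * ∑ k ∈ Icc (-(2 * n : ℤ)) (2 * n), Real.exp (-(s * (k : ℝ) ^ 2)) ≤ c / 3 := by
      refine le_trans ?_ hσ
      exact mul_le_mul_of_nonneg_left (hΘR _) (Real.exp_pos _).le
    have := Real.add_one_le_exp (c / 3)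
    linarith
  have h11 : 0 ≤ ∑ a ∈ S, w a := sum_nonneg fun a _ => (hw0 a).le
  calc ((GG n ε').card : ℝ) = ∑ g ∈ GG n ε', (1 : ℝ) := by simp
    _ ≤ ∑ g ∈ GG n ε', Real.exp (2 * c / 3 * n) * ∏ i, w (g i) := sum_le_sum h1
    _ ≤ ∑ g ∈ Fintype.piFinset (fun _ : Fin n => S), Real.exp (2 * c / 3 * n) * ∏ i, w (g i) := by
        apply sum_le_sum_of_subset_of_nonneg (filter_subset _ _)
        intro g _ _
        exact mul_nonneg (Real.exp_pos _).le (prod_nonneg fun i _ => (hw0 _).le)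
    _ = Real.exp (2 * c / 3 * n) * (∑ a ∈ S, w a) ^ n := by
        rw [← mul_sum]
        congr 1
        rw [← prod_univ_sum (fun _ : Fin n => S) (fun _ a => w a)]
        simp
    _ ≤ Real.exp (2 * c / 3 * n) * Real.exp (c / 3) ^ n := by
        apply mul_le_mul_of_nonneg_left _ (Real.exp_pos _).le
        exact pow_le_pow_left₀ h11 h7 n
    _ = Real.exp (c * n) := by
        rw [← Real.exp_nat_mul, ← Real.exp_add]
        congr 1
        ring

/-! ### the vector of a code -/

variable {n : ℕ} {p : ℝ}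

/-- the vector of a code -/
noncomputable def zv (g : Fin n → Option ℤ) (v : Fin n) : ℝ := ((vl (g v) : ℤ) : ℝ) / Real.sqrt n

lemma zv_supp (g : Fin n → Option ℤ) (v : Fin n) (h : v ∉ tp g) : zv g v = 0 := by
  unfold tp at h
  rw [mem_filter] at h
  push Not at h
  unfold zv
  rw [h (mem_univ v)]
  simp [vl]

lemma opn_vec {C : ℝ} {G : SimpleGraph (Fin n)} (h : OpN p C G) (x : Fin n → ℝ) :
    sn (fun v => ∑ u, (adj G v u - if v = u then 0 else p) * x u) ≤ C ^ 2 * n * sn x := by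
  set w : Fin n → ℝ := fun v => ∑ u, (adj G v u - if v = u then 0 else p) * x u with hw
  have h1 := h w x
  have h2 : ∑ u, ∑ v, (adj G u v - if u = v then 0 else p) * w u * x v = sn w := by
    unfold sn
    apply sum_congr rfl
    intro u _
    have : ∀ v, (adj G u v - if u = v then 0 else p) * w u * x v =
        w u * ((adj G u v - if u = v then 0 else p) * x v) := fun v => by ring
    simp only [this]
    rw [← mul_sum]
    have e : w u = ∑ i, (adj G u i - if u = i then 0 else p) * x i := rfl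
    rw [← e]
    ring
  rw [h2] at h1
  have h3 : 0 ≤ sn w := sum_nonneg fun _ _ => sq_nonneg _
  rcases h3.eq_or_lt with h4 | h4
  · rw [← h4]
    have : 0 ≤ sn x := sum_nonneg fun _ _ => sq_nonneg _
    positivity
  · have h5 : sn w * sn w ≤ (C ^ 2 * n * sn x) * sn w := by
      calc sn w * sn w = sn w ^ 2 := by ring
        _ ≤ C ^ 2 * n * sn w * sn x := h1
        _ = _ := by ring
    exact le_of_mul_le_mul_right h5 h4

/-- unit vectors -/
lemma unit_case {C ε q : ℝ} {G : SimpleGraph (Fin n)} (hn : 1 ≤ n) (hC : OpN p C G) (hε0 : 0 < ε)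
    (hε1 : ε ≤ 1 / 10) (hεC : C ^ 2 * ε ≤ q / 192)
    (hg : ∀ g ∈ GG n ε, 1 / 4 ≤ sn (zv g) → sn (zv g) ≤ 4 → ¬ Bad (tp g) (zv g) (q / 48 * n) G)
    (T : Finset (Fin n)) (hT : (T.card : ℝ) ≤ ε * n) (y : Fin n → ℝ) (hy : ∀ v, v ∉ T → y v = 0)
    (hy1 : sn y = 1) (α : ℝ) :
    q / 192 * n ≤ ∑ v ∈ Tᶜ, (∑ u, adj G v u * y u - α) ^ 2 := by
  have hn0 : (0 : ℝ) < n := by exact_mod_cast hn
  have hn1 : (1 : ℝ) ≤ n := by exact_mod_cast hn
  have hsq : 0 < Real.sqrt n := Real.sqrt_pos.2 hn0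
  have hsq2 : Real.sqrt n ^ 2 = n := Real.sq_sqrt hn0.le
  set g : Fin n → Option ℤ := fun v => if v ∈ T then some ⌊Real.sqrt n * y v⌋ else none with hgdef
  have htp : tp g = T := by
    unfold tp
    ext v
    rw [mem_filter]
    by_cases h : v ∈ T <;> simp [hgdef, h]
  have hzT : ∀ v ∈ T, zv g v = (⌊Real.sqrt n * y v⌋ : ℝ) / Real.sqrt n := by
    intro v hv
    unfold zv
    simp [hgdef, hv, vl]
  have hzT' : ∀ v, v ∉ T → zv g v = 0 := fun v hv => zv_supp g v (by rw [htp]; exact hv)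
  set r : Fin n → ℝ := fun v => y v - zv g v with hr
  have hr1 : ∀ v ∈ T, r v ^ 2 ≤ 1 / n := by
    intro v hv
    have h1 := Int.floor_le (Real.sqrt n * y v)
    have h2 := Int.lt_floor_add_one (Real.sqrt n * y v)
    have h3 : r v = (Real.sqrt n * y v - ⌊Real.sqrt n * y v⌋) / Real.sqrt n := by
      rw [hr]
      simp only
      rw [hzT v hv]
      field_simp
    rw [h3, div_pow, hsq2, div_le_div_iff_of_pos_right hn0]
    have h4 : 0 ≤ Real.sqrt n * y v - ⌊Real.sqrt n * y v⌋ := by linarith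
    have h5 : Real.sqrt n * y v - ⌊Real.sqrt n * y v⌋ ≤ 1 := by linarith
    exact pow_le_one₀ h4 h5
  have hr0 : ∀ v, v ∉ T → r v = 0 := by
    intro v hv
    rw [hr]
    simp only
    rw [hy v hv, hzT' v hv, sub_zero]
  have hsr : sn r ≤ ε := by
    unfold sn
    rw [← sum_subset (subset_univ T) (fun v _ hv => by rw [hr0 v hv]; ring)]
    calc ∑ v ∈ T, r v ^ 2 ≤ ∑ v ∈ T, (1 / n : ℝ) := sum_le_sum hr1
      _ = T.card * (1 / n) := by rw [sum_const, nsmul_eq_mul]
      _ ≤ ε * n * (1 / n) := by gcongr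
      _ = ε := by field_simp
  have hyz : ∀ v, y v = zv g v + r v := by intro v; rw [hr]; ring
  have hz1 : 1 / 4 ≤ sn (zv g) := by
    have h1 : sn y ≤ 2 * sn (zv g) + 2 * sn r := by
      unfold sn
      rw [mul_sum, mul_sum, ← sum_add_distrib]
      apply sum_le_sum
      intro v _
      rw [hyz v]
      nlinarith [sq_nonneg (zv g v - r v)]
    rw [hy1] at h1
    linarith
  have hz2 : sn (zv g) ≤ 4 := by
    have h1 : sn (zv g) ≤ 2 * sn y + 2 * sn r := by
      unfold sn
      rw [mul_sum, mul_sum, ← sum_add_distrib]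
      apply sum_le_sum
      intro v _
      have : zv g v = y v - r v := by rw [hyz v]; ring
      rw [this]
      nlinarith [sq_nonneg (y v + r v)]
    rw [hy1] at h1
    linarith
  have hvl : ∑ i, ((vl (g i) : ℤ) : ℝ) ^ 2 = n * sn (zv g) := by
    unfold sn zv
    rw [mul_sum]
    apply sum_congr rfl
    intro v _
    rw [div_pow, hsq2]
    field_simp
  have hmem : g ∈ GG n ε := by
    unfold GG
    rw [mem_filter]
    have h4n : ∑ i, ((vl (g i) : ℤ) : ℝ) ^ 2 ≤ 4 * n := by
      rw [hvl]; nlinarith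
    refine ⟨?_, by rw [htp]; exact hT, h4n⟩
    rw [Fintype.mem_piFinset]
    intro v
    rw [mem_insertNone]
    intro a ha
    have h1 : vl (g v) = a := by
      rw [Option.mem_def] at ha
      rw [ha]; rfl
    have h2 : ((vl (g v) : ℤ) : ℝ) ^ 2 ≤ 4 * n :=
      (single_le_sum (f := fun i => ((vl (g i) : ℤ) : ℝ) ^ 2) (fun i _ => sq_nonneg _) (mem_univ v)).trans h4n
    rw [h1] at h2
    have h3 : (a : ℝ) ^ 2 ≤ (2 * n : ℝ) ^ 2 := by nlinarith
    have h5 := abs_le_of_sq_le_sq' h3 (by positivity)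
    rw [mem_Icc]
    constructor
    · exact_mod_cast h5.1
    · exact_mod_cast h5.2
  have hbad := hg g hmem hz1 hz2
  unfold Bad at hbad
  push Not at hbad
  rw [htp] at hbad
  have hb := hbad (α - p * ∑ u, r u)
  set Er : Fin n → ℝ := fun v => ∑ u, (adj G v u - if v = u then 0 else p) * r u with hEr
  have hEr2 : ∑ v ∈ Tᶜ, Er v ^ 2 ≤ C ^ 2 * n * ε := by
    have h1 : ∑ v ∈ Tᶜ, Er v ^ 2 ≤ sn Er := by
      unfold sn
      exact sum_le_sum_of_subset_of_nonneg (subset_univ _) fun _ _ _ => sq_nonneg _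
    have h2 := opn_vec hC r
    have h3 : C ^ 2 * n * sn r ≤ C ^ 2 * n * ε := mul_le_mul_of_nonneg_left hsr (by positivity)
    exact h1.trans (h2.trans h3)
  have hpt : ∀ v ∈ Tᶜ, 1 / 2 * (∑ u, adj G v u * zv g u - (α - p * ∑ u, r u)) ^ 2 - Er v ^ 2 ≤
      (∑ u, adj G v u * y u - α) ^ 2 := by
    intro v hv
    rw [mem_compl] at hv
    have h1 : ∑ u, adj G v u * y u = ∑ u, adj G v u * zv g u + ∑ u, adj G v u * r u := by
      rw [← sum_add_distrib]
      apply sum_congr rfl
      intro u _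
      rw [hyz u]; ring
    have h2 : Er v = ∑ u, adj G v u * r u - p * ∑ u, r u := by
      rw [hEr]
      simp only
      have h3 : ∀ u, (adj G v u - if v = u then 0 else p) * r u =
          adj G v u * r u - p * r u + (if v = u then p * r u else 0) := by
        intro u
        split_ifs <;> ring
      simp only [h3]
      rw [sum_add_distrib, sum_sub_distrib, sum_ite_eq, ← mul_sum]
      rw [if_pos (mem_univ v), hr0 v hv]
      ring
    rw [h1]
    have h4 : ∑ u, adj G v u * r u = Er v + p * ∑ u, r u := by rw [h2]; ring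
    rw [h4]
    set A := ∑ u, adj G v u * zv g u
    set B := p * ∑ u, r u
    nlinarith [sq_nonneg ((A - (α - B)) + 2 * Er v)]
  have hsum := sum_le_sum hpt
  rw [sum_sub_distrib, ← mul_sum] at hsum
  have hfin : C ^ 2 * n * ε ≤ q / 192 * n := by
    calc C ^ 2 * n * ε = (C ^ 2 * ε) * n := by ring
      _ ≤ _ := mul_le_mul_of_nonneg_right hεC hn0.le
  linarith

lemma Pr_union (hp0 : 0 < p) (hp1 : p < 1) {κ : Type} (S : Finset κ) (P Q : SimpleGraph (Fin n) → Prop)
    (R : κ → SimpleGraph (Fin n) → Prop) (h : ∀ G, P G → Q G ∨ ∃ g ∈ S, R g G) :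
    Pr n p P ≤ Pr n p Q + ∑ g ∈ S, Pr n p (R g) := by
  have hw : ∀ G : SimpleGraph (Fin n), 0 ≤ wt n p G := by
    intro G
    unfold wt
    have : 0 < 1 - p := by linarith
    positivity
  unfold Pr
  rw [sum_comm, ← sum_add_distrib]
  apply sum_le_sum
  intro G _
  have h0 : ∀ g ∈ S, 0 ≤ (if R g G then wt n p G else 0) := by
    intro g _
    split_ifs
    · exact hw G
    · exact le_rfl
  have hs := sum_nonneg h0
  by_cases hP : P G
  · rw [if_pos hP]
    rcases h G hP with hQ | ⟨g, hg, hR⟩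
    · rw [if_pos hQ]
      linarith
    · have h1 := single_le_sum h0 hg
      rw [if_pos hR] at h1
      have h2 : 0 ≤ (if Q G then wt n p G else 0) := by
        split_ifs
        · exact hw G
        · exact le_rfl
      linarith
  · rw [if_neg hP]
    have h2 : 0 ≤ (if Q G then wt n p G else 0) := by
      split_ifs
      · exact hw G
      · exact le_rfl
    linarith

lemma Pr_nonneg (hp0 : 0 < p) (hp1 : p < 1) (P : SimpleGraph (Fin n) → Prop) : 0 ≤ Pr n p P := by
  unfold Pr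
  apply sum_nonneg
  intro G _
  split_ifs
  · unfold wt
    have : 0 < 1 - p := by linarith
    positivity
  · exact le_rfl

/-- CH-3: sparse vectors -/
theorem main (hBIT : S_BIT) (hBLK : S_BLK) (hOPN : S_OPN) : S_SP := by
  intro p hp0 hp1
  obtain ⟨C, hC, hCt⟩ := hOPN p hp0 hp1
  set q : ℝ := p * (1 - p) with hq
  have hq0 : 0 < q := mul_pos hp0 (by linarith)
  set c3 : ℝ := q ^ 2 / 576 with hc3
  have hc30 : 0 < c3 := by positivity
  obtain ⟨ε1, hε10, hcount⟩ := count (c3 / 2) (by positivity)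
  set ε : ℝ := min (min ε1 (1 / 10)) (q / (192 * C ^ 2)) with hε
  have hε0 : 0 < ε := lt_min (lt_min hε10 (by norm_num)) (by positivity)
  have hεa : ε ≤ ε1 := (min_le_left _ _).trans (min_le_left _ _)
  have hεb : ε ≤ 1 / 10 := (min_le_left _ _).trans (min_le_right _ _)
  have hεc : C ^ 2 * ε ≤ q / 192 := by
    calc C ^ 2 * ε ≤ C ^ 2 * (q / (192 * C ^ 2)) := mul_le_mul_of_nonneg_left (min_le_right _ _) (by positivity)
      _ = q / 192 := by field_simp
  refine ⟨q / 192, ε, by positivity, hε0, ?_⟩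
  have hlim : Tendsto (fun n : ℕ => Real.exp (-(c3 / 2 * n))) atTop (𝓝 0) := by
    have h1 : Tendsto (fun n : ℕ => c3 / 2 * (n : ℝ)) atTop atTop :=
      tendsto_natCast_atTop_atTop.const_mul_atTop (by positivity)
    exact Real.tendsto_exp_neg_atTop_nhds_zero.comp h1
  have hsum : Tendsto (fun n : ℕ => Pr n p (fun G => ¬ OpN p C G) + Real.exp (-(c3 / 2 * n))) atTop (𝓝 0) := by
    simpa using hCt.add hlim
  refine squeeze_zero' (Eventually.of_forall fun n => Pr_nonneg hp0 hp1 _) ?_ hsum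
  filter_upwards [eventually_ge_atTop 10] with n hn
  set S : Finset (Fin n → Option ℤ) := (GG n ε).filter (fun g => 1 / 4 ≤ sn (zv g) ∧ sn (zv g) ≤ 4) with hS
  have hun := Pr_union (n := n) hp0 hp1 S (fun G => ¬ SP (q / 192) ε G) (fun G => ¬ OpN p C G)
    (fun g G => Bad (tp g) (zv g) (q / 48 * n) G) (by
      intro G hG
      by_contra hcon
      push Not at hcon
      obtain ⟨h1, h2⟩ := hcon
      apply hG
      intro T hT y hy α
      have hsn : 0 ≤ sn y := sum_nonneg fun _ _ => sq_nonneg _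
      rcases hsn.eq_or_lt with h0 | h0
      · rw [← h0, mul_zero]
        exact sum_nonneg fun _ _ => sq_nonneg _
      · set t : ℝ := Real.sqrt (sn y) with ht
        have ht0 : 0 < t := Real.sqrt_pos.2 h0
        have ht2 : t ^ 2 = sn y := Real.sq_sqrt h0.le
        have h3 := unit_case (q := q) (by omega) h1 hε0 hεb hεc (fun g hg h1 h2' =>
          h2 g (by rw [hS, mem_filter]; exact ⟨hg, h1, h2'⟩)) T hT (fun v => y v / t)
          (fun v hv => by simp only [hy v hv, zero_div]) (by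
            unfold sn
            simp only [div_pow]
            rw [← sum_div, ht2]
            exact div_self h0.ne') (α / t)
        have h4 : ∀ v ∈ Tᶜ, (∑ u, adj G v u * y u - α) ^ 2 =
            sn y * (∑ u, adj G v u * (y u / t) - α / t) ^ 2 := by
          intro v _
          have h5 : ∑ u, adj G v u * (y u / t) = (∑ u, adj G v u * y u) / t := by
            rw [sum_div]
            exact sum_congr rfl fun u _ => by ring
          rw [h5, ← ht2, ← mul_pow]
          congr 1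
          field_simp
        rw [sum_congr rfl h4, ← mul_sum]
        calc q / 192 * n * sn y = sn y * (q / 192 * n) := by ring
          _ ≤ _ := mul_le_mul_of_nonneg_left h3 h0.le)
  refine hun.trans (add_le_add le_rfl ?_)
  have hone : ∀ g ∈ S, Pr n p (fun G => Bad (tp g) (zv g) (q / 48 * n) G) ≤ Real.exp (-(c3 * n)) := by
    intro g hg
    rw [hS, mem_filter] at hg
    have hcard : ((tp g).card : ℝ) ≤ ε * n := by
      have := hg.1
      unfold GG at this
      rw [mem_filter] at this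
      exact this.2.1
    have h10 : 10 * (tp g).card ≤ n := by
      have h1 : ε * n ≤ 1 / 10 * n := mul_le_mul_of_nonneg_right hεb (Nat.cast_nonneg n)
      have : (10 * (tp g).card : ℝ) ≤ n := by linarith
      exact_mod_cast this
    exact one_vector hBIT hBLK hp0 hp1 (tp g) (zv g) (zv_supp g) hg.2.1 hg.2.2 h10 hn
  calc ∑ g ∈ S, Pr n p (fun G => Bad (tp g) (zv g) (q / 48 * n) G) ≤ ∑ g ∈ S, Real.exp (-(c3 * n)) :=
        sum_le_sum hone
    _ = S.card * Real.exp (-(c3 * n)) := by rw [sum_const, nsmul_eq_mul]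
    _ ≤ Real.exp (c3 / 2 * n) * Real.exp (-(c3 * n)) := by
        apply mul_le_mul_of_nonneg_right _ (Real.exp_pos _).le
        refine le_trans ?_ (hcount n ε hεa)
        exact_mod_cast card_filter_le _ _
    _ = Real.exp (-(c3 / 2 * n)) := by
        rw [← Real.exp_add]
        congr 1
        ring

end Pool.Agent.W822.ChSP
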