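import Pool.Agent.W217.BE.Stm

/-! BE-CORE: the one variable step on certificates. -/

set_option autoImplicit false

namespace Pool.Agent.W822.BECORE

open Pool.Agent.W217.BE Polynomial

section gen

variable {S κ P Q : Type} [CommRing S] [Field κ] [AddCommGroup P] [Module S P]
    [AddCommGroup Q] [Module S Q] {χ : S →+* κ}

theorem isF_comp {L : Q →+ κ} (hL : IsF χ L) (φ : P →ₗ[S] Q) :
    IsF χ (L.comp φ.toAddMonoidHom) := by
  intro s x
  show L (φ (s • x)) = χ s * L (φ x)
  rw [map_smul, hL]

end gen

theorem cert_comb {S κ : Type} [CommRing S] [Field κ] (χ : S →+* κ) (P : ℕ → Type)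
    [∀ i, AddCommGroup (P i)] [∀ i, Module S (P i)] (d : ∀ i, P (i + 1) →ₗ[S] P i)
    (i n m : ℕ) (z : Fin n → P i) (w : Fin m → P i) (a : Fin n → P i →+ κ)
    (b : Fin m → P i →+ κ) (c₁ c₂ : κ) (h₁ : c₁ ≠ 0) (h₂ : c₂ ≠ 0)
    (hz : ∀ j, Cyc χ P d i (z j)) (hw : ∀ j, Cyc χ P d i (w j))
    (ha : ∀ j, IsF χ (a j)) (hb : ∀ j, IsF χ (b j)) (had : ∀ j x, a j (d i x) = 0)
    (hbd : ∀ j x, b j (d i x) = 0) (haz : ∀ j k, a j (z k) = if j = k then c₁ else 0)
    (hbz : ∀ j k, b j (z k) = 0) (hbw : ∀ j k, b j (w k) = if j = k then c₂ else 0) :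
    Cert χ P d i (n + m) := by
  have hA : ∀ j, ∃ a' : P i →+ κ, ∀ x, a' x = c₁⁻¹ * (a j x - ∑ t, a j (w t) * c₂⁻¹ * b t x) := by
    intro j
    refine ⟨AddMonoidHom.mk' (fun x => c₁⁻¹ * (a j x - ∑ t, a j (w t) * c₂⁻¹ * b t x)) ?_,
      fun x => rfl⟩
    intro x y
    simp only [map_add, mul_add, Finset.sum_add_distrib]
    ring
  have hB : ∀ j, ∃ b' : P i →+ κ, ∀ x, b' x = c₂⁻¹ * b j x := by
    intro j
    refine ⟨AddMonoidHom.mk' (fun x => c₂⁻¹ * b j x) ?_, fun x => rfl⟩
    intro x y
    simp only [map_add, mul_add]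
  choose a' ha' using hA
  choose b' hb' using hB
  refine ⟨Fin.append z w, Fin.append a' b', ?_, ?_, ?_, ?_⟩
  · intro j
    refine Fin.addCases (fun j => ?_) (fun j => ?_) j
    · rw [Fin.append_left]
      exact hz j
    · rw [Fin.append_right]
      exact hw j
  · intro j
    refine Fin.addCases (fun j => ?_) (fun j => ?_) j
    · rw [Fin.append_left]
      intro s x
      rw [ha', ha', ha]
      have h3 : ∑ t, a j (w t) * c₂⁻¹ * b t (s • x) = χ s * ∑ t, a j (w t) * c₂⁻¹ * b t x := by
        rw [Finset.mul_sum]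
        apply Finset.sum_congr rfl
        intro t _
        rw [hb]
        ring
      rw [h3]
      ring
    · rw [Fin.append_right]
      intro s x
      rw [hb', hb', hb]
      ring
  · intro j
    refine Fin.addCases (fun j => ?_) (fun j => ?_) j
    · rw [Fin.append_left]
      intro x
      rw [ha', had]
      have h3 : ∑ t, a j (w t) * c₂⁻¹ * b t (d i x) = 0 := by
        apply Finset.sum_eq_zero
        intro t _
        rw [hbd, mul_zero]
      rw [h3, sub_zero, mul_zero]
    · rw [Fin.append_right]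
      intro x
      rw [hb', hbd, mul_zero]
  · intro j
    refine Fin.addCases (fun j => ?_) (fun j => ?_) j
    · rw [Fin.append_left]
      intro k
      refine Fin.addCases (fun k => ?_) (fun k => ?_) k
      · rw [Fin.append_left, ha', haz]
        have h3 : ∑ t, a j (w t) * c₂⁻¹ * b t (z k) = 0 := by
          apply Finset.sum_eq_zero
          intro t _
          rw [hbz, mul_zero]
        rw [h3, sub_zero]
        by_cases hjk : j = k
        · subst hjk
          rw [if_pos rfl, if_pos rfl, inv_mul_cancel₀ h₁]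
        · rw [if_neg hjk, if_neg, mul_zero]
          intro h4
          exact hjk (Fin.castAdd_injective _ _ h4)
      · rw [Fin.append_right, ha']
        have h3 : ∑ t, a j (w t) * c₂⁻¹ * b t (w k) = a j (w k) := by
          rw [Finset.sum_eq_single k]
          · rw [hbw, if_pos rfl, mul_assoc, inv_mul_cancel₀ h₂, mul_one]
          · intro t _ ht
            rw [hbw, if_neg ht, mul_zero]
          · intro h4
            exact absurd (Finset.mem_univ _) h4
        rw [h3, sub_self, mul_zero, if_neg]
        intro h4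
        have h5 := congrArg Fin.val h4
        simp only [Fin.val_castAdd, Fin.val_natAdd] at h5
        have := j.2
        omega
    · rw [Fin.append_right]
      intro k
      refine Fin.addCases (fun k => ?_) (fun k => ?_) k
      · rw [Fin.append_left, hb', hbz, mul_zero, if_neg]
        intro h4
        have h5 := congrArg Fin.val h4
        simp only [Fin.val_castAdd, Fin.val_natAdd] at h5
        have := k.2
        omega
      · rw [Fin.append_right, hb', hbw]
        by_cases hjk : j = k
        · subst hjk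
          rw [if_pos rfl, if_pos rfl, inv_mul_cancel₀ h₂]
        · rw [if_neg hjk, if_neg, mul_zero]
          intro h4
          exact hjk (Fin.natAdd_injective _ _ h4)

section X

variable {C κ P : Type} [CommRing C] [Field κ] [AddCommGroup P] [Module C[X] P] [Module C P]
    [IsScalarTower C C[X] P] {χ : C →+* κ}

theorem C_smul (c : C) (x : P) : (Polynomial.C c : C[X]) • x = c • x := by
  rw [← algebraMap_smul C[X] c x]
  rfl

theorem isF_mk {L : P →+ κ} (h1 : IsF χ L) (h2 : ∀ x, L ((X : C[X]) • x) = 0) :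
    IsF (χ.comp (Polynomial.evalRingHom 0)) L := by
  intro s x
  have h3 : s • x = (X : C[X]) • (s.divX • x) + s.coeff 0 • x := by
    conv_lhs => rw [← Polynomial.divX_mul_X_add s]
    rw [add_smul, mul_comm, mul_smul, C_smul]
  rw [h3, map_add, h2, zero_add, h1, RingHom.comp_apply, Polynomial.coe_evalRingHom,
    Polynomial.coeff_zero_eq_eval_zero]

theorem isF_res {L : P →+ κ} (h : IsF (χ.comp (Polynomial.evalRingHom 0)) L) : IsF χ L := by
  intro c x
  rw [← C_smul, h]
  simp

theorem isF_X {L : P →+ κ} (h : IsF (χ.comp (Polynomial.evalRingHom 0)) L) (x : P) :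
    L ((X : C[X]) • x) = 0 := by
  rw [h]
  simp

end X

theorem main : CORE := by
  intro C κ _ _ χ P F G _ _ _ _ _ _ _ _ d dF dG f g p r h u v σ τ s₁ s₂ hdd hf hp hpX hr hg0 hg
    hpf0 hpf hrg0 hrg hστ hσX hτX hs₁ hs₂
  have hdC : ∀ k (c : C) (x : P (k + 1)), d k (c • x) = c • d k x := by
    intro k c x
    rw [← C_smul, map_smul, C_smul]
  -- functionals from F
  have hpF : ∀ k (l : F k →+ κ), IsF χ l →
      IsF (χ.comp (Polynomial.evalRingHom 0)) (l.comp (p k).toAddMonoidHom) := by
    intro k l hl
    refine isF_mk (isF_comp hl (p k)) fun x => ?_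
    show l (p k ((X : C[X]) • x)) = 0
    rw [hpX, map_zero]
  constructor
  · rintro n ⟨z, l, -, hl, hld, hlz⟩
    have hL : ∀ j, ∃ l' : P 0 →+ κ, ∀ x, l' x = (χ s₁)⁻¹ * l j (p 0 x) := by
      intro j
      refine ⟨AddMonoidHom.mk' (fun x => (χ s₁)⁻¹ * l j (p 0 x)) ?_, fun x => rfl⟩
      intro x y
      simp only [map_add, mul_add]
    choose l' hl' using hL
    refine ⟨fun j => f 0 (z j), l', fun j => trivial, ?_, ?_, ?_⟩
    · intro j s x
      have h1 := hpF 0 (l j) (hl j) s x
      rw [hl', hl']
      change l j (p 0 (s • x)) = _ * l j (p 0 x) at h1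
      rw [h1]
      ring
    · intro j x
      rw [hl', ← hp, hld, mul_zero]
    · intro j k
      rw [hl', hpf0, map_add, hld, add_zero, hl, hlz]
      by_cases hjk : j = k
      · rw [if_pos hjk, mul_one, inv_mul_cancel₀ hs₁]
      · rw [if_neg hjk, mul_zero, mul_zero]
  · rintro k n m ⟨z, l, hz, hl, hld, hlz⟩ ⟨w, b, hw, hb, hbd, hbw⟩
    -- properties of `h k w`
    have hW : ∀ y : G k, Cyc χ G dG k y →
        (∀ L : P k →+ κ, IsF (χ.comp (Polynomial.evalRingHom 0)) L → L (d k (h k y)) = 0) ∧
        ∀ q : G k →+ κ, IsF χ q → (∀ x, q (dG k x) = 0) →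
          q (r k (τ k (d k (h k y)))) = χ s₂ * q y := by
      cases k with
      | zero =>
        intro y _
        refine ⟨fun L hL => ?_, fun q hq hqd => ?_⟩
        · rw [← hg0]
          exact isF_X hL _
        · rw [← hg0, hτX, hrg0, map_add, hqd, add_zero, hq]
      | succ k =>
        intro y hy
        have h1 : d (k + 1) (h (k + 1) y) = (X : C[X]) • g (k + 1) y - h k (dG k y) := by
          rw [hg, add_sub_cancel_right]
        refine ⟨fun L hL => ?_, fun q hq hqd => ?_⟩
        · rw [h1, map_sub, isF_X hL, zero_sub, neg_eq_zero]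
          exact hy (L.comp (h k).toAddMonoidHom) (isF_comp (isF_res hL) (h k))
        · have h2 : q (r (k + 1) (τ (k + 1) (h k (dG k y)))) = 0 :=
            hy (q.comp ((r (k + 1)).comp ((τ (k + 1)).comp (h k))).toAddMonoidHom)
              (isF_comp hq ((r (k + 1)).comp ((τ (k + 1)).comp (h k))))
          have h3 : q (v k (dG k y)) = 0 :=
            hy (q.comp (v k).toAddMonoidHom) (isF_comp hq (v k))
          rw [h1, map_sub, hτX, map_sub, map_sub, h2, sub_zero, hrg, map_add, map_add, hqd,
            h3, zero_add, add_zero, hq]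
    -- the functionals from G
    have hB : ∀ j, ∃ b' : P (k + 1) →+ κ, ∀ x, b' x = b j (r k (τ k (d k (σ (k + 1) x)))) := by
      intro j
      exact ⟨(b j).comp ((r k).toAddMonoidHom.comp ((τ k).toAddMonoidHom.comp
        ((d k).toAddMonoidHom.comp (σ (k + 1)).toAddMonoidHom))), fun x => rfl⟩
    choose b' hb' using hB
    have hbb : ∀ j x, b' j x = b j (r k (τ k (d k x))) := by
      intro j x
      have h1 : d k x = d k (σ (k + 1) x) + (X : C[X]) • d k (τ (k + 1) x) := by
        conv_lhs => rw [hστ (k + 1) x]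
        rw [map_add, map_smul]
      have h2 : b j (r k (d k (τ (k + 1) x))) = 0 := by
        rw [← hr, hbd]
      rw [hb', h1, map_add, hτX, map_add, map_add, h2, add_zero]
    refine cert_comb (χ.comp (Polynomial.evalRingHom 0)) P d (k + 1) n m (fun j => f (k + 1) (z j))
      (fun j => h k (w j)) (fun j => (l j).comp (p (k + 1)).toAddMonoidHom) b' (χ s₁) (χ s₂)
      hs₁ hs₂ ?_ ?_ ?_ ?_ ?_ ?_ ?_ ?_ ?_
    · intro j L hL
      show L (d k (f (k + 1) (z j))) = 0
      rw [hf]
      exact hz j (L.comp (f k).toAddMonoidHom) (isF_comp (isF_res hL) (f k))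
    · intro j L hL
      exact (hW (w j) (hw j)).1 L hL
    · intro j
      exact hpF (k + 1) (l j) (hl j)
    · intro j
      refine isF_mk ?_ ?_
      · intro c x
        rw [hb', hb', map_smul, hdC, map_smul, map_smul, hb]
      · intro x
        rw [hb', hσX, map_zero, map_zero, map_zero, map_zero]
    · intro j x
      show l j (p (k + 1) (d (k + 1) x)) = 0
      rw [← hp, hld]
    · intro j x
      rw [hbb, hdd, map_zero, map_zero, map_zero]
    · intro j t
      show l j (p (k + 1) (f (k + 1) (z t))) = _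
      have h1 : l j (u k (dF k (z t))) = 0 :=
        hz t ((l j).comp (u k).toAddMonoidHom) (isF_comp (hl j) (u k))
      rw [hpf, map_add, map_add, hld, h1, zero_add, add_zero, hl, hlz]
      by_cases hjk : j = t
      · rw [if_pos hjk, if_pos hjk, mul_one]
      · rw [if_neg hjk, if_neg hjk, mul_zero]
    · intro j t
      rw [hbb, hf]
      exact hz t ((b j).comp ((r k).comp ((τ k).comp (f k))).toAddMonoidHom)
        (isF_comp (hb j) ((r k).comp ((τ k).comp (f k))))
    · intro j t
      rw [hbb, (hW (w t) (hw t)).2 (b j) (hb j) (hbd j), hbw]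
      by_cases hjk : j = t
      · rw [if_pos hjk, if_pos hjk, mul_one]
      · rw [if_neg hjk, if_neg hjk, mul_zero]

end Pool.Agent.W822.BECORE
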