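import Mathlib

/-!
First-passage percolation on the square lattice: definitions.
-/

set_option autoImplicit false

open MeasureTheory ProbabilityTheory Filter Topology

namespace Pool.Agent.W822.FPP

/-- The vertices of the square lattice. -/
abbrev V := ℤ × ℤ

/-- The square lattice `ℤ²`: two vertices are joined by an edge when their `ℓ¹` distance is one. -/
def lat : SimpleGraph V where
  Adj u v := |u.1 - v.1| + |u.2 - v.2| = 1
  symm := ⟨fun u v h => by rw [abs_sub_comm v.1, abs_sub_comm v.2]; exact h⟩
  loopless := ⟨fun u h => by simp at h⟩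

/-- Families of edge weights, one real number for each nearest-neighbour edge. -/
abbrev Weights := lat.edgeSet → ℝ

/-- The passage time `T(r)` of a lattice path `r`: the sum of the weights of its edges. -/
def pathTime (τ : Weights) {u v : V} (r : lat.Walk u v) : ℝ :=
  (r.darts.map fun b => τ ⟨b.edge, b.edge_mem⟩).sum

/-- The first-passage time `T(u,v)`: the infimum of `T(r)` over all lattice paths `r` from `u`
to `v`. -/
noncomputable def passage (τ : Weights) (u v : V) : ℝ := ⨅ r : lat.Walk u v, pathTime τ r

/-- The joint law of i.i.d. edge weights with common law `F`. -/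
noncomputable def law (F : Measure ℝ) : Measure Weights := Measure.infinitePi fun _ => F

/-- Coordinatewise integer part. -/
noncomputable def flo (x : ℝ × ℝ) : V := (⌊x.1⌋, ⌊x.2⌋)

/-- A nearest lattice point (a coordinate equal to a half-integer is rounded up). -/
noncomputable def rnd (x : ℝ × ℝ) : V := (round x.1, round x.2)

/-- The variance fluctuation exponent in the direction `x`: the infimum (in the extended reals) of
the real `κ` with `limsup n ^ (-2κ) Var T(0, n x) < ∞`; here `n x` is replaced by its
coordinatewise integer part. -/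
noncomputable def chiVar (F : Measure ℝ) (x : ℝ × ℝ) : EReal :=
  sInf {c : EReal | ∃ κ : ℝ, c = κ ∧
    limsup (fun n : ℕ => (((n : ℝ) ^ (-(2 * κ)) *
      Var[fun τ => passage τ 0 (flo ((n : ℝ) • x)); law F] : ℝ) : EReal)) atTop < ⊤}

/-- `μ` is the time constant in the direction `x`: almost surely `T(0, n x) / n → μ` as the real
number `n` tends to infinity; here `n x` is replaced by the nearest lattice point. -/
def IsTimeConstant (F : Measure ℝ) (x : ℝ × ℝ) (μ : ℝ) : Prop :=
  ∀ᵐ τ ∂(law F), Tendsto (fun n : ℝ => passage τ 0 (rnd (n • x)) / n) atTop (𝓝 μ)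

/-- The almost-sure longitudinal fluctuation exponent in the direction `x` with time constant `μ`:
the infimum (in the extended reals) of the real `κ` such that, almost surely, for all large `t`:
`T(0, n x) ≤ t` whenever `0 ≤ n ≤ (t - t ^ κ) / μ`, and `T(0, n x) ≥ t` whenever
`n ≥ (t + t ^ κ) / μ`, `n ≥ 0`. -/
noncomputable def chiLong (F : Measure ℝ) (x : ℝ × ℝ) (μ : ℝ) : EReal :=
  sInf {c : EReal | ∃ κ : ℝ, c = κ ∧ ∀ᵐ τ ∂(law F), ∀ᶠ t : ℝ in atTop, ∀ n : ℝ, 0 ≤ n →
    (n ≤ μ⁻¹ * (t - t ^ κ) → passage τ 0 (rnd (n • x)) ≤ t) ∧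
    (μ⁻¹ * (t + t ^ κ) ≤ n → t ≤ passage τ 0 (rnd (n • x)))}

end Pool.Agent.W822.FPP
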