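import Pool.Agent.W822.Prob
import Pool.Agent.W822.Defs

/-!
First passage percolation on the square lattice with weights in `{1, 1 + a}`.
-/

set_option autoImplicit false

open MeasureTheory ProbabilityTheory Filter Topology
open scoped ENNReal NNReal

namespace Pool.Agent.W822.FPP

/-- the `ℓ¹` norm -/
def nrm (v : V) : ℤ := |v.1| + |v.2|

lemma nrm_nonneg (v : V) : 0 ≤ nrm v := add_nonneg (abs_nonneg _) (abs_nonneg _)
@[simp] lemma nrm_zero : nrm 0 = 0 := by simp [nrm]
lemma nrm_neg (v : V) : nrm (-v) = nrm v := by simp [nrm]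
lemma nrm_add_le (u v : V) : nrm (u + v) ≤ nrm u + nrm v := by
  have h1 := abs_add_le u.1 v.1
  have h2 := abs_add_le u.2 v.2
  simp only [nrm, Prod.fst_add, Prod.snd_add]
  linarith
lemma nrm_sub_comm (u v : V) : nrm (u - v) = nrm (v - u) := by rw [← nrm_neg, neg_sub]
lemma nrm_tri (u v w : V) : nrm (u - w) ≤ nrm (u - v) + nrm (v - w) := by
  have := nrm_add_le (u - v) (v - w)
  rwa [sub_add_sub_cancel] at this
lemma eq_of_nrm {u v : V} (h : nrm (u - v) = 0) : u = v := by
  simp only [nrm, Prod.fst_sub, Prod.snd_sub] at h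
  have h1 := abs_nonneg (u.1 - v.1)
  have h2 := abs_nonneg (u.2 - v.2)
  have h3 : |u.1 - v.1| = 0 := by linarith
  have h4 : |u.2 - v.2| = 0 := by linarith
  rw [abs_eq_zero, sub_eq_zero] at h3 h4
  exact Prod.ext h3 h4

lemma adj_iff {u v : V} : lat.Adj u v ↔ nrm (u - v) = 1 := Iff.rfl

/-- there are walks of minimal length -/
lemma exists_walk_len (u v : V) : ∃ p : lat.Walk u v, (p.length : ℤ) = nrm (v - u) := by
  obtain ⟨n, hn⟩ : ∃ n : ℕ, nrm (v - u) = n := ⟨(nrm (v - u)).toNat, by
    rw [Int.toNat_of_nonneg (nrm_nonneg _)]⟩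
  induction n generalizing u with
  | zero =>
    have : v = u := eq_of_nrm (by simpa using hn)
    subst this
    exact ⟨SimpleGraph.Walk.nil, by simp⟩
  | succ n ih =>
    have key : ∃ u' : V, lat.Adj u u' ∧ nrm (v - u') = n := by
      rcases lt_trichotomy u.1 v.1 with h | h | h
      · refine ⟨(u.1 + 1, u.2), by simp [lat], ?_⟩
        simp only [nrm, Prod.fst_sub, Prod.snd_sub] at hn ⊢
        rw [abs_of_nonneg (by omega)] at hn ⊢
        push_cast at hn; omega
      · rcases lt_trichotomy u.2 v.2 with h' | h' | h'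
        · refine ⟨(u.1, u.2 + 1), by simp [lat], ?_⟩
          simp only [nrm, Prod.fst_sub, Prod.snd_sub] at hn ⊢
          rw [abs_of_nonneg (a := v.2 - u.2) (by omega)] at hn
          rw [abs_of_nonneg (a := v.2 - (u.2 + 1)) (by omega)]
          push_cast at hn; omega
        · exfalso
          have : v = u := Prod.ext h.symm h'.symm
          subst this
          simp at hn
          omega
        · refine ⟨(u.1, u.2 - 1), by simp [lat], ?_⟩
          simp only [nrm, Prod.fst_sub, Prod.snd_sub] at hn ⊢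
          rw [abs_of_nonpos (a := v.2 - u.2) (by omega)] at hn
          rw [abs_of_nonpos (a := v.2 - (u.2 - 1)) (by omega)]
          push_cast at hn; omega
      · refine ⟨(u.1 - 1, u.2), by simp [lat], ?_⟩
        simp only [nrm, Prod.fst_sub, Prod.snd_sub] at hn ⊢
        rw [abs_of_nonpos (a := v.1 - u.1) (by omega)] at hn
        rw [abs_of_nonpos (a := v.1 - (u.1 - 1)) (by omega)]
        push_cast at hn; omega
    obtain ⟨u', hadj, hu'⟩ := key
    obtain ⟨p, hp⟩ := ih u' hu'
    refine ⟨SimpleGraph.Walk.cons hadj p, ?_⟩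
    rw [SimpleGraph.Walk.length_cons, hn]
    push_cast
    rw [hp, hu']

lemma nrm_le_length {u v : V} (p : lat.Walk u v) : nrm (v - u) ≤ p.length := by
  induction p with
  | nil => simp
  | @cons u w v h p ih =>
    rw [SimpleGraph.Walk.length_cons]
    have h1 := nrm_tri v w u
    have h2 : nrm (w - u) = 1 := by rw [nrm_sub_comm]; exact h
    push_cast
    linarith

lemma nrm_le_of_mem {u v w : V} (p : lat.Walk u v) (hw : w ∈ p.support) :
    nrm (w - u) ≤ p.length := by
  classical
  have h1 := nrm_le_length (p.takeUntil w hw)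
  have h2 := p.length_takeUntil_le_length hw
  have : ((p.takeUntil w hw).length : ℤ) ≤ p.length := by exact_mod_cast h2
  linarith

/-- configurations: `true` means a high edge -/
abbrev Om := Sym2 V → Bool

/-- passage time of a walk -/
def cost (a : ℝ) (ω : Om) {u v : V} (p : lat.Walk u v) : ℝ :=
  (p.edges.map (fun e => 1 + a * ind ω e)).sum

/-- number of high edges of a walk -/
def hic (ω : Om) {u v : V} (p : lat.Walk u v) : ℕ := p.edges.countP (fun e => ω e)

lemma cost_eq (a : ℝ) (ω : Om) {u v : V} (p : lat.Walk u v) :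
    cost a ω p = p.length + a * hic ω p := by
  unfold cost hic
  rw [← p.length_edges]
  induction p.edges with
  | nil => simp
  | cons e l ih =>
    rw [List.map_cons, List.sum_cons, ih, List.length_cons, List.countP_cons]
    unfold ind
    split_ifs <;> push_cast <;> ring

lemma hic_le {ω : Om} {u v : V} (p : lat.Walk u v) : hic ω p ≤ p.length := by
  unfold hic
  rw [← p.length_edges]
  exact List.countP_le_length

variable {a : ℝ}

lemma length_le_cost (ha : 0 ≤ a) (ω : Om) {u v : V} (p : lat.Walk u v) :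
    (p.length : ℝ) ≤ cost a ω p := by
  rw [cost_eq]
  have : 0 ≤ a * hic ω p := mul_nonneg ha (Nat.cast_nonneg _)
  linarith

lemma cost_le_length (ha : 0 ≤ a) (ω : Om) {u v : V} (p : lat.Walk u v) :
    cost a ω p ≤ (1 + a) * p.length := by
  rw [cost_eq]
  have : (hic ω p : ℝ) ≤ p.length := by exact_mod_cast hic_le p
  nlinarith

lemma cost_nonneg (ha : 0 ≤ a) (ω : Om) {u v : V} (p : lat.Walk u v) : 0 ≤ cost a ω p :=
  (Nat.cast_nonneg _).trans (length_le_cost ha ω p)

lemma cost_append (ω : Om) {u v w : V} (p : lat.Walk u v) (p' : lat.Walk v w) :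
    cost a ω (p.append p') = cost a ω p + cost a ω p' := by
  simp [cost, SimpleGraph.Walk.edges_append]

lemma cost_reverse (ω : Om) {u v : V} (p : lat.Walk u v) : cost a ω p.reverse = cost a ω p := by
  simp [cost, SimpleGraph.Walk.edges_reverse, List.sum_reverse]

/-- the passage time -/
noncomputable def T (a : ℝ) (ω : Om) (u v : V) : ℝ := ⨅ p : lat.Walk u v, cost a ω p

instance (u v : V) : Nonempty (lat.Walk u v) := ⟨(exists_walk_len u v).choose⟩

lemma bddBelow_cost (ha : 0 ≤ a) (ω : Om) (u v : V) :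
    BddBelow (Set.range fun p : lat.Walk u v => cost a ω p) := by
  refine ⟨0, ?_⟩
  rintro _ ⟨p, rfl⟩
  exact cost_nonneg ha ω p

lemma T_le_cost (ha : 0 ≤ a) (ω : Om) {u v : V} (p : lat.Walk u v) : T a ω u v ≤ cost a ω p :=
  ciInf_le (bddBelow_cost ha ω u v) p

lemma exists_min (ha : 0 ≤ a) (ω : Om) (u v : V) :
    ∃ p : lat.Walk u v, cost a ω p = T a ω u v := by
  obtain ⟨p₀⟩ : Nonempty (lat.Walk u v) := inferInstance
  set N := ⌈cost a ω p₀⌉₊ with hN
  set C : Set ℝ := {c | ∃ p : lat.Walk u v, cost a ω p = c ∧ c ≤ cost a ω p₀} with hC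
  have hfin : C.Finite := by
    have h1 : C ⊆ (fun z : ℕ × ℕ => (z.1 : ℝ) + a * z.2) ''
        ((Finset.range (N + 1) ×ˢ Finset.range (N + 1) : Finset (ℕ × ℕ)) : Set (ℕ × ℕ)) := by
      rintro c ⟨p, hp, hc⟩
      refine ⟨(p.length, hic ω p), ?_, ?_⟩
      · have h2 : (p.length : ℝ) ≤ cost a ω p₀ := (length_le_cost ha ω p).trans (hp.le.trans hc)
        have h3 : p.length ≤ N := by
          rw [hN]
          exact_mod_cast h2.trans (Nat.le_ceil _)
        have h4 := hic_le (ω := ω) p
        simp only [Finset.coe_product, Finset.coe_range, Set.mem_prod, Set.mem_Iio]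
        omega
      · simp only
        rw [← hp, cost_eq]
    exact (Set.Finite.image _ (Finset.finite_toSet _)).subset h1
  have hne : C.Nonempty := ⟨_, p₀, rfl, le_rfl⟩
  obtain ⟨c, ⟨p, hp, hc⟩, hmin⟩ := Set.exists_min_image C id hfin hne
  refine ⟨p, le_antisymm ?_ (T_le_cost ha ω p)⟩
  apply le_ciInf
  intro p'
  rcases le_total (cost a ω p') (cost a ω p₀) with h | h
  · have := hmin _ ⟨p', rfl, h⟩
    simp only [id] at this
    rw [hp]; exact this
  · rw [hp]; exact hc.trans h

lemma exists_geo (ha : 0 ≤ a) (ω : Om) (u v : V) :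
    ∃ p : lat.Walk u v, cost a ω p = T a ω u v ∧ p.IsPath := by
  classical
  obtain ⟨p, hp⟩ := exists_min ha ω u v
  refine ⟨p.bypass, le_antisymm ?_ (T_le_cost ha ω _), p.bypass_isPath⟩
  rw [← hp]
  unfold cost
  apply List.Sublist.sum_le_sum (p.edges_bypass_sublist_edges.map _)
  intro x hx
  rw [List.mem_map] at hx
  obtain ⟨e, _, rfl⟩ := hx
  have := mul_nonneg ha (ind_nonneg ω e)
  linarith

lemma nrm_le_T (ha : 0 ≤ a) (ω : Om) (u v : V) : (nrm (v - u) : ℝ) ≤ T a ω u v := by
  obtain ⟨p, hp⟩ := exists_min ha ω u v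
  rw [← hp]
  have h1 : (nrm (v - u) : ℝ) ≤ ((p.length : ℤ) : ℝ) := by exact_mod_cast nrm_le_length p
  exact h1.trans (by exact_mod_cast length_le_cost ha ω p)

lemma T_le (ha : 0 ≤ a) (ω : Om) (u v : V) : T a ω u v ≤ (1 + a) * nrm (v - u) := by
  obtain ⟨p, hp⟩ := exists_walk_len u v
  refine (T_le_cost ha ω p).trans ((cost_le_length ha ω p).trans (le_of_eq ?_))
  rw [← hp]
  simp

lemma T_nonneg (ha : 0 ≤ a) (ω : Om) (u v : V) : 0 ≤ T a ω u v :=
  le_trans (by exact_mod_cast nrm_nonneg _) (nrm_le_T ha ω u v)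

lemma T_tri (ha : 0 ≤ a) (ω : Om) (u v w : V) : T a ω u w ≤ T a ω u v + T a ω v w := by
  obtain ⟨p, hp⟩ := exists_min ha ω u v
  obtain ⟨p', hp'⟩ := exists_min ha ω v w
  rw [← hp, ← hp', ← cost_append]
  exact T_le_cost ha ω _

lemma T_symm (ha : 0 ≤ a) (ω : Om) (u v : V) : T a ω u v = T a ω v u := by
  have h : ∀ u v : V, T a ω u v ≤ T a ω v u := by
    intro u v
    obtain ⟨p, hp⟩ := exists_min ha ω v u
    rw [← hp, ← cost_reverse]
    exact T_le_cost ha ω _
  exact le_antisymm (h u v) (h v u)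

@[simp] lemma T_self (ha : 0 ≤ a) (ω : Om) (u : V) : T a ω u u = 0 := by
  apply le_antisymm _ (T_nonneg ha ω u u)
  simpa using T_le ha ω u u

lemma T_lip (ha : 0 ≤ a) (ω : Om) (u v w : V) :
    |T a ω u v - T a ω u w| ≤ (1 + a) * nrm (v - w) := by
  have h1 := T_tri ha ω u v w
  have h2 := T_tri ha ω u w v
  have h3 := T_le ha ω v w
  have h4 := T_le ha ω w v
  rw [nrm_sub_comm w v] at h3
  rw [abs_le]
  constructor <;> linarith

/-- a geodesic -/
def Geo (a : ℝ) (ω : Om) {u v : V} (p : lat.Walk u v) : Prop := cost a ω p = T a ω u v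

lemma Geo.split (ha : 0 ≤ a) {ω : Om} {u v w : V} {p : lat.Walk u v} (hp : Geo a ω p)
    (hw : w ∈ p.support) : T a ω u v = T a ω u w + T a ω w v := by
  classical
  apply le_antisymm (T_tri ha ω u w v)
  have h1 : cost a ω p = cost a ω (p.takeUntil w hw) + cost a ω (p.dropUntil w hw) := by
    rw [← cost_append, p.take_spec hw]
  have h2 := T_le_cost ha ω (p.takeUntil w hw)
  have h3 := T_le_cost ha ω (p.dropUntil w hw)
  have h4 : cost a ω p = T a ω u v := hp
  linarith

lemma Geo.length_le (ha : 0 ≤ a) {ω : Om} {u v : V} {p : lat.Walk u v} (hp : Geo a ω p) :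
    (p.length : ℝ) ≤ (1 + a) * nrm (v - u) := by
  have h1 := length_le_cost ha ω p
  have h2 : cost a ω p = T a ω u v := hp
  have h3 := T_le ha ω u v
  linarith

/-- the box of radius `R` around `u` -/
noncomputable def ball (u : V) (R : ℕ) : Finset V :=
  Finset.Icc (u.1 - R) (u.1 + R) ×ˢ Finset.Icc (u.2 - R) (u.2 + R)

lemma mem_ball {u v : V} {R : ℕ} (h : nrm (v - u) ≤ R) : v ∈ ball u R := by
  simp only [nrm, Prod.fst_sub, Prod.snd_sub] at h
  have h1 := abs_nonneg (v.1 - u.1)
  have h2 := abs_nonneg (v.2 - u.2)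
  have h3 : |v.1 - u.1| ≤ R := by linarith
  have h4 : |v.2 - u.2| ≤ R := by linarith
  rw [abs_le] at h3 h4
  simp only [ball, Finset.mem_product, Finset.mem_Icc]
  omega

/-- the edges of the box -/
noncomputable def ballE (u : V) (R : ℕ) : Finset (Sym2 V) := (ball u R).sym2

lemma edges_mem_ballE {u v : V} (p : lat.Walk u v) {R : ℕ} (h : p.length ≤ R) {e : Sym2 V}
    (he : e ∈ p.edges) : e ∈ ballE u R := by
  rw [ballE, Finset.mem_sym2_iff]
  intro w hw
  apply mem_ball
  have h1 : w ∈ p.support := SimpleGraph.Walk.mem_support_of_mem_edges he hw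
  have h2 := nrm_le_of_mem p h1
  have h3 : (p.length : ℤ) ≤ R := by exact_mod_cast h
  linarith

lemma cost_congr {ω ω' : Om} {u v : V} (p : lat.Walk u v) (h : ∀ e ∈ p.edges, ω e = ω' e) :
    cost a ω p = cost a ω' p := by
  unfold cost
  congr 1
  apply List.map_congr_left
  intro e he
  simp [ind, h e he]

/-- the radius of the box seen by `T` -/
noncomputable def rad (a : ℝ) (u v : V) : ℕ := ⌈(1 + a) * nrm (v - u)⌉₊

lemma Geo.length_le_rad (ha : 0 ≤ a) {ω : Om} {u v : V} {p : lat.Walk u v} (hp : Geo a ω p) :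
    p.length ≤ rad a u v := by
  have h1 := hp.length_le ha
  have h2 := h1.trans (Nat.le_ceil _)
  exact_mod_cast h2

lemma dep_T (ha : 0 ≤ a) (u v : V) : Dep (ballE u (rad a u v)) (fun ω => T a ω u v) := by
  have h : ∀ ω ω' : Om, (∀ e ∈ ballE u (rad a u v), ω e = ω' e) → T a ω' u v ≤ T a ω u v := by
    intro ω ω' hω
    obtain ⟨p, hp⟩ := exists_min ha ω u v
    have hg : Geo a ω p := hp
    have h1 : cost a ω p = cost a ω' p :=
      cost_congr p fun e he => hω e (edges_mem_ballE p (hg.length_le_rad ha) he)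
    rw [← hp, h1]
    exact T_le_cost ha ω' p
  intro ω ω' hω
  exact le_antisymm (h ω' ω fun e he => (hω e he).symm) (h ω ω' hω)

/-! ### changing one edge -/

lemma cost_mono (ha : 0 ≤ a) {ω ω' : Om} (h : ∀ e, ind ω e ≤ ind ω' e) {u v : V}
    (p : lat.Walk u v) : cost a ω p ≤ cost a ω' p := by
  unfold cost
  apply List.sum_le_sum
  intro e _
  have := mul_le_mul_of_nonneg_left (h e) ha
  linarith

lemma T_mono (ha : 0 ≤ a) {ω ω' : Om} (h : ∀ e, ind ω e ≤ ind ω' e) (u v : V) :
    T a ω u v ≤ T a ω' u v := by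
  obtain ⟨p, hp⟩ := exists_min ha ω' u v
  rw [← hp]
  exact (T_le_cost ha ω p).trans (cost_mono ha h p)

lemma ind_dn_le (e : Sym2 V) (ω : Om) (f : Sym2 V) : ind (dn e ω) f ≤ ind ω f := by
  by_cases h : f = e
  · subst h; rw [ind_dn]; exact ind_nonneg _ _
  · rw [ind_dn_ne h]

lemma ind_le_up (e : Sym2 V) (ω : Om) (f : Sym2 V) : ind ω f ≤ ind (up e ω) f := by
  by_cases h : f = e
  · subst h; rw [ind_up]; exact ind_le_one _ _
  · rw [ind_up_ne h]

lemma cost_up_of_notMem {e : Sym2 V} {ω : Om} {u v : V} (p : lat.Walk u v) (he : e ∉ p.edges) :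
    cost a (up e ω) p = cost a ω p :=
  cost_congr p fun f hf => up_ne (by rintro rfl; exact he hf) ω

/-- change of a sum over a duplicate free list when one coordinate changes -/
lemma sum_change {e : Sym2 V} {ω ω' : Om} (h : ∀ f, f ≠ e → ω f = ω' f) :
    ∀ l : List (Sym2 V), l.Nodup → e ∈ l →
    (l.map (fun e => 1 + a * ind ω' e)).sum =
      (l.map (fun e => 1 + a * ind ω e)).sum + a * (ind ω' e - ind ω e) := by
  intro l
  induction l with
  | nil => intro _ h; simp at h
  | cons f l ih =>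
    intro hn he
    rw [List.nodup_cons] at hn
    rw [List.map_cons, List.map_cons, List.sum_cons, List.sum_cons]
    rcases List.mem_cons.1 he with h1 | h1
    · subst h1
      have h2 : l.map (fun e => 1 + a * ind ω' e) = l.map (fun e => 1 + a * ind ω e) := by
        apply List.map_congr_left
        intro g hg
        have : g ≠ e := by rintro rfl; exact hn.1 hg
        simp [ind, h g this]
      rw [h2]
      ring
    · have h2 : f ≠ e := by rintro rfl; exact hn.1 h1
      rw [ih hn.2 h1]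
      have h3 : ind ω' f = ind ω f := by simp [ind, h f h2]
      rw [h3]
      ring

lemma T_up_le (ha : 0 ≤ a) {e : Sym2 V} {ω : Om} (he : ω e = false) {u v : V}
    {p : lat.Walk u v} (hp : Geo a ω p) (hP : p.IsPath) :
    T a (up e ω) u v ≤ T a ω u v + (if e ∈ p.edges then a else 0) := by
  have hp' : cost a ω p = T a ω u v := hp
  rw [← hp']
  split_ifs with h
  · refine (T_le_cost ha _ p).trans (le_of_eq ?_)
    unfold cost
    rw [sum_change (ω := ω) (ω' := up e ω) (e := e) (fun f hf => (up_ne hf ω).symm) _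
      hP.isTrail.edges_nodup h, ind_up]
    simp [ind, he]
  · rw [add_zero, ← cost_up_of_notMem p h (ω := ω)]
    exact T_le_cost ha _ p

lemma T_dn_le (ha : 0 ≤ a) {e : Sym2 V} {ω : Om} (he : ω e = true) {u v : V}
    {p : lat.Walk u v} (hp : Geo a ω p) (hP : p.IsPath) (h : e ∈ p.edges) :
    T a (dn e ω) u v ≤ T a ω u v - a := by
  have hp' : cost a ω p = T a ω u v := hp
  rw [← hp']
  refine (T_le_cost ha _ p).trans (le_of_eq ?_)
  unfold cost
  rw [sum_change (ω := ω) (ω' := dn e ω) (e := e) (fun f hf => (dn_ne hf ω).symm) _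
    hP.isTrail.edges_nodup h, ind_dn]
  simp [ind, he]
  ring

lemma Dd_T_nonneg (ha : 0 ≤ a) (e : Sym2 V) (u v : V) (ω : Om) :
    0 ≤ Dd e (fun ω => T a ω u v) ω := by
  unfold Dd
  have := T_mono ha (ω := dn e ω) (ω' := up e ω) (fun f =>
    (ind_dn_le e ω f).trans (ind_le_up e ω f)) u v
  linarith

lemma Dd_T_le (ha : 0 ≤ a) (e : Sym2 V) (u v : V) (ω : Om) :
    Dd e (fun ω => T a ω u v) ω ≤ a := by
  unfold Dd
  obtain ⟨p, hp, hP⟩ := exists_geo ha (dn e ω) u v
  have h := T_up_le ha (e := e) (ω := dn e ω) (dn_self e ω) hp hP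
  rw [up_dn_self] at h
  have : (if e ∈ p.edges then a else 0) ≤ a := by split_ifs <;> linarith
  linarith

lemma sum_low_Dd (ha : 0 ≤ a) (B : Finset (Sym2 V)) (u v : V) (ω : Om) :
    ∑ e ∈ B, (1 - ind ω e) * Dd e (fun ω => T a ω u v) ω ≤ a * ((1 + a) * nrm (v - u)) := by
  classical
  obtain ⟨p, hp, hP⟩ := exists_geo ha ω u v
  have h1 : ∀ e ∈ B, (1 - ind ω e) * Dd e (fun ω => T a ω u v) ω ≤
      if e ∈ p.edges then a else 0 := by
    intro e _
    by_cases he : ω e = true
    · have : ind ω e = 1 := by simp [ind, he]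
      rw [this, sub_self, zero_mul]
      split_ifs
      · exact ha
      · exact le_rfl
    · have he : ω e = false := by simpa using he
      have h2 : ind ω e = 0 := by simp [ind, he]
      rw [h2, sub_zero, one_mul]
      unfold Dd
      rw [dn_eq he]
      have h := T_up_le ha he hp hP
      linarith
  refine (Finset.sum_le_sum h1).trans ?_
  rw [← Finset.sum_filter, Finset.sum_const, nsmul_eq_mul, mul_comm]
  apply mul_le_mul_of_nonneg_left _ ha
  have h3 : (B.filter (fun e => e ∈ p.edges)).card ≤ p.length := by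
    calc (B.filter (fun e => e ∈ p.edges)).card ≤ p.edges.toFinset.card := by
          apply Finset.card_le_card
          intro e he
          simpa using (Finset.mem_filter.1 he).2
      _ ≤ p.edges.length := List.toFinset_card_le _
      _ = p.length := p.length_edges
  have h4 : ((B.filter (fun e => e ∈ p.edges)).card : ℝ) ≤ p.length := by exact_mod_cast h3
  have hg : Geo a ω p := hp
  exact h4.trans (hg.length_le ha)

/-- the law of the configuration -/
noncomputable abbrev P : Measure Om := PP (Sym2 V)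

/-- the mean passage time from `0` to `x` -/
noncomputable def h (a : ℝ) (x : V) : ℝ := ∫ ω, T a ω 0 x ∂P

/-- linear bound on the variance -/
theorem var_le (ha : 0 ≤ a) (u v : V) :
    ∫ ω, T a ω u v ^ 2 ∂P - (∫ ω, T a ω u v ∂P) ^ 2 ≤ a ^ 2 * (1 + a) * nrm (v - u) := by
  classical
  have hd := dep_T ha u v
  set B := ballE u (rad a u v) with hB
  have h1 := efron B hd
  have h2 : ∀ e ∈ B, ∫ ω, Dd e (fun ω => T a ω u v) ω ^ 2 ∂P ≤
      a * ∫ ω, Dd e (fun ω => T a ω u v) ω ∂P := by
    intro e _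
    rw [← integral_const_mul]
    apply integral_mono ((hd.Dd e).comp (fun x => x ^ 2)).integrable
      ((hd.Dd e).comp (fun x => a * x)).integrable
    intro ω
    have e1 := Dd_T_nonneg ha e u v ω
    have e2 := Dd_T_le ha e u v ω
    simp only
    nlinarith
  have h3 : ∑ e ∈ B, (1 - q) * ∫ ω, Dd e (fun ω => T a ω u v) ω ∂P ≤
      a * ((1 + a) * nrm (v - u)) := by
    have h4 : ∑ e ∈ B, (1 - q) * ∫ ω, Dd e (fun ω => T a ω u v) ω ∂P =
        ∫ ω, ∑ e ∈ B, (1 - ind ω e) * Dd e (fun ω => T a ω u v) ω ∂P := by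
      rw [integral_finsetSum]
      · exact Finset.sum_congr rfl fun e _ => (int_oneSub_ind_Dd hd e).symm
      · intro e _
        have hi : Dep {e} (fun ω : Om => ind ω e) := by
          intro ω ω' h
          have := h e (by simp)
          simp [ind, this]
        have hF : Dep (B ∪ {e}) (fun ω => (1 - ind ω e) * Dd e (fun ω => T a ω u v) ω) :=
          (hi.mono Finset.subset_union_right).comp₂
            (((hd.Dd e).mono (Finset.erase_subset _ _)).mono Finset.subset_union_left)
            (fun a b => (1 - a) * b)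
        exact hF.integrable
    rw [h4]
    have h5 : ∫ ω, ∑ e ∈ B, (1 - ind ω e) * Dd e (fun ω => T a ω u v) ω ∂P ≤
        ∫ ω : Om, a * ((1 + a) * nrm (v - u)) ∂P := by
      apply integral_mono_of_nonneg
      · refine Filter.Eventually.of_forall fun ω => ?_
        exact Finset.sum_nonneg fun e _ =>
          mul_nonneg (by linarith [ind_le_one ω e]) (Dd_T_nonneg ha e u v ω)
      · exact integrable_const _
      · exact Filter.Eventually.of_forall fun ω => sum_low_Dd ha B u v ω
    simpa using h5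
  have h6 := Finset.sum_le_sum h2
  rw [← Finset.mul_sum] at h6 h3
  set s := ∑ e ∈ B, ∫ ω, Dd e (fun ω => T a ω u v) ω ∂P with hs
  have hs0 : 0 ≤ s := Finset.sum_nonneg fun e _ => integral_nonneg fun ω => Dd_T_nonneg ha e u v ω
  calc _ ≤ q * (1 - q) * ∑ e ∈ B, ∫ ω, Dd e (fun ω => T a ω u v) ω ^ 2 ∂P := h1
    _ ≤ q * (1 - q) * (a * s) := by
        apply mul_le_mul_of_nonneg_left h6 (mul_nonneg q_nonneg one_sub_q_pos.le)
    _ = q * a * ((1 - q) * s) := by ring
    _ ≤ q * a * (a * ((1 + a) * nrm (v - u))) :=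
        mul_le_mul_of_nonneg_left h3 (mul_nonneg q_nonneg ha)
    _ ≤ 1 * a * (a * ((1 + a) * nrm (v - u))) := by
        apply mul_le_mul_of_nonneg_right
        · exact mul_le_mul_of_nonneg_right q_lt_one.le ha
        · have : (0 : ℝ) ≤ nrm (v - u) := by exact_mod_cast nrm_nonneg _
          positivity
    _ = a ^ 2 * (1 + a) * nrm (v - u) := by ring

end Pool.Agent.W822.FPP
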