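import Pool.Agent.W527.CL.Stm

/-! # CL-LINE: the closure of a non-discrete subgroup contains a line -/

set_option autoImplicit false

namespace Pool.Agent.W822.CLLINE

open Filter Topology

theorem t_LINE : Pool.Agent.W527.CL.S_LINE := by
  intro E _ _ _ H hH
  have : ProperSpace E := FiniteDimensional.proper_real E
  have h1 : ∀ k : ℕ, ∃ x ∈ H, x ≠ 0 ∧ ‖x‖ < 1 / ((k : ℝ) + 1) :=
    fun k => hH _ Nat.one_div_pos_of_nat
  choose x hxH hx0 hxn using h1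
  have hnpos : ∀ k, 0 < ‖x k‖ := fun k => norm_pos_iff.2 (hx0 k)
  have hu : ∀ k, (‖x k‖⁻¹ • x k) ∈ Metric.sphere (0 : E) 1 := by
    intro k
    rw [mem_sphere_zero_iff_norm, norm_smul, norm_inv, norm_norm]
    exact inv_mul_cancel₀ (hnpos k).ne'
  obtain ⟨v, hv, φ, hφ, hlim⟩ := (isCompact_sphere (0 : E) 1).tendsto_subseq hu
  have hv1 : ‖v‖ = 1 := by rwa [mem_sphere_zero_iff_norm] at hv
  refine ⟨v, ?_, fun t => ?_⟩
  · intro h
    rw [h, norm_zero] at hv1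
    exact zero_ne_one hv1
  · have hn0 : Tendsto (fun k => ‖x (φ k)‖) atTop (𝓝 0) := by
      have h2 : Tendsto (fun k : ℕ => ‖x k‖) atTop (𝓝 0) :=
        squeeze_zero (fun k => norm_nonneg _) (fun k => (hxn k).le)
          tendsto_one_div_add_atTop_nhds_zero_nat
      exact h2.comp hφ.tendsto_atTop
    have hc : Tendsto (fun k => (⌊t / ‖x (φ k)‖⌋ : ℝ) * ‖x (φ k)‖) atTop (𝓝 t) := by
      rw [tendsto_iff_dist_tendsto_zero]
      refine squeeze_zero (fun k => dist_nonneg) (fun k => ?_) hn0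
      rw [Real.dist_eq]
      have hp := hnpos (φ k)
      have h3 : (⌊t / ‖x (φ k)‖⌋ : ℝ) ≤ t / ‖x (φ k)‖ := Int.floor_le _
      have h4 : t / ‖x (φ k)‖ < ⌊t / ‖x (φ k)‖⌋ + 1 := Int.lt_floor_add_one _
      rw [le_div_iff₀ hp] at h3
      rw [div_lt_iff₀ hp] at h4
      rw [abs_le]
      constructor <;> nlinarith
    have hlim' : Tendsto (fun k => ((⌊t / ‖x (φ k)‖⌋ : ℝ) * ‖x (φ k)‖) •
        (‖x (φ k)‖⁻¹ • x (φ k))) atTop (𝓝 (t • v)) := hc.smul hlim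
    refine mem_closure_of_tendsto hlim' (Eventually.of_forall fun k => ?_)
    have h5 : ((⌊t / ‖x (φ k)‖⌋ : ℝ) * ‖x (φ k)‖) • (‖x (φ k)‖⁻¹ • x (φ k)) =
        (⌊t / ‖x (φ k)‖⌋ : ℤ) • x (φ k) := by
      rw [smul_smul, mul_assoc, mul_inv_cancel₀ (hnpos (φ k)).ne', mul_one, Int.cast_smul_eq_zsmul]
    rw [h5]
    exact H.zsmul_mem (hxH (φ k)) _

end Pool.Agent.W822.CLLINE
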