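import Pool.Agent.W839.Ch.Stubs

/-!
# MP_332c83_pr (S19255), task CH-3 (sparse vectors), part 1: independent bits
-/

set_option autoImplicit false
open scoped Classical
open Finset Filter Topology

namespace Pool.Agent.W822.ChSP

open Pool.Agent.W839.Ch

variable {ι : Type} [Fintype ι] {p : ℝ}

lemma bw_nonneg (hp0 : 0 < p) (hp1 : p < 1) (b : Bool) : 0 ≤ bw p b := by
  unfold bw
  split_ifs <;> linarith

/-- the value of a bit -/
noncomputable def bv (b : Bool) : ℝ := if b then 1 else 0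

lemma EB_prod (f : ι → Bool → ℝ) :
    EB p (fun ω : ι → Bool => ∏ i, f i (ω i)) = ∏ i, ∑ b, bw p b * f i b := by
  unfold EB
  rw [Finset.prod_univ_sum]
  simp only [Fintype.piFinset_univ, Finset.prod_mul_distrib]

lemma EB_one : EB p (fun _ : ι → Bool => (1 : ℝ)) = 1 := by
  have h := EB_prod (p := p) (fun (_ : ι) (_ : Bool) => (1 : ℝ))
  simp only [prod_const_one] at h
  rw [h]
  simp [bw]

lemma EB_coord (i : ι) (φ : Bool → ℝ) :
    EB p (fun ω : ι → Bool => φ (ω i)) = p * φ true + (1 - p) * φ false := by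
  have h := EB_prod (p := p) (fun (j : ι) (b : Bool) => if j = i then φ b else 1)
  have e1 : (fun ω : ι → Bool => ∏ j, (if j = i then φ (ω j) else 1)) = fun ω : ι → Bool => φ (ω i) := by
    funext ω
    rw [prod_ite_eq' univ i (fun j => φ (ω j))]
    simp
  rw [e1] at h
  rw [h]
  have e2 : ∀ j : ι, ∑ b, bw p b * (if j = i then φ b else 1) =
      if j = i then p * φ true + (1 - p) * φ false else 1 := by
    intro j
    split_ifs <;> simp [bw]
  simp only [e2]
  rw [prod_ite_eq' univ i (fun _ => p * φ true + (1 - p) * φ false)]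
  simp

lemma EB_add (F G : (ι → Bool) → ℝ) : EB p (fun ω => F ω + G ω) = EB p F + EB p G := by
  unfold EB
  rw [← sum_add_distrib]
  exact sum_congr rfl fun ω _ => by ring

lemma EB_smul (c : ℝ) (F : (ι → Bool) → ℝ) : EB p (fun ω => c * F ω) = c * EB p F := by
  unfold EB
  rw [mul_sum]
  exact sum_congr rfl fun ω _ => by ring

lemma EB_mono (hp0 : 0 < p) (hp1 : p < 1) {F G : (ι → Bool) → ℝ} (h : ∀ ω, F ω ≤ G ω) :
    EB p F ≤ EB p G := by
  unfold EB
  exact sum_le_sum fun ω _ => mul_le_mul_of_nonneg_left (h ω)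
    (prod_nonneg fun i _ => bw_nonneg hp0 hp1 _)

lemma EB_nonneg (hp0 : 0 < p) (hp1 : p < 1) {F : (ι → Bool) → ℝ} (h : ∀ ω, 0 ≤ F ω) : 0 ≤ EB p F := by
  unfold EB
  exact sum_nonneg fun ω _ => mul_nonneg (prod_nonneg fun i _ => bw_nonneg hp0 hp1 _) (h ω)

/-- independence of two functions of disjoint sets of bits -/
lemma EB_mul (hBLK : S_BLK) (B : ι → Prop) (F G : (ι → Bool) → ℝ)
    (hF : ∀ ω ω', (∀ i, B i → ω i = ω' i) → F ω = F ω')
    (hG : ∀ ω ω', (∀ i, ¬ B i → ω i = ω' i) → G ω = G ω') :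
    EB p (fun ω => F ω * G ω) = EB p F * EB p G := by
  have h := hBLK ι Bool p (fun i => some (decide (B i))) (fun b => if b then F else G) (by
    intro b ω ω' hω
    cases b
    · apply hG
      intro i hi
      apply hω
      simp [hi]
    · apply hF
      intro i hi
      apply hω
      simp [hi])
  simpa [Fintype.prod_bool] using h

/-- linear function of the centred bits in `S` -/
noncomputable def XS (p : ℝ) (c : ι → ℝ) (S : Finset ι) (ω : ι → Bool) : ℝ := ∑ i ∈ S, c i * (bv (ω i) - p)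

lemma XS_insert (c : ι → ℝ) {S : Finset ι} {i : ι} (hi : i ∉ S) (ω : ι → Bool) :
    XS p c (insert i S) ω = XS p c S ω + c i * (bv (ω i) - p) := by
  unfold XS
  rw [sum_insert hi, add_comm]

lemma XS_mix (hBLK : S_BLK) (c : ι → ℝ) {S : Finset ι} {i : ι} (hi : i ∉ S) (a b : ℕ) :
    EB p (fun ω => XS p c S ω ^ a * (bv (ω i) - p) ^ b) =
      EB p (fun ω => XS p c S ω ^ a) * (p * (1 - p) ^ b + (1 - p) * (-p) ^ b) := by
  rw [EB_mul hBLK (fun j => j ≠ i)]
  · congr 1
    rw [EB_coord i (fun x => (bv x - p) ^ b)]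
    simp [bv]
  · intro ω ω' h
    have : XS p c S ω = XS p c S ω' := by
      unfold XS
      apply sum_congr rfl
      intro j hj
      rw [h j (by rintro rfl; exact hi hj)]
    rw [this]
  · intro ω ω' h
    rw [h i (by simp)]

lemma mom (hBLK : S_BLK) (hp0 : 0 < p) (hp1 : p < 1) (c : ι → ℝ) (S : Finset ι) :
    EB p (fun ω => XS p c S ω ^ 1) = 0 ∧ EB p (fun ω => XS p c S ω ^ 2) = p * (1 - p) * ∑ i ∈ S, c i ^ 2 ∧
      EB p (fun ω => XS p c S ω ^ 4) ≤ 3 * (∑ i ∈ S, c i ^ 2) ^ 2 := by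
  induction S using Finset.induction_on with
  | empty =>
    have h0 : EB p (fun _ : ι → Bool => (0 : ℝ)) = 0 := by
      unfold EB; simp
    simp [XS, h0]
  | insert i S hi ih =>
    obtain ⟨h1, h2, h4⟩ := ih
    have m := fun a b => XS_mix (p := p) hBLK c hi a b
    set s : ℝ := ∑ j ∈ S, c j ^ 2 with hs
    have hs0 : 0 ≤ s := sum_nonneg fun _ _ => sq_nonneg _
    have e0 : EB p (fun ω : ι → Bool => XS p c S ω ^ 0) = 1 := by
      simp only [pow_zero]; exact EB_one
    rw [sum_insert hi]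
    refine ⟨?_, ?_, ?_⟩
    · have e : (fun ω : ι → Bool => XS p c (insert i S) ω ^ 1) =
          fun ω => XS p c S ω ^ 1 + c i * (XS p c S ω ^ 0 * (bv (ω i) - p) ^ 1) := by
        funext ω
        rw [XS_insert c hi]; ring
      rw [e, EB_add, EB_smul, m 0 1, h1, e0]
      ring
    · have e : (fun ω : ι → Bool => XS p c (insert i S) ω ^ 2) =
          fun ω => XS p c S ω ^ 2 + ((2 * c i) * (XS p c S ω ^ 1 * (bv (ω i) - p) ^ 1) +
            c i ^ 2 * (XS p c S ω ^ 0 * (bv (ω i) - p) ^ 2)) := by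
        funext ω
        rw [XS_insert c hi]; ring
      rw [e, EB_add, EB_add, EB_smul, EB_smul, m 1 1, m 0 2, h1, h2, e0]
      ring
    · have e : (fun ω : ι → Bool => XS p c (insert i S) ω ^ 4) =
          fun ω => XS p c S ω ^ 4 + ((4 * c i) * (XS p c S ω ^ 3 * (bv (ω i) - p) ^ 1) +
            ((6 * c i ^ 2) * (XS p c S ω ^ 2 * (bv (ω i) - p) ^ 2) +
            ((4 * c i ^ 3) * (XS p c S ω ^ 1 * (bv (ω i) - p) ^ 3) +
            c i ^ 4 * (XS p c S ω ^ 0 * (bv (ω i) - p) ^ 4)))) := by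
        funext ω
        rw [XS_insert c hi]; ring
      rw [e, EB_add, EB_add, EB_add, EB_add, EB_smul, EB_smul, EB_smul, EB_smul, m 3 1, m 2 2, m 1 3, m 0 4,
        h1, h2, e0]
      have q1 : p * (1 - p) ^ 1 + (1 - p) * (-p) ^ 1 = 0 := by ring
      have q2 : p * (1 - p) ^ 2 + (1 - p) * (-p) ^ 2 = p * (1 - p) := by ring
      have q4 : p * (1 - p) ^ 4 + (1 - p) * (-p) ^ 4 ≤ 1 := by
        have a1 : (1 - p) ^ 4 ≤ 1 := pow_le_one₀ (by linarith) (by linarith)
        have a2 : (-p) ^ 4 ≤ 1 := by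
          have : (-p) ^ 4 = p ^ 4 := by ring
          rw [this]
          exact pow_le_one₀ hp0.le hp1.le
        nlinarith
      rw [q1, q2]
      have hq : p * (1 - p) ≤ 1 := by nlinarith
      have hq0 : 0 ≤ p * (1 - p) := mul_nonneg hp0.le (by linarith)
      have hqq : p * (1 - p) * (p * (1 - p)) ≤ 1 := by nlinarith
      have hc2 : 0 ≤ c i ^ 2 := sq_nonneg _
      have b1 : 6 * c i ^ 2 * (p * (1 - p) * s * (p * (1 - p))) ≤ 6 * c i ^ 2 * s := by
        have : 6 * c i ^ 2 * (p * (1 - p) * s * (p * (1 - p))) =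
            (6 * c i ^ 2 * s) * (p * (1 - p) * (p * (1 - p))) := by ring
        rw [this]
        exact mul_le_of_le_one_right (by positivity) hqq
      have b2 : c i ^ 4 * (1 * (p * (1 - p) ^ 4 + (1 - p) * (-p) ^ 4)) ≤ c i ^ 4 := by
        rw [one_mul]
        exact mul_le_of_le_one_right (by positivity) q4
      have b3 : c i ^ 4 = (c i ^ 2) ^ 2 := by ring
      nlinarith

/-- the linear function of all centred bits -/
noncomputable def X (p : ℝ) (c : ι → ℝ) (ω : ι → Bool) : ℝ := ∑ i, c i * (bv (ω i) - p)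

lemma exp_neg_le {x : ℝ} (hx : 0 ≤ x) : Real.exp (-x) ≤ 1 - x + x ^ 2 / 2 := by
  have h1 := Real.quadratic_le_exp_of_nonneg hx
  have h2 : 0 < 1 + x + x ^ 2 / 2 := by positivity
  rw [Real.exp_neg, inv_le_comm₀ (Real.exp_pos x) (by nlinarith [sq_nonneg (x - 1)])]
  refine le_trans ?_ h1
  rw [inv_le_iff_one_le_mul₀ (by nlinarith [sq_nonneg (x - 1)])]
  nlinarith [sq_nonneg (x ^ 2)]

/-- Laplace transform of the square -/
lemma laplace (hBLK : S_BLK) (hp0 : 0 < p) (hp1 : p < 1) (c : ι → ℝ) (t : ℝ) (ht : 0 ≤ t) :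
    EB p (fun ω => Real.exp (-(t * X p c ω ^ 2))) ≤
      1 - t * (p * (1 - p) * ∑ i, c i ^ 2) + t ^ 2 / 2 * (3 * (∑ i, c i ^ 2) ^ 2) := by
  obtain ⟨h1, h2, h4⟩ := mom (p := p) hBLK hp0 hp1 c univ
  have h5 : EB p (fun ω => Real.exp (-(t * X p c ω ^ 2))) ≤
      EB p (fun ω => 1 + (-t * XS p c univ ω ^ 2 + t ^ 2 / 2 * XS p c univ ω ^ 4)) := by
    apply EB_mono hp0 hp1
    intro ω
    have := exp_neg_le (x := t * X p c ω ^ 2) (by positivity)
    refine this.trans (le_of_eq ?_)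
    unfold X XS
    ring
  rw [EB_add, EB_add, EB_smul, EB_smul, EB_one, h2] at h5
  have h6 : t ^ 2 / 2 * EB p (fun ω => XS p c univ ω ^ 4) ≤ t ^ 2 / 2 * (3 * (∑ i, c i ^ 2) ^ 2) :=
    mul_le_mul_of_nonneg_left h4 (by positivity)
  linarith

/-- lower tail of a sum of squares of linear functions of disjoint sets of bits -/
lemma lower_tail (hBLK : S_BLK) (hp0 : 0 < p) (hp1 : p < 1) {J : Type} [Fintype J] (c : J → ι → ℝ)
    (hd : ∀ e j j', c j e ≠ 0 → c j' e ≠ 0 → j = j') (W : ℝ) (hW0 : 1 / 2 ≤ W) (hW1 : W ≤ 8)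
    (hc : ∀ j, ∑ i, c j i ^ 2 = W) (a : ℝ) :
    EB p (fun ω => if ∑ j, X p (c j) ω ^ 2 ≤ a then (1 : ℝ) else 0) ≤
      Real.exp (p * (1 - p) / 24 * (a - p * (1 - p) / 4 * Fintype.card J)) := by
  set q : ℝ := p * (1 - p) with hq
  have hq0 : 0 < q := mul_pos hp0 (by linarith)
  set t : ℝ := q / 24 with ht
  have ht0 : 0 < t := by positivity
  have h1 : EB p (fun ω => if ∑ j, X p (c j) ω ^ 2 ≤ a then (1 : ℝ) else 0) ≤
      EB p (fun ω => Real.exp (t * a) * ∏ j, Real.exp (-(t * X p (c j) ω ^ 2))) := by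
    apply EB_mono hp0 hp1
    intro ω
    rw [← Real.exp_sum, ← Real.exp_add]
    have e1 : t * a + ∑ j, -(t * X p (c j) ω ^ 2) = t * (a - ∑ j, X p (c j) ω ^ 2) := by
      rw [sum_neg_distrib, ← mul_sum]; ring
    rw [e1]
    split_ifs with h
    · apply Real.one_le_exp
      apply mul_nonneg ht0.le
      linarith
    · exact (Real.exp_pos _).le
  refine h1.trans ?_
  rw [EB_smul]
  have h2 : EB p (fun ω => ∏ j, Real.exp (-(t * X p (c j) ω ^ 2))) =
      ∏ j, EB p (fun ω => Real.exp (-(t * X p (c j) ω ^ 2))) := by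
    refine hBLK ι J p (fun i => if h : ∃ j, c j i ≠ 0 then some h.choose else none)
      (fun j ω => Real.exp (-(t * X p (c j) ω ^ 2))) ?_
    intro j ω ω' hω
    have : X p (c j) ω = X p (c j) ω' := by
      unfold X
      apply sum_congr rfl
      intro i _
      by_cases hi : c j i = 0
      · rw [hi]; simp
      · rw [hω i]
        have hex : ∃ j, c j i ≠ 0 := ⟨j, hi⟩
        rw [dif_pos hex]
        rw [hd i hex.choose j hex.choose_spec hi]
    simp only [this]
  rw [h2]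
  have h3 : ∀ j, EB p (fun ω => Real.exp (-(t * X p (c j) ω ^ 2))) ≤ Real.exp (-(t * q / 4)) := by
    intro j
    refine (laplace hBLK hp0 hp1 (c j) t ht0.le).trans ?_
    rw [hc j, ← hq]
    have h4 : 1 - t * (q * W) + t ^ 2 / 2 * (3 * W ^ 2) ≤ 1 - t * q / 4 := by
      have h5 : t * W ≤ q / 3 := by
        rw [ht]
        nlinarith
      have h6 : t ^ 2 / 2 * (3 * W ^ 2) ≤ t * W * (q / 2) := by
        have : t ^ 2 / 2 * (3 * W ^ 2) = (t * W) * (3 / 2 * (t * W)) := by ring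
        rw [this]
        apply mul_le_mul_of_nonneg_left _ (by positivity)
        linarith
      have h7 : t * q * (1 / 2) ≤ t * q * W := mul_le_mul_of_nonneg_left hW0 (by positivity)
      nlinarith
    refine h4.trans ?_
    have := Real.add_one_le_exp (-(t * q / 4))
    linarith
  calc Real.exp (t * a) * ∏ j, EB p (fun ω => Real.exp (-(t * X p (c j) ω ^ 2)))
      ≤ Real.exp (t * a) * ∏ _j : J, Real.exp (-(t * q / 4)) := by
        apply mul_le_mul_of_nonneg_left _ (Real.exp_pos _).le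
        exact prod_le_prod (fun j _ => EB_nonneg hp0 hp1 fun ω => (Real.exp_pos _).le) fun j _ => h3 j
    _ = Real.exp (t * (a - q / 4 * Fintype.card J)) := by
        rw [prod_const, ← Real.exp_nat_mul, ← Real.exp_add, card_univ]
        congr 1
        ring

end Pool.Agent.W822.ChSP
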