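import Pool.Agent.W822.ChSPa

/-!
# MP_332c83_pr (S19255), task CH-3 (sparse vectors), part 2: one vector
-/

set_option autoImplicit false
open scoped Classical
open Finset Filter Topology

namespace Pool.Agent.W822.ChSP

open Pool.Agent.W839.Ch

variable {n : ℕ} {p : ℝ}

/-- coefficients of the difference of the rows `f (j, true)` and `f (j, false)` of `A z` -/
noncomputable def cf {m : ℕ} (T : Finset (Fin n)) (z : Fin n → ℝ) (f : Fin m × Bool → Fin n) (j : Fin m)
    (e : Sym2 (Fin n)) : ℝ :=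
  ∑ u ∈ T, z u * ((if e = s(f (j, true), u) then 1 else 0) - (if e = s(f (j, false), u) then 1 else 0))

lemma sum_cf {m : ℕ} (T : Finset (Fin n)) (z : Fin n → ℝ) (f : Fin m × Bool → Fin n) (j : Fin m)
    (g : Sym2 (Fin n) → ℝ) :
    ∑ e, cf T z f j e * g e = ∑ u ∈ T, z u * (g s(f (j, true), u) - g s(f (j, false), u)) := by
  unfold cf
  simp only [sum_mul]
  rw [sum_comm]
  apply sum_congr rfl
  intro u _
  have : ∀ e : Sym2 (Fin n), z u * ((if e = s(f (j, true), u) then 1 else 0) -
      (if e = s(f (j, false), u) then 1 else 0)) * g e =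
      (if e = s(f (j, true), u) then z u * g e else 0) - (if e = s(f (j, false), u) then z u * g e else 0) := by
    intro e
    split_ifs <;> ring
  simp only [this]
  rw [sum_sub_distrib, sum_ite_eq', sum_ite_eq']
  simp
  ring

lemma s_eq {T : Finset (Fin n)} {a b u u' : Fin n} (ha : a ∉ T) (hu' : u' ∈ T)
    (h : s(a, u) = s(b, u')) : a = b ∧ u = u' := by
  rw [Sym2.eq_iff] at h
  rcases h with h | h
  · exact h
  · exact absurd (h.1 ▸ hu') ha

lemma cf_sq {m : ℕ} (T : Finset (Fin n)) (z : Fin n → ℝ) (f : Fin m × Bool → Fin n)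
    (hf : Function.Injective f) (hT : ∀ x, f x ∉ T) (j : Fin m) :
    ∑ e, cf T z f j e ^ 2 = 2 * ∑ u ∈ T, z u ^ 2 := by
  have h1 : ∀ u ∈ T, cf T z f j s(f (j, true), u) = z u := by
    intro u hu
    unfold cf
    rw [sum_eq_single u]
    · have h2 : ¬ s(f (j, true), u) = s(f (j, false), u) := by
        intro h
        have := hf (s_eq (hT _) hu h).1
        simp at this
      simp [h2]
    · intro u' hu' hne
      have h2 : ¬ s(f (j, true), u) = s(f (j, false), u') := by
        intro h
        exact hne (s_eq (hT _) hu' h).2.symm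
      have h3 : ¬ s(f (j, true), u) = s(f (j, true), u') := by
        intro h
        exact hne (s_eq (hT _) hu' h).2.symm
      rw [if_neg h3, if_neg h2]
      ring
    · intro h; exact absurd hu h
  have h1' : ∀ u ∈ T, cf T z f j s(f (j, false), u) = - z u := by
    intro u hu
    unfold cf
    rw [sum_eq_single u]
    · have h2 : ¬ s(f (j, false), u) = s(f (j, true), u) := by
        intro h
        have := hf (s_eq (hT _) hu h).1
        simp at this
      simp [h2]
    · intro u' hu' hne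
      have h2 : ¬ s(f (j, false), u) = s(f (j, false), u') := by
        intro h
        exact hne (s_eq (hT _) hu' h).2.symm
      have h3 : ¬ s(f (j, false), u) = s(f (j, true), u') := by
        intro h
        exact hne (s_eq (hT _) hu' h).2.symm
      rw [if_neg h3, if_neg h2]
      ring
    · intro h; exact absurd hu h
  have h2 : ∀ e, cf T z f j e ^ 2 = cf T z f j e * cf T z f j e := fun e => by ring
  simp only [h2]
  rw [sum_cf, mul_sum]
  apply sum_congr rfl
  intro u hu
  rw [h1 u hu, h1' u hu]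
  ring

lemma cf_disj {m : ℕ} (T : Finset (Fin n)) (z : Fin n → ℝ) (f : Fin m × Bool → Fin n)
    (hf : Function.Injective f) (hT : ∀ x, f x ∉ T) (e : Sym2 (Fin n)) (j j' : Fin m)
    (h : cf T z f j e ≠ 0) (h' : cf T z f j' e ≠ 0) : j = j' := by
  have key : ∀ i : Fin m, cf T z f i e ≠ 0 → ∃ σ : Bool, ∃ u ∈ T, e = s(f (i, σ), u) := by
    intro i hi
    obtain ⟨u, hu, hne⟩ := exists_ne_zero_of_sum_ne_zero hi
    by_cases h1 : e = s(f (i, true), u)
    · exact ⟨true, u, hu, h1⟩
    · by_cases h2 : e = s(f (i, false), u)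
      · exact ⟨false, u, hu, h2⟩
      · rw [if_neg h1, if_neg h2] at hne
        simp at hne
  obtain ⟨σ, u, hu, he⟩ := key j h
  obtain ⟨σ', u', hu', he'⟩ := key j' h'
  have h3 := (s_eq (hT _) hu' (he.symm.trans he')).1
  have h4 := hf h3
  exact (Prod.mk.inj h4).1

lemma X_cf {m : ℕ} (T : Finset (Fin n)) (z : Fin n → ℝ) (hz : ∀ v, v ∉ T → z v = 0)
    (f : Fin m × Bool → Fin n) (hT : ∀ x, f x ∉ T) (j : Fin m) (ω : Sym2 (Fin n) → Bool) :
    X p (cf T z f j) ω = ∑ u, adj (gr ω) (f (j, true)) u * z u - ∑ u, adj (gr ω) (f (j, false)) u * z u := by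
  unfold X
  rw [sum_cf T z f j (fun e => bv (ω e) - p)]
  have h1 : ∀ v, v ∉ T → ∑ u, adj (gr ω) v u * z u = ∑ u ∈ T, z u * bv (ω s(v, u)) := by
    intro v hv
    rw [← sum_subset (subset_univ T) (fun u _ hu => by rw [hz u hu, mul_zero])]
    apply sum_congr rfl
    intro u hu
    have hne : v ≠ u := by rintro rfl; exact hv hu
    unfold adj bv gr
    simp only [ne_eq, hne, not_false_eq_true, true_and]
    split_ifs <;> ring
  rw [h1 _ (hT _), h1 _ (hT _), ← sum_sub_distrib]
  apply sum_congr rfl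
  intro u _
  ring

/-- the bad event for one vector -/
def Bad (T : Finset (Fin n)) (z : Fin n → ℝ) (a : ℝ) (G : SimpleGraph (Fin n)) : Prop :=
  ∃ α : ℝ, ∑ v ∈ Tᶜ, (∑ u, adj G v u * z u - α) ^ 2 ≤ a

lemma Pr_eq (hBIT : S_BIT) (P : SimpleGraph (Fin n) → Prop) :
    Pr n p P = EB p (fun ω : Sym2 (Fin n) → Bool => if P (gr ω) then (1 : ℝ) else 0) := by
  rw [hBIT n p (fun G => if P G then (1 : ℝ) else 0)]
  unfold Pr
  apply sum_congr rfl
  intro G _
  split_ifs <;> simp

lemma exists_pairs (T : Finset (Fin n)) (m : ℕ) (h : 2 * m + T.card ≤ n) :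
    ∃ f : Fin m × Bool → Fin n, Function.Injective f ∧ ∀ x, f x ∉ T := by
  have h1 : Fintype.card (Fin m × Bool) ≤ Fintype.card {v : Fin n // v ∉ T} := by
    rw [Fintype.card_subtype_compl]
    simp
    omega
  obtain ⟨e⟩ := Function.Embedding.nonempty_of_card_le h1
  exact ⟨fun x => (e x : Fin n), fun x y hxy => e.injective (Subtype.ext hxy), fun x => (e x).2⟩

/-- one vector -/
lemma one_vector (hBIT : S_BIT) (hBLK : S_BLK) (hp0 : 0 < p) (hp1 : p < 1) (T : Finset (Fin n))
    (z : Fin n → ℝ) (hz : ∀ v, v ∉ T → z v = 0) (h1 : 1 / 4 ≤ sn z) (h2 : sn z ≤ 4)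
    (hT : 10 * T.card ≤ n) (hn : 10 ≤ n) :
    Pr n p (Bad T z (p * (1 - p) / 48 * n)) ≤ Real.exp (-((p * (1 - p)) ^ 2 / 576 * n)) := by
  set q : ℝ := p * (1 - p) with hq
  have hq0 : 0 < q := mul_pos hp0 (by linarith)
  set m : ℕ := (n - T.card) / 2 with hm
  obtain ⟨f, hf, hfT⟩ := exists_pairs T m (by omega)
  have hm3 : (n : ℝ) ≤ 3 * m := by
    have : n ≤ 3 * m := by omega
    exact_mod_cast this
  have hsn : sn z = ∑ u ∈ T, z u ^ 2 := by
    unfold sn
    symm
    apply sum_subset (subset_univ T)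
    intro u _ hu
    rw [hz u hu]; ring
  rw [Pr_eq hBIT]
  have h3 : EB p (fun ω : Sym2 (Fin n) → Bool => if Bad T z (q / 48 * n) (gr ω) then (1 : ℝ) else 0) ≤
      EB p (fun ω => if ∑ j, X p (cf T z f j) ω ^ 2 ≤ q / 24 * n then (1 : ℝ) else 0) := by
    apply EB_mono hp0 hp1
    intro ω
    by_cases hb : Bad T z (q / 48 * n) (gr ω)
    · rw [if_pos hb]
      obtain ⟨α, hα⟩ := hb
      rw [if_pos]
      set g : Fin n → ℝ := fun v => (∑ u, adj (gr ω) v u * z u - α) ^ 2 with hg
      have e1 : ∑ x : Fin m × Bool, g (f x) ≤ ∑ v ∈ Tᶜ, g v := by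
        calc ∑ x : Fin m × Bool, g (f x) = ∑ v ∈ univ.image f, g v := by
              rw [sum_image (fun a _ b _ h => hf h)]
          _ ≤ ∑ v ∈ Tᶜ, g v := by
              apply sum_le_sum_of_subset_of_nonneg
              · intro v hv
                rw [mem_image] at hv
                obtain ⟨x, _, rfl⟩ := hv
                rw [mem_compl]
                exact hfT x
              · intro v _ _
                exact sq_nonneg _
      rw [Fintype.sum_prod_type] at e1
      have e2 : ∑ j, X p (cf T z f j) ω ^ 2 ≤ 2 * ∑ j : Fin m, ∑ σ : Bool, g (f (j, σ)) := by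
        rw [mul_sum]
        apply sum_le_sum
        intro j _
        rw [X_cf T z hz f hfT, Fintype.sum_bool, hg]
        simp only
        nlinarith [sq_nonneg ((∑ u, adj (gr ω) (f (j, true)) u * z u - α) +
          (∑ u, adj (gr ω) (f (j, false)) u * z u - α))]
      linarith
    · rw [if_neg hb]
      split_ifs <;> norm_num
  refine h3.trans ((lower_tail hBLK hp0 hp1 (fun j => cf T z f j) (fun e j j' => cf_disj T z f hf hfT e j j')
    (2 * sn z) (by linarith) (by linarith) (fun j => by rw [cf_sq T z f hf hfT, hsn]) _).trans ?_)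
  apply Real.exp_le_exp.2
  rw [← hq, Fintype.card_fin]
  have e3 : q / 24 * (q / 24 * n - q / 4 * m) ≤ q / 24 * (-(q / 24 * n)) := by
    apply mul_le_mul_of_nonneg_left _ (by positivity)
    nlinarith
  refine e3.trans (le_of_eq ?_)
  ring

end Pool.Agent.W822.ChSP
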