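import Pool.Agent.W822.Mean

/-!
Crossing columns: the mean passage time (for `a = 1`) exceeds the horizontal displacement by a
linear amount.
-/

set_option autoImplicit false

open MeasureTheory ProbabilityTheory Filter Topology
open scoped ENNReal NNReal

namespace Pool.Agent.W822.FPP

/-- zero-one value of an edge -/
def bit (ω : Om) (e : Sym2 V) : ℕ := if ω e then 1 else 0

/-- the horizontal edge between the columns `-j` and `-j + 1` at height `y` -/
def cedge (j : ℕ) (y : ℤ) : Sym2 V := s((-(j : ℤ), y), (-(j : ℤ) + 1, y))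

/-- cost of reaching column `0` from column `-j` at height `y` -/
noncomputable def FF (ω : Om) : ℕ → ℤ → ℕ
  | 0, _ => 0
  | j + 1, y => ⨅ y' : ℤ, ((y - y').natAbs + bit ω (cedge (j + 1) y') + FF ω j y')

lemma FF_succ_le (ω : Om) (j : ℕ) (y y' : ℤ) :
    FF ω (j + 1) y ≤ (y - y').natAbs + bit ω (cedge (j + 1) y') + FF ω j y' :=
  ciInf_le (OrderBot.bddBelow _) y'

lemma FF_succ_eq (ω : Om) (j : ℕ) (y : ℤ) :
    ∃ y', FF ω (j + 1) y = (y - y').natAbs + bit ω (cedge (j + 1) y') + FF ω j y' := by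
  have h := Nat.sInf_mem (s := Set.range fun y' : ℤ =>
    ((y - y').natAbs + bit ω (cedge (j + 1) y') + FF ω j y')) (Set.range_nonempty _)
  obtain ⟨y', hy'⟩ := h
  exact ⟨y', hy'.symm⟩

lemma FF_lip (ω : Om) (j : ℕ) (y y' : ℤ) : FF ω j y ≤ (y - y').natAbs + FF ω j y' := by
  cases j with
  | zero => simp [FF]
  | succ j =>
    obtain ⟨z, hz⟩ := FF_succ_eq ω j y'
    have := FF_succ_le ω j y z
    rw [hz]
    omega

lemma FF_mono (ω : Om) (j : ℕ) (y : ℤ) : FF ω j y ≤ FF ω (j + 1) y := by
  obtain ⟨z, hz⟩ := FF_succ_eq ω j y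
  have := FF_lip ω j y z
  rw [hz]
  omega

lemma bit_le (ω : Om) (e : Sym2 V) : bit ω e ≤ 1 := by unfold bit; split_ifs <;> simp

lemma FF_le (ω : Om) (j : ℕ) (y : ℤ) : FF ω j y ≤ j := by
  induction j with
  | zero => simp [FF]
  | succ j ih =>
    have h1 := FF_succ_le ω j y y
    have h2 := bit_le ω (cedge (j + 1) y)
    simp only [sub_self, Int.natAbs_zero, zero_add] at h1
    omega

/-- the potential -/
noncomputable def Phi (ω : Om) (u : V) : ℕ := (-u.1).toNat + FF ω (-u.1).toNat u.2

lemma Phi_step (ω : Om) {u v : V} (h : lat.Adj u v) : Phi ω u ≤ 1 + bit ω s(u, v) + Phi ω v := by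
  obtain ⟨u1, u2⟩ := u
  obtain ⟨v1, v2⟩ := v
  have h' : |u1 - v1| + |u2 - v2| = 1 := h
  have hcase : (v1 = u1 ∧ (u2 - v2).natAbs = 1) ∨ (v2 = u2 ∧ v1 = u1 + 1) ∨
      (v2 = u2 ∧ v1 = u1 - 1) := by
    rcases abs_cases (u1 - v1) with ⟨h1, h2⟩ | ⟨h1, h2⟩ <;>
      rcases abs_cases (u2 - v2) with ⟨h3, h4⟩ | ⟨h3, h4⟩ <;> omega
  rcases hcase with ⟨rfl, h1⟩ | ⟨rfl, rfl⟩ | ⟨rfl, rfl⟩
  · unfold Phi
    have := FF_lip ω (-v1).toNat u2 v2
    simp only
    omega
  · by_cases h1 : u1 < 0
    · obtain ⟨j, hj⟩ : ∃ j : ℕ, -u1 = j + 1 := ⟨(-u1 - 1).toNat, by omega⟩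
      have e1 : (-u1).toNat = j + 1 := by omega
      have e2 : (-(u1 + 1)).toNat = j := by omega
      unfold Phi
      simp only
      rw [e1, e2]
      have := FF_succ_le ω j v2 v2
      have e3 : cedge (j + 1) v2 = s((u1, v2), (u1 + 1, v2)) := by
        unfold cedge
        have : -((j + 1 : ℕ) : ℤ) = u1 := by push_cast; omega
        rw [this]
      rw [e3] at this
      simp only [sub_self, Int.natAbs_zero, zero_add] at this
      omega
    · have e1 : (-u1).toNat = 0 := by omega
      unfold Phi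
      simp only [e1, FF]
      omega
  · by_cases h1 : 0 < u1
    · have e1 : (-u1).toNat = 0 := by omega
      unfold Phi
      simp only [e1, FF]
      omega
    · have e2 : (-(u1 - 1)).toNat = (-u1).toNat + 1 := by omega
      unfold Phi
      simp only [e2]
      have := FF_mono ω (-u1).toNat v2
      omega

lemma Phi_le_cost (ω : Om) {u v : V} (p : lat.Walk u v) :
    (Phi ω u : ℝ) ≤ cost 1 ω p + Phi ω v := by
  induction p with
  | nil => simp [cost]
  | @cons u w v h p ih =>
    have h1 := Phi_step ω h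
    have h1R : (Phi ω u : ℝ) ≤ 1 + bit ω s(u, w) + Phi ω w := by exact_mod_cast h1
    have h2 : cost 1 ω (SimpleGraph.Walk.cons h p) = (1 + 1 * ind ω s(u, w)) + cost 1 ω p := by
      simp [cost]
    have h3 : (bit ω s(u, w) : ℝ) = ind ω s(u, w) := by
      unfold bit ind; split_ifs <;> simp
    rw [h2]
    linarith

lemma T_ge_cols (ω : Om) (n : ℕ) (y : ℤ) :
    (n : ℝ) + FF ω n y ≤ T 1 ω (-(n : ℤ), y) 0 := by
  obtain ⟨p, hp⟩ := exists_min zero_le_one ω (-(n : ℤ), y) 0
  rw [← hp]
  have h1 := Phi_le_cost ω p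
  have h2 : Phi ω (-(n : ℤ), y) = n + FF ω n y := by simp [Phi]
  have h3 : Phi ω 0 = 0 := by simp [Phi, FF]
  rw [h2, h3] at h1
  push_cast at h1
  linarith

/-! ### the exponential moment -/

/-- `FF ω j` only sees the columns up to `j` -/
lemma FF_congr {ω ω' : Om} (j : ℕ) (h : ∀ i y, i ≤ j → ω (cedge i y) = ω' (cedge i y)) (y : ℤ) :
    FF ω j y = FF ω' j y := by
  induction j generalizing y with
  | zero => rfl
  | succ j ih =>
    simp only [FF]
    congr 1
    funext y'
    rw [ih (fun i y hi => h i y (by omega)) y']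
    have : bit ω (cedge (j + 1) y') = bit ω' (cedge (j + 1) y') := by
      unfold bit; rw [h _ _ le_rfl]
    rw [this]

lemma meas_bit (e : Sym2 V) : Measurable (fun ω : Om => bit ω e) := by
  have : (fun ω : Om => bit ω e) = (fun b : Bool => if b then 1 else 0) ∘
      (fun ω : Om => ω e) := rfl
  rw [this]
  exact (measurable_of_countable _).comp (measurable_pi_apply e)

lemma meas_FF (j : ℕ) (y : ℤ) : Measurable (fun ω : Om => FF ω j y) := by
  induction j generalizing y with
  | zero => simp only [FF]; exact measurable_const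
  | succ j ih =>
    simp only [FF]
    apply Measurable.iInf
    intro y'
    exact (measurable_const.add (meas_bit _)).add (ih y')

/-- the base of the exponential moment -/
noncomputable def zz : ℝ := 1 / 40000

lemma zz_pos : 0 < zz := by unfold zz; norm_num
lemma zz_lt : zz < 1 := by unfold zz; norm_num

/-- the factor per column -/
noncomputable def Lam : ℝ := (1 / (1 - zz) + zz / (1 - zz)) * (q * zz + (1 - q))

lemma Lam_pos : 0 < Lam := by unfold Lam zz q; norm_num
lemma Lam_lt : Lam < 1 := by unfold Lam zz q; norm_num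

lemma hasSum_zz (y : ℤ) :
    HasSum (fun y' : ℤ => zz ^ (y - y').natAbs) (1 / (1 - zz) + zz / (1 - zz)) := by
  have h0 : HasSum (fun n : ℕ => zz ^ n) (1 - zz)⁻¹ := hasSum_geometric_of_lt_one zz_pos.le zz_lt
  have h1 : HasSum (fun k : ℤ => zz ^ k.natAbs) (1 / (1 - zz) + zz / (1 - zz)) := by
    apply HasSum.of_nat_of_neg_add_one
    · simpa using h0
    · have h2 := h0.mul_left zz
      have h3 : ∀ n : ℕ, (-((n : ℤ) + 1)).natAbs = n + 1 := by intro n; omega
      simp only [h3]
      have h4 : (fun n : ℕ => zz ^ (n + 1)) = fun n : ℕ => zz * zz ^ n := by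
        funext n; ring
      rw [h4, div_eq_mul_inv]
      exact h2
  have h2 := (Equiv.subLeft y).hasSum_iff.2 h1
  exact h2

lemma int_zz_le (j : ℕ) (y : ℤ) : ∫ ω, zz ^ (FF ω j y) ∂P ≤ Lam ^ j := by
  induction j generalizing y with
  | zero => simp [FF]
  | succ j ih =>
    have hm : ∀ (j : ℕ) (y : ℤ), Measurable (fun ω : Om => zz ^ (FF ω j y)) := fun j y =>
      (measurable_of_countable (fun n : ℕ => zz ^ n)).comp (meas_FF j y)
    have hb : ∀ (n : ℕ), |zz ^ n| ≤ 1 := by
      intro n
      rw [abs_of_nonneg (pow_nonneg zz_pos.le _)]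
      exact pow_le_one₀ zz_pos.le zz_lt.le
    have hi : ∀ (j : ℕ) (y : ℤ), Integrable (fun ω : Om => zz ^ (FF ω j y)) P := fun j y =>
      integrable_bdd (hm j y) ⟨1, fun ω => hb _⟩
    have hmb : ∀ y', Measurable (fun ω : Om => zz ^ (bit ω (cedge (j + 1) y')) *
        zz ^ (FF ω j y')) := fun y' =>
      ((measurable_of_countable (fun n : ℕ => zz ^ n)).comp (meas_bit _)).mul (hm j y')
    have hbb : ∀ (ω : Om) y', |zz ^ (bit ω (cedge (j + 1) y')) * zz ^ (FF ω j y')| ≤ 1 := by
      intro ω y'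
      rw [← pow_add]
      exact hb _
    have h1 : ∀ y', ∫ ω, zz ^ (bit ω (cedge (j + 1) y')) * zz ^ (FF ω j y') ∂P =
        (q * zz + (1 - q)) * ∫ ω, zz ^ (FF ω j y') ∂P := by
      intro y'
      rw [int_avg (cedge (j + 1) y') (hmb y') ⟨1, fun ω => hbb ω y'⟩, ← integral_const_mul]
      apply integral_congr_ae
      refine Filter.Eventually.of_forall fun ω => ?_
      have hne : ∀ (i : ℕ) (z : ℤ), i ≤ j → cedge i z ≠ cedge (j + 1) y' := by
        intro i z hi h
        unfold cedge at h
        rw [Sym2.eq_iff] at h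
        rcases h with ⟨h1, h2⟩ | ⟨h1, h2⟩
        · have := congrArg Prod.fst h1
          simp only at this
          omega
        · have := congrArg Prod.fst h1
          have h3 := congrArg Prod.fst h2
          simp only at this h3
          omega
      have e1 : FF (up (cedge (j + 1) y') ω) j y' = FF ω j y' :=
        FF_congr j (fun i z hi => up_ne (hne i z hi) ω) y'
      have e2 : FF (dn (cedge (j + 1) y') ω) j y' = FF ω j y' :=
        FF_congr j (fun i z hi => dn_ne (hne i z hi) ω) y'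
      have e3 : bit (up (cedge (j + 1) y') ω) (cedge (j + 1) y') = 1 := by simp [bit]
      have e4 : bit (dn (cedge (j + 1) y') ω) (cedge (j + 1) y') = 0 := by simp [bit]
      simp only [e1, e2, e3, e4]
      ring
    have h2 : ENNReal.ofReal (∫ ω, zz ^ (FF ω (j + 1) y) ∂P) ≤ ENNReal.ofReal (Lam ^ (j + 1)) := by
      rw [ofReal_integral_eq_lintegral_ofReal (hi _ _)
        (Filter.Eventually.of_forall fun ω => pow_nonneg zz_pos.le _)]
      have h3 : ∀ ω : Om, ENNReal.ofReal (zz ^ (FF ω (j + 1) y)) ≤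
          ∑' y' : ℤ, ENNReal.ofReal (zz ^ (y - y').natAbs *
            (zz ^ (bit ω (cedge (j + 1) y')) * zz ^ (FF ω j y'))) := by
        intro ω
        obtain ⟨y', hy'⟩ := FF_succ_eq ω j y
        have h4 : zz ^ (FF ω (j + 1) y) = zz ^ (y - y').natAbs *
            (zz ^ (bit ω (cedge (j + 1) y')) * zz ^ (FF ω j y')) := by
          rw [hy', pow_add, pow_add, mul_assoc]
        rw [h4]
        exact ENNReal.le_tsum (f := fun y' : ℤ => ENNReal.ofReal (zz ^ (y - y').natAbs *
            (zz ^ (bit ω (cedge (j + 1) y')) * zz ^ (FF ω j y')))) y'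
      refine (lintegral_mono h3).trans ?_
      rw [lintegral_tsum]
      · have h5 : ∀ y' : ℤ, ∫⁻ ω, ENNReal.ofReal (zz ^ (y - y').natAbs *
            (zz ^ (bit ω (cedge (j + 1) y')) * zz ^ (FF ω j y'))) ∂P ≤
            ENNReal.ofReal (zz ^ (y - y').natAbs * ((q * zz + (1 - q)) * Lam ^ j)) := by
          intro y'
          rw [← ofReal_integral_eq_lintegral_ofReal]
          · apply ENNReal.ofReal_le_ofReal
            rw [integral_const_mul, h1]
            apply mul_le_mul_of_nonneg_left _ (pow_nonneg zz_pos.le _)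
            apply mul_le_mul_of_nonneg_left (ih y')
            have := mul_nonneg q_nonneg zz_pos.le
            linarith [one_sub_q_pos]
          · exact (integrable_bdd (hmb y') ⟨1, fun ω => hbb ω y'⟩).const_mul _
          · exact Filter.Eventually.of_forall fun ω => by
              have := zz_pos
              positivity
        refine (ENNReal.tsum_le_tsum h5).trans (le_of_eq ?_)
        have h6 := (hasSum_zz y).mul_right ((q * zz + (1 - q)) * Lam ^ j)
        rw [← ENNReal.ofReal_tsum_of_nonneg _ h6.summable, h6.tsum_eq]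
        · congr 1
          unfold Lam
          ring
        · intro y'
          apply mul_nonneg (pow_nonneg zz_pos.le _)
          apply mul_nonneg _ (pow_nonneg Lam_pos.le _)
          have := mul_nonneg q_nonneg zz_pos.le
          linarith [one_sub_q_pos]
      · intro y'
        exact (ENNReal.measurable_ofReal.comp ((hmb y').const_mul _)).aemeasurable
    exact (ENNReal.ofReal_le_ofReal_iff (pow_nonneg Lam_pos.le _)).1 h2

/-- the excess rate -/
noncomputable def del : ℝ := Real.log Lam / Real.log zz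

lemma del_pos : 0 < del :=
  div_pos_of_neg_of_neg (Real.log_neg Lam_pos Lam_lt) (Real.log_neg zz_pos zz_lt)

lemma int_FF_ge (n : ℕ) (y : ℤ) : del * n ≤ ∫ ω, (FF ω n y : ℝ) ∂P := by
  have hm : Measurable (fun ω : Om => (FF ω n y : ℝ)) :=
    (measurable_of_countable (fun n : ℕ => (n : ℝ))).comp (meas_FF n y)
  have hi : Integrable (fun ω : Om => (FF ω n y : ℝ)) P :=
    integrable_bdd hm ⟨n, fun ω => by
      rw [abs_of_nonneg (Nat.cast_nonneg _)]
      exact_mod_cast FF_le ω n y⟩
  set m := (∫ ω, (FF ω n y : ℝ) ∂P) * Real.log zz with hmdef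
  have h1 : Real.exp m ≤ Lam ^ n := by
    refine le_trans ?_ (int_zz_le n y)
    have h2 : ∀ ω : Om, Real.exp m * (1 + ((FF ω n y : ℝ) * Real.log zz - m)) ≤
        zz ^ (FF ω n y) := by
      intro ω
      have e1 : zz ^ (FF ω n y) = Real.exp m * Real.exp ((FF ω n y : ℝ) * Real.log zz - m) := by
        rw [← Real.exp_add, add_sub_cancel, mul_comm, Real.exp_mul, Real.exp_log zz_pos,
          Real.rpow_natCast]
      rw [e1]
      apply mul_le_mul_of_nonneg_left _ (Real.exp_pos _).le
      have := Real.add_one_le_exp ((FF ω n y : ℝ) * Real.log zz - m)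
      linarith
    have h3 : ∫ ω : Om, Real.exp m * (1 + ((FF ω n y : ℝ) * Real.log zz - m)) ∂P =
        Real.exp m := by
      have hj : Integrable (fun ω : Om => (FF ω n y : ℝ) * Real.log zz - m) P :=
        (hi.mul_const _).sub (integrable_const _)
      rw [integral_const_mul, integral_add (integrable_const _) hj,
        integral_sub (hi.mul_const _) (integrable_const _), integral_mul_const]
      simp [hmdef]
    rw [← h3]
    apply integral_mono
    · exact ((integrable_const _).add ((hi.mul_const _).sub (integrable_const _))).const_mul _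
    · exact integrable_bdd ((measurable_of_countable (fun n : ℕ => zz ^ n)).comp (meas_FF n y))
        ⟨1, fun ω => by
          rw [abs_of_nonneg (pow_nonneg zz_pos.le _)]
          exact pow_le_one₀ zz_pos.le zz_lt.le⟩
    · exact h2
  have h4 : m ≤ n * Real.log Lam := by
    have := Real.log_le_log (Real.exp_pos _) h1
    rwa [Real.log_exp, Real.log_pow] at this
  have h5 : Real.log zz < 0 := Real.log_neg zz_pos zz_lt
  unfold del
  rw [div_mul_eq_mul_div, div_le_iff_of_neg h5]
  linarith

theorem h_one_ge (x : V) : (1 + del) * |(x.1 : ℝ)| ≤ h 1 x := by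
  have key : ∀ x : V, 0 ≤ x.1 → (1 + del) * (x.1 : ℝ) ≤ h 1 x := by
    intro x hx
    obtain ⟨n, hn⟩ : ∃ n : ℕ, x.1 = n := ⟨x.1.toNat, by omega⟩
    have h1 : h 1 x = ∫ ω, T 1 ω (-(n : ℤ), -x.2) 0 ∂P := by
      rw [mean_T zero_le_one]
      congr 1
      ext <;> simp [hn]
    have h2 : ∫ ω : Om, ((n : ℝ) + FF ω n (-x.2)) ∂P ≤ h 1 x := by
      rw [h1]
      apply integral_mono _ (integrable_T zero_le_one _ _)
      · intro ω
        exact T_ge_cols ω n (-x.2)
      · apply (integrable_const _).add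
        exact integrable_bdd ((measurable_of_countable (fun n : ℕ => (n : ℝ))).comp
          (meas_FF n (-x.2))) ⟨n, fun ω => by
            rw [abs_of_nonneg (Nat.cast_nonneg _)]
            exact_mod_cast FF_le ω n (-x.2)⟩
    have h3 : ∫ ω : Om, ((n : ℝ) + FF ω n (-x.2)) ∂P = n + ∫ ω : Om, (FF ω n (-x.2) : ℝ) ∂P := by
      rw [integral_add (integrable_const _)]
      · simp
      · exact integrable_bdd ((measurable_of_countable (fun n : ℕ => (n : ℝ))).comp
          (meas_FF n (-x.2))) ⟨n, fun ω => by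
            rw [abs_of_nonneg (Nat.cast_nonneg _)]
            exact_mod_cast FF_le ω n (-x.2)⟩
    have h4 := int_FF_ge n (-x.2)
    rw [hn]
    push_cast
    linarith
  rcases le_total 0 x.1 with h0 | h0
  · rw [abs_of_nonneg (by exact_mod_cast h0)]
    exact key x h0
  · have h1 := key (-x) (by simpa using h0)
    rw [h_neg zero_le_one] at h1
    rw [abs_of_nonpos (by exact_mod_cast h0)]
    simpa using h1

/-- for `a = 1` the mean passage time exceeds the Euclidean norm by a fixed factor -/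
theorem h_one_sq (x : V) :
    (1 + min del (1 / 2)) * ((x.1 : ℝ) ^ 2 + (x.2 : ℝ) ^ 2) ≤ h 1 x ^ 2 := by
  have key : ∀ x : V, |(x.2 : ℝ)| ≤ |(x.1 : ℝ)| →
      (1 + min del (1 / 2)) * ((x.1 : ℝ) ^ 2 + (x.2 : ℝ) ^ 2) ≤ h 1 x ^ 2 := by
    intro x hx
    have h1 := h_one_ge x
    have h2 : |(x.1 : ℝ)| + |(x.2 : ℝ)| ≤ h 1 x := by
      have := le_h zero_le_one x
      simpa [nrm] using this
    have hd := del_pos
    have a1 := abs_nonneg (x.1 : ℝ)
    have a2 := abs_nonneg (x.2 : ℝ)
    have h3 : ((1 + del) * |(x.1 : ℝ)|) ^ 2 ≤ h 1 x ^ 2 :=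
      pow_le_pow_left₀ (by positivity) h1 2
    have h4 : (|(x.1 : ℝ)| + |(x.2 : ℝ)|) ^ 2 ≤ h 1 x ^ 2 :=
      pow_le_pow_left₀ (by positivity) h2 2
    have m1 : min del (1 / 2) ≤ del := min_le_left _ _
    have m2 : min del (1 / 2) ≤ 1 / 2 := min_le_right _ _
    have m0 : 0 < min del (1 / 2) := lt_min hd (by norm_num)
    rw [← sq_abs (x.1 : ℝ), ← sq_abs (x.2 : ℝ)]
    set X := |(x.1 : ℝ)| with hX
    set Y := |(x.2 : ℝ)| with hY
    have e1 : Y ^ 2 ≤ X * Y := by nlinarith
    have e2 : min del (1 / 2) * X ^ 2 ≤ del * X ^ 2 := mul_le_mul_of_nonneg_right m1 (sq_nonneg _)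
    have e3 : min del (1 / 2) * Y ^ 2 ≤ 1 / 2 * Y ^ 2 :=
      mul_le_mul_of_nonneg_right m2 (sq_nonneg _)
    have e4 : 0 ≤ del ^ 2 * X ^ 2 := by positivity
    nlinarith
  rcases le_total (|(x.2 : ℝ)|) (|(x.1 : ℝ)|) with h0 | h0
  · exact key x h0
  · have h1 := key x.swap (by simpa using h0)
    rw [h_swap zero_le_one] at h1
    simp only [Prod.fst_swap, Prod.snd_swap] at h1
    linarith

end Pool.Agent.W822.FPP
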