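import Mathlib

/-!
A discrete contour lemma: a set `A` of lattice points in the square `[0,k]²` which contains the
corner `0` but not the corner `(k,k)` is separated by a dual path from the lower right part of the
boundary to the upper left part.
-/

set_option autoImplicit false

namespace Pool.Agent.W822.Cont

/-- the four directions -/
inductive Dir | E | N | W | S
  deriving DecidableEq

/-- the three turns -/
inductive Turn | L | F | R
  deriving DecidableEq

instance : Fintype Dir := ⟨{.E, .N, .W, .S}, by intro x; cases x <;> simp⟩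
instance : Fintype Turn := ⟨{.L, .F, .R}, by intro x; cases x <;> simp⟩

/-- the unit vector -/
def Dir.vec : Dir → ℤ × ℤ
  | .E => (1, 0)
  | .N => (0, 1)
  | .W => (-1, 0)
  | .S => (0, -1)

/-- rotation by a right angle -/
def Dir.rot : Dir → Dir
  | .E => .N
  | .N => .W
  | .W => .S
  | .S => .E

/-- a boundary edge: the inner vertex and the direction of the outer one -/
abbrev St := (ℤ × ℤ) × Dir

/-- the next boundary edge after a turn -/
def nxt : Turn → St → St
  | .L, e => (e.1, e.2.rot)
  | .F, e => (e.1 + e.2.rot.vec, e.2)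
  | .R, e => (e.1 + e.2.vec + e.2.rot.vec, e.2.rot.rot.rot)

/-- sign of a boundary edge -/
def sgn : St → ℤ := fun e => match e.2 with
  | .E => 1
  | .N => 1
  | .W => -1
  | .S => -1

/-- height of the starting point of the dual edge -/
def phi : St → ℤ := fun e => match e.2 with
  | .E => e.1.2 - e.1.1 - 1
  | .N => e.1.2 - e.1.1
  | .W => e.1.2 - e.1.1 + 1
  | .S => e.1.2 - e.1.1

lemma phi_nxt (w : Turn) (e : St) : phi (nxt w e) = phi e + sgn e := by
  obtain ⟨⟨x, y⟩, d⟩ := e
  cases w <;> cases d <;> simp [phi, nxt, sgn, Dir.rot, Dir.vec] <;> ring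

/-- the square -/
def Q (k : ℕ) (v : ℤ × ℤ) : Prop := 0 ≤ v.1 ∧ v.1 ≤ k ∧ 0 ≤ v.2 ∧ v.2 ≤ k

instance (k : ℕ) : DecidablePred (Q k) := fun v => by unfold Q; infer_instance

variable (k : ℕ) (A : ℤ × ℤ → Prop)

/-- boundary edges inside the square -/
def Dst (e : St) : Prop := A e.1 ∧ Q k (e.1 + e.2.vec) ∧ ¬ A (e.1 + e.2.vec)

/-- the dual path leaves the square -/
def Exit (e : St) : Prop := ¬ Q k (e.1 + e.2.rot.vec)

variable [DecidablePred A]

/-- the successor -/
def succ (e : St) : St :=
  if ¬ A (e.1 + e.2.rot.vec) then nxt .L e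
  else if ¬ A (e.1 + e.2.vec + e.2.rot.vec) then nxt .F e
  else nxt .R e

/-- the predecessor -/
def prd (e : St) : St :=
  if ¬ A (e.1 - e.2.rot.vec) then (e.1, e.2.rot.rot.rot)
  else if ¬ A (e.1 + e.2.vec - e.2.rot.vec) then (e.1 - e.2.rot.vec, e.2)
  else (e.1 + e.2.vec - e.2.rot.vec, e.2.rot)

lemma rot4 (d : Dir) : d.rot.rot.rot.rot = d := by cases d <;> rfl

lemma vec_rot2 (d : Dir) : d.rot.rot.vec = - d.vec := by cases d <;> rfl

lemma vec_rot3 (d : Dir) : d.rot.rot.rot.vec = - d.rot.vec := by cases d <;> rfl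

variable {k A}

omit [DecidablePred A] in
lemma prd_left [DecidablePred A] {e : St} (h : ¬ A (e.1 - e.2.rot.vec)) :
    prd A e = (e.1, e.2.rot.rot.rot) := by
  unfold prd; rw [if_pos h]

omit [DecidablePred A] in
lemma prd_straight [DecidablePred A] {e : St} (h : A (e.1 - e.2.rot.vec))
    (h' : ¬ A (e.1 + e.2.vec - e.2.rot.vec)) :
    prd A e = (e.1 - e.2.rot.vec, e.2) := by
  unfold prd; rw [if_neg (not_not.2 h), if_pos h']

omit [DecidablePred A] in
lemma prd_right [DecidablePred A] {e : St} (h : A (e.1 - e.2.rot.vec))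
    (h' : A (e.1 + e.2.vec - e.2.rot.vec)) :
    prd A e = (e.1 + e.2.vec - e.2.rot.vec, e.2.rot) := by
  unfold prd; rw [if_neg (not_not.2 h), if_neg (not_not.2 h')]

omit [DecidablePred A] in
lemma succ_left [DecidablePred A] {e : St} (h : ¬ A (e.1 + e.2.rot.vec)) :
    succ A e = nxt .L e := by
  unfold succ; rw [if_pos h]

omit [DecidablePred A] in
lemma succ_straight [DecidablePred A] {e : St} (h : A (e.1 + e.2.rot.vec))
    (h' : ¬ A (e.1 + e.2.vec + e.2.rot.vec)) :
    succ A e = nxt .F e := by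
  unfold succ; rw [if_neg (not_not.2 h), if_pos h']

omit [DecidablePred A] in
lemma succ_right [DecidablePred A] {e : St} (h : A (e.1 + e.2.rot.vec))
    (h' : A (e.1 + e.2.vec + e.2.rot.vec)) :
    succ A e = nxt .R e := by
  unfold succ; rw [if_neg (not_not.2 h), if_neg (not_not.2 h')]

lemma succ_turn (e : St) : ∃ w, succ A e = nxt w e := by
  by_cases c1 : A (e.1 + e.2.rot.vec)
  · by_cases c2 : A (e.1 + e.2.vec + e.2.rot.vec)
    · exact ⟨_, succ_right c1 c2⟩
    · exact ⟨_, succ_straight c1 c2⟩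
  · exact ⟨_, succ_left c1⟩

lemma prd_succ {e : St} (h : Dst k A e) : prd A (succ A e) = e := by
  obtain ⟨v, d⟩ := e
  obtain ⟨h1, h2, h3⟩ := h
  simp only at h1 h2 h3
  by_cases c1 : A (v + d.rot.vec)
  · by_cases c2 : A (v + d.vec + d.rot.vec)
    · rw [succ_right c1 c2]
      have e1 : v + d.vec + d.rot.vec - d.vec = v + d.rot.vec := by abel
      have e2 : v + d.vec + d.rot.vec + -d.rot.vec - d.vec = v := by abel
      rw [prd_right]
      · simp only [nxt]
        rw [rot4, vec_rot3, e2]
      · simp only [nxt]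
        rw [rot4, e1]; exact c1
      · simp only [nxt]
        rw [rot4, vec_rot3, e2]; exact h1
    · rw [succ_straight c1 c2]
      have e1 : v + d.rot.vec - d.rot.vec = v := by abel
      have e2 : v + d.rot.vec + d.vec - d.rot.vec = v + d.vec := by abel
      rw [prd_straight]
      · simp only [nxt]
        rw [e1]
      · simp only [nxt]
        rw [e1]; exact h1
      · simp only [nxt]
        rw [e2]; exact h3
  · rw [succ_left c1, prd_left]
    · simp only [nxt]
      rw [rot4]
    · simp only [nxt]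
      rw [vec_rot2, sub_neg_eq_add]
      exact h3

lemma Q_corner {k : ℕ} {v : ℤ × ℤ} {d : Dir} (h0 : Q k v) (h1 : Q k (v + d.vec))
    (h2 : Q k (v + d.rot.vec)) : Q k (v + d.vec + d.rot.vec) := by
  obtain ⟨x, y⟩ := v
  cases d <;> simp only [Q, Dir.vec, Dir.rot, Prod.mk_add_mk] at * <;> omega

lemma Dst_succ (hAQ : ∀ v, A v → Q k v) {e : St} (h : Dst k A e) (hx : ¬ Exit k e) :
    Dst k A (succ A e) := by
  obtain ⟨v, d⟩ := e
  obtain ⟨h1, h2, h3⟩ := h
  simp only [Exit, not_not] at hx
  simp only at h1 h2 h3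
  by_cases c1 : A (v + d.rot.vec)
  · by_cases c2 : A (v + d.vec + d.rot.vec)
    · rw [succ_right c1 c2]
      have e1 : v + d.vec + d.rot.vec + -d.rot.vec = v + d.vec := by abel
      refine ⟨c2, ?_, ?_⟩
      · simp only [nxt]
        rw [vec_rot3, e1]; exact h2
      · simp only [nxt]
        rw [vec_rot3, e1]; exact h3
    · rw [succ_straight c1 c2]
      refine ⟨c1, ?_, ?_⟩
      · simp only [nxt]
        have := Q_corner (hAQ v h1) h2 hx
        rwa [add_right_comm] at this
      · simp only [nxt]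
        rwa [add_right_comm]
  · rw [succ_left c1]
    exact ⟨h1, hx, c1⟩

lemma not_entrance (hAQ : ∀ v, A v → Q k v) {e : St} (h : Dst k A e) (hx : ¬ Exit k e) :
    Q k ((succ A e).1 - (succ A e).2.rot.vec) := by
  obtain ⟨v, d⟩ := e
  obtain ⟨h1, h2, h3⟩ := h
  simp only [Exit, not_not] at hx
  simp only at h1 h2 h3
  by_cases c1 : A (v + d.rot.vec)
  · by_cases c2 : A (v + d.vec + d.rot.vec)
    · rw [succ_right c1 c2]
      have e1 : v + d.vec + d.rot.vec - d.vec = v + d.rot.vec := by abel
      simp only [nxt]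
      rw [rot4, e1]; exact hx
    · rw [succ_straight c1 c2]
      simp only [nxt]
      rw [add_sub_cancel_right]
      exact hAQ v h1
  · rw [succ_left c1]
    simp only [nxt]
    rw [vec_rot2, sub_neg_eq_add]
    exact h2

/-! ### the lower right arc -/

/-- the lower right arc -/
def arc (k : ℕ) (i : ℕ) : ℤ × ℤ := if i ≤ k then ((i : ℤ), 0) else ((k : ℤ), (i : ℤ) - k)

/-- entrances -/
def ent (k : ℕ) (i : ℕ) : St := (arc k i, if i < k then .E else .N)

/-- exits on the arc -/
def exi (k : ℕ) (i : ℕ) : St := (arc k (i + 1), if i < k then .W else .S)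

lemma arc_inj {k i j : ℕ} (h : arc k i = arc k j) : i = j := by
  unfold arc at h
  split_ifs at h <;> simp only [Prod.mk.injEq] at h <;> omega

lemma arc_Q {k i : ℕ} (h : i ≤ 2 * k) : Q k (arc k i) := by
  unfold arc Q
  split_ifs <;> simp only <;> omega

lemma arc_succ (k i : ℕ) :
    arc k (i + 1) = arc k i + (if i < k then Dir.E else Dir.N).vec := by
  unfold arc
  by_cases h : i < k
  · rw [if_pos (by omega), if_pos (by omega), if_pos h]
    simp [Dir.vec]
  · by_cases h' : i = k
    · subst h'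
      simp [Dir.vec]
    · rw [if_neg (by omega), if_neg (by omega), if_neg h]
      simp only [Dir.vec, Prod.mk_add_mk, Prod.mk.injEq]
      push_cast
      omega

open Finset in
lemma count_arc (χ : ℕ → Prop) [DecidablePred χ] (n : ℕ) :
    ((range n).filter (fun i => χ i ∧ ¬ χ (i + 1))).card + (if χ n then 1 else 0) =
      ((range n).filter (fun i => ¬ χ i ∧ χ (i + 1))).card + (if χ 0 then 1 else 0) := by
  induction n with
  | zero => simp
  | succ n ih =>
    rw [range_add_one, filter_insert, filter_insert]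
    have hn1 : n ∉ (range n).filter (fun i => χ i ∧ ¬ χ (i + 1)) := by simp
    have hn2 : n ∉ (range n).filter (fun i => ¬ χ i ∧ χ (i + 1)) := by simp
    by_cases h1 : χ n <;> by_cases h2 : χ (n + 1) <;>
      simp only [h1, h2, not_true_eq_false, not_false_eq_true, and_true, and_false, and_self,
        if_true, if_false, card_insert_of_notMem hn1, card_insert_of_notMem hn2] at ih ⊢ <;>
      omega

variable (k A)

/-- indices of the entrances -/
def Nidx : Finset ℕ := (Finset.range (2 * k)).filter (fun i => A (arc k i) ∧ ¬ A (arc k (i + 1)))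
/-- indices of the exits -/
def Xidx : Finset ℕ := (Finset.range (2 * k)).filter (fun i => ¬ A (arc k i) ∧ A (arc k (i + 1)))

variable {k A}

lemma card_idx (h0 : A 0) (hk : ¬ A ((k : ℤ), (k : ℤ))) :
    (Nidx k A).card = (Xidx k A).card + 1 := by
  have h := count_arc (fun i => A (arc k i)) (2 * k)
  have e0 : A (arc k 0) := by
    have h1 : arc k 0 = 0 := by simp [arc]
    rw [h1]; exact h0
  have e1 : ¬ A (arc k (2 * k)) := by
    have : arc k (2 * k) = ((k : ℤ), (k : ℤ)) := by
      unfold arc
      split_ifs with h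
      · have : k = 0 := by omega
        subst this; simp
      · simp only [Prod.mk.injEq, true_and]; push_cast; ring
    rwa [this]
  simp only [e0, e1, if_true, if_false] at h
  simpa [Nidx, Xidx] using h

lemma ent_Dst {i : ℕ} (hi : i ∈ Nidx k A) : Dst k A (ent k i) := by
  rw [Nidx, Finset.mem_filter, Finset.mem_range] at hi
  refine ⟨hi.2.1, ?_, ?_⟩
  · simp only [ent]
    rw [← arc_succ]
    exact arc_Q (by omega)
  · simp only [ent]
    rw [← arc_succ]
    exact hi.2.2

lemma ent_entrance {i : ℕ} : ¬ Q k ((ent k i).1 - (ent k i).2.rot.vec) := by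
  unfold ent arc Q
  simp only
  split_ifs <;> simp only [Dir.rot, Dir.vec, Prod.mk_sub_mk] <;> omega

lemma exit_cases {e : St} (hAQ : ∀ v, A v → Q k v) (h : Dst k A e) (hx : Exit k e) :
    (e.2 = .E ∧ e.1.2 = k) ∨ (e.2 = .N ∧ e.1.1 = 0) ∨ ∃ i ∈ Xidx k A, exi k i = e := by
  obtain ⟨⟨x, y⟩, d⟩ := e
  obtain ⟨h1, h2, h3⟩ := h
  have h0 := hAQ _ h1
  simp only [Exit] at hx
  simp only at h1 h2 h3 h0
  cases d
  · left
    simp only [Q, Dir.vec, Dir.rot, Prod.mk_add_mk] at *
    exact ⟨trivial, by omega⟩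
  · right; left
    simp only [Q, Dir.vec, Dir.rot, Prod.mk_add_mk] at *
    exact ⟨trivial, by omega⟩
  · right; right
    simp only [Q, Dir.vec, Dir.rot, Prod.mk_add_mk] at *
    have hy : y = 0 := by omega
    subst hy
    obtain ⟨i, hi⟩ : ∃ i : ℕ, x = i + 1 := ⟨(x - 1).toNat, by omega⟩
    subst hi
    have hik : i < k := by omega
    have e1 : arc k i = ((i : ℤ), 0) := by unfold arc; rw [if_pos (by omega)]
    have e2 : arc k (i + 1) = ((i : ℤ) + 1, 0) := by
      unfold arc; rw [if_pos (by omega)]; push_cast; rfl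
    refine ⟨i, ?_, ?_⟩
    · rw [Xidx, Finset.mem_filter, Finset.mem_range, e1, e2]
      refine ⟨by omega, ?_, h1⟩
      have : ((i : ℤ) + 1 + -1, (0 : ℤ) + 0) = ((i : ℤ), 0) := by
        simp
      rwa [this] at h3
    · unfold exi
      rw [e2, if_pos hik]
  · right; right
    simp only [Q, Dir.vec, Dir.rot, Prod.mk_add_mk] at *
    have hx : x = k := by omega
    subst hx
    obtain ⟨j, hj⟩ : ∃ j : ℕ, y = j + 1 := ⟨(y - 1).toNat, by omega⟩
    subst hj
    have e1 : arc k (k + j) = ((k : ℤ), (j : ℤ)) := by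
      unfold arc
      split_ifs with h
      · have : j = 0 := by omega
        subst this; simp
      · simp only [Prod.mk.injEq, true_and]; push_cast; ring
    have e2 : arc k (k + j + 1) = ((k : ℤ), (j : ℤ) + 1) := by
      unfold arc
      rw [if_neg (by omega)]
      simp only [Prod.mk.injEq, true_and]; push_cast; ring
    refine ⟨k + j, ?_, ?_⟩
    · rw [Xidx, Finset.mem_filter, Finset.mem_range, e1, e2]
      refine ⟨by omega, ?_, h1⟩
      have : ((k : ℤ) + 0, (j : ℤ) + 1 + -1) = ((k : ℤ), (j : ℤ)) := by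
        simp
      rwa [this] at h3
    · unfold exi
      rw [e2, if_neg (by omega)]

/-- the contour lemma -/
theorem contour (hAQ : ∀ v, A v → Q k v) (h0 : A 0) (hk : ¬ A ((k : ℤ), (k : ℤ))) :
    ∃ i ∈ Nidx k A, ∃ n : ℕ, (∀ j ≤ n, Dst k A ((succ A)^[j] (ent k i))) ∧
      (∀ j < n, ¬ Exit k ((succ A)^[j] (ent k i))) ∧
      ((((succ A)^[n] (ent k i)).2 = .E ∧ ((succ A)^[n] (ent k i)).1.2 = k) ∨
       (((succ A)^[n] (ent k i)).2 = .N ∧ ((succ A)^[n] (ent k i)).1.1 = 0)) := by
  classical
  by_contra hcon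
  push Not at hcon
  set D : Finset St := ((Finset.Icc (0 : ℤ) k ×ˢ Finset.Icc (0 : ℤ) k) ×ˢ
    (Finset.univ : Finset Dir)).filter (fun e => Dst k A e) with hD
  have memD : ∀ e : St, Dst k A e → e ∈ D := by
    intro e he
    have h1 := hAQ _ he.1
    obtain ⟨a1, a2, a3, a4⟩ := h1
    rw [hD, Finset.mem_filter, Finset.mem_product, Finset.mem_product, Finset.mem_Icc,
      Finset.mem_Icc]
    exact ⟨⟨⟨⟨a1, a2⟩, ⟨a3, a4⟩⟩, Finset.mem_univ _⟩, he⟩
  set Reach : St → Prop := fun e => ∃ i ∈ Nidx k A, ∃ n : ℕ, (succ A)^[n] (ent k i) = e ∧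
    (∀ j < n, Dst k A ((succ A)^[j] (ent k i)) ∧ ¬ Exit k ((succ A)^[j] (ent k i))) with hReach
  set R : Finset St := D.filter Reach with hR
  have hDR : ∀ e ∈ R, Dst k A e := fun e he =>
    (Finset.mem_filter.1 (Finset.mem_filter.1 he).1).2
  -- exits of `R` are in the arc
  have hexit : R.filter (fun e => Exit k e) ⊆ (Xidx k A).image (exi k) := by
    intro e he
    rw [Finset.mem_filter] at he
    obtain ⟨heR, hex⟩ := he
    have hd := hDR e heR
    obtain ⟨i, hi, n, hn, hj⟩ := (Finset.mem_filter.1 heR).2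
    have hc := hcon i hi n (by
      intro j hjn
      rcases Nat.lt_or_eq_of_le hjn with h | h
      · exact (hj j h).1
      · subst h; rw [hn]; exact hd) (fun j h => (hj j h).2)
    rw [hn] at hc
    rcases exit_cases hAQ hd hex with ⟨c1, c2⟩ | ⟨c1, c2⟩ | ⟨l, hl, hle⟩
    · exact absurd c2 (hc.1 c1)
    · exact absurd c2 (hc.2 c1)
    · exact Finset.mem_image.2 ⟨l, hl, hle⟩
  have hN : (Nidx k A).image (ent k) ⊆ R := by
    intro e he
    obtain ⟨i, hi, rfl⟩ := Finset.mem_image.1 he
    rw [hR, Finset.mem_filter]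
    refine ⟨memD _ (ent_Dst hi), i, hi, 0, rfl, ?_⟩
    intro j hj; omega
  have hNc : ((Nidx k A).image (ent k)).card = (Nidx k A).card := by
    apply Finset.card_image_of_injOn
    intro i _ j _ h
    have h' : ent k i = ent k j := h
    exact arc_inj (congrArg Prod.fst h')
  have hmap : ∀ e ∈ R.filter (fun e => ¬ Exit k e),
      succ A e ∈ R \ (Nidx k A).image (ent k) := by
    intro e he
    rw [Finset.mem_filter] at he
    obtain ⟨heR, hex⟩ := he
    have hd := hDR e heR
    obtain ⟨i, hi, n, hn, hj⟩ := (Finset.mem_filter.1 heR).2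
    rw [Finset.mem_sdiff]
    constructor
    · rw [hR, Finset.mem_filter]
      refine ⟨memD _ (Dst_succ hAQ hd hex), i, hi, n + 1, ?_, ?_⟩
      · rw [Function.iterate_succ_apply', hn]
      · intro j hjn
        rcases Nat.lt_or_eq_of_le (Nat.lt_succ_iff.1 hjn) with h | h
        · exact hj j h
        · subst h; rw [hn]; exact ⟨hd, hex⟩
    · intro hmem
      obtain ⟨l, _, hl⟩ := Finset.mem_image.1 hmem
      have h1 := not_entrance hAQ hd hex
      rw [← hl] at h1
      exact ent_entrance h1
  have hinj : Set.InjOn (succ A) (R.filter (fun e => ¬ Exit k e) : Set St) := by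
    intro e he e' he' h
    have h1 := prd_succ (hDR e (Finset.mem_filter.1 he).1)
    have h2 := prd_succ (hDR e' (Finset.mem_filter.1 he').1)
    have h3 : succ A e = succ A e' := h
    rw [← h1, ← h2, h3]
  have hle := Finset.card_le_card_of_injOn (succ A) hmap hinj
  have h1 : (R.filter (fun e => ¬ Exit k e)).card + (R.filter (fun e => Exit k e)).card =
      R.card := by
    rw [add_comm]
    exact Finset.card_filter_add_card_filter_not (fun e => Exit k e)
  have h2 : (R \ (Nidx k A).image (ent k)).card = R.card - (Nidx k A).card := by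
    rw [Finset.card_sdiff_of_subset hN, hNc]
  have h3 : (Nidx k A).card ≤ R.card := by
    rw [← hNc]; exact Finset.card_le_card hN
  have h4 := (Finset.card_le_card hexit).trans Finset.card_image_le
  have h5 := card_idx h0 hk
  omega

end Pool.Agent.W822.Cont
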