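import Pool.Agent.W822.Cols
import Pool.Agent.W822.Contour

/-!
The diagonal direction: the passage time exceeds its trivial lower bound by a quantity with
exponential tails.
-/

set_option autoImplicit false

open MeasureTheory ProbabilityTheory Filter Topology
open scoped ENNReal NNReal

namespace Pool.Agent.W822.FPP

open Pool.Agent.W822.Cont

/-- horizontal edge -/
def hE (x y : ℕ) : Sym2 V := s(((x : ℤ), (y : ℤ)), ((x : ℤ) + 1, (y : ℤ)))
/-- vertical edge -/
def vE (x y : ℕ) : Sym2 V := s(((x : ℤ), (y : ℤ)), ((x : ℤ), (y : ℤ) + 1))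

/-- minimal number of high edges on up-right paths from `0` -/
def DD (ω : Om) : ℕ → ℕ → ℕ
  | 0, 0 => 0
  | x + 1, 0 => DD ω x 0 + bit ω (hE x 0)
  | 0, y + 1 => DD ω 0 y + bit ω (vE 0 y)
  | x + 1, y + 1 => min (DD ω x (y + 1) + bit ω (hE x (y + 1)))
      (DD ω (x + 1) y + bit ω (vE (x + 1) y))
termination_by x y => x + y

lemma DD_right (ω : Om) (x y : ℕ) : DD ω (x + 1) y ≤ DD ω x y + bit ω (hE x y) := by
  cases y with
  | zero => rw [DD]
  | succ y => rw [DD]; exact min_le_left _ _

lemma DD_up (ω : Om) (x y : ℕ) : DD ω x (y + 1) ≤ DD ω x y + bit ω (vE x y) := by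
  cases x with
  | zero => rw [DD]
  | succ x => rw [DD]; exact min_le_right _ _

lemma DD_le (ω : Om) (x y : ℕ) : DD ω x y ≤ x + y := by
  induction x with
  | zero =>
    induction y with
    | zero => rw [DD]
    | succ y ih => have := DD_up ω 0 y; have := bit_le ω (vE 0 y); omega
  | succ x ih => have := DD_right ω x y; have := bit_le ω (hE x y); omega

lemma DD_lip_right (ω : Om) (x y i : ℕ) : DD ω (x + i) y ≤ DD ω x y + i := by
  induction i with
  | zero => simp
  | succ i ih =>
    have := DD_right ω (x + i) y; have := bit_le ω (hE (x + i) y)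
    rw [← add_assoc]; omega

lemma DD_lip_up (ω : Om) (x y i : ℕ) : DD ω x (y + i) ≤ DD ω x y + i := by
  induction i with
  | zero => simp
  | succ i ih =>
    have := DD_up ω x (y + i); have := bit_le ω (vE x (y + i))
    rw [← add_assoc]; omega

lemma bit_eq_ind (ω : Om) (e : Sym2 V) : (bit ω e : ℝ) = ind ω e := by
  unfold bit ind; split_ifs <;> simp

variable {a : ℝ}

lemma T_step (ha : 0 ≤ a) (ω : Om) {u v w : V} (h : lat.Adj v w) :
    T a ω u w ≤ T a ω u v + 1 + a * bit ω s(v, w) := by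
  have h1 := T_tri ha ω u v w
  have h2 := T_le_cost ha ω (SimpleGraph.Walk.cons h SimpleGraph.Walk.nil)
  have h3 : cost a ω (SimpleGraph.Walk.cons h SimpleGraph.Walk.nil) = 1 + a * bit ω s(v, w) := by
    rw [bit_eq_ind]; simp [cost]
  linarith

lemma T_le_DD (ha : 0 ≤ a) (ω : Om) (x y : ℕ) :
    T a ω 0 ((x : ℤ), (y : ℤ)) ≤ x + y + a * DD ω x y := by
  have hh : ∀ x y : ℕ, lat.Adj ((x : ℤ), (y : ℤ)) (((x + 1 : ℕ) : ℤ), (y : ℤ)) := by
    intro x y; simp [lat]
  have hv : ∀ x y : ℕ, lat.Adj ((x : ℤ), (y : ℤ)) ((x : ℤ), ((y + 1 : ℕ) : ℤ)) := by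
    intro x y; simp [lat]
  have sh : ∀ x y : ℕ, T a ω 0 ((x : ℤ), (y : ℤ)) ≤ x + y + a * DD ω x y →
      T a ω 0 (((x + 1 : ℕ) : ℤ), (y : ℤ)) ≤
        ((x + 1 : ℕ) : ℝ) + y + a * ((DD ω x y + bit ω (hE x y) : ℕ) : ℝ) := by
    intro x y h
    have h1 := T_step ha ω (u := 0) (hh x y)
    have h2 : hE x y = s(((x : ℤ), (y : ℤ)), (((x + 1 : ℕ) : ℤ), (y : ℤ))) := by
      unfold hE; push_cast; rfl
    rw [h2]
    push_cast at h1 ⊢
    linarith
  have sv : ∀ x y : ℕ, T a ω 0 ((x : ℤ), (y : ℤ)) ≤ x + y + a * DD ω x y →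
      T a ω 0 ((x : ℤ), ((y + 1 : ℕ) : ℤ)) ≤
        (x : ℝ) + ((y + 1 : ℕ) : ℝ) + a * ((DD ω x y + bit ω (vE x y) : ℕ) : ℝ) := by
    intro x y h
    have h1 := T_step ha ω (u := 0) (hv x y)
    have h2 : vE x y = s(((x : ℤ), (y : ℤ)), ((x : ℤ), ((y + 1 : ℕ) : ℤ))) := by
      unfold vE; push_cast; rfl
    rw [h2]
    push_cast at h1 ⊢
    linarith
  obtain ⟨n, hn⟩ : ∃ n, x + y = n := ⟨_, rfl⟩
  induction n generalizing x y with
  | zero =>
    obtain ⟨rfl, rfl⟩ : x = 0 ∧ y = 0 := by omega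
    have h0 : (((0 : ℕ) : ℤ), ((0 : ℕ) : ℤ)) = (0 : V) := rfl
    rw [h0, T_self ha, DD]
    simp
  | succ n ih =>
    cases x with
    | zero =>
      cases y with
      | zero => omega
      | succ y =>
        rw [DD]
        exact sv 0 y (ih 0 y (by omega))
    | succ x =>
      cases y with
      | zero =>
        rw [DD]
        exact sh x 0 (ih x 0 (by omega))
      | succ y =>
        rw [DD]
        have h1 := sh x (y + 1) (ih x (y + 1) (by omega))
        have h2 := sv (x + 1) y (ih (x + 1) y (by omega))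
        rcases min_choice (DD ω x (y + 1) + bit ω (hE x (y + 1)))
          (DD ω (x + 1) y + bit ω (vE (x + 1) y)) with h | h <;> rw [h] <;> assumption

/-! ### the chain of boundary edges -/

/-- states visited with the turns `w` -/
def stt (w : ℕ → Turn) (e : St) : ℕ → St
  | 0 => e
  | i + 1 => nxt (w i) (stt w e i)

lemma stt_congr {w w' : ℕ → Turn} {e : St} {n : ℕ} (h : ∀ i < n, w i = w' i) :
    ∀ j ≤ n, stt w e j = stt w' e j := by
  intro j
  induction j with
  | zero => intro _; rfl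
  | succ j ih =>
    intro hj
    simp only [stt]
    rw [ih (by omega), h j (by omega)]

lemma sum_sgn (w : ℕ → Turn) (e : St) (n : ℕ) :
    ∑ j ∈ Finset.range n, sgn (stt w e j) = phi (stt w e n) - phi e := by
  induction n with
  | zero => simp [stt]
  | succ n ih =>
    rw [Finset.sum_range_succ, ih]
    simp only [stt]
    rw [phi_nxt]
    ring

/-- constrained boundary edges -/
def Costly (e : St) : Prop := e.2 = .E ∨ e.2 = .N

instance : DecidablePred Costly := fun e => by unfold Costly; infer_instance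

lemma sgn_eq (e : St) : sgn e = (if Costly e then 1 else 0) - (if ¬ Costly e then 1 else 0) := by
  obtain ⟨v, d⟩ := e
  cases d <;> simp [sgn, Costly]

/-- the primal edge -/
def edg (e : St) : Sym2 V := s(e.1, e.1 + e.2.vec)

lemma edg_inj {e e' : St} (h : Costly e) (h' : Costly e') (he : edg e = edg e') : e = e' := by
  obtain ⟨⟨x, y⟩, d⟩ := e
  obtain ⟨⟨x', y'⟩, d'⟩ := e'
  unfold edg at he
  rw [Sym2.eq_iff] at he
  simp only [Costly] at h h'
  rcases h with rfl | rfl <;> rcases h' with rfl | rfl <;>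
    simp only [Dir.vec, Prod.mk_add_mk, Prod.mk.injEq, reduceCtorEq, and_false, and_true]
      at he ⊢ <;> omega

/-- the constrained edges of a chain -/
def Ecost (w : ℕ → Turn) (e : St) (n : ℕ) : Finset (Sym2 V) :=
  ((Finset.range (n + 1)).filter (fun i => Costly (stt w e i))).image (fun i => edg (stt w e i))

/-- possible starting states -/
def starts (k n : ℕ) : Finset St :=
  (Finset.range (n + 1)).image (ent k) ∪ (Finset.range (n + 2)).image (fun j => ent k (2 * k - j))

lemma card_starts (k n : ℕ) : (starts k n).card ≤ 2 * n + 3 := by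
  unfold starts
  have h1 := Finset.card_union_le ((Finset.range (n + 1)).image (ent k))
    ((Finset.range (n + 2)).image (fun j => ent k (2 * k - j)))
  have h2 : ((Finset.range (n + 1)).image (ent k)).card ≤ n + 1 := by
    simpa using Finset.card_image_le (s := Finset.range (n + 1)) (f := ent k)
  have h3 : ((Finset.range (n + 2)).image (fun j => ent k (2 * k - j))).card ≤ n + 2 := by
    simpa using Finset.card_image_le (s := Finset.range (n + 2)) (f := fun j => ent k (2 * k - j))
  omega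

/-- extension of finitely many turns -/
def extw {n : ℕ} (w : Fin n → Turn) (i : ℕ) : Turn := if h : i < n then w ⟨i, h⟩ else .L

lemma costly_high {ω : Om} {k s : ℕ} {f : St} (hc : Costly f) (hQ : Q k f.1)
    (hle : DD ω f.1.1.toNat f.1.2.toNat ≤ s)
    (hgt : s < DD ω (f.1 + f.2.vec).1.toNat (f.1 + f.2.vec).2.toNat)
    (hbit : bit ω (edg f) = 0) : False := by
  obtain ⟨⟨x, y⟩, d⟩ := f
  obtain ⟨q1, q2, q3, q4⟩ := hQ
  simp only at q1 q2 q3 q4 hle
  obtain ⟨x, rfl⟩ := Int.eq_ofNat_of_zero_le q1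
  obtain ⟨y, rfl⟩ := Int.eq_ofNat_of_zero_le q3
  simp only [Int.toNat_natCast] at hle
  rcases hc with h1 | h1
  · simp only at h1
    subst h1
    have h2 := DD_right ω x y
    have h3 : edg (((x : ℤ), (y : ℤ)), Dir.E) = hE x y := by
      simp [edg, hE, Dir.vec]
    rw [h3] at hbit
    have h4 : (((x : ℤ), (y : ℤ)) + Dir.E.vec).1.toNat = x + 1 := by
      simp only [Dir.vec, Prod.mk_add_mk]; omega
    have h5 : (((x : ℤ), (y : ℤ)) + Dir.E.vec).2.toNat = y := by
      simp only [Dir.vec, Prod.mk_add_mk]; omega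
    simp only [h4, h5] at hgt
    omega
  · simp only at h1
    subst h1
    have h2 := DD_up ω x y
    have h3 : edg (((x : ℤ), (y : ℤ)), Dir.N) = vE x y := by
      simp [edg, vE, Dir.vec]
    rw [h3] at hbit
    have h4 : (((x : ℤ), (y : ℤ)) + Dir.N.vec).1.toNat = x := by
      simp only [Dir.vec, Prod.mk_add_mk]; omega
    have h5 : (((x : ℤ), (y : ℤ)) + Dir.N.vec).2.toNat = y + 1 := by
      simp only [Dir.vec, Prod.mk_add_mk]; omega
    simp only [h4, h5] at hgt
    omega

theorem det_chain (ω : Om) (k s : ℕ) (h : 2 * s < DD ω k k) :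
    ∃ n < 4 * (k + 1) ^ 2, 2 * s + 1 ≤ n ∧ ∃ e ∈ starts k n, ∃ w : Fin n → Turn,
      n + 1 ≤ 2 * (Ecost (extw w) e n).card ∧ ∀ f ∈ Ecost (extw w) e n, ω f = true := by
  classical
  set A : ℤ × ℤ → Prop := fun v => Q k v ∧ DD ω v.1.toNat v.2.toNat ≤ s with hA
  have hAQ : ∀ v, A v → Q k v := fun v hv => hv.1
  have hA0 : A 0 := by
    refine ⟨by simp [Q], ?_⟩
    have : DD ω (0 : ℤ × ℤ).1.toNat (0 : ℤ × ℤ).2.toNat = 0 := by
      show DD ω 0 0 = 0
      rw [DD]
    rw [this]; exact Nat.zero_le _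
  have hAk : ¬ A ((k : ℤ), (k : ℤ)) := by
    rintro ⟨_, h1⟩
    simp only [Int.toNat_natCast] at h1
    omega
  -- points near `0` are in `A`, points near `(k,k)` are not
  have near0 : ∀ v, Q k v → ¬ A v → (s : ℤ) + 1 ≤ v.1 + v.2 := by
    rintro ⟨x, y⟩ hQ hv
    by_contra hc
    apply hv
    refine ⟨hQ, ?_⟩
    obtain ⟨q1, q2, q3, q4⟩ := hQ
    simp only at q1 q2 q3 q4 hc ⊢
    have := DD_le ω x.toNat y.toNat
    omega
  have neark : ∀ v, A v → (s : ℤ) + 1 ≤ (k - v.1) + (k - v.2) := by
    rintro ⟨x, y⟩ ⟨hQ, hv⟩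
    obtain ⟨q1, q2, q3, q4⟩ := hQ
    simp only at q1 q2 q3 q4 hv ⊢
    obtain ⟨x, rfl⟩ := Int.eq_ofNat_of_zero_le q1
    obtain ⟨y, rfl⟩ := Int.eq_ofNat_of_zero_le q3
    simp only [Int.toNat_natCast] at hv
    have h1 := DD_lip_right ω x k (k - x)
    have h2 := DD_lip_up ω x y (k - y)
    rw [show x + (k - x) = k by omega] at h1
    rw [show y + (k - y) = k by omega] at h2
    omega
  obtain ⟨i, hi, n, hD, hX, hend⟩ := contour hAQ hA0 hAk
  set e : ℕ → St := fun j => (Pool.Agent.W822.Cont.succ A)^[j] (ent k i) with he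
  have he0 : e 0 = ent k i := rfl
  have hes : ∀ j, e (j + 1) = Pool.Agent.W822.Cont.succ A (e j) := fun j =>
    Function.iterate_succ_apply' _ _ _
  choose W hW using fun j => succ_turn (A := A) (e j)
  have hst : ∀ j, stt W (ent k i) j = e j := by
    intro j
    induction j with
    | zero => rfl
    | succ j ih => rw [hes, hW j, ← ih]; rfl
  set w : Fin n → Turn := fun j => W j with hw
  have hst' : ∀ j ≤ n, stt (extw w) (ent k i) j = e j := by
    intro j hj
    rw [← hst j]
    apply stt_congr (n := n) _ j hj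
    intro l hl
    simp [extw, hl, hw]
  -- distinctness
  have hinj : ∀ j₁ j₂, j₁ < j₂ → j₂ ≤ n → e j₁ ≠ e j₂ := by
    intro j₁
    induction j₁ with
    | zero =>
      intro j₂ h1 h2 h3
      obtain ⟨j, rfl⟩ : ∃ j, j₂ = j + 1 := ⟨j₂ - 1, by omega⟩
      have h4 := not_entrance hAQ (hD j (by omega)) (hX j (by omega))
      have h5 : (Pool.Agent.W822.Cont.succ A) ((Pool.Agent.W822.Cont.succ A)^[j] (ent k i)) =
          ent k i := by
        have := hes j
        simp only [he] at this h3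
        rw [← this, ← h3]
        rfl
      rw [h5] at h4
      exact ent_entrance h4
    | succ j₁ ih =>
      intro j₂ h1 h2 h3
      obtain ⟨j, rfl⟩ : ∃ j, j₂ = j + 1 := ⟨j₂ - 1, by omega⟩
      apply ih j (by omega) (by omega)
      rw [hes, hes] at h3
      have h4 := prd_succ (hD j₁ (by omega))
      have h5 := prd_succ (hD j (by omega))
      have h6 : prd A (Pool.Agent.W822.Cont.succ A (e j₁)) =
          prd A (Pool.Agent.W822.Cont.succ A (e j)) := by rw [h3]
      have h7 : prd A (Pool.Agent.W822.Cont.succ A (e j₁)) = e j₁ := h4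
      have h8 : prd A (Pool.Agent.W822.Cont.succ A (e j)) = e j := h5
      rw [h7, h8] at h6
      exact h6
  have hinj' : Set.InjOn e (Finset.range (n + 1) : Set ℕ) := by
    intro j₁ h1 j₂ h2 h3
    rw [Finset.coe_range, Set.mem_Iio] at h1 h2
    rcases lt_trichotomy j₁ j₂ with h | h | h
    · exact absurd h3 (hinj _ _ h (by omega))
    · exact h
    · exact absurd h3.symm (hinj _ _ h (by omega))
  -- displacement
  have hsum : ∑ j ∈ Finset.range (n + 1), sgn (e j) = phi (e n) + sgn (e n) - phi (ent k i) := by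
    have h1 := sum_sgn W (ent k i) n
    simp only [hst] at h1
    rw [Finset.sum_range_succ, h1]
    ring
  have hDn := hD n le_rfl
  have hend' : (s : ℤ) + 1 ≤ phi (e n) + sgn (e n) := by
    have hDn' : Dst k A (e n) := hDn
    rcases hend with ⟨c1, c2⟩ | ⟨c1, c2⟩
    · have c1' : (e n).2 = .E := c1
      have c2' : (e n).1.2 = k := c2
      have h1 := neark _ hDn'.1
      have h2 : phi (e n) + sgn (e n) = (e n).1.2 - (e n).1.1 := by
        simp only [phi, sgn, c1']; ring
      rw [h2]
      omega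
    · have c1' : (e n).2 = .N := c1
      have c2' : (e n).1.1 = 0 := c2
      have h1 := near0 _ hDn'.2.1 hDn'.2.2
      have h2 : phi (e n) + sgn (e n) = (e n).1.2 - (e n).1.1 + 1 := by
        simp only [phi, sgn, c1']
      rw [h2]
      rw [c1'] at h1
      simp only [Dir.vec, Prod.fst_add, Prod.snd_add] at h1
      omega
  have hi' := hi
  rw [Nidx, Finset.mem_filter, Finset.mem_range] at hi'
  have hi2k : i < 2 * k := hi'.1
  have hstart : (s : ℤ) + 1 ≤ - phi (ent k i) ∧ (i < k → - phi (ent k i) = i + 1) ∧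
      (¬ i < k → - phi (ent k i) = 2 * k - i) := by
    have hD0 : Dst k A (ent k i) := ent_Dst hi
    by_cases hik : i < k
    · have e1 : ent k i = (((i : ℤ), 0), .E) := by
        unfold ent arc; rw [if_pos (by omega), if_pos hik]
      have e2 : phi (ent k i) = -(i : ℤ) - 1 := by rw [e1]; simp [phi]
      refine ⟨?_, fun _ => by rw [e2]; ring, fun h => absurd hik h⟩
      have h1 := near0 _ hD0.2.1 hD0.2.2
      rw [e1] at h1
      simp only [Dir.vec, Prod.mk_add_mk] at h1
      rw [e2]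
      omega
    · have e1 : ent k i = (((k : ℤ), (i : ℤ) - k), .N) := by
        unfold ent arc
        rw [if_neg hik]
        split_ifs with h
        · have : i = k := by omega
          subst this; simp
        · rfl
      have e2 : phi (ent k i) = (i : ℤ) - 2 * k := by rw [e1]; simp [phi]; ring
      refine ⟨?_, fun h => absurd h hik, fun _ => by rw [e2]; ring⟩
      have h1 := neark _ hD0.1
      rw [e1] at h1
      simp only at h1
      rw [e2]
      omega
  -- counting constrained steps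
  have hcount : ∑ j ∈ Finset.range (n + 1), sgn (e j) =
      (((Finset.range (n + 1)).filter (fun j => Costly (e j))).card : ℤ) -
      (((Finset.range (n + 1)).filter (fun j => ¬ Costly (e j))).card : ℤ) := by
    rw [Finset.card_filter, Finset.card_filter]
    push_cast
    rw [← Finset.sum_sub_distrib]
    exact Finset.sum_congr rfl fun j _ => sgn_eq _
  have htot : ((Finset.range (n + 1)).filter (fun j => Costly (e j))).card +
      ((Finset.range (n + 1)).filter (fun j => ¬ Costly (e j))).card = n + 1 := by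
    rw [Finset.card_filter_add_card_filter_not]
    simp
  have hEc : (Ecost (extw w) (ent k i) n).card =
      ((Finset.range (n + 1)).filter (fun j => Costly (e j))).card := by
    have e1 : (Finset.range (n + 1)).filter (fun j => Costly (stt (extw w) (ent k i) j)) =
        (Finset.range (n + 1)).filter (fun j => Costly (e j)) := by
      apply Finset.filter_congr
      intro j hj
      rw [Finset.mem_range] at hj
      rw [hst' j (by omega)]
    unfold Ecost
    rw [Finset.card_image_of_injOn, e1]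
    intro j₁ h1 j₂ h2 h3
    rw [e1] at h1 h2
    have h1' := Finset.mem_filter.1 h1
    have h2' := Finset.mem_filter.1 h2
    have h1r := Finset.mem_range.1 h1'.1
    have h2r := Finset.mem_range.1 h2'.1
    simp only at h3
    rw [hst' j₁ (by omega), hst' j₂ (by omega)] at h3
    exact hinj' (Finset.mem_coe.2 h1'.1) (Finset.mem_coe.2 h2'.1) (edg_inj h1'.2 h2'.2 h3)
  refine ⟨n, ?_, ?_, ent k i, ?_, w, ?_, ?_⟩
  · -- length bound
    have h1 : ((Finset.range (n + 1)).image e).card = n + 1 := by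
      rw [Finset.card_image_of_injOn hinj']; simp
    have h2 : (Finset.range (n + 1)).image e ⊆ (Finset.Icc (0 : ℤ) k ×ˢ Finset.Icc (0 : ℤ) k) ×ˢ
        (Finset.univ : Finset Dir) := by
      intro f hf
      obtain ⟨j, hj, rfl⟩ := Finset.mem_image.1 hf
      have hj' := Finset.mem_range.1 hj
      have h3 := hAQ _ (hD j (by omega)).1
      obtain ⟨a1, a2, a3, a4⟩ := h3
      rw [Finset.mem_product, Finset.mem_product, Finset.mem_Icc, Finset.mem_Icc]
      exact ⟨⟨⟨a1, a2⟩, ⟨a3, a4⟩⟩, Finset.mem_univ _⟩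
    have h3 := Finset.card_le_card h2
    rw [h1, Finset.card_product, Finset.card_product, Int.card_Icc] at h3
    have h4 : (Finset.univ : Finset Dir).card = 4 := rfl
    rw [h4] at h3
    have h5 : ((k : ℤ) + 1 - 0).toNat = k + 1 := by omega
    rw [h5] at h3
    have h6 : (k + 1) * (k + 1) * 4 = 4 * (k + 1) ^ 2 := by ring
    omega
  · omega
  · unfold starts
    rw [Finset.mem_union, Finset.mem_image, Finset.mem_image]
    by_cases hik : i < k
    · left
      have := hstart.2.1 hik
      exact ⟨i, Finset.mem_range.2 (by omega), rfl⟩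
    · right
      have := hstart.2.2 hik
      refine ⟨2 * k - i, Finset.mem_range.2 (by omega), ?_⟩
      congr 1
      omega
  · rw [hEc]
    omega
  · intro f hf
    obtain ⟨j, hj, rfl⟩ := Finset.mem_image.1 hf
    rw [Finset.mem_filter, Finset.mem_range] at hj
    obtain ⟨hj1, hj2⟩ := hj
    rw [hst' j (by omega)] at hj2 ⊢
    have hd : Dst k A (e j) := hD j (by omega)
    obtain ⟨⟨hQ, hle⟩, hQ', hnA⟩ := hd
    have hgt : s < DD ω ((e j).1 + (e j).2.vec).1.toNat ((e j).1 + (e j).2.vec).2.toNat := by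
      by_contra hc
      exact hnA ⟨hQ', by omega⟩
    by_contra hω
    have hbit : bit ω (edg (e j)) = 0 := by
      unfold bit
      rw [if_neg hω]
    exact costly_high hj2 hQ hle hgt hbit

/-! ### probability -/

lemma prob_all_high (K : Finset (Sym2 V)) :
    P.real {ω : Om | ∀ e ∈ K, ω e = true} = q ^ K.card := by
  have h1 : {ω : Om | ∀ e ∈ K, ω e = true} = Set.pi (K : Set (Sym2 V)) (fun _ => {true}) := by
    ext ω; simp [Set.mem_pi]
  have h2 : bern {true} = ENNReal.ofReal q := by
    simp [bern]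
  rw [h1, measureReal_def, P, PP, Measure.infinitePi_pi _ (fun i _ => measurableSet_singleton _)]
  show (∏ _i ∈ K, bern {true}).toReal = _
  rw [h2, Finset.prod_const, ENNReal.toReal_pow, ENNReal.toReal_ofReal q_nonneg]

lemma pow_q_le {m n : ℕ} (h : n + 1 ≤ 2 * m) : q ^ m ≤ (1 / 100) ^ (n + 1) := by
  have h1 : q = (1 / 100) ^ 2 := by unfold q; norm_num
  rw [h1, ← pow_mul]
  exact pow_le_pow_of_le_one (by norm_num) (by norm_num) h

lemma two_n_three (n : ℕ) : (2 * (n : ℝ) + 3) * 3 ^ n * (1 / 100) ^ (n + 1) ≤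
    (6 / 100) ^ (n + 1) := by
  have h1 : (2 * (n : ℝ) + 3) ≤ 3 * 2 ^ n := by
    induction n with
    | zero => norm_num
    | succ n ih =>
      rw [pow_succ]
      push_cast
      have : (1 : ℝ) ≤ 2 ^ n := one_le_pow₀ (by norm_num)
      linarith
  have h2 : (6 / 100 : ℝ) ^ (n + 1) = 2 * 2 ^ n * (3 * 3 ^ n) * (1 / 100) ^ (n + 1) := by
    rw [← pow_succ', ← pow_succ', ← mul_pow, ← mul_pow]
    norm_num
  rw [h2]
  have h3 : (0 : ℝ) < 3 ^ n := by positivity
  have h4 : (0 : ℝ) < (1 / 100) ^ (n + 1) := by positivity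
  apply mul_le_mul_of_nonneg_right _ h4.le
  have h5 : (0 : ℝ) < 2 ^ n := by positivity
  nlinarith

theorem prob_DD (k s : ℕ) : P.real {ω : Om | 2 * s < DD ω k k} ≤ (1 / 10) ^ (2 * s + 1) := by
  classical
  set Ev : (n : ℕ) → St → (Fin n → Turn) → Set Om := fun n e w =>
    if n + 1 ≤ 2 * (Ecost (extw w) e n).card then {ω | ∀ f ∈ Ecost (extw w) e n, ω f = true}
    else ∅ with hEv
  have hsub : {ω : Om | 2 * s < DD ω k k} ⊆
      ⋃ n ∈ Finset.Ico (2 * s + 1) (4 * (k + 1) ^ 2), ⋃ e ∈ starts k n,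
        ⋃ w ∈ (Finset.univ : Finset (Fin n → Turn)), Ev n e w := by
    intro ω hω
    obtain ⟨n, hn1, hn2, e, he, w, hw1, hw2⟩ := det_chain ω k s hω
    simp only [Set.mem_iUnion, Finset.mem_Ico, Finset.mem_univ, exists_prop, true_and]
    refine ⟨n, ⟨hn2, hn1⟩, e, he, w, ?_⟩
    rw [hEv]
    simp only
    rw [if_pos hw1]
    exact hw2
  have h1 : ∀ n e w, P.real (Ev n e w) ≤ (1 / 100) ^ (n + 1) := by
    intro n e w
    rw [hEv]
    simp only
    split_ifs with h
    · rw [prob_all_high]
      exact pow_q_le h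
    · simp
  have h2 : P.real {ω : Om | 2 * s < DD ω k k} ≤
      ∑ n ∈ Finset.Ico (2 * s + 1) (4 * (k + 1) ^ 2), ∑ e ∈ starts k n,
        ∑ w ∈ (Finset.univ : Finset (Fin n → Turn)), P.real (Ev n e w) := by
    refine (measureReal_mono hsub (measure_ne_top _ _)).trans ?_
    refine (measureReal_biUnion_finset_le _ _).trans ?_
    apply Finset.sum_le_sum
    intro n _
    refine (measureReal_biUnion_finset_le _ _).trans ?_
    apply Finset.sum_le_sum
    intro e _
    exact measureReal_biUnion_finset_le _ _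
  refine h2.trans ?_
  have h3 : ∀ n ∈ Finset.Ico (2 * s + 1) (4 * (k + 1) ^ 2), ∑ e ∈ starts k n,
      ∑ w ∈ (Finset.univ : Finset (Fin n → Turn)), P.real (Ev n e w) ≤ (6 / 100) ^ (n + 1) := by
    intro n _
    calc ∑ e ∈ starts k n, ∑ w ∈ (Finset.univ : Finset (Fin n → Turn)), P.real (Ev n e w)
        ≤ ∑ e ∈ starts k n, ∑ w ∈ (Finset.univ : Finset (Fin n → Turn)),
            ((1 / 100) ^ (n + 1) : ℝ) :=
          Finset.sum_le_sum fun e _ => Finset.sum_le_sum fun w _ => h1 n e w
      _ = ((starts k n).card : ℝ) * (3 ^ n * (1 / 100) ^ (n + 1)) := by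
          rw [Finset.sum_const, Finset.sum_const, nsmul_eq_mul, nsmul_eq_mul, Finset.card_univ,
            Fintype.card_fun, Fintype.card_fin]
          have : Fintype.card Turn = 3 := rfl
          rw [this]
          push_cast
          ring
      _ ≤ (2 * (n : ℝ) + 3) * (3 ^ n * (1 / 100) ^ (n + 1)) := by
          apply mul_le_mul_of_nonneg_right _ (by positivity)
          exact_mod_cast card_starts k n
      _ = (2 * (n : ℝ) + 3) * 3 ^ n * (1 / 100) ^ (n + 1) := by ring
      _ ≤ _ := two_n_three n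
  refine (Finset.sum_le_sum h3).trans ?_
  have h4 : ∑ n ∈ Finset.Ico (2 * s + 1) (4 * (k + 1) ^ 2), ((6 / 100 : ℝ)) ^ (n + 1) =
      (6 / 100) * ∑ n ∈ Finset.Ico (2 * s + 1) (4 * (k + 1) ^ 2), (6 / 100 : ℝ) ^ n := by
    rw [Finset.mul_sum]
    exact Finset.sum_congr rfl fun n _ => pow_succ' _ _
  rw [h4]
  have h5 := geom_sum_Ico_le_of_lt_one (x := (6 / 100 : ℝ)) (by norm_num) (by norm_num)
    (m := 2 * s + 1) (n := 4 * (k + 1) ^ 2)
  have h6 : (6 / 100 : ℝ) ^ (2 * s + 1) ≤ (1 / 10) ^ (2 * s + 1) :=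
    pow_le_pow_left₀ (by norm_num) (by norm_num) _
  have h7 : (0 : ℝ) ≤ (1 / 10) ^ (2 * s + 1) := by positivity
  have h8 : (6 / 100 : ℝ) ^ (2 * s + 1) / (1 - 6 / 100) ≤ (1 / 10) ^ (2 * s + 1) * 2 := by
    rw [div_le_iff₀ (by norm_num)]
    nlinarith
  linarith

end Pool.Agent.W822.FPP
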