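import Pool.Agent.W822.Cols

/-!
The minimal speed over all directions, a direction which attains it, and an upper bound for the
mean passage time in that direction.
-/

set_option autoImplicit false

open MeasureTheory ProbabilityTheory Filter Topology
open scoped ENNReal NNReal

namespace Pool.Agent.W822.FPP

variable {a : ℝ}

/-- Euclidean norm -/
noncomputable def eu (x : V) : ℝ := Real.sqrt ((x.1 : ℝ) ^ 2 + (x.2 : ℝ) ^ 2)

lemma eu_nonneg (x : V) : 0 ≤ eu x := Real.sqrt_nonneg _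

lemma eu_sq (x : V) : eu x ^ 2 = (x.1 : ℝ) ^ 2 + (x.2 : ℝ) ^ 2 := Real.sq_sqrt (by positivity)

lemma eu_le_nrm (x : V) : eu x ≤ nrm x := by
  apply Real.sqrt_le_iff.2
  constructor
  · exact_mod_cast nrm_nonneg x
  · unfold nrm
    push_cast
    rw [← sq_abs (x.1 : ℝ), ← sq_abs (x.2 : ℝ)]
    nlinarith [abs_nonneg (x.1 : ℝ), abs_nonneg (x.2 : ℝ)]

lemma abs_fst_le_eu (x : V) : |(x.1 : ℝ)| ≤ eu x := by
  apply Real.le_sqrt_of_sq_le
  rw [sq_abs]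
  nlinarith [sq_nonneg (x.2 : ℝ)]

lemma abs_snd_le_eu (x : V) : |(x.2 : ℝ)| ≤ eu x := by
  apply Real.le_sqrt_of_sq_le
  rw [sq_abs]
  nlinarith [sq_nonneg (x.1 : ℝ)]

lemma nrm_le_eu (x : V) : (nrm x : ℝ) ≤ 2 * eu x := by
  have h1 := abs_fst_le_eu x
  have h2 := abs_snd_le_eu x
  unfold nrm
  push_cast
  linarith

lemma one_le_nrm {x : V} (hx : x ≠ 0) : 1 ≤ nrm x := by
  by_contra h
  have h1 : nrm x = 0 := by have := nrm_nonneg x; omega
  exact hx (eq_of_nrm (by simpa using h1))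

lemma eu_pos {x : V} (hx : x ≠ 0) : 0 < eu x := by
  have h1 := nrm_le_eu x
  have h2 : (1 : ℝ) ≤ nrm x := by exact_mod_cast one_le_nrm hx
  linarith

instance : Nonempty {x : V // x ≠ 0} := ⟨⟨(1, 0), by simp⟩⟩

/-- the minimal speed -/
noncomputable def mm (a : ℝ) : ℝ := ⨅ x : {x : V // x ≠ 0}, h a x / eu x

lemma one_le_quot (ha : 0 ≤ a) {x : V} (hx : x ≠ 0) : 1 ≤ h a x / eu x := by
  rw [le_div_iff₀ (eu_pos hx), one_mul]
  exact (eu_le_nrm x).trans (le_h ha x)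

lemma bdd_quot (ha : 0 ≤ a) : BddBelow (Set.range fun x : {x : V // x ≠ 0} => h a x / eu x) :=
  ⟨1, by rintro _ ⟨x, rfl⟩; exact one_le_quot ha x.2⟩

lemma one_le_mm (ha : 0 ≤ a) : 1 ≤ mm a := le_ciInf fun x => one_le_quot ha x.2

lemma mm_mul_le (ha : 0 ≤ a) (x : V) : mm a * eu x ≤ h a x := by
  by_cases hx : x = 0
  · subst hx
    simp [ha, eu]
  · rw [← le_div_iff₀ (eu_pos hx)]
    exact ciInf_le (bdd_quot ha) ⟨x, hx⟩

lemma mm_le (ha : 0 ≤ a) : mm a ≤ 1 + a := by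
  have h1 : mm a ≤ h a (1, 0) / eu (1, 0) := ciInf_le (bdd_quot ha) ⟨(1, 0), by simp⟩
  have h2 : eu (1, 0) = 1 := by simp [eu]
  have h3 := h_le ha (1, 0)
  rw [h2, div_one] at h1
  have h4 : nrm (1, 0) = 1 := by simp [nrm]
  rw [h4] at h3
  push_cast at h3
  linarith

lemma mm_mono {b : ℝ} (ha : 0 ≤ a) (hab : a ≤ b) : mm a ≤ mm b := by
  apply le_ciInf
  intro x
  refine (ciInf_le (bdd_quot ha) x).trans ?_
  exact div_le_div_of_nonneg_right (h_mono ha hab _) (eu_nonneg _)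

lemma one_lt_mm_one : 1 < mm 1 := by
  have hc : 0 < min del (1 / 2) := lt_min del_pos (by norm_num)
  have h1 : 1 < Real.sqrt (1 + min del (1 / 2)) := by
    rw [Real.lt_sqrt (by norm_num)]
    linarith
  refine h1.trans_le (le_ciInf fun x => ?_)
  rw [le_div_iff₀ (eu_pos x.2)]
  have h2 := h_one_sq (x : V)
  rw [← eu_sq] at h2
  apply le_of_sq_le_sq _ (h_nonneg zero_le_one _)
  rw [mul_pow, Real.sq_sqrt (by linarith)]
  exact h2

theorem exists_strict : ∃ a : ℝ, 0 < a ∧ mm a < mm (2 * a) := by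
  by_contra hcon
  push Not at hcon
  have h1 : ∀ k : ℕ, mm 1 ≤ mm ((1 / 2) ^ k) := by
    intro k
    induction k with
    | zero => simp
    | succ k ih =>
      refine ih.trans ?_
      have h2 := hcon ((1 / 2) ^ (k + 1)) (by positivity)
      have h3 : (2 : ℝ) * (1 / 2) ^ (k + 1) = (1 / 2) ^ k := by ring
      rwa [h3] at h2
  have h2 : ∀ k : ℕ, mm 1 ≤ 1 + (1 / 2) ^ k := fun k => (h1 k).trans (mm_le (by positivity))
  have h3 : Tendsto (fun k : ℕ => 1 + (1 / 2 : ℝ) ^ k) atTop (𝓝 (1 + 0)) :=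
    tendsto_const_nhds.add (tendsto_pow_atTop_nhds_zero_of_lt_one (by norm_num) (by norm_num))
  have h4 : mm 1 ≤ 1 + 0 := ge_of_tendsto' h3 h2
  have := one_lt_mm_one
  linarith

/-- inner product with `y` -/
def inn (y : ℝ × ℝ) (x : V) : ℝ := x.1 * y.1 + x.2 * y.2

/-- component orthogonal to `y` -/
def crs (y : ℝ × ℝ) (x : V) : ℝ := x.2 * y.1 - x.1 * y.2

lemma inn_add (y : ℝ × ℝ) (x x' : V) : inn y (x + x') = inn y x + inn y x' := by
  simp [inn]; ring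

lemma inn_sub (y : ℝ × ℝ) (x x' : V) : inn y (x - x') = inn y x - inn y x' := by
  simp [inn]; ring

lemma crs_sub (y : ℝ × ℝ) (x x' : V) : crs y (x - x') = crs y x - crs y x' := by
  simp [crs]; ring

lemma inn_nsmul (y : ℝ × ℝ) (k : ℕ) (x : V) : inn y (k • x) = k * inn y x := by
  simp [inn]; ring

lemma inn_crs {y : ℝ × ℝ} (hy : y.1 ^ 2 + y.2 ^ 2 = 1) (x : V) :
    inn y x ^ 2 + crs y x ^ 2 = eu x ^ 2 := by
  rw [eu_sq]
  unfold inn crs
  calc _ = ((x.1 : ℝ) ^ 2 + (x.2 : ℝ) ^ 2) * (y.1 ^ 2 + y.2 ^ 2) := by ring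
    _ = _ := by rw [hy, mul_one]

lemma inn_le_eu {y : ℝ × ℝ} (hy : y.1 ^ 2 + y.2 ^ 2 = 1) (x : V) : inn y x ≤ eu x := by
  apply le_of_sq_le_sq _ (eu_nonneg x)
  have := inn_crs hy x
  nlinarith [sq_nonneg (crs y x)]

lemma abs_le_one_of_unit {y : ℝ × ℝ} (hy : y.1 ^ 2 + y.2 ^ 2 = 1) : |y.1| ≤ 1 ∧ |y.2| ≤ 1 := by
  constructor <;> rw [abs_le] <;> constructor <;>
    nlinarith [sq_nonneg y.1, sq_nonneg y.2]

theorem exists_dir : ∃ y : ℝ × ℝ, y.1 ^ 2 + y.2 ^ 2 = 1 ∧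
    ∀ η : ℝ, 0 < η → ∃ x : V, x ≠ 0 ∧ h a x ≤ (mm a + η) * eu x ∧ (1 - η) * eu x ≤ inn y x := by
  have h1 : ∀ n : ℕ, ∃ x : {x : V // x ≠ 0}, h a x / eu x < mm a + 1 / (n + 1) := by
    intro n
    apply exists_lt_of_ciInf_lt
    have : (0 : ℝ) < 1 / (n + 1) := by positivity
    exact lt_add_of_pos_right _ this
  choose X hX using h1
  set K : Set (ℝ × ℝ) := {p | p.1 ^ 2 + p.2 ^ 2 = 1} with hK
  have hKc : IsCompact K := by
    apply Metric.isCompact_of_isClosed_isBounded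
    · exact isClosed_eq (by fun_prop) continuous_const
    · apply (Metric.isBounded_Icc ((-1, -1) : ℝ × ℝ) (1, 1)).subset
      intro p hp
      have := abs_le_one_of_unit hp
      rw [abs_le, abs_le] at this
      exact ⟨⟨this.1.1, this.2.1⟩, ⟨this.1.2, this.2.2⟩⟩
  set U : ℕ → ℝ × ℝ := fun n => (((X n : V).1 : ℝ) / eu (X n), ((X n : V).2 : ℝ) / eu (X n))
    with hU
  have hUK : ∀ n, U n ∈ K := by
    intro n
    have h2 := eu_pos (X n).2
    have h3 := eu_sq (X n : V)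
    simp only [hK, hU, Set.mem_ofPred_eq]
    rw [div_pow, div_pow, ← add_div, ← h3, div_self (by positivity)]
  obtain ⟨y, hy, φ, hφ, hlim⟩ := hKc.tendsto_subseq hUK
  refine ⟨y, hy, fun η hη => ?_⟩
  have h2 : Tendsto (fun n => (U (φ n)).1 * y.1 + (U (φ n)).2 * y.2) atTop
      (𝓝 (y.1 * y.1 + y.2 * y.2)) := by
    have c1 : Tendsto (fun n => (U (φ n)).1) atTop (𝓝 y.1) :=
      (continuous_fst.tendsto y).comp hlim
    have c2 : Tendsto (fun n => (U (φ n)).2) atTop (𝓝 y.2) :=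
      (continuous_snd.tendsto y).comp hlim
    exact (c1.mul_const _).add (c2.mul_const _)
  have h3 : y.1 * y.1 + y.2 * y.2 = 1 := by
    have : y.1 ^ 2 + y.2 ^ 2 = 1 := hy
    linarith
  rw [h3] at h2
  have h4 : ∀ᶠ n in atTop, 1 - η < (U (φ n)).1 * y.1 + (U (φ n)).2 * y.2 :=
    h2.eventually (lt_mem_nhds (by linarith))
  have h5 : Tendsto (fun n : ℕ => 1 / ((φ n : ℝ) + 1)) atTop (𝓝 0) :=
    tendsto_one_div_add_atTop_nhds_zero_nat.comp hφ.tendsto_atTop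
  have h6 : ∀ᶠ n in atTop, 1 / ((φ n : ℝ) + 1) < η := h5.eventually (gt_mem_nhds hη)
  obtain ⟨n, hn1, hn2⟩ := (h4.and h6).exists
  refine ⟨X (φ n), (X (φ n)).2, ?_, ?_⟩
  · have h7 := hX (φ n)
    rw [div_lt_iff₀ (eu_pos (X (φ n)).2)] at h7
    refine h7.le.trans ?_
    apply mul_le_mul_of_nonneg_right _ (eu_nonneg _)
    linarith
  · have h8 := eu_pos (X (φ n)).2
    have h9 : inn y (X (φ n)) = ((U (φ n)).1 * y.1 + (U (φ n)).2 * y.2) * eu (X (φ n)) := by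
      simp only [hU, inn]
      field_simp
    rw [h9]
    exact mul_le_mul_of_nonneg_right hn1.le h8.le

/-- the direction is minimising -/
def MinDir (a : ℝ) (y : ℝ × ℝ) : Prop := y.1 ^ 2 + y.2 ^ 2 = 1 ∧
    ∀ η : ℝ, 0 < η → ∃ x : V, x ≠ 0 ∧ h a x ≤ (mm a + η) * eu x ∧ (1 - η) * eu x ≤ inn y x

/-- minimal mean passage time over a half plane -/
noncomputable def MM (a : ℝ) (y : ℝ × ℝ) (n : ℝ) : ℝ := sInf (h a '' {x | n ≤ inn y x})

lemma exists_far {y : ℝ × ℝ} (hy : y.1 ^ 2 + y.2 ^ 2 = 1) {n : ℝ} (hn : 0 ≤ n) :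
    ∃ x : V, n ≤ inn y x ∧ (nrm x : ℝ) ≤ 2 * n + 2 := by
  have key : ∀ c : ℝ, |c| ≤ 1 → ∃ k : ℤ, n * c ^ 2 ≤ k * c ∧ |(k : ℝ)| ≤ n + 1 := by
    intro c hc
    rw [abs_le] at hc
    rcases le_total 0 c with h0 | h0
    · refine ⟨⌈n * c⌉, ?_, ?_⟩
      · have := Int.le_ceil (n * c)
        nlinarith
      · have h1 := Int.le_ceil (n * c)
        have h2 := Int.ceil_lt_add_one (n * c)
        have h3 : 0 ≤ n * c := mul_nonneg hn h0
        rw [abs_le]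
        constructor <;> nlinarith
    · refine ⟨⌊n * c⌋, ?_, ?_⟩
      · have := Int.floor_le (n * c)
        nlinarith
      · have h1 := Int.floor_le (n * c)
        have h2 := Int.sub_one_lt_floor (n * c)
        have h3 : n * c ≤ 0 := mul_nonpos_of_nonneg_of_nonpos hn h0
        rw [abs_le]
        constructor <;> nlinarith
  obtain ⟨h1, h2⟩ := abs_le_one_of_unit hy
  obtain ⟨k1, e1, e2⟩ := key y.1 h1
  obtain ⟨k2, e3, e4⟩ := key y.2 h2
  refine ⟨(k1, k2), ?_, ?_⟩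
  · unfold inn
    have : n = n * y.1 ^ 2 + n * y.2 ^ 2 := by rw [← mul_add, hy, mul_one]
    linarith
  · unfold nrm
    push_cast
    linarith

lemma bdd_MM (ha : 0 ≤ a) (y : ℝ × ℝ) (n : ℝ) : BddBelow (h a '' {x | n ≤ inn y x}) :=
  ⟨0, by rintro _ ⟨x, _, rfl⟩; exact h_nonneg ha x⟩

lemma MM_le (ha : 0 ≤ a) {y : ℝ × ℝ} {n : ℝ} {x : V} (hx : n ≤ inn y x) : MM a y n ≤ h a x :=
  csInf_le (bdd_MM ha y n) ⟨x, hx, rfl⟩

lemma exists_MM {y : ℝ × ℝ} (hy : y.1 ^ 2 + y.2 ^ 2 = 1) {n : ℝ} (hn : 0 ≤ n) :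
    ∃ x : V, n ≤ inn y x ∧ h a x ≤ MM a y n + 1 := by
  obtain ⟨x₀, hx₀, _⟩ := exists_far hy hn
  have h1 : MM a y n < MM a y n + 1 := by linarith
  obtain ⟨_, ⟨x, hx, rfl⟩, hlt⟩ := exists_lt_of_csInf_lt (⟨_, x₀, hx₀, rfl⟩ :
    (h a '' {x | n ≤ inn y x}).Nonempty) h1
  exact ⟨x, hx, hlt.le⟩

lemma MM_le_lin (ha : 0 ≤ a) {y : ℝ × ℝ} (hy : y.1 ^ 2 + y.2 ^ 2 = 1) {n : ℝ} (hn : 0 ≤ n) :
    MM a y n ≤ (1 + a) * (2 * n + 2) := by
  obtain ⟨x, hx, hx'⟩ := exists_far hy hn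
  refine (MM_le ha hx).trans ((h_le ha x).trans ?_)
  exact mul_le_mul_of_nonneg_left hx' (by linarith)

/-- the growth rate of `MM` is at most the minimal speed -/
lemma MM_lim (ha : 0 ≤ a) {y : ℝ × ℝ} (hy : MinDir a y) {η : ℝ} (hη : 0 < η) :
    ∃ C : ℝ, ∀ n : ℝ, 0 ≤ n → MM a y n ≤ (mm a + η) * n + C := by
  have hm := one_le_mm ha
  set η' := min (1 / 2) (η / (4 + 4 * mm a)) with hη'
  have hη'0 : 0 < η' := lt_min (by norm_num) (by positivity)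
  have hη'1 : η' ≤ 1 / 2 := min_le_left _ _
  have hη'2 : η' * (4 + 4 * mm a) ≤ η := by
    rw [← le_div_iff₀ (by linarith)]
    exact min_le_right _ _
  obtain ⟨x, hx0, hx1, hx2⟩ := hy.2 η' hη'0
  have heu := eu_pos hx0
  have hinn : 0 < inn y x := by nlinarith
  refine ⟨h a x, fun n hn => ?_⟩
  set k := ⌈n / inn y x⌉₊ with hk
  have h1 : n ≤ inn y (k • x) := by
    rw [inn_nsmul, ← div_le_iff₀ hinn]
    exact Nat.le_ceil _
  have h2 : (k : ℝ) ≤ n / inn y x + 1 := (Nat.ceil_lt_add_one (by positivity)).le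
  have h3 := (MM_le ha h1).trans (h_smul_le ha k x)
  have h4 : (k : ℝ) * h a x ≤ (n / inn y x + 1) * h a x :=
    mul_le_mul_of_nonneg_right h2 (h_nonneg ha x)
  have h5 : h a x / inn y x ≤ mm a + η := by
    rw [div_le_iff₀ hinn]
    refine hx1.trans ?_
    have h6 : (mm a + η) * ((1 - η') * eu x) ≤ (mm a + η) * inn y x :=
      mul_le_mul_of_nonneg_left hx2 (by linarith)
    refine le_trans ?_ h6
    rw [← mul_assoc]
    apply mul_le_mul_of_nonneg_right _ heu.le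
    nlinarith
  calc MM a y n ≤ (n / inn y x + 1) * h a x := h3.trans h4
    _ = n * (h a x / inn y x) + h a x := by field_simp
    _ ≤ n * (mm a + η) + h a x := by
        have := mul_le_mul_of_nonneg_left h5 hn
        linarith
    _ = _ := by ring

/-- discrete intermediate values along walks -/
lemma walk_ivt {f : V → ℝ} (hf : ∀ u v, lat.Adj u v → f v ≤ f u + 1) {n : ℝ} {u x : V}
    (p : lat.Walk u x) (hu : f u ≤ n + 1) (hx : n ≤ f x) :
    ∃ v ∈ p.support, n ≤ f v ∧ f v ≤ n + 1 := by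
  induction p with
  | nil => exact ⟨_, by simp, hx, hu⟩
  | @cons u w x hadj p ih =>
    by_cases h1 : n ≤ f u
    · exact ⟨u, by simp, h1, hu⟩
    · push Not at h1
      obtain ⟨v, hv, h2⟩ := ih (by have := hf u w hadj; linarith) hx
      exact ⟨v, by simp [hv], h2⟩

lemma inn_step {y : ℝ × ℝ} (hy : y.1 ^ 2 + y.2 ^ 2 = 1) (u v : V) (h : lat.Adj u v) :
    inn y v ≤ inn y u + 1 := by
  have h1 : inn y v - inn y u = inn y (v - u) := (inn_sub y v u).symm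
  have h2 := inn_le_eu hy (v - u)
  have h3 := eu_le_nrm (v - u)
  have h4 : nrm (v - u) = 1 := by rw [nrm_sub_comm]; exact h
  rw [h4] at h3
  push_cast at h3
  linarith

/-- constant in the near superadditivity -/
noncomputable def cK (a : ℝ) : ℕ := ⌈(1 + a) * (128 * (1 + a) + 1)⌉₊

lemma exists_good2 (ha : 0 ≤ a) (K L : ℕ) (hL : 1 ≤ L) (hL2 : 2 * cA a K < L) (u u' : V) :
    ∃ ω : Om, ω ∈ Good a K L u ∧ ω ∈ Good a K L u' := by
  by_contra hcon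
  push Not at hcon
  have h1 : (Set.univ : Set Om) ⊆ (Good a K L u)ᶜ ∪ (Good a K L u')ᶜ := by
    intro ω _
    by_cases h : ω ∈ Good a K L u
    · exact Or.inr (hcon ω h)
    · exact Or.inl h
  have h2 : (1 : ℝ) ≤ P.real ((Good a K L u)ᶜ ∪ (Good a K L u')ᶜ) := by
    have := measureReal_mono (μ := P) h1 (measure_ne_top _ _)
    simpa using this
  have h3 := measureReal_union_le (μ := P) (Good a K L u)ᶜ (Good a K L u')ᶜ
  have h4 := prob_bad ha K L hL u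
  have h5 := prob_bad ha K L hL u'
  have h6 : (0 : ℝ) < L := by exact_mod_cast hL
  have h7 : cA a K / L + cA a K / L < 1 := by
    rw [← add_div, div_lt_one h6]
    linarith
  linarith

/-- near superadditivity -/
theorem MM_super (ha : 0 ≤ a) {y : ℝ × ℝ} (hy : y.1 ^ 2 + y.2 ^ 2 = 1) {L : ℕ} (hL : 1 ≤ L)
    (hL2 : 2 * cA a (cK a) < L) {n : ℝ} (hn : 0 ≤ n) (hnL : n + 1 ≤ 32 * L ^ 5) :
    2 * MM a y n ≤ MM a y (2 * n + 1) + (1 + 3 * (5 + 4 * a)) * L ^ 4 := by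
  have hLR : (1 : ℝ) ≤ L := by exact_mod_cast hL
  obtain ⟨x, hx1, hx2⟩ := exists_MM (a := a) hy (n := 2 * n + 1) (by linarith)
  have h1 := MM_le_lin ha hy (n := 2 * n + 1) (by linarith)
  have hL5 : (1 : ℝ) ≤ (L : ℝ) ^ 5 := one_le_pow₀ hLR
  have h2 : h a x ≤ (128 * (1 + a) + 1) * L ^ 5 := by
    have e1 : (1 + a) * (2 * (2 * n + 1) + 2) ≤ (1 + a) * (128 * L ^ 5) :=
      mul_le_mul_of_nonneg_left (by linarith) (by linarith)
    nlinarith
  have h3 : (nrm x : ℝ) ≤ (128 * (1 + a) + 1) * L ^ 5 := (le_h ha x).trans h2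
  have h4 : (1 + a) * (nrm x : ℝ) ≤ (cK a : ℝ) * L ^ 5 := by
    have e1 : (1 + a) * (128 * (1 + a) + 1) ≤ (cK a : ℝ) := Nat.le_ceil _
    calc (1 + a) * (nrm x : ℝ) ≤ (1 + a) * ((128 * (1 + a) + 1) * L ^ 5) :=
          mul_le_mul_of_nonneg_left h3 (by linarith)
      _ = ((1 + a) * (128 * (1 + a) + 1)) * L ^ 5 := by ring
      _ ≤ _ := mul_le_mul_of_nonneg_right e1 (by positivity)
  obtain ⟨ω, hω0, hωx⟩ := exists_good2 ha (cK a) L hL hL2 0 x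
  obtain ⟨p, hp⟩ := exists_min ha ω 0 x
  have hg : Geo a ω p := hp
  have hlen : (p.length : ℝ) ≤ (cK a : ℝ) * L ^ 5 := by
    have := hg.length_le ha
    rw [sub_zero] at this
    exact this.trans h4
  have hlenZ : (p.length : ℤ) ≤ (cK a : ℤ) * (L : ℤ) ^ 5 := by exact_mod_cast hlen
  obtain ⟨v, hv, hv1, hv2⟩ := walk_ivt (f := inn y) (inn_step hy) (n := n) p
    (by simp [inn]; linarith) (by linarith)
  have hv0 : nrm (v - 0) ≤ (cK a : ℤ) * (L : ℤ) ^ 5 := (nrm_le_of_mem p hv).trans hlenZ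
  have hvx : nrm (v - x) ≤ (cK a : ℤ) * (L : ℤ) ^ 5 := by
    have h5 : v ∈ p.reverse.support := by simpa using hv
    have := nrm_le_of_mem p.reverse h5
    rw [SimpleGraph.Walk.length_reverse] at this
    exact this.trans hlenZ
  have hx0 : nrm (x - 0) ≤ (cK a : ℤ) * (L : ℤ) ^ 5 := by
    exact (nrm_le_length p).trans hlenZ
  have b1 := hω0 v hv0
  have b2 := hωx v hvx
  have b3 := hω0 x hx0
  rw [sub_zero] at b1 b3
  have b4 := hg.split ha hv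
  rw [T_symm ha ω v x] at b4
  rw [h_sub_comm ha v x] at b2
  rw [abs_le] at b1 b2 b3
  have c1 : MM a y n ≤ h a v := MM_le ha hv1
  have c2 : MM a y n ≤ h a (x - v) := MM_le ha (by rw [inn_sub]; linarith)
  have hL4 : (1 : ℝ) ≤ (L : ℝ) ^ 4 := one_le_pow₀ hLR
  nlinarith [b1.1, b2.1, b3.2]

/-- near linearity of `MM` from above -/
theorem MM_upper (ha : 0 ≤ a) {y : ℝ × ℝ} (hy : MinDir a y) {L : ℕ} (hL : 1 ≤ L)
    (hL2 : 2 * cA a (cK a) < L) :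
    MM a y ((L : ℝ) ^ 5 - 1) ≤ mm a * L ^ 5 + 2 * (1 + 3 * (5 + 4 * a)) * L ^ 4 := by
  set c := 1 + 3 * (5 + 4 * a) with hc
  have hc0 : 0 < c := by rw [hc]; linarith
  -- one step
  have step : ∀ L : ℕ, 1 ≤ L → 2 * cA a (cK a) < L →
      MM a y ((L : ℝ) ^ 5 - 1) / L ^ 5 ≤
        MM a y (((2 * L : ℕ) : ℝ) ^ 5 - 1) / ((2 * L : ℕ) : ℝ) ^ 5 + c / L := by
    intro L hL hL2
    have hLR : (1 : ℝ) ≤ L := by exact_mod_cast hL
    have hL5 : (1 : ℝ) ≤ (L : ℝ) ^ 5 := one_le_pow₀ hLR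
    have s : ∀ N : ℝ, 1 ≤ N → N ≤ 32 * L ^ 5 →
        2 * MM a y (N - 1) ≤ MM a y (2 * N - 1) + c * L ^ 4 := by
      intro N hN1 hN2
      have := MM_super ha hy.1 hL hL2 (n := N - 1) (by linarith) (by linarith)
      rw [show 2 * (N - 1) + 1 = 2 * N - 1 by ring] at this
      exact this
    have s1 := s (L ^ 5) hL5 (by linarith)
    have s2 := s (2 * L ^ 5) (by linarith) (by linarith)
    have s3 := s (2 * (2 * L ^ 5)) (by linarith) (by linarith)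
    have s4 := s (2 * (2 * (2 * L ^ 5))) (by linarith) (by linarith)
    have s5 := s (2 * (2 * (2 * (2 * L ^ 5)))) (by linarith) (by linarith)
    have e1 : ((2 * L : ℕ) : ℝ) ^ 5 = 2 * (2 * (2 * (2 * (2 * (L : ℝ) ^ 5)))) := by
      push_cast; ring
    rw [e1]
    have h32 : 32 * MM a y ((L : ℝ) ^ 5 - 1) ≤
        MM a y (2 * (2 * (2 * (2 * (2 * (L : ℝ) ^ 5)))) - 1) + 31 * (c * L ^ 4) := by linarith
    have hL0 : (0 : ℝ) < L := by linarith
    rw [div_add_div _ _ (by positivity) hL0.ne', div_le_div_iff₀ (by positivity) (by positivity)]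
    have e2 : (0 : ℝ) < (L : ℝ) ^ 6 := by positivity
    have e3 := mul_le_mul_of_nonneg_right h32 e2.le
    have e4 : 0 ≤ c * (L : ℝ) ^ 4 * L ^ 6 := by positivity
    nlinarith
  have hLR : (1 : ℝ) ≤ L := by exact_mod_cast hL
  have hL0 : (0 : ℝ) < L := by linarith
  have iter : ∀ j : ℕ, MM a y ((L : ℝ) ^ 5 - 1) / L ^ 5 ≤
      MM a y (((2 ^ j * L : ℕ) : ℝ) ^ 5 - 1) / ((2 ^ j * L : ℕ) : ℝ) ^ 5 +
        2 * (c / L) * (1 - (1 / 2) ^ j) := by
    intro j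
    induction j with
    | zero => simp
    | succ j ih =>
      have h1 : 1 ≤ 2 ^ j * L := Nat.one_le_iff_ne_zero.2 (by positivity)
      have h2 : (L : ℝ) ≤ ((2 ^ j * L : ℕ) : ℝ) := by
        have : 1 * L ≤ 2 ^ j * L := Nat.mul_le_mul_right _ Nat.one_le_two_pow
        rw [one_mul] at this
        exact_mod_cast this
      have h3 := step (2 ^ j * L) h1 (by linarith)
      have e1 : 2 * (2 ^ j * L) = 2 ^ (j + 1) * L := by ring
      rw [e1] at h3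
      have e2 : c / ((2 ^ j * L : ℕ) : ℝ) = (c / L) * (1 / 2) ^ j := by
        push_cast
        rw [one_div, inv_pow]
        field_simp
      rw [e2] at h3
      have e3 : 2 * (c / L) * (1 - (1 / 2) ^ (j + 1)) =
          2 * (c / L) * (1 - (1 / 2) ^ j) + (c / L) * (1 / 2) ^ j := by ring
      rw [e3]
      linarith
  have main : MM a y ((L : ℝ) ^ 5 - 1) / L ^ 5 ≤ mm a + 2 * (c / L) := by
    apply le_of_forall_pos_le_add
    intro η hη
    obtain ⟨C, hC⟩ := MM_lim ha hy (η := η / 2) (by linarith)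
    obtain ⟨j, hj⟩ : ∃ j : ℕ, |C| ≤ (η / 2) * 2 ^ j := by
      obtain ⟨j, hj⟩ := pow_unbounded_of_one_lt (|C| / (η / 2)) (one_lt_two)
      refine ⟨j, ?_⟩
      rw [div_lt_iff₀ (by linarith)] at hj
      linarith
    have h1 := iter j
    set N : ℝ := ((2 ^ j * L : ℕ) : ℝ) ^ 5 with hN
    have h0 : (1 : ℝ) ≤ ((2 ^ j * L : ℕ) : ℝ) := by
      exact_mod_cast (Nat.one_le_iff_ne_zero.2 (by positivity) : 1 ≤ 2 ^ j * L)
    have hN1 : (2 : ℝ) ^ j ≤ N := by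
      have e1 : (2 : ℝ) ^ j ≤ ((2 ^ j * L : ℕ) : ℝ) := by
        push_cast
        nlinarith [pow_pos (two_pos : (0 : ℝ) < 2) j]
      have e2 : ((2 ^ j * L : ℕ) : ℝ) ^ 1 ≤ ((2 ^ j * L : ℕ) : ℝ) ^ 5 :=
        pow_le_pow_right₀ h0 (by norm_num)
      rw [pow_one] at e2
      linarith
    have hN0 : 0 < N := by positivity
    have hN1' : 1 ≤ N := one_le_pow₀ h0
    have h2 := hC (N - 1) (by linarith)
    have h3 : MM a y (N - 1) / N ≤ mm a + η := by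
      rw [div_le_iff₀ hN0]
      have e1 : C ≤ (η / 2) * N := by
        have := le_abs_self C
        nlinarith
      have e2 := one_le_mm ha
      nlinarith
    have h4 : 2 * (c / L) * (1 - (1 / 2 : ℝ) ^ j) ≤ 2 * (c / L) := by
      have e1 : (0 : ℝ) ≤ (1 / 2) ^ j := by positivity
      have e2 : 0 ≤ 2 * (c / L) := by positivity
      nlinarith
    linarith
  rw [div_le_iff₀ (by positivity)] at main
  refine main.trans (le_of_eq ?_)
  field_simp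

/-- upper bound for the mean passage time in the minimising direction -/
theorem h_upper (ha : 0 ≤ a) {y : ℝ × ℝ} (hy : MinDir a y) :
    ∃ C : ℝ, 0 < C ∧ ∃ L₀ : ℕ, ∀ L : ℕ, L₀ ≤ L → ∀ z : V,
      |(z.1 : ℝ) - L ^ 10 * y.1| ≤ 1 → |(z.2 : ℝ) - L ^ 10 * y.2| ≤ 1 →
      h a z ≤ mm a * L ^ 10 + C * L ^ 9 := by
  set c := 2 * (1 + 3 * (5 + 4 * a)) + 1 with hc
  have hc0 : 0 < c := by rw [hc]; linarith
  set D := c + 1 with hD
  refine ⟨c + (1 + a) * (2 + 4 * D), by positivity, ⌈2 * cA a (cK a)⌉₊ + 1, ?_⟩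
  intro L hL z hz1 hz2
  have hL1 : 1 ≤ L := by omega
  have hLR : (1 : ℝ) ≤ L := by exact_mod_cast hL1
  have hm := one_le_mm ha
  have h1 : 2 * cA a (cK a) < ((L ^ 2 : ℕ) : ℝ) := by
    have e1 := Nat.le_ceil (2 * cA a (cK a))
    have e2 : ((⌈2 * cA a (cK a)⌉₊ : ℕ) : ℝ) + 1 ≤ L := by exact_mod_cast hL
    push_cast
    nlinarith
  have h2 := MM_upper ha hy (L := L ^ 2) (Nat.one_le_pow _ _ hL1) h1
  have e5 : ((L ^ 2 : ℕ) : ℝ) ^ 5 = (L : ℝ) ^ 10 := by push_cast; ring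
  have e4 : ((L ^ 2 : ℕ) : ℝ) ^ 4 = (L : ℝ) ^ 8 := by push_cast; ring
  rw [e5, e4] at h2
  have ht1 : (1 : ℝ) ≤ (L : ℝ) ^ 10 := one_le_pow₀ hLR
  have h81 : (1 : ℝ) ≤ (L : ℝ) ^ 8 := one_le_pow₀ hLR
  obtain ⟨x, hx1, hx2⟩ := exists_MM (a := a) hy.1 (n := (L : ℝ) ^ 10 - 1) (by linarith)
  have h3 : h a x ≤ mm a * L ^ 10 + c * L ^ 8 := by
    rw [hc]; nlinarith
  have h4 : eu x ≤ L ^ 10 + c * L ^ 8 := by
    have e1 := mm_mul_le ha x
    have e2 : mm a * eu x ≤ mm a * (L ^ 10 + c * L ^ 8) := by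
      have : c * (L : ℝ) ^ 8 ≤ mm a * (c * L ^ 8) := by
        have : 0 ≤ c * (L : ℝ) ^ 8 := by positivity
        nlinarith
      nlinarith
    exact le_of_mul_le_mul_left e2 (by linarith)
  set t : ℝ := (L : ℝ) ^ 10 with ht
  -- distance of `x` from `t y`
  have h5 : ((x.1 : ℝ) - t * y.1) ^ 2 + ((x.2 : ℝ) - t * y.2) ^ 2 ≤ (2 * D * L ^ 9) ^ 2 := by
    have e1 : ((x.1 : ℝ) - t * y.1) ^ 2 + ((x.2 : ℝ) - t * y.2) ^ 2 =
        eu x ^ 2 - 2 * t * inn y x + t ^ 2 * (y.1 ^ 2 + y.2 ^ 2) := by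
      rw [eu_sq]; unfold inn; ring
    rw [e1, hy.1, mul_one]
    have e2 : eu x ^ 2 ≤ (t + c * L ^ 8) ^ 2 := pow_le_pow_left₀ (eu_nonneg x) h4 2
    have e3 : t * (t - 1) ≤ t * inn y x := mul_le_mul_of_nonneg_left hx1 (by linarith)
    have e6 : t * (L : ℝ) ^ 8 = L ^ 18 := by rw [ht]; ring
    have e7 : ((L : ℝ) ^ 8) ^ 2 ≤ L ^ 18 := by
      rw [← pow_mul]; exact pow_le_pow_right₀ hLR (by norm_num)
    have e8 : t ≤ L ^ 18 := by rw [ht]; exact pow_le_pow_right₀ hLR (by norm_num)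
    have e9 : (2 * D * (L : ℝ) ^ 9) ^ 2 = 4 * D ^ 2 * L ^ 18 := by ring
    rw [e9]
    have e10 : (t + c * L ^ 8) ^ 2 = t ^ 2 + 2 * c * (t * L ^ 8) + c ^ 2 * ((L : ℝ) ^ 8) ^ 2 := by
      ring
    rw [e10, e6] at e2
    have e11 : c ^ 2 * ((L : ℝ) ^ 8) ^ 2 ≤ c ^ 2 * L ^ 18 :=
      mul_le_mul_of_nonneg_left e7 (sq_nonneg _)
    have e12 : 0 ≤ (L : ℝ) ^ 18 := by positivity
    have e13 : (2 * c + c ^ 2 + 2) * (L : ℝ) ^ 18 ≤ 4 * D ^ 2 * L ^ 18 := by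
      apply mul_le_mul_of_nonneg_right _ e12
      rw [hD]; nlinarith
    nlinarith
  have hD0 : 0 < D := by rw [hD]; linarith
  have h6 : |(x.1 : ℝ) - t * y.1| ≤ 2 * D * L ^ 9 := by
    apply abs_le_of_sq_le_sq _ (by positivity)
    nlinarith [sq_nonneg ((x.2 : ℝ) - t * y.2)]
  have h7 : |(x.2 : ℝ) - t * y.2| ≤ 2 * D * L ^ 9 := by
    apply abs_le_of_sq_le_sq _ (by positivity)
    nlinarith [sq_nonneg ((x.1 : ℝ) - t * y.1)]
  have h91 : (1 : ℝ) ≤ (L : ℝ) ^ 9 := one_le_pow₀ hLR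
  have h8 : (nrm (z - x) : ℝ) ≤ (2 + 4 * D) * L ^ 9 := by
    unfold nrm
    simp only [Prod.fst_sub, Prod.snd_sub]
    push_cast
    have e1 : |(z.1 : ℝ) - x.1| ≤ 1 + 2 * D * L ^ 9 := by
      calc |(z.1 : ℝ) - x.1| = |((z.1 : ℝ) - t * y.1) - ((x.1 : ℝ) - t * y.1)| := by congr 1; ring
        _ ≤ |(z.1 : ℝ) - t * y.1| + |(x.1 : ℝ) - t * y.1| := abs_sub _ _
        _ ≤ _ := add_le_add hz1 h6
    have e2 : |(z.2 : ℝ) - x.2| ≤ 1 + 2 * D * L ^ 9 := by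
      calc |(z.2 : ℝ) - x.2| = |((z.2 : ℝ) - t * y.2) - ((x.2 : ℝ) - t * y.2)| := by congr 1; ring
        _ ≤ |(z.2 : ℝ) - t * y.2| + |(x.2 : ℝ) - t * y.2| := abs_sub _ _
        _ ≤ _ := add_le_add hz2 h7
    have e3 : (2 + 4 * D) * (L : ℝ) ^ 9 = 2 * L ^ 9 + (2 * D * L ^ 9 + 2 * D * L ^ 9) := by ring
    rw [e3]
    linarith
  have h9 := h_add_le ha x (z - x)
  rw [add_sub_cancel] at h9
  have h10 := h_le ha (z - x)
  have h11 : (1 + a) * (nrm (z - x) : ℝ) ≤ (1 + a) * ((2 + 4 * D) * L ^ 9) :=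
    mul_le_mul_of_nonneg_left h8 (by linarith)
  have h12 : (L : ℝ) ^ 8 ≤ L ^ 9 := pow_le_pow_right₀ hLR (by norm_num)
  have h13 : c * (L : ℝ) ^ 8 ≤ c * L ^ 9 := mul_le_mul_of_nonneg_left h12 hc0.le
  have h14 : (c + (1 + a) * (2 + 4 * D)) * (L : ℝ) ^ 9 =
      c * L ^ 9 + (1 + a) * ((2 + 4 * D) * L ^ 9) := by ring
  rw [h14]
  linarith

end Pool.Agent.W822.FPP
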