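import Pool.Agent.W827.Kd.Basic

/-! Project KD (helper827), part GOOD (helper822): a vertex is good with probability `7/8`. -/

set_option autoImplicit false
open Classical

namespace Pool.Agent.W822.KdGood

open Pool.Agent.H362C Pool.Agent.W827.Kd

noncomputable section

theorem cnb_congr {E E' : Finset (Sym2 ℕ)} {L F : Finset ℕ} (hF : F ⊆ L)
    (h : ∀ x ∈ L, ∀ z ∈ L, x ≠ z → (s(x, z) ∈ E ↔ s(x, z) ∈ E')) : cnb E L F = cnb E' L F := by
  ext z
  simp only [mem_cnb]
  constructor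
  · rintro ⟨h1, h2, h3⟩
    exact ⟨h1, h2, fun x hx => (h x (hF hx) z h1 (fun e => h2 (e ▸ hx))).1 (h3 x hx)⟩
  · rintro ⟨h1, h2, h3⟩
    exact ⟨h1, h2, fun x hx => (h x (hF hx) z h1 (fun e => h2 (e ▸ hx))).2 (h3 x hx)⟩

theorem eXY_congr {E E' : Finset (Sym2 ℕ)} {L X Y : Finset ℕ} (hX : X ⊆ L) (hY : Y ⊆ L)
    (hd : Disjoint X Y)
    (h : ∀ x ∈ L, ∀ z ∈ L, x ≠ z → (s(x, z) ∈ E ↔ s(x, z) ∈ E')) : eXY E X Y = eXY E' X Y := by
  unfold eXY
  congr 1
  apply Finset.filter_congr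
  rintro ⟨x, z⟩ he
  rw [Finset.mem_product] at he
  exact h x (hX he.1) z (hY he.2) (fun e => Finset.disjoint_left.1 hd he.1 (e ▸ he.2))

theorem Reg_congr {j : ℕ} {η p s : ℝ} {E E' : Finset (Sym2 ℕ)} {L : Finset ℕ}
    (h : ∀ x ∈ L, ∀ z ∈ L, x ≠ z → (s(x, z) ∈ E ↔ s(x, z) ∈ E')) (hR : Reg j η p s E L) :
    Reg j η p s E' L := by
  intro F hF hj
  obtain ⟨h1, h2, h3⟩ := hR F hF hj
  rw [← cnb_congr hF h]
  refine ⟨h1, h2, fun X Y hX hY hd hx hy => ?_⟩
  rw [← eXY_congr (hX.trans cnb_sub) (hY.trans cnb_sub) hd h]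
  exact h3 X Y hX hY hd hx hy

theorem Fam_mono {E E' : Finset (Sym2 ℕ)} {L : Finset ℕ} {k : ℕ} {𝒢 : Finset ℕ → Prop}
    (hE : E ⊆ E') (h : Fam E L k 𝒢) : Fam E' L k 𝒢 := by
  have hK : ∀ K, IsK E L k K → IsK E' L k K := fun K hK =>
    ⟨hK.1, hK.2.1, fun x hx y hy hne => hE (hK.2.2 x hx y hy hne)⟩
  refine ⟨fun K hG => hK K (h.1 K hG), fun K K' hG hG' => ?_⟩
  have hst : ∀ A B, St E L k A B → St E' L k A B := by
    rintro A B ⟨hA, b, hb, hbA, hbE, a, ha, hB⟩
    exact ⟨hK A hA, b, hb, hbA, fun x hx => hE (hbE x hx), a, ha, hB⟩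
  exact Relation.ReflTransGen.mono hst _ _ (h.2 K K' hG hG')

/-- erasing one vertex -/
theorem cnb_erase {E : Finset (Sym2 ℕ)} {L F : Finset ℕ} {b : ℕ} :
    cnb E (L.erase b) F = (cnb E L F).erase b := by
  ext z
  simp only [mem_cnb, Finset.mem_erase]
  tauto

theorem Reg_erase {j : ℕ} {η η' p s : ℝ} {E : Finset (Sym2 ℕ)} {L : Finset ℕ} (b : ℕ)
    (hR : Reg j η p s E L) (hη : η ≤ η') (hs : ∀ i < j, 1 ≤ (η' - η) * (s * p ^ i)) :
    Reg j η' p s E (L.erase b) := by
  intro F hF hj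
  have hη0 : 0 ≤ η' - η := by linarith
  have h0 := hs F.card hj
  have hsp : 0 < s * p ^ F.card := by
    by_contra hcon
    have : (η' - η) * (s * p ^ F.card) ≤ 0 := mul_nonpos_of_nonneg_of_nonpos hη0 (not_lt.1 hcon)
    linarith
  obtain ⟨h1, h2, h3⟩ := hR F (hF.trans (Finset.erase_subset _ _)) hj
  rw [cnb_erase]
  have hle : ((cnb E L F).erase b).card ≤ (cnb E L F).card := Finset.card_le_card
    (Finset.erase_subset _ _)
  have hge : (cnb E L F).card ≤ ((cnb E L F).erase b).card + 1 := by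
    have := Finset.pred_card_le_card_erase (s := cnb E L F) (a := b)
    omega
  have hle' : (((cnb E L F).erase b).card : ℝ) ≤ (cnb E L F).card := by exact_mod_cast hle
  have hge' : ((cnb E L F).card : ℝ) ≤ ((cnb E L F).erase b).card + 1 := by exact_mod_cast hge
  refine ⟨by nlinarith, by nlinarith, fun X Y hX hY hd hx hy => ?_⟩
  exact h3 X Y (hX.trans (Finset.erase_subset _ _)) (hY.trans (Finset.erase_subset _ _)) hd
    (by nlinarith) (by nlinarith)

/-- regularity from the two events -/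
theorem Reg_of {D : ℕ} {η p : ℝ} {E : Finset (Sym2 ℕ)} {M V W : Finset ℕ} (hS : SizeOK D η p E M V)
    (hQ : QuasiOK D η p E M V) (hW1 : 1 ≤ W.card) (hWV : W ⊆ V) (hMV : M ⊆ V) (j : ℕ)
    (hj : j + W.card ≤ D + 1) : Reg j η p (M.card * p ^ W.card) E (cnb E M W) := by
  intro F hF hFj
  have hdis : Disjoint W F := by
    rw [Finset.disjoint_left]
    intro x hx hxF
    have := hF hxF
    rw [mem_cnb] at this
    exact this.2.1 hx
  have hcard : (W ∪ F).card = W.card + F.card := Finset.card_union_of_disjoint hdis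
  have hsub : W ∪ F ⊆ V := Finset.union_subset hWV ((hF.trans cnb_sub).trans hMV)
  rw [cnb_cnb]
  have e : ∀ x : ℝ, x * (M.card * p ^ W.card) * p ^ F.card = x * M.card * p ^ (W ∪ F).card := by
    intro x
    rw [hcard, pow_add]
    ring
  rw [e, e, e]
  have hc1 : 1 ≤ (W ∪ F).card := by omega
  have hc2 : (W ∪ F).card ≤ D := by omega
  obtain ⟨h1, h2⟩ := hS (W ∪ F) hsub hc1 hc2
  exact ⟨h1, h2, fun X Y hX hY hd hx hy => hQ (W ∪ F) hsub hc1 hc2 X Y hX hY hd hx hy⟩

/-- the open pairs that do not contain `b` -/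
def Eb (b : ℕ) (E : Finset (Sym2 ℕ)) : Finset (Sym2 ℕ) := E.filter (fun e => b ∉ e)

theorem Eb_Eb (b : ℕ) (E : Finset (Sym2 ℕ)) : Eb b (Eb b E) = Eb b E := by
  unfold Eb
  rw [Finset.filter_filter]
  simp only [and_self]

theorem mem_Eb {b : ℕ} {E : Finset (Sym2 ℕ)} {x z : ℕ} (hx : x ≠ b) (hz : z ≠ b) :
    s(x, z) ∈ Eb b E ↔ s(x, z) ∈ E := by
  unfold Eb
  rw [Finset.mem_filter]
  constructor
  · exact fun h => h.1
  · intro h
    refine ⟨h, ?_⟩
    rw [Sym2.mem_iff]
    rintro (h | h)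
    · exact hx h.symm
    · exact hz h.symm

/-- the open neighbourhood of `y` without `b` -/
def Lb (M : Finset ℕ) (y b : ℕ) (E : Finset (Sym2 ℕ)) : Finset ℕ := cnb (Eb b E) (M.erase b) {y}

/-- vertices that are not covered by the family -/
def fb (D : ℕ) (η p s : ℝ) (M : Finset ℕ) (y b : ℕ)
    (Gf : Finset (Sym2 ℕ) → Finset ℕ → Finset ℕ → Prop) (E : Finset (Sym2 ℕ)) : Finset ℕ :=
  if Reg D η p s (Eb b E) (Lb M y b E) then
    (Lb M y b E).filter (fun z => ∀ K, Gf (Eb b E) (Lb M y b E) K → z ∉ K) else ∅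

theorem Lb_Eb (M : Finset ℕ) (y b : ℕ) (E : Finset (Sym2 ℕ)) : Lb M y b (Eb b E) = Lb M y b E := by
  unfold Lb
  rw [Eb_Eb]

theorem fb_Eb (D : ℕ) (η p s : ℝ) (M : Finset ℕ) (y b : ℕ)
    (Gf : Finset (Sym2 ℕ) → Finset ℕ → Finset ℕ → Prop) (E : Finset (Sym2 ℕ)) :
    fb D η p s M y b Gf E = fb D η p s M y b Gf (Eb b E) := by
  unfold fb
  rw [Lb_Eb, Eb_Eb]

theorem Lb_eq {M : Finset ℕ} {y b : ℕ} {E : Finset (Sym2 ℕ)} (hyb : y ≠ b) :
    Lb M y b E = (cnb E M {y}).erase b := by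
  unfold Lb
  ext z
  simp only [mem_cnb, Finset.mem_erase, Finset.mem_singleton, forall_eq]
  constructor
  · rintro ⟨⟨h1, h2⟩, h3, h4⟩
    exact ⟨h1, h2, h3, (mem_Eb hyb h1).1 h4⟩
  · rintro ⟨h1, h2, h3, h4⟩
    exact ⟨⟨h1, h2⟩, h3, (mem_Eb hyb h1).2 h4⟩

theorem main (hg : S_giant) (hp : S_pow) (hs : S_size) (hq : S_quasi) (hu : S_ub) : S_good := by
  intro D ε hD hε
  obtain ⟨εp, ηp, hεp, hηp, hpow⟩ := hp D hD
  set ε' : ℝ := min ε (min εp (1 / 4)) with hε'
  have hε'0 : 0 < ε' := lt_min hε (lt_min hεp (by norm_num))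
  have hε'1 : ε' ≤ ε := min_le_left _ _
  have hε'2 : ε' ≤ εp := (min_le_right _ _).trans (min_le_left _ _)
  have hε'3 : ε' ≤ 1 / 4 := (min_le_right _ _).trans (min_le_right _ _)
  obtain ⟨ηg, hηg, hgiant⟩ := hg D ε' (by omega) hε'0
  set η : ℝ := min ηg (min ηp (1 / 4)) with hη
  have hη0 : 0 < η := lt_min hηg (lt_min hηp (by norm_num))
  have hη1 : η ≤ ηg := min_le_left _ _
  have hη2 : η ≤ ηp := (min_le_right _ _).trans (min_le_left _ _)
  have hη3 : η ≤ 1 / 4 := (min_le_right _ _).trans (min_le_right _ _)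
  obtain ⟨p1, hp1, hsize⟩ := hs D 1 (η / 2) (by omega) (by positivity)
  obtain ⟨Aq, hAq, hquasi⟩ := hq D (η / 2) (by omega) (by positivity)
  obtain ⟨p2, hp2, hquasi⟩ := hquasi 1
  set A0 : ℝ := max Aq (2 / η) with hA0
  have hA0q : Aq ≤ A0 := le_max_left _ _
  have hA0η : 2 / η ≤ A0 := le_max_right _ _
  have hA01 : 1 ≤ A0 := by
    refine le_trans ?_ hA0η
    rw [le_div_iff₀ hη0]
    linarith
  have hA0pos : 0 < A0 := by linarith
  set c : ℝ := ε' * A0 / 3 with hc
  have hc0 : 0 < c := by positivity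
  set N : ℕ := 2 * D + 4 with hN
  set p3 : ℝ := c ^ (N + 1) / (16 * ((N + 1).factorial : ℝ)) with hp3
  have hp30 : 0 < p3 := by positivity
  refine ⟨A0, min (min p1 p2) (min p3 (1 / 32)), hA0pos,
    lt_min (lt_min hp1 hp2) (lt_min hp30 (by norm_num)), ?_⟩
  intro p hp0 hpp M y U hyM hM1 hM2 hU
  have hpp1 : p < p1 := lt_of_lt_of_le hpp ((min_le_left _ _).trans (min_le_left _ _))
  have hpp2 : p < p2 := lt_of_lt_of_le hpp ((min_le_left _ _).trans (min_le_right _ _))
  have hpp3 : p < p3 := lt_of_lt_of_le hpp ((min_le_right _ _).trans (min_le_left _ _))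
  have hpp4 : p < 1 / 32 := lt_of_lt_of_le hpp ((min_le_right _ _).trans (min_le_right _ _))
  have hple : p ≤ 1 := by linarith
  set s : ℝ := M.card * p with hsdef
  -- size of `M`
  have hinv1 : 1 ≤ 1 / p := by rw [le_div_iff₀ hp0]; linarith
  have hinv2 : 2 ≤ 1 / p := by rw [le_div_iff₀ hp0]; linarith
  have hMp : A0 / p ≤ M.card * p ^ D := by
    have h1 : A0 * (1 / p) ^ (D + 1) * p ^ D = A0 / p := by
      rw [pow_succ, one_div, inv_pow]
      field_simp
    rw [← h1]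
    exact mul_le_mul_of_nonneg_right hM1 (by positivity)
  have hMpi : ∀ i ≤ D, A0 / p ≤ M.card * p ^ i := by
    intro i hi
    refine le_trans hMp ?_
    exact mul_le_mul_of_nonneg_left (pow_le_pow_of_le_one hp0.le hple hi) (Nat.cast_nonneg _)
  have hA0p : A0 ≤ A0 / p := by
    rw [le_div_iff₀ hp0]
    nlinarith
  have hspi : ∀ i < D, A0 / p ≤ s * p ^ i := by
    intro i hi
    have := hMpi (i + 1) (by omega)
    rw [hsdef, mul_assoc, ← pow_succ']
    exact this
  have hs0 : 0 < s := by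
    have := hspi 0 (by omega)
    rw [pow_zero, mul_one] at this
    linarith
  have hsD : 2 / η ≤ s * p ^ (D - 1) := by
    have := hspi (D - 1) (by omega)
    linarith
  have hsDg : 1 / ηg ≤ s * p ^ (D - 1) := by
    refine le_trans ?_ hsD
    rw [div_le_div_iff₀ hηg hη0]
    linarith
  have hsDp : 1 / ηp ≤ s * p ^ (D - 1) := by
    refine le_trans ?_ hsD
    rw [div_le_div_iff₀ hηp hη0]
    linarith
  -- the families
  have hex : ∀ (E : Finset (Sym2 ℕ)) (L : Finset ℕ), ∃ 𝒢 : Finset ℕ → Prop,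
      Reg D η p s E L → Fam E L D 𝒢 ∧ AA E ε' p D s L 𝒢 := by
    intro E L
    by_cases h : Reg D η p s E L
    · obtain ⟨𝒢, h1, h2⟩ := hgiant p s hp0 hple hsDg E L (Reg_mono h hη1 hs0.le hp0.le)
      exact ⟨𝒢, fun _ => ⟨h1, h2⟩⟩
    · exact ⟨fun _ => True, fun h' => absurd h' h⟩
  choose Gf hGf using hex
  have hDj : ∃ j, D = j + 1 := ⟨D - 1, by omega⟩
  have hfcard : ∀ b (E : Finset (Sym2 ℕ)),
      ((fb D η p s M y b Gf E).card : ℝ) ≤ ε' * s := by
    intro b E
    unfold fb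
    split_ifs with h
    · obtain ⟨j, hj⟩ := hDj
      have h1 := (hGf _ _ h).2
      rw [hj] at h h1
      refine AA_cover ?_ h1
      intro F hF hFj
      obtain ⟨h2, _, _⟩ := h F hF hFj
      have h3 := hspi F.card (by omega)
      have h4 : 0 < s * p ^ F.card := by linarith
      have h5 : (1 - η) * s * p ^ F.card = (1 - η) * (s * p ^ F.card) := by ring
      rw [h5] at h2
      refine lt_of_lt_of_le ?_ h2
      nlinarith
    · rw [Finset.card_empty, Nat.cast_zero]
      positivity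
  -- the deterministic part
  have hdet : ∀ E : Finset (Sym2 ℕ), SizeOK D (η / 2) p E M (insert y M) →
      QuasiOK D (η / 2) p E M (insert y M) →
      (∀ b ∈ M, ¬ 2 * p * (ε' * s) <
        (((fb D η p s M y b Gf E).filter (fun z => s(b, z) ∈ E)).card : ℝ)) →
      GoodY D ε p M E y := by
    intro E hS hQ hB
    have hMV : M ⊆ insert y M := Finset.subset_insert _ _
    have hR1' : Reg D (η / 2) p s E (cnb E M {y}) := by
      have := Reg_of hS hQ (W := {y}) (by simp) (by simp) hMV D (by simp)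
      rwa [Finset.card_singleton, pow_one] at this
    have hR1 : Reg D η p s E (cnb E M {y}) := Reg_mono hR1' (by linarith) hs0.le hp0.le
    obtain ⟨hF1, hA1⟩ := hGf _ _ hR1
    refine ⟨Gf E (cnb E M {y}), hF1, AA_mono_ε hε'1 hp0.le hs0.le hA1, ?_⟩
    refine hpow p s hp0 hple hsDp E M y hyM (Reg_mono hR1 hη2 hs0.le hp0.le) ?_ ?_ _ hF1
      (AA_mono_ε hε'2 hp0.le hs0.le hA1)
    · intro b hb
      have hyb : y ≠ b := fun h => hyM (h ▸ hb)
      have hc2 : ({y, b} : Finset ℕ).card = 2 := Finset.card_pair hyb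
      have := Reg_of hS hQ (W := {y, b}) (by omega)
        (by
          intro x hx
          rw [Finset.mem_insert, Finset.mem_singleton] at hx
          rcases hx with rfl | rfl
          · exact Finset.mem_insert_self _ _
          · exact Finset.mem_insert_of_mem hb) hMV (D - 1) (by omega)
      rw [hc2] at this
      have e : (M.card : ℝ) * p ^ 2 = s * p := by rw [hsdef]; ring
      rw [e] at this
      exact Reg_mono this (by linarith) (by positivity) hp0.le
    · intro b hb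
      have hyb : y ≠ b := fun h => hyM (h ▸ hb)
      have hLb := Lb_eq (M := M) (E := E) hyb
      have hcong : ∀ x ∈ Lb M y b E, ∀ z ∈ Lb M y b E, x ≠ z →
          (s(x, z) ∈ E ↔ s(x, z) ∈ Eb b E) := by
        intro x hx z hz _
        rw [hLb, Finset.mem_erase] at hx hz
        exact (mem_Eb hx.1 hz.1).symm
      have hRe : Reg D η p s E (Lb M y b E) := by
        rw [hLb]
        refine Reg_erase b hR1' (by linarith) ?_
        intro i hi
        have h1 := hspi i hi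
        have h2 : 2 / η ≤ s * p ^ i := by linarith
        have h3 : (η - η / 2) * (2 / η) = 1 := by field_simp; ring
        rw [← h3]
        exact mul_le_mul_of_nonneg_left h2 (by linarith)
      have hReb : Reg D η p s (Eb b E) (Lb M y b E) := Reg_congr hcong hRe
      obtain ⟨hF2, hA2⟩ := hGf _ _ hReb
      rw [← hLb]
      refine ⟨Gf (Eb b E) (Lb M y b E), Fam_mono (Finset.filter_subset _ _) hF2,
        AA_mono_ε hε'2 hp0.le hs0.le
          (AA_congr_E (fun x hx z hz hne => (hcong x hx z hz hne).symm) hA2), ?_⟩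
      have h1 := not_lt.1 (hB b hb)
      have h2 : (Lb M y b E).filter (fun z => s(b, z) ∈ E ∧
          ∀ K, Gf (Eb b E) (Lb M y b E) K → z ∉ K) =
          (fb D η p s M y b Gf E).filter (fun z => s(b, z) ∈ E) := by
        unfold fb
        rw [if_pos hReb, Finset.filter_filter]
        apply Finset.filter_congr
        intro z _
        exact and_comm
      rw [h2]
      refine h1.trans ?_
      have h3 : 2 * p * (ε' * s) = 2 * ε' * s * p := by ring
      rw [h3]
      gcongr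
  -- the probabilities
  have hV : (((insert y M).card : ℕ) : ℝ) ≤ (1 / p) ^ (2 * D + 5) := by
    rw [Finset.card_insert_of_notMem hyM]
    push_cast
    have h1 : (1:ℝ) ≤ (1 / p) ^ (2 * D + 4) := one_le_pow₀ hinv1
    have h2 : (1 / p) ^ (2 * D + 5) = (1 / p) ^ (2 * D + 4) * (1 / p) := pow_succ _ _
    rw [h2]
    nlinarith
  have hUM : ∀ x ∈ M, ∀ z ∈ M, x ≠ z → s(x, z) ∈ U := fun x hx z hz hne =>
    hU x (Finset.mem_insert_of_mem hx) z hz hne
  have hPS := hsize p hp0 hpp1 M (insert y M) U (by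
    refine le_trans ?_ hM1
    have : (0:ℝ) ≤ (1 / p) ^ (D + 1) := by positivity
    nlinarith) hV hU
  have hPQ := hquasi p hp0 hpp2 M (insert y M) U (le_trans (mul_le_mul_of_nonneg_right hA0q
    (by positivity)) hM1) hM2 hV hU hUM
  rw [pow_one] at hPS hPQ
  have hPB : ∀ b ∈ M, Pr p U (fun E => 2 * p * (ε' * s) <
      (((fb D η p s M y b Gf E).filter (fun z => s(b, z) ∈ E)).card : ℝ)) ≤
      Real.exp (-(p * (ε' * s) / 3)) := by
    intro b _
    exact hu p (ε' * s) b U (fb D η p s M y b Gf) hp0.le hple (by positivity)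
      (fun E => fb_Eb D η p s M y b Gf E) (hfcard b)
  have hPB' : Pr p U (fun E => ∃ b ∈ M, 2 * p * (ε' * s) <
      (((fb D η p s M y b Gf E).filter (fun z => s(b, z) ∈ E)).card : ℝ)) ≤ 1 / 16 := by
    refine le_trans (Pr_exists_le hp0.le hple M _) ?_
    refine le_trans (Finset.sum_le_sum hPB) ?_
    rw [Finset.sum_const, nsmul_eq_mul]
    have h1 : Real.exp (-(p * (ε' * s) / 3)) ≤ Real.exp (-(c / p)) := by
      apply Real.exp_le_exp.2
      have h2 := hMpi 2 hD
      have h3 : p * (ε' * s) / 3 = ε' / 3 * (M.card * p ^ 2) := by rw [hsdef]; ring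
      have h4 : c / p = ε' / 3 * (A0 / p) := by rw [hc]; ring
      rw [h3, h4]
      have : ε' / 3 * (A0 / p) ≤ ε' / 3 * (M.card * p ^ 2) :=
        mul_le_mul_of_nonneg_left h2 (by positivity)
      linarith
    have h5 : (M.card : ℝ) * Real.exp (-(p * (ε' * s) / 3)) ≤
        (1 / p) ^ N * Real.exp (-(c / p)) :=
      mul_le_mul hM2 h1 (Real.exp_pos _).le (by positivity)
    refine h5.trans ?_
    have h6 := Real.pow_div_factorial_le_exp (c / p) (by positivity) (N + 1)
    have hfac : (0:ℝ) < (N + 1).factorial := by positivity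
    rw [Real.exp_neg]
    have h7 : (0:ℝ) < (c / p) ^ (N + 1) / (N + 1).factorial := by positivity
    have h8 : (Real.exp (c / p))⁻¹ ≤ ((c / p) ^ (N + 1) / (N + 1).factorial)⁻¹ :=
      inv_anti₀ h7 h6
    refine le_trans (mul_le_mul_of_nonneg_left h8 (by positivity)) ?_
    have h9 : (1 / p) ^ N * ((c / p) ^ (N + 1) / (N + 1).factorial)⁻¹ =
        p * ((N + 1).factorial / c ^ (N + 1)) := by
      rw [div_pow, div_pow, one_pow, pow_succ p N]
      field_simp
    rw [h9]
    have h10 : p * ((N + 1).factorial / c ^ (N + 1)) ≤ p3 * ((N + 1).factorial / c ^ (N + 1)) :=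
      mul_le_mul_of_nonneg_right hpp3.le (by positivity)
    refine h10.trans (le_of_eq ?_)
    rw [hp3]
    field_simp
  have hfin : Pr p U (fun E => ¬ GoodY D ε p M E y) ≤
      Pr p U (fun E => ¬ SizeOK D (η / 2) p E M (insert y M) ∨
        (¬ QuasiOK D (η / 2) p E M (insert y M) ∨ ∃ b ∈ M, 2 * p * (ε' * s) <
          (((fb D η p s M y b Gf E).filter (fun z => s(b, z) ∈ E)).card : ℝ))) := by
    apply Pr_mono hp0.le hple
    intro E _ hE
    by_contra hcon
    push Not at hcon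
    exact hE (hdet E hcon.1 hcon.2.1 (fun b hb => not_lt.2 (hcon.2.2 b hb)))
  refine hfin.trans ?_
  refine le_trans (Pr_or_le hp0.le hple _ _) ?_
  have h11 := Pr_or_le hp0.le hple (U := U) (fun E => ¬ QuasiOK D (η / 2) p E M (insert y M))
    (fun E => ∃ b ∈ M, 2 * p * (ε' * s) <
          (((fb D η p s M y b Gf E).filter (fun z => s(b, z) ∈ E)).card : ℝ))
  linarith

end

end Pool.Agent.W822.KdGood
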