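import Pool.Agent.W827.Kd.Basic

/-! Project KD (helper827), part LINK (helper822): sequential choice of a linked chain. -/

set_option autoImplicit false
open Classical

namespace Pool.Agent.W822.KdLink

open Pool.Agent.H362C Pool.Agent.W827.Kd

noncomputable section

/-- none of several disjoint sets is open -/
theorem Pr_none {α ι : Type*} (p : ℝ) (Z : Finset ι) (A : ι → Finset α)
    (hd : ∀ z ∈ Z, ∀ z' ∈ Z, z ≠ z' → Disjoint (A z) (A z')) :
    ∀ U : Finset α, (∀ z ∈ Z, A z ⊆ U) →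
      Pr p U (fun E => ∀ z ∈ Z, ¬ A z ⊆ E) = ∏ z ∈ Z, (1 - p ^ (A z).card) := by
  induction Z using Finset.induction_on with
  | empty =>
    intro U _
    have h : Pr p U (fun E => ∀ z ∈ (∅ : Finset ι), ¬ A z ⊆ E) = Ex p U (fun _ => (1:ℝ)) := by
      apply Ex_congr
      intro E _
      simp
    rw [h, Ex_const, Finset.prod_empty]
  | insert a Z ha ih =>
    intro U hU
    have haU : A a ⊆ U := hU a (Finset.mem_insert_self a Z)
    have hsp : A a ∪ (U \ A a) = U := Finset.union_sdiff_of_subset haU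
    have hZ : ∀ z ∈ Z, A z ⊆ U \ A a := by
      intro z hz
      have h1 := hU z (Finset.mem_insert_of_mem hz)
      have h2 : Disjoint (A z) (A a) := hd z (Finset.mem_insert_of_mem hz) a
        (Finset.mem_insert_self a Z) (fun h => ha (h ▸ hz))
      exact Finset.subset_sdiff.2 ⟨h1, h2⟩
    have h := Pr_and_indep p (A a) (U \ A a) Finset.disjoint_sdiff
      (fun E => ¬ A a ⊆ E) (fun E => ∀ z ∈ Z, ¬ A z ⊆ E)
      (by
        intro E
        rw [not_iff_not]
        constructor
        · intro h; exact Finset.subset_inter h (Finset.Subset.refl _)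
        · intro h; exact h.trans Finset.inter_subset_left)
      (by
        intro E
        refine forall₂_congr fun z hz => ?_
        rw [not_iff_not]
        constructor
        · intro h; exact Finset.subset_inter h (hZ z hz)
        · intro h; exact h.trans Finset.inter_subset_left)
    rw [hsp] at h
    have h1 : Pr p U (fun E => ∀ z ∈ insert a Z, ¬ A z ⊆ E) =
        Pr p U (fun E => ¬ A a ⊆ E ∧ ∀ z ∈ Z, ¬ A z ⊆ E) := by
      apply Pr_congr
      intro E _
      simp only [Finset.mem_insert, forall_eq_or_imp]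
    rw [h1, h, Pr_not, Pr_superset p (A a) (A a) (Finset.Subset.refl _),
      ih (fun z hz z' hz' => hd z (Finset.mem_insert_of_mem hz) z' (Finset.mem_insert_of_mem hz'))
        _ hZ, Finset.prod_insert ha]

/-- some of several disjoint sets of size `m` is open -/
theorem Pr_some {α ι : Type*} {p : ℝ} (h0 : 0 ≤ p) (h1 : p ≤ 1) (Z : Finset ι) (A : ι → Finset α)
    (m : ℕ) (hd : ∀ z ∈ Z, ∀ z' ∈ Z, z ≠ z' → Disjoint (A z) (A z')) (U : Finset α)
    (hU : ∀ z ∈ Z, A z ⊆ U) (hm : ∀ z ∈ Z, (A z).card ≤ m) :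
    1 - Real.exp (-(p ^ m * Z.card)) ≤ Pr p U (fun E => ∃ z ∈ Z, A z ⊆ E) := by
  have h := Pr_none p Z A hd U hU
  have h2 : Pr p U (fun E => ∃ z ∈ Z, A z ⊆ E) = 1 - Pr p U (fun E => ∀ z ∈ Z, ¬ A z ⊆ E) := by
    rw [← Pr_not]
    apply Pr_congr
    intro E _
    push Not
    rfl
  rw [h2, h]
  have h3 : ∏ z ∈ Z, (1 - p ^ (A z).card) ≤ Real.exp (-(p ^ m * Z.card)) := by
    calc ∏ z ∈ Z, (1 - p ^ (A z).card) ≤ ∏ _z ∈ Z, Real.exp (-(p ^ m)) := by
          apply Finset.prod_le_prod
          · intro z _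
            have : p ^ (A z).card ≤ 1 := pow_le_one₀ h0 h1
            linarith
          · intro z hz
            have h4 : p ^ m ≤ p ^ (A z).card := pow_le_pow_of_le_one h0 h1 (hm z hz)
            have h5 := Real.add_one_le_exp (-(p ^ m))
            linarith
      _ = Real.exp (-(p ^ m * Z.card)) := by
          rw [Finset.prod_const, ← Real.exp_nat_mul]
          congr 1
          ring
  linarith

/-- the event that the chain can be chosen -/
def Ch (E1 : Finset (Sym2 ℕ)) (n : ℕ) (L : Finset ℕ) (P : ℕ → Finset ℕ) (w : ℕ → ℕ)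
    (𝒢 : Finset ℕ → Prop) (E2 : Finset (Sym2 ℕ)) : Prop :=
  ∃ b : ℕ → ℕ, (∀ i < n, b i ∈ P i ∧ b i ∈ L) ∧
    (∀ i < n, ∀ j < n, i ≠ j → b i ≠ b j ∧ s(b i, b j) ∈ E1) ∧
    𝒢 ((Finset.range n).image b) ∧ ∀ i j : ℕ, i ≤ j → j < n → s(b i, w j) ∈ E2

theorem Ch_mono {E1 : Finset (Sym2 ℕ)} {n : ℕ} {L : Finset ℕ} {P : ℕ → Finset ℕ} {w : ℕ → ℕ}
    {𝒢 : Finset ℕ → Prop} {E2 E2' : Finset (Sym2 ℕ)} (h : Ch E1 n L P w 𝒢 E2) (hE : E2 ⊆ E2') :
    Ch E1 n L P w 𝒢 E2' := by
  obtain ⟨b, h1, h2, h3, h4⟩ := h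
  exact ⟨b, h1, h2, h3, fun i j hij hj => hE (h4 i j hij hj)⟩

/-- adding the first element of the chain -/
theorem Ch_cons {E1 : Finset (Sym2 ℕ)} {n : ℕ} {L : Finset ℕ} {P : ℕ → Finset ℕ} {w : ℕ → ℕ}
    {𝒢 : Finset ℕ → Prop} {E2 : Finset (Sym2 ℕ)} {a : ℕ} (ha : a ∈ P 0) (haL : a ∈ L)
    (hw : ∀ j < n + 1, s(a, w j) ∈ E2)
    (h : Ch E1 n (cnb E1 L {a}) (fun i => P (i + 1)) (fun i => w (i + 1))
      (fun Q => 𝒢 (insert a Q)) E2) : Ch E1 (n + 1) L P w 𝒢 E2 := by
  obtain ⟨b, h1, h2, h3, h4⟩ := h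
  have hb : ∀ i < n, b i ∈ L ∧ b i ≠ a ∧ s(a, b i) ∈ E1 := by
    intro i hi
    have := (h1 i hi).2
    rw [mem_cnb] at this
    exact ⟨this.1, fun h => this.2.1 (Finset.mem_singleton.2 h),
      this.2.2 a (Finset.mem_singleton_self a)⟩
  refine ⟨fun i => match i with
    | 0 => a
    | (i + 1) => b i, ?_, ?_, ?_, ?_⟩
  · intro i hi
    rcases i with _ | i
    · exact ⟨ha, haL⟩
    · exact ⟨(h1 i (by omega)).1, (hb i (by omega)).1⟩
  · intro i hi j hj hij
    rcases i with _ | i
    · rcases j with _ | j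
      · exact absurd rfl hij
      · exact ⟨(hb j (by omega)).2.1.symm, (hb j (by omega)).2.2⟩
    · rcases j with _ | j
      · refine ⟨(hb i (by omega)).2.1, ?_⟩
        rw [Sym2.eq_swap]
        exact (hb i (by omega)).2.2
      · exact h2 i (by omega) j (by omega) (by omega)
  · have : (Finset.range (n + 1)).image (fun i => match i with
        | 0 => a
        | (i + 1) => b i) = insert a ((Finset.range n).image b) := by
      ext x
      simp only [Finset.mem_image, Finset.mem_range, Finset.mem_insert]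
      constructor
      · rintro ⟨i, hi, rfl⟩
        rcases i with _ | i
        · exact Or.inl rfl
        · exact Or.inr ⟨i, by omega, rfl⟩
      · rintro (rfl | ⟨i, hi, rfl⟩)
        · exact ⟨0, by omega, rfl⟩
        · exact ⟨i + 1, by omega, rfl⟩
    rw [this]
    exact h3
  · intro i j hij hj
    rcases i with _ | i
    · exact hw j hj
    · rcases j with _ | j
      · omega
      · exact h4 i j (by omega) (by omega)

theorem chain_prob {p : ℝ} (hp0 : 0 < p) (hp1 : p ≤ 1) (E1 : Finset (Sym2 ℕ)) {c ε q A : ℝ}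
    (hε : 0 ≤ ε) (hcε : ε ≤ c) (hq : Real.exp (-((c - ε) * A)) ≤ q) (hq1 : q ≤ 1) :
    ∀ (n : ℕ) (s : ℝ) (L : Finset ℕ) (P : ℕ → Finset ℕ) (w : ℕ → ℕ) (𝒢 : Finset ℕ → Prop),
      A ≤ s * p ^ n →
      (∀ i < n, ∀ j < n, i ≠ j → w i ≠ w j) → (∀ i < n, w i ∉ L) →
      (∀ i < n, ∀ j < n, i ≠ j → Disjoint (P i) (P j)) → AA E1 ε p n s L 𝒢 →
      (∀ i < n, ∀ F : Finset ℕ, F ⊆ L → F.card < n →
        c * s * p ^ F.card ≤ (((P i) ∩ cnb E1 L F).card : ℝ)) →
      ∀ U : Finset (Sym2 ℕ), (∀ i < n, ∀ k < n, ∀ z ∈ L, z ∈ P k → s(w i, z) ∈ U) →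
      (1 - q) ^ n ≤ Pr p U (Ch E1 n L P w 𝒢) := by
  intro n
  induction n with
  | zero =>
    intro s L P w 𝒢 _ _ _ _ hAA _ U _
    have h : Pr p U (Ch E1 0 L P w 𝒢) = Ex p U (fun _ => (1:ℝ)) := by
      apply Ex_congr
      intro E _
      rw [if_pos]
      refine ⟨fun _ => 0, fun i hi => absurd hi (by omega), fun i hi => absurd hi (by omega), ?_,
        fun i j _ hj => absurd hj (by omega)⟩
      rw [Finset.range_zero, Finset.image_empty]
      exact hAA
    rw [h, Ex_const, pow_zero]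
  | succ n ih =>
    intro s L P w 𝒢 hA hw hwL hP hAA hsize U hU
    -- good candidates
    set G0 : Finset ℕ := (P 0 ∩ L).filter
      (fun a => AA E1 ε p n (s * p) (cnb E1 L {a}) (fun Q => 𝒢 (insert a Q))) with hG0
    have hG0card : (c - ε) * s ≤ (G0.card : ℝ) := by
      have h1 := hsize 0 (by omega) ∅ (Finset.empty_subset _) (by simp)
      rw [cnb_empty, Finset.card_empty, pow_zero, mul_one] at h1
      have h2 : ((L.filter (fun a => ¬ AA E1 ε p n (s * p) (cnb E1 L {a})
          (fun Q => 𝒢 (insert a Q)))).card : ℝ) ≤ ε * s := hAA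
      have h3 : (P 0 ∩ L).card ≤ G0.card + (L.filter (fun a => ¬ AA E1 ε p n (s * p)
          (cnb E1 L {a}) (fun Q => 𝒢 (insert a Q)))).card := by
        refine le_trans (Finset.card_le_card ?_) (Finset.card_union_le _ _)
        intro a ha
        rw [Finset.mem_union, hG0, Finset.mem_filter, Finset.mem_filter]
        by_cases h : AA E1 ε p n (s * p) (cnb E1 L {a}) (fun Q => 𝒢 (insert a Q))
        · exact Or.inl ⟨ha, h⟩
        · exact Or.inr ⟨(Finset.mem_inter.1 ha).2, h⟩
      have h4 : ((P 0 ∩ L).card : ℝ) ≤ G0.card + (L.filter (fun a => ¬ AA E1 ε p n (s * p)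
          (cnb E1 L {a}) (fun Q => 𝒢 (insert a Q)))).card := by exact_mod_cast h3
      linarith
    -- the pairs used at the first stage
    set Aset : ℕ → Finset (Sym2 ℕ) := fun z => (Finset.range (n + 1)).image (fun j => s(w j, z))
      with hAset
    set U0 : Finset (Sym2 ℕ) := (P 0 ∩ L).biUnion Aset with hU0
    have hU0U : U0 ⊆ U := by
      intro e he
      rw [hU0, Finset.mem_biUnion] at he
      obtain ⟨z, hz, he⟩ := he
      rw [hAset, Finset.mem_image] at he
      obtain ⟨j, hj, rfl⟩ := he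
      rw [Finset.mem_inter] at hz
      exact hU j (Finset.mem_range.1 hj) 0 (by omega) z hz.2 hz.1
    have hsub : ∀ z ∈ G0, Aset z ⊆ U0 := by
      intro z hz
      rw [hG0, Finset.mem_filter] at hz
      exact Finset.subset_biUnion_of_mem Aset hz.1
    have hdisj : ∀ z ∈ G0, ∀ z' ∈ G0, z ≠ z' → Disjoint (Aset z) (Aset z') := by
      intro z hz z' hz' hne
      rw [Finset.disjoint_left]
      intro e he he'
      rw [hAset, Finset.mem_image] at he he'
      obtain ⟨j, hj, rfl⟩ := he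
      obtain ⟨j', hj', he⟩ := he'
      rw [hG0, Finset.mem_filter, Finset.mem_inter] at hz hz'
      rcases Sym2.eq_iff.1 he with ⟨_, h2⟩ | ⟨h1, h2⟩
      · exact hne h2.symm
      · exact hwL j' (Finset.mem_range.1 hj') (h1 ▸ hz.1.2)
    have hfirst : 1 - q ≤ Pr p U0 (fun E => ∃ z ∈ G0, Aset z ⊆ E) := by
      have h1 := Pr_some hp0.le hp1 G0 Aset (n + 1) hdisj U0 hsub (fun z _ => by
        rw [hAset]
        refine Finset.card_image_le.trans ?_
        rw [Finset.card_range])
      have h2 : Real.exp (-(p ^ (n + 1) * G0.card)) ≤ q := by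
        refine le_trans (Real.exp_le_exp.2 ?_) hq
        have h3 : p ^ (n + 1) * ((c - ε) * s) ≤ p ^ (n + 1) * G0.card :=
          mul_le_mul_of_nonneg_left hG0card (by positivity)
        have h4 : (c - ε) * A ≤ (c - ε) * (s * p ^ (n + 1)) :=
          mul_le_mul_of_nonneg_left hA (by linarith)
        linarith
      linarith
    have hspl : U0 ∪ (U \ U0) = U := Finset.union_sdiff_of_subset hU0U
    have hcond : ∀ E ⊆ U0, (∃ z ∈ G0, Aset z ⊆ E) →
        (1 - q) ^ n ≤ Pr p (U \ U0) (fun F => Ch E1 (n + 1) L P w 𝒢 (E ∪ F)) := by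
      rintro E _ ⟨a, ha, haE⟩
      rw [hG0, Finset.mem_filter, Finset.mem_inter] at ha
      obtain ⟨⟨haP, haL⟩, haA⟩ := ha
      have hih := ih (s * p) (cnb E1 L {a}) (fun i => P (i + 1)) (fun i => w (i + 1))
        (fun Q => 𝒢 (insert a Q)) (by rw [mul_assoc, ← pow_succ']; exact hA)
        (fun i hi j hj hij => hw (i + 1) (by omega) (j + 1) (by omega) (by omega))
        (fun i hi h => hwL (i + 1) (by omega) (cnb_sub h))
        (fun i hi j hj hij => hP (i + 1) (by omega) (j + 1) (by omega) (by omega))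
        haA
        (fun i hi F hF hFn => by
          have haF : a ∉ F := fun h => by
            have := hF h
            rw [mem_cnb] at this
            exact this.2.1 (Finset.mem_singleton_self a)
          have h1 := hsize (i + 1) (by omega) (insert a F)
            (Finset.insert_subset haL (le_trans hF cnb_sub))
            (by rw [Finset.card_insert_of_notMem haF]; omega)
          rw [Finset.card_insert_of_notMem haF] at h1
          rw [cnb_cnb, ← Finset.insert_eq]
          refine le_trans (le_of_eq ?_) h1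
          rw [pow_succ]
          ring)
        (U \ U0)
        (fun i hi k hk z hz hzk => by
          rw [Finset.mem_sdiff]
          have hzL : z ∈ L := cnb_sub hz
          refine ⟨hU (i + 1) (by omega) (k + 1) (by omega) z hzL hzk, fun h => ?_⟩
          rw [hU0, Finset.mem_biUnion] at h
          obtain ⟨z', hz', he⟩ := h
          rw [hAset, Finset.mem_image] at he
          obtain ⟨j, hj, he⟩ := he
          rw [Finset.mem_inter] at hz'
          rcases Sym2.eq_iff.1 he with ⟨_, h2⟩ | ⟨h1, h2⟩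
          · have := Finset.disjoint_left.1 (hP 0 (by omega) (k + 1) (by omega) (by omega)) hz'.1
            exact this (h2 ▸ hzk)
          · exact hwL j (Finset.mem_range.1 hj) (h1 ▸ hzL))
      refine le_trans hih (Pr_mono hp0.le hp1 ?_)
      intro F _ hF
      refine Ch_cons haP haL ?_ (Ch_mono hF Finset.subset_union_right)
      intro j hj
      apply Finset.subset_union_left
      apply haE
      rw [hAset, Finset.mem_image]
      exact ⟨j, Finset.mem_range.2 hj, Sym2.eq_swap⟩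
    calc (1 - q) ^ (n + 1) = (1 - q) ^ n * (1 - q) := pow_succ _ _
      _ ≤ (1 - q) ^ n * Pr p U0 (fun E => ∃ z ∈ G0, Aset z ⊆ E) :=
          mul_le_mul_of_nonneg_left hfirst (pow_nonneg (by linarith) _)
      _ = Ex p U0 (fun E => (1 - q) ^ n * (if (∃ z ∈ G0, Aset z ⊆ E) then 1 else 0)) := by
          rw [Ex_mul_left, Ex_ite]
      _ ≤ Ex p U0 (fun E => Pr p (U \ U0) (fun F => Ch E1 (n + 1) L P w 𝒢 (E ∪ F))) := by
          apply Ex_mono hp0.le hp1
          intro E hE
          split_ifs with h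
          · rw [mul_one]
            exact hcond E hE h
          · rw [mul_zero]
            exact Pr_nonneg hp0.le hp1 _ _
      _ = Pr p (U0 ∪ (U \ U0)) (Ch E1 (n + 1) L P w 𝒢) :=
          (Pr_union p U0 (U \ U0) Finset.disjoint_sdiff _).symm
      _ = Pr p U (Ch E1 (n + 1) L P w 𝒢) := by rw [hspl]

theorem main : S_link := by
  intro D hD
  have hD' : (1:ℝ) ≤ D := by exact_mod_cast hD
  refine ⟨1 / (8 * (D:ℝ)), 16 * (D:ℝ) ^ 2, by positivity, by positivity, ?_⟩
  intro p s hp0 hp1 hA E1 L P w 𝒢 hw hwL hP hAA hsize U hU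
  have hq : Real.exp (-((1 / (4 * (D:ℝ)) - 1 / (8 * (D:ℝ))) * (16 * (D:ℝ) ^ 2))) ≤
      1 / (2 * (D:ℝ)) := by
    have e : (1 / (4 * (D:ℝ)) - 1 / (8 * (D:ℝ))) * (16 * (D:ℝ) ^ 2) = 2 * D := by
      field_simp
      ring
    rw [e, Real.exp_neg, ← one_div]
    apply one_div_le_one_div_of_le (by positivity)
    have := Real.add_one_le_exp (2 * (D:ℝ))
    linarith
  have h := chain_prob hp0 hp1 E1 (c := 1 / (4 * (D:ℝ))) (ε := 1 / (8 * (D:ℝ)))
    (q := 1 / (2 * (D:ℝ))) (A := 16 * (D:ℝ) ^ 2) (by positivity)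
    (one_div_le_one_div_of_le (by positivity) (by linarith)) hq
    (by rw [div_le_one (by positivity)]; linarith)
    D s L P w 𝒢 hA hw hwL hP hAA hsize U (fun i hi k _ z hz _ => hU i hi z hz)
  have h2 : (1:ℝ) / 2 ≤ (1 - 1 / (2 * (D:ℝ))) ^ D := by
    have h3 := one_add_mul_le_pow (a := -(1 / (2 * (D:ℝ)))) (by
      have : 1 / (2 * (D:ℝ)) ≤ 1 := by rw [div_le_one (by positivity)]; linarith
      linarith) D
    have h4 : 1 + (D:ℝ) * -(1 / (2 * (D:ℝ))) = 1 / 2 := by
      field_simp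
      ring
    rw [h4] at h3
    have h5 : 1 + -(1 / (2 * (D:ℝ))) = 1 - 1 / (2 * (D:ℝ)) := by ring
    rw [h5] at h3
    exact h3
  exact le_trans h2 h

end

end Pool.Agent.W822.KdLink
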