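import Pool.Agent.W894.MB.Defs2

/-!
Project MB (helper894), second round: the splitting statement.
-/

namespace Pool.Agent.W822.MCSplit

open Set Pool.Agent.W894.MB

universe u v z

open Classical in
/-- add the value `v` at the point `t` to a condition -/
noncomputable def addv {Z : Type v} {K : Type u} [LinearOrder K] (hO : Nonempty (Option Z ↪ Z))
    (c : CondZ Z K) (t v : K) (hv : v < t) : CondZ Z K where
  f := Function.update c.f t (some v)
  small := by
    obtain ⟨g⟩ := c.small
    obtain ⟨h⟩ := hO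
    have hz : ∀ x : K, Function.update c.f t (some v) x ≠ none → ¬ c.f x ≠ none → x = t := by
      intro x h1 h2
      by_contra h3
      rw [Function.update_of_ne h3] at h1
      exact h2 h1
    refine ⟨⟨fun x => h (if hx : c.f x.1 ≠ none then some (g ⟨x.1, hx⟩) else none), ?_⟩⟩
    intro x y hxy
    have h1 := h.injective hxy
    by_cases hx : c.f x.1 ≠ none
    · by_cases hy : c.f y.1 ≠ none
      · rw [dif_pos hx, dif_pos hy] at h1
        have h2 := g.injective (Option.some.inj h1)
        apply Subtype.ext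
        simpa using h2
      · rw [dif_pos hx, dif_neg hy] at h1
        cases h1
    · by_cases hy : c.f y.1 ≠ none
      · rw [dif_neg hx, dif_pos hy] at h1
        cases h1
      · exact Subtype.ext ((hz x.1 x.2 hx).trans (hz y.1 y.2 hy).symm)
  regr := by
    intro x y hxy
    by_cases h : x = t
    · subst h
      rw [Function.update_self] at hxy
      cases hxy
      exact hv
    · rw [Function.update_of_ne h] at hxy
      exact c.regr x y hxy

theorem addv_self {Z : Type v} {K : Type u} [LinearOrder K] (hO : Nonempty (Option Z ↪ Z))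
    (c : CondZ Z K) (t v : K) (hv : v < t) : (addv hO c t v hv).f t = some v := by
  simp [addv]

theorem addv_ne {Z : Type v} {K : Type u} [LinearOrder K] (hO : Nonempty (Option Z ↪ Z))
    (c : CondZ Z K) (t v : K) (hv : v < t) {y : K} (hy : y ≠ t) :
    (addv hO c t v hv).f y = c.f y := by
  simp [addv, hy]

theorem free {Z : Type v} {K : Type u} [LinearOrder K] [WellFoundedLT K] (h2 : G_COMPL.{u, u})
    (U : Ultrafilter K) (hU : NormalMeasure U) (hN : Smaller (Z ⊕ ℕ) K) (c : CondZ Z K) (b : K) :
    ∃ z, b < z ∧ c.f z = none := by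
  by_contra hcon
  have hcon' : ∀ z, b < z → c.f z ≠ none := fun z hz hn => hcon ⟨z, hz, hn⟩
  have hS : {x | c.f x ≠ none} ∈ U :=
    Filter.mem_of_superset (hU.tail b) (fun z hz => hcon' z hz)
  have hT : Smaller ({x | c.f x ≠ none} ⊕ ℕ) K := by
    obtain ⟨a, e, he, hea⟩ := hN
    obtain ⟨g⟩ := c.small
    exact ⟨a, fun t => e (Sum.map g id t),
      he.comp (Sum.map_injective.2 ⟨g.injective, Function.injective_id⟩), fun t => hea _⟩
  have h3 := h2 K U hU {x | c.f x ≠ none} hT (fun t => {z | z ≠ t.1}) (fun t =>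
    Filter.mem_of_superset (hU.tail t.1) (fun z hz => ne_of_gt hz))
  have h4 := Filter.inter_mem hS h3
  obtain ⟨z, hz1, hz2⟩ := Ultrafilter.nonempty_of_mem h4
  have h5 := Set.mem_iInter.mp hz2 ⟨z, hz1⟩
  exact h5 rfl

theorem main (h2 : G_COMPL.{u, u}) : G_SPLIT.{u, v, z} := by
  intro Z K _ _ U hU hN hO L hL w
  obtain ⟨a, i, hi, hia⟩ := hL
  choose z hz using fun x : K => free h2 U hU hN (w.q x) (max x a)
  have hzx : ∀ x, x < z x := fun x => lt_of_le_of_lt (le_max_left _ _) (hz x).1
  have hza : ∀ x, a < z x := fun x => lt_of_le_of_lt (le_max_right _ _) (hz x).1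
  refine ⟨fun l => ⟨w.A, w.hA, fun x => addv hO (w.q x) (z x) (i l) ((hia l).trans (hza x)), ?_⟩,
    fun l => ⟨Subset.rfl, ?_⟩, ?_⟩
  · intro x y hyx
    exact (addv_ne hO (w.q x) (z x) (i l) ((hia l).trans (hza x))
      (ne_of_lt (hyx.trans (hzx x)))).trans (w.hq x y hyx)
  · intro x _ y v hv
    have hne : y ≠ z x := by
      rintro rfl
      rw [(hz x).2] at hv
      cases hv
    exact (addv_ne hO (w.q x) (z x) (i l) ((hia l).trans (hza x)) hne).trans hv
  · intro l l' x p hp hp'
    have h1 := hp (z x) (i l) (addv_self hO (w.q x) (z x) (i l) ((hia l).trans (hza x)))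
    have h3 := hp' (z x) (i l') (addv_self hO (w.q x) (z x) (i l') ((hia l').trans (hza x)))
    rw [h1] at h3
    exact hi (Option.some.inj h3)

end Pool.Agent.W822.MCSplit
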