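import Pool.Agent.W822.Basic

/-!
Symmetries, mean passage times, uniform concentration.
-/

set_option autoImplicit false

open MeasureTheory ProbabilityTheory Filter Topology
open scoped ENNReal NNReal

namespace Pool.Agent.W822.FPP

variable {a : ℝ}

/-- the action of a bijection on pairs -/
def pairE (σ : V ≃ V) : Sym2 V ≃ Sym2 V where
  toFun := Sym2.map σ
  invFun := Sym2.map σ.symm
  left_inv e := by rw [Sym2.map_map]; simp
  right_inv e := by rw [Sym2.map_map]; simp

lemma T_perm_le (ha : 0 ≤ a) (σ : V ≃ V) (hσ : ∀ u v, lat.Adj u v → lat.Adj (σ u) (σ v))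
    (ω : Om) (u v : V) : T a ω (σ u) (σ v) ≤ T a (fun e => ω (pairE σ e)) u v := by
  obtain ⟨p, hp⟩ := exists_min ha (fun e => ω (pairE σ e)) u v
  rw [← hp]
  let f : lat →g lat := ⟨σ, fun {u v} h => hσ u v h⟩
  refine (T_le_cost ha ω (p.map f)).trans (le_of_eq ?_)
  unfold cost
  rw [SimpleGraph.Walk.edges_map, List.map_map]
  rfl

lemma T_perm (ha : 0 ≤ a) (σ : V ≃ V) (hσ : ∀ u v, lat.Adj u v ↔ lat.Adj (σ u) (σ v))
    (ω : Om) (u v : V) : T a (fun e => ω (pairE σ e)) u v = T a ω (σ u) (σ v) := by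
  apply le_antisymm _ (T_perm_le ha σ (fun u v => (hσ u v).1) ω u v)
  have h1 := T_perm_le ha σ.symm (fun u v h => by
    rw [hσ]; simpa using h) (fun e => ω (pairE σ e)) (σ u) (σ v)
  have h2 : (fun e => ω (pairE σ (pairE σ.symm e))) = ω := by
    funext e
    congr 1
    exact (pairE σ).apply_symm_apply e
  simp only [Equiv.symm_apply_apply, h2] at h1
  exact h1

lemma meas_T (ha : 0 ≤ a) (u v : V) : Measurable (fun ω => T a ω u v) := (dep_T ha u v).measurable

lemma int_T_perm (ha : 0 ≤ a) (σ : V ≃ V) (hσ : ∀ u v, lat.Adj u v ↔ lat.Adj (σ u) (σ v))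
    (u v : V) (F : ℝ → ℝ) (hF : Measurable F) :
    ∫ ω, F (T a ω (σ u) (σ v)) ∂P = ∫ ω, F (T a ω u v) ∂P := by
  rw [← int_perm (pairE σ) (f := fun ω => F (T a ω u v)) (hF.comp (meas_T ha u v))]
  apply integral_congr_ae
  refine Filter.Eventually.of_forall fun ω => ?_
  simp only [T_perm ha σ hσ ω u v]

/-- translations -/
lemma int_T_shift (ha : 0 ≤ a) (u v : V) (F : ℝ → ℝ) (hF : Measurable F) :
    ∫ ω, F (T a ω u v) ∂P = ∫ ω, F (T a ω 0 (v - u)) ∂P := by
  have h := int_T_perm ha (Equiv.addRight u) (fun x y => by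
    simp [lat]) 0 (v - u) F hF
  simpa using h

lemma mean_T (ha : 0 ≤ a) (u v : V) : ∫ ω, T a ω u v ∂P = h a (v - u) :=
  int_T_shift ha u v id measurable_id

lemma integrable_T (ha : 0 ≤ a) (u v : V) : Integrable (fun ω => T a ω u v) P :=
  (dep_T ha u v).integrable

lemma h_neg (ha : 0 ≤ a) (x : V) : h a (-x) = h a x := by
  have h1 : h a (-x) = ∫ ω, T a ω x 0 ∂P := by
    rw [mean_T ha x 0, zero_sub]
  rw [h1]
  unfold h
  congr 1
  funext ω
  exact T_symm ha ω x 0

lemma h_sub_comm (ha : 0 ≤ a) (x y : V) : h a (x - y) = h a (y - x) := by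
  rw [← h_neg ha, neg_sub]

lemma h_add_le (ha : 0 ≤ a) (x y : V) : h a (x + y) ≤ h a x + h a y := by
  have h1 : h a y = ∫ ω, T a ω x (x + y) ∂P := by
    rw [mean_T ha x (x + y), add_sub_cancel_left]
  rw [h1]
  unfold h
  rw [← integral_add (integrable_T ha _ _) (integrable_T ha _ _)]
  exact integral_mono (integrable_T ha _ _) ((integrable_T ha _ _).add (integrable_T ha _ _))
    fun ω => T_tri ha ω 0 x (x + y)

lemma le_h (ha : 0 ≤ a) (x : V) : (nrm x : ℝ) ≤ h a x := by
  have h1 : ∫ ω : Om, (nrm x : ℝ) ∂P ≤ h a x := by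
    apply integral_mono (integrable_const _) (integrable_T ha _ _)
    intro ω
    simpa using nrm_le_T ha ω 0 x
  simpa using h1

lemma h_le (ha : 0 ≤ a) (x : V) : h a x ≤ (1 + a) * nrm x := by
  have h1 : h a x ≤ ∫ ω : Om, (1 + a) * (nrm x : ℝ) ∂P := by
    apply integral_mono (integrable_T ha _ _) (integrable_const _)
    intro ω
    simpa using T_le ha ω 0 x
  simpa using h1

lemma h_nonneg (ha : 0 ≤ a) (x : V) : 0 ≤ h a x :=
  le_trans (by exact_mod_cast nrm_nonneg x) (le_h ha x)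

@[simp] lemma h_zero (ha : 0 ≤ a) : h a 0 = 0 := by
  apply le_antisymm _ (h_nonneg ha 0)
  simpa using h_le ha 0

lemma h_smul_le (ha : 0 ≤ a) (k : ℕ) (x : V) : h a (k • x) ≤ k * h a x := by
  induction k with
  | zero => simp [ha]
  | succ k ih =>
    rw [succ_nsmul]
    refine (h_add_le ha _ _).trans ?_
    push_cast
    linarith

lemma h_lip (ha : 0 ≤ a) (x y : V) : |h a x - h a y| ≤ (1 + a) * nrm (x - y) := by
  have h1 := h_add_le ha (x - y) y
  have h2 := h_add_le ha (y - x) x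
  have h3 := h_le ha (x - y)
  have h4 := h_le ha (y - x)
  rw [sub_add_cancel] at h1 h2
  rw [nrm_sub_comm y x] at h4
  rw [abs_le]
  constructor <;> linarith

/-- the reflection in the diagonal -/
lemma h_swap (ha : 0 ≤ a) (x : V) : h a x.swap = h a x := by
  have h1 := int_T_perm ha (Equiv.prodComm ℤ ℤ) (fun u v => by
    simp only [lat, Equiv.prodComm_apply, Prod.fst_swap, Prod.snd_swap]
    rw [add_comm]) 0 x id measurable_id
  simpa [h] using h1

lemma h_mono {b : ℝ} (ha : 0 ≤ a) (hab : a ≤ b) (x : V) : h a x ≤ h b x := by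
  apply integral_mono (integrable_T ha _ _) (integrable_T (ha.trans hab) _ _)
  intro ω
  obtain ⟨p, hp⟩ := exists_min (ha.trans hab) ω 0 x
  show T a ω 0 x ≤ T b ω 0 x
  rw [← hp]
  refine (T_le_cost ha ω p).trans ?_
  rw [cost_eq, cost_eq]
  have : (0 : ℝ) ≤ hic ω p := Nat.cast_nonneg _
  nlinarith

/-- Chebyshev inequality for the passage time -/
lemma cheb (ha : 0 ≤ a) (u v : V) {s : ℝ} (hs : 0 < s) :
    P.real {ω | s ≤ |T a ω u v - h a (v - u)|} ≤ a ^ 2 * (1 + a) * nrm (v - u) / s ^ 2 := by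
  have hd := dep_T ha u v
  have hd2 : Dep (ballE u (rad a u v)) (fun ω => (T a ω u v - h a (v - u)) ^ 2) :=
    hd.comp (fun x => (x - h a (v - u)) ^ 2)
  have h1 := mul_meas_ge_le_integral_of_nonneg (μ := P)
    (f := fun ω => (T a ω u v - h a (v - u)) ^ 2)
    (Filter.Eventually.of_forall fun ω => sq_nonneg _) hd2.integrable (s ^ 2)
  have h2 : ∫ ω, (T a ω u v - h a (v - u)) ^ 2 ∂P =
      ∫ ω, T a ω u v ^ 2 ∂P - (∫ ω, T a ω u v ∂P) ^ 2 := by
    have e1 : ∀ ω, (T a ω u v - h a (v - u)) ^ 2 =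
        T a ω u v ^ 2 + ((-(2 * h a (v - u))) * T a ω u v + h a (v - u) ^ 2) := by
      intro ω; ring
    simp only [e1]
    have i1 : Integrable (fun ω => T a ω u v ^ 2) P := (hd.comp (fun x => x ^ 2)).integrable
    have i2 : Integrable (fun ω => (-(2 * h a (v - u))) * T a ω u v) P :=
      hd.integrable.const_mul _
    have i3 : Integrable (fun ω => (-(2 * h a (v - u))) * T a ω u v + h a (v - u) ^ 2) P :=
      i2.add (integrable_const _)
    rw [integral_add i1 i3, integral_add i2 (integrable_const _), integral_const_mul, mean_T ha]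
    simp
    ring
  rw [h2] at h1
  have h3 := h1.trans (var_le ha u v)
  have h4 : {ω | s ≤ |T a ω u v - h a (v - u)|} = {ω | s ^ 2 ≤ (T a ω u v - h a (v - u)) ^ 2} := by
    ext ω
    simp only [Set.mem_ofPred_eq]
    rw [← sq_abs (T a ω u v - h a (v - u))]
    exact (pow_le_pow_iff_left₀ hs.le (abs_nonneg _) two_ne_zero).symm
  rw [h4, le_div_iff₀ (by positivity)]
  linarith

/-- the good event: uniform concentration around `u` at scale `L ^ 5` -/
def Good (a : ℝ) (K L : ℕ) (u : V) : Set Om :=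
  {ω | ∀ v : V, nrm (v - u) ≤ K * L ^ 5 →
    |T a ω u v - h a (v - u)| ≤ (5 + 4 * a) * L ^ 4}

lemma measurableSet_Good (ha : 0 ≤ a) (K L : ℕ) (u : V) : MeasurableSet (Good a K L u) := by
  have : Good a K L u = ⋂ v : V, ⋂ _ : nrm (v - u) ≤ K * L ^ 5,
      {ω | |T a ω u v - h a (v - u)| ≤ (5 + 4 * a) * L ^ 4} := by
    ext ω
    simp [Good]
  rw [this]
  refine MeasurableSet.iInter fun v => MeasurableSet.iInter fun _ => ?_
  exact measurableSet_le (((meas_T ha u v).sub_const _).abs) measurable_const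

/-- the constant in the bound for bad events -/
noncomputable def cA (a : ℝ) (K : ℕ) : ℝ := (2 * K + 3) ^ 2 * (2 * a ^ 2 * (1 + a) * (K + 1))

lemma cA_nonneg (ha : 0 ≤ a) (K : ℕ) : 0 ≤ cA a K := by
  unfold cA
  positivity

theorem prob_bad (ha : 0 ≤ a) (K L : ℕ) (hL : 1 ≤ L) (u : V) :
    P.real (Good a K L u)ᶜ ≤ cA a K / L := by
  classical
  have hLR : (1 : ℝ) ≤ L := by exact_mod_cast hL
  set s : ℤ := (L : ℤ) ^ 4 with hs
  have hs1 : 1 ≤ s := by
    have : 1 ≤ (L : ℤ) := by exact_mod_cast hL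
    exact one_le_pow₀ this
  set M : ℤ := K * L + 1 with hM
  have hM1 : 1 ≤ M := by
    have : (0 : ℤ) ≤ K * L := by positivity
    linarith
  set I : Finset (ℤ × ℤ) := Finset.Icc (-M) M ×ˢ Finset.Icc (-M) M with hI
  set w : ℤ × ℤ → V := fun i => u + (s * i.1, s * i.2) with hw
  have hsub : (Good a K L u)ᶜ ⊆ ⋃ i ∈ I, {ω | (s : ℝ) ≤ |T a ω u (w i) - h a (w i - u)|} := by
    intro ω hω
    by_contra hcon
    apply hω
    simp only [Set.mem_iUnion, Set.mem_ofPred_eq, not_exists, not_le] at hcon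
    intro v hv
    set i : ℤ × ℤ := ((v.1 - u.1) / s, (v.2 - u.2) / s) with hi
    have hs0 : (0 : ℤ) < s := by linarith
    have d1 := Int.emod_add_mul_ediv (v.1 - u.1) s
    have d2 := Int.emod_nonneg (v.1 - u.1) hs0.ne'
    have d3 := Int.emod_lt_of_pos (v.1 - u.1) hs0
    have d1' := Int.emod_add_mul_ediv (v.2 - u.2) s
    have d2' := Int.emod_nonneg (v.2 - u.2) hs0.ne'
    have d3' := Int.emod_lt_of_pos (v.2 - u.2) hs0
    have hnb : |v.1 - u.1| ≤ K * L ^ 5 ∧ |v.2 - u.2| ≤ K * L ^ 5 := by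
      simp only [nrm, Prod.fst_sub, Prod.snd_sub] at hv
      have h1 := abs_nonneg (v.1 - u.1)
      have h2 := abs_nonneg (v.2 - u.2)
      constructor <;> linarith
    have hb : ∀ x : ℤ, |x| ≤ K * L ^ 5 → x / s ∈ Finset.Icc (-M) M := by
      intro x hx
      rw [abs_le] at hx
      have e1 := Int.emod_add_mul_ediv x s
      have e2 := Int.emod_nonneg x hs0.ne'
      have e3 := Int.emod_lt_of_pos x hs0
      have e4 : (K * L ^ 5 : ℤ) = s * (K * L) := by rw [hs]; ring
      rw [e4] at hx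
      rw [Finset.mem_Icc]
      constructor
      · by_contra hc
        push Not at hc
        have : s * (x / s) ≤ s * (-M - 1) := mul_le_mul_of_nonneg_left (by omega) hs0.le
        rw [hM] at this
        nlinarith
      · by_contra hc
        push Not at hc
        have : s * (M + 1) ≤ s * (x / s) := mul_le_mul_of_nonneg_left (by omega) hs0.le
        rw [hM] at this
        nlinarith
    have hiI : i ∈ I := by
      rw [hI, Finset.mem_product]
      exact ⟨hb _ hnb.1, hb _ hnb.2⟩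
    have h1 := hcon i hiI
    have h2 : nrm (v - w i) ≤ 2 * s := by
      have e1 : (v - w i).1 = (v.1 - u.1) % s := by
        simp only [hw, hi, Prod.fst_sub, Prod.fst_add]
        linarith
      have e2 : (v - w i).2 = (v.2 - u.2) % s := by
        simp only [hw, hi, Prod.snd_sub, Prod.snd_add]
        linarith
      unfold nrm
      rw [e1, e2, abs_of_nonneg d2, abs_of_nonneg d2']
      linarith
    have h2R : (nrm (v - w i) : ℝ) ≤ 2 * s := by exact_mod_cast h2
    have h3 := T_lip ha ω u v (w i)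
    have h4 := h_lip ha (v - u) (w i - u)
    have h5 : v - u - (w i - u) = v - w i := by abel
    rw [h5] at h4
    have h6 : (s : ℝ) = (L : ℝ) ^ 4 := by rw [hs]; push_cast; ring
    have h7 : (1 + a) * (nrm (v - w i) : ℝ) ≤ (1 + a) * (2 * s) :=
      mul_le_mul_of_nonneg_left h2R (by linarith)
    rw [abs_le] at h3 h4 ⊢
    rw [abs_lt] at h1
    rw [← h6]
    constructor <;> nlinarith [h3.1, h3.2, h4.1, h4.2, h1.1, h1.2]
  have h1 : P.real (Good a K L u)ᶜ ≤
      ∑ i ∈ I, P.real {ω | (s : ℝ) ≤ |T a ω u (w i) - h a (w i - u)|} :=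
    (measureReal_mono hsub (measure_ne_top _ _)).trans (measureReal_biUnion_finset_le _ _)
  have hsR : (s : ℝ) = (L : ℝ) ^ 4 := by rw [hs]; push_cast; ring
  have hs0R : (0 : ℝ) < s := by rw [hsR]; positivity
  have hMR : (M : ℝ) ≤ (K + 1) * L := by
    rw [hM]; push_cast; nlinarith
  have h2 : ∀ i ∈ I, P.real {ω | (s : ℝ) ≤ |T a ω u (w i) - h a (w i - u)|} ≤
      2 * a ^ 2 * (1 + a) * (K + 1) / L ^ 3 := by
    intro i hi
    refine (cheb ha u (w i) hs0R).trans ?_
    have h3 : nrm (w i - u) ≤ 2 * s * M := by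
      rw [hI, Finset.mem_product, Finset.mem_Icc, Finset.mem_Icc] at hi
      have e1 : w i - u = (s * i.1, s * i.2) := by simp [hw]
      rw [e1]
      simp only [nrm]
      rw [abs_mul, abs_mul, abs_of_pos (by linarith : (0 : ℤ) < s)]
      have e2 : |i.1| ≤ M := abs_le.2 hi.1
      have e3 : |i.2| ≤ M := abs_le.2 hi.2
      nlinarith
    have h3R : (nrm (w i - u) : ℝ) ≤ 2 * s * M := by exact_mod_cast h3
    rw [div_le_div_iff₀ (by positivity) (by positivity)]
    have h4 : (nrm (w i - u) : ℝ) ≤ 2 * s * ((K + 1) * L) := by nlinarith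
    calc a ^ 2 * (1 + a) * (nrm (w i - u) : ℝ) * (L : ℝ) ^ 3
        ≤ a ^ 2 * (1 + a) * (2 * s * ((K + 1) * L)) * (L : ℝ) ^ 3 := by
          apply mul_le_mul_of_nonneg_right _ (by positivity)
          exact mul_le_mul_of_nonneg_left h4 (by positivity)
      _ = 2 * a ^ 2 * (1 + a) * (K + 1) * (s : ℝ) ^ 2 := by rw [hsR]; ring
  have h3 := h1.trans (Finset.sum_le_sum h2)
  rw [Finset.sum_const, nsmul_eq_mul] at h3
  have hcard : (I.card : ℝ) ≤ (2 * K + 3) ^ 2 * L ^ 2 := by
    have e1 : (I.card : ℤ) = (2 * M + 1) ^ 2 := by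
      rw [hI, Finset.card_product, Int.card_Icc]
      push_cast
      rw [Int.toNat_of_nonneg (by linarith)]
      ring
    have e2 : (I.card : ℝ) = (2 * M + 1) ^ 2 := by exact_mod_cast e1
    rw [e2, hM]
    push_cast
    have e3 : (2 * ((K : ℝ) * L + 1) + 1) ≤ (2 * K + 3) * L := by nlinarith
    have e4 : (0 : ℝ) ≤ 2 * ((K : ℝ) * L + 1) + 1 := by positivity
    calc (2 * ((K : ℝ) * L + 1) + 1) ^ 2 ≤ ((2 * K + 3) * L) ^ 2 := pow_le_pow_left₀ e4 e3 2
      _ = _ := by ring
  refine h3.trans ?_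
  calc (I.card : ℝ) * (2 * a ^ 2 * (1 + a) * (K + 1) / L ^ 3)
      ≤ ((2 * K + 3) ^ 2 * L ^ 2) * (2 * a ^ 2 * (1 + a) * (K + 1) / L ^ 3) := by
        apply mul_le_mul_of_nonneg_right hcard
        positivity
    _ = cA a K / L := by
        unfold cA
        field_simp

end Pool.Agent.W822.FPP
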