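import Pool.Agent.W822.NC
import Pool.Agent.W822.Diag

/-!
Transfer to i.i.d. real weights on the edges of the square lattice.
-/

set_option autoImplicit false

open MeasureTheory ProbabilityTheory Filter Topology
open scoped ENNReal NNReal

namespace Pool.Agent.W822.FPP

/-- the common law of the weights -/
noncomputable def Fa (a : ℝ) : Measure ℝ := bern.map (fun b => 1 + a * (if b then 1 else 0))

instance (a : ℝ) : IsProbabilityMeasure (Fa a) :=
  Measure.isProbabilityMeasure_map (measurable_of_countable _).aemeasurable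

lemma Fa_null (a : ℝ) {s : Set ℝ} (hs : MeasurableSet s) (h1 : (1 : ℝ) ∉ s) (h2 : 1 + a ∉ s) :
    Fa a s = 0 := by
  rw [Fa, Measure.map_apply (measurable_of_countable _) hs]
  have : (fun b : Bool => 1 + a * (if b then (1 : ℝ) else 0)) ⁻¹' s = ∅ := by
    ext b
    cases b <;> simp [h1, h2]
  rw [this]
  simp

lemma integrable_Fa (a : ℝ) {f : ℝ → ℝ} (hf : Measurable f) : Integrable f (Fa a) := by
  rw [Fa, integrable_map_measure hf.aestronglyMeasurable (measurable_of_countable _).aemeasurable]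
  exact Integrable.of_finite

/-- weights from a configuration -/
def Psi (a : ℝ) (ω : Om) : Weights := fun e => 1 + a * ind ω e

lemma meas_Psi (a : ℝ) : Measurable (Psi a) := by
  apply measurable_pi_lambda
  intro e
  exact measurable_const.add (measurable_const.mul (meas_ind _))

lemma law_Fa (a : ℝ) : law (Fa a) = P.map (Psi a) := by
  have h1 := Measure.infinitePi_map_restrict' (fun _ : Sym2 V => bern) (I := lat.edgeSet)
  have h2 := Measure.infinitePi_map_pi (fun _ : lat.edgeSet => bern) (Y := fun _ => ℝ)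
    (f := fun _ b => 1 + a * (if b then (1 : ℝ) else 0)) (fun _ => measurable_of_countable _)
  unfold law Fa
  rw [← h2, ← h1, Measure.map_map]
  · rfl
  · apply measurable_pi_lambda
    intro e
    exact (measurable_of_countable (fun b : Bool => 1 + a * (if b then (1 : ℝ) else 0))).comp
      (measurable_pi_apply e)
  · apply measurable_pi_lambda
    intro e
    exact measurable_pi_apply _

instance (a : ℝ) : IsProbabilityMeasure (law (Fa a)) := by
  rw [law_Fa]
  exact Measure.isProbabilityMeasure_map (meas_Psi a).aemeasurable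

lemma pathTime_Psi (a : ℝ) (ω : Om) {u v : V} (r : lat.Walk u v) :
    pathTime (Psi a ω) r = cost a ω r := by
  unfold pathTime cost SimpleGraph.Walk.edges
  rw [List.map_map]
  rfl

lemma passage_Psi (a : ℝ) (ω : Om) (u v : V) : passage (Psi a ω) u v = T a ω u v := by
  unfold passage T
  congr 1
  funext r
  exact pathTime_Psi a ω r

instance (u v : V) : Countable (lat.Walk u v) := by
  apply Function.Injective.countable (f := fun p : lat.Walk u v => p.support)
  intro p p' h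
  exact SimpleGraph.Walk.ext_support h

lemma meas_pathTime {u v : V} (r : lat.Walk u v) : Measurable (fun τ : Weights => pathTime τ r) := by
  unfold pathTime
  induction r.darts with
  | nil => simp
  | cons b l ih =>
    simp only [List.map_cons, List.sum_cons]
    exact (measurable_pi_apply _).add ih

lemma meas_passage (u v : V) : Measurable (fun τ : Weights => passage τ u v) := by
  unfold passage
  exact Measurable.iInf fun r => meas_pathTime r

/-- weights between `1` and `1 + a` -/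
def Bd (a : ℝ) (τ : Weights) : Prop := ∀ e, 1 ≤ τ e ∧ τ e ≤ 1 + a

lemma ae_Bd {a : ℝ} (ha : 0 ≤ a) : ∀ᵐ τ ∂(law (Fa a)), Bd a τ := by
  rw [law_Fa, ae_map_iff (meas_Psi a).aemeasurable]
  · refine Filter.Eventually.of_forall fun ω e => ?_
    unfold Psi
    have h1 := ind_nonneg ω (e : Sym2 V)
    have h2 := ind_le_one ω (e : Sym2 V)
    constructor
    · have := mul_nonneg ha h1; linarith
    · have := mul_le_mul_of_nonneg_left h2 ha; linarith
  · have : {τ | Bd a τ} = ⋂ e, {τ : Weights | 1 ≤ τ e ∧ τ e ≤ 1 + a} := by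
      ext τ; simp [Bd]
    rw [this]
    refine MeasurableSet.iInter fun e => ?_
    exact (measurableSet_le measurable_const (measurable_pi_apply e)).inter
      (measurableSet_le (measurable_pi_apply e) measurable_const)

section det

variable {a : ℝ} {τ : Weights}

lemma length_le_pathTime (hτ : Bd a τ) {u v : V} (r : lat.Walk u v) :
    (r.length : ℝ) ≤ pathTime τ r := by
  unfold pathTime
  rw [← r.length_darts]
  induction r.darts with
  | nil => simp
  | cons b l ih =>
    simp only [List.map_cons, List.sum_cons, List.length_cons]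
    have := (hτ ⟨b.edge, b.edge_mem⟩).1
    push_cast
    linarith

lemma pathTime_le (hτ : Bd a τ) {u v : V} (r : lat.Walk u v) :
    pathTime τ r ≤ (1 + a) * r.length := by
  unfold pathTime
  rw [← r.length_darts]
  induction r.darts with
  | nil => simp
  | cons b l ih =>
    simp only [List.map_cons, List.sum_cons, List.length_cons]
    have := (hτ ⟨b.edge, b.edge_mem⟩).2
    push_cast
    linarith

lemma passage_le_pathTime (hτ : Bd a τ) {u v : V} (r : lat.Walk u v) :
    passage τ u v ≤ pathTime τ r := by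
  apply ciInf_le
  refine ⟨0, ?_⟩
  rintro _ ⟨p, rfl⟩
  exact (Nat.cast_nonneg _).trans (length_le_pathTime hτ p)

lemma le_passage (hτ : Bd a τ) (u v : V) : (nrm (v - u) : ℝ) ≤ passage τ u v := by
  apply le_ciInf
  intro r
  have h1 : (nrm (v - u) : ℝ) ≤ ((r.length : ℤ) : ℝ) := by exact_mod_cast nrm_le_length r
  exact h1.trans (by exact_mod_cast length_le_pathTime hτ r)

lemma passage_tri (hτ : Bd a τ) (u v w : V) :
    passage τ u w ≤ passage τ u v + (1 + a) * nrm (w - v) := by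
  obtain ⟨r', hr'⟩ := exists_walk_len v w
  have h1 : passage τ u w - (1 + a) * nrm (w - v) ≤ passage τ u v := by
    apply le_ciInf
    intro r
    have h2 := passage_le_pathTime hτ (r.append r')
    have h3 : pathTime τ (r.append r') = pathTime τ r + pathTime τ r' := by
      simp [pathTime, SimpleGraph.Walk.darts_append]
    have h4 := pathTime_le hτ r'
    rw [← hr']
    push_cast
    linarith
  linarith

lemma passage_lip (hτ : Bd a τ) (u v w : V) :
    |passage τ u v - passage τ u w| ≤ (1 + a) * nrm (v - w) := by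
  have h1 := passage_tri hτ u v w
  have h2 := passage_tri hτ u w v
  rw [nrm_sub_comm w v] at h1
  rw [abs_le]
  constructor <;> linarith

lemma passage_le (hτ : Bd a τ) (u v : V) : passage τ u v ≤ (1 + a) * nrm (v - u) := by
  obtain ⟨r, hr⟩ := exists_walk_len u v
  refine (passage_le_pathTime hτ r).trans ((pathTime_le hτ r).trans (le_of_eq ?_))
  rw [← hr]
  simp

end det

/-! ### Borel-Cantelli -/

lemma bc {s : ℕ → Set Om} {C : ℝ} (h : ∀ j : ℕ, 1 ≤ j → P.real (s j) ≤ C / (j : ℝ) ^ 2) :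
    ∀ᵐ ω ∂P, ∀ᶠ j in atTop, ω ∉ s j := by
  have h1 : Summable (fun j : ℕ => C / ((j + 1 : ℕ) : ℝ) ^ 2) := by
    have h2 : Summable (fun j : ℕ => 1 / (j : ℝ) ^ 2) :=
      Real.summable_one_div_nat_pow.2 (by norm_num)
    have h3 := ((summable_nat_add_iff 1).2 h2).mul_left C
    refine h3.congr fun j => ?_
    rw [mul_one_div]
  have h4 : Summable (fun j : ℕ => P.real (s (j + 1))) :=
    Summable.of_nonneg_of_le (fun j => measureReal_nonneg) (fun j => h (j + 1) (by omega)) h1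
  have h5 : ∑' j : ℕ, P (s (j + 1)) ≠ ∞ := by
    have h6 : (fun j : ℕ => P (s (j + 1))) = fun j : ℕ => ENNReal.ofReal (P.real (s (j + 1))) := by
      funext j
      rw [measureReal_def, ENNReal.ofReal_toReal (measure_ne_top _ _)]
    rw [h6]
    exact h4.tsum_ofReal_ne_top
  filter_upwards [ae_eventually_notMem h5] with ω hω
  rw [eventually_atTop] at hω ⊢
  obtain ⟨N, hN⟩ := hω
  refine ⟨N + 1, fun j hj => ?_⟩
  have := hN (j - 1) (by omega)
  rwa [Nat.sub_add_cancel (by omega)] at this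

/-- transfer of an eventual bound -/
lemma transfer_ev {a : ℝ} {z : ℕ → V} {c d : ℕ → ℝ}
    (h : ∀ᵐ ω ∂P, ∀ᶠ j in atTop, |T a ω 0 (z j) - c j| ≤ d j) :
    ∀ᵐ τ ∂(law (Fa a)), ∀ᶠ j in atTop, |passage τ 0 (z j) - c j| ≤ d j := by
  rw [law_Fa, ae_map_iff (meas_Psi a).aemeasurable]
  · simpa only [passage_Psi] using h
  · have : {τ : Weights | ∀ᶠ j in atTop, |passage τ 0 (z j) - c j| ≤ d j} =
        ⋃ N : ℕ, ⋂ j : ℕ, ⋂ _ : N ≤ j, {τ : Weights | |passage τ 0 (z j) - c j| ≤ d j} := by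
      ext τ
      simp [eventually_atTop]
    rw [this]
    refine MeasurableSet.iUnion fun N => MeasurableSet.iInter fun j =>
      MeasurableSet.iInter fun _ => ?_
    exact measurableSet_le ((meas_passage _ _).sub_const _).abs measurable_const

/-- a sequence of events that almost surely hold eventually has probability tending to one -/
lemma prob_tendsto {E : ℕ → Set Om} (hE : ∀ j, MeasurableSet (E j))
    (h : ∀ᵐ ω ∂P, ∀ᶠ j in atTop, ω ∈ E j) : Tendsto (fun j => P.real (E j)) atTop (𝓝 1) := by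
  have h1 := tendsto_measure_of_ae_tendsto_indicator_of_isFiniteMeasure atTop (μ := P)
    (A := Set.univ) (As := E) MeasurableSet.univ hE (by
      filter_upwards [h] with ω hω
      filter_upwards [hω] with j hj
      simp [hj])
  rw [measure_univ] at h1
  have h2 := (ENNReal.tendsto_toReal ENNReal.one_ne_top).comp h1
  simpa [measureReal_def, Function.comp_def] using h2

/-! ### variances -/

lemma var_law (a : ℝ) (z : V) :
    Var[fun τ => passage τ 0 z; law (Fa a)] = Var[fun ω => T a ω 0 z; P] := by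
  rw [law_Fa, variance_map (meas_passage 0 z).aemeasurable (meas_Psi a).aemeasurable]
  congr 1
  funext ω
  exact passage_Psi a ω 0 z

lemma var_eq {a : ℝ} (ha : 0 ≤ a) (z : V) :
    Var[fun ω => T a ω 0 z; P] = ∫ ω, (T a ω 0 z - h a z) ^ 2 ∂P := by
  rw [variance_eq_integral (meas_T ha 0 z).aemeasurable]
  rfl

/-- the variance is at most the second moment around any point -/
lemma var_le_sq {a : ℝ} (ha : 0 ≤ a) (z : V) (A : ℝ) :
    Var[fun ω => T a ω 0 z; P] ≤ ∫ ω, (T a ω 0 z - A) ^ 2 ∂P := by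
  rw [var_eq ha]
  have hd := dep_T ha 0 z
  have i1 : Integrable (fun ω => (T a ω 0 z - h a z) ^ 2) P :=
    (hd.comp (fun x => (x - h a z) ^ 2)).integrable
  have i2 : Integrable (fun ω => (2 * (h a z - A)) * (T a ω 0 z - h a z) + (h a z - A) ^ 2) P :=
    (hd.comp (fun x => (2 * (h a z - A)) * (x - h a z) + (h a z - A) ^ 2)).integrable
  have e1 : ∀ ω, (T a ω 0 z - A) ^ 2 = (T a ω 0 z - h a z) ^ 2 +
      ((2 * (h a z - A)) * (T a ω 0 z - h a z) + (h a z - A) ^ 2) := by
    intro ω; ring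
  simp only [e1]
  rw [integral_add i1 i2]
  have i3 : Integrable (fun ω => (2 * (h a z - A)) * (T a ω 0 z - h a z)) P :=
    (hd.comp (fun x => (2 * (h a z - A)) * (x - h a z))).integrable
  have e2 : ∫ ω, ((2 * (h a z - A)) * (T a ω 0 z - h a z) + (h a z - A) ^ 2) ∂P =
      (h a z - A) ^ 2 := by
    rw [integral_add i3 (integrable_const _), integral_const_mul,
      integral_sub hd.integrable (integrable_const _)]
    have : ∫ ω, T a ω 0 z ∂P = h a z := rfl
    rw [this]
    simp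
  rw [e2]
  nlinarith [sq_nonneg (h a z - A)]

/-- non-concentration bounds the variance from below -/
lemma var_ge {a : ℝ} (ha : 0 ≤ a) (z : V) {r : ℝ} (hr : 0 ≤ r)
    (hz : P.real {ω | |T a ω 0 z - h a z| ≤ r} ≤ 1 / 2) :
    r ^ 2 / 2 ≤ Var[fun ω => T a ω 0 z; P] := by
  rw [var_eq ha]
  have hd := dep_T ha 0 z
  set E : Set Om := {ω | |T a ω 0 z - h a z| ≤ r} with hE
  have mE : MeasurableSet E := measurableSet_le ((meas_T ha 0 z).sub_const _).abs measurable_const
  have h1 : P.real Eᶜ = 1 - P.real E := by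
    rw [measureReal_compl mE]; simp
  have h2 : ∫ ω, (Eᶜ).indicator (fun _ => r ^ 2) ω ∂P ≤ ∫ ω, (T a ω 0 z - h a z) ^ 2 ∂P := by
    apply integral_mono
    · exact (integrable_const _).indicator mE.compl
    · exact (hd.comp (fun x => (x - h a z) ^ 2)).integrable
    · intro ω
      simp only
      by_cases hω : ω ∈ Eᶜ
      · rw [Set.indicator_of_mem hω]
        have h3 : r < |T a ω 0 z - h a z| := by
          rw [hE, Set.mem_compl_iff, Set.mem_ofPred_eq, not_le] at hω
          exact hω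
        rw [← sq_abs (T a ω 0 z - h a z)]
        exact pow_le_pow_left₀ hr h3.le 2
      · rw [Set.indicator_of_notMem hω]
        exact sq_nonneg _
  rw [integral_indicator_const _ mE.compl, smul_eq_mul, h1] at h2
  nlinarith [sq_nonneg r]

/-! ### the time constant -/

lemma rnd_near (t : ℝ) (y : ℝ × ℝ) :
    |((rnd (t • y)).1 : ℝ) - t * y.1| ≤ 1 ∧ |((rnd (t • y)).2 : ℝ) - t * y.2| ≤ 1 := by
  have h1 := abs_sub_round (t * y.1)
  have h2 := abs_sub_round (t * y.2)
  constructor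
  · rw [abs_sub_comm]
    have : (rnd (t • y)).1 = round (t * y.1) := rfl
    rw [this]; linarith
  · rw [abs_sub_comm]
    have : (rnd (t • y)).2 = round (t * y.2) := rfl
    rw [this]; linarith

lemma flo_near (t : ℝ) (y : ℝ × ℝ) :
    |((flo (t • y)).1 : ℝ) - t * y.1| ≤ 1 ∧ |((flo (t • y)).2 : ℝ) - t * y.2| ≤ 1 := by
  have h1 := Int.floor_le (t * y.1)
  have h2 := Int.floor_le (t * y.2)
  have h3 := Int.lt_floor_add_one (t * y.1)
  have h4 := Int.lt_floor_add_one (t * y.2)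
  have e1 : (flo (t • y)).1 = ⌊t * y.1⌋ := rfl
  have e2 : (flo (t • y)).2 = ⌊t * y.2⌋ := rfl
  rw [e1, e2, abs_le, abs_le]
  refine ⟨⟨?_, ?_⟩, ⟨?_, ?_⟩⟩ <;> linarith

lemma nrm_rnd_sub {y : ℝ × ℝ} (hy : y.1 ^ 2 + y.2 ^ 2 = 1) (s t : ℝ) (hst : s ≤ t) :
    (nrm (rnd (t • y) - rnd (s • y)) : ℝ) ≤ 2 * (t - s) + 4 := by
  obtain ⟨h1, h2⟩ := rnd_near t y
  obtain ⟨h3, h4⟩ := rnd_near s y
  obtain ⟨hy1, hy2⟩ := abs_le_one_of_unit hy
  unfold nrm
  simp only [Prod.fst_sub, Prod.snd_sub]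
  push_cast
  have key : ∀ A B c : ℝ, |c| ≤ 1 → |A - t * c| ≤ 1 → |B - s * c| ≤ 1 →
      |A - B| ≤ (t - s) + 2 := by
    intro A B c hc hA hB
    have e1 : A - B = (A - t * c) - (B - s * c) + (t - s) * c := by ring
    have e2 : |(t - s) * c| ≤ t - s := by
      rw [abs_mul, abs_of_nonneg (by linarith)]
      exact mul_le_of_le_one_right (by linarith) hc
    rw [e1]
    calc _ ≤ |(A - t * c) - (B - s * c)| + |(t - s) * c| := abs_add_le _ _
      _ ≤ |A - t * c| + |B - s * c| + |(t - s) * c| := by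
          have := abs_sub (A - t * c) (B - s * c); linarith
      _ ≤ _ := by linarith
  have k1 := key _ _ _ hy1 h1 h3
  have k2 := key _ _ _ hy2 h2 h4
  linarith

/-- criterion for the time constant -/
theorem time_constant {a : ℝ} (ha : 0 ≤ a) {y : ℝ × ℝ} (hy : y.1 ^ 2 + y.2 ^ 2 = 1) {μ C : ℝ}
    (hC : ∀ᶠ j : ℕ in atTop, |h a (rnd (((j : ℝ) ^ 10) • y)) - μ * (j : ℝ) ^ 10| ≤ C * (j : ℝ) ^ 9) :
    IsTimeConstant (Fa a) y μ := by
  set z : ℕ → V := fun j => rnd (((j : ℝ) ^ 10) • y) with hz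
  -- almost sure closeness along the sequence
  have hnz : ∀ j : ℕ, 1 ≤ j → (nrm (z j) : ℝ) ≤ 4 * (j : ℝ) ^ 10 := by
    intro j hj
    have hj1 : (1 : ℝ) ≤ j := by exact_mod_cast hj
    obtain ⟨h1, h2⟩ := rnd_near ((j : ℝ) ^ 10) y
    exact (near_geom hy (one_le_pow₀ hj1) h1 h2).2.2
  have h1 : ∀ᵐ ω ∂P, ∀ᶠ j in atTop, |T a ω 0 (z j) - h a (z j)| ≤ (j : ℝ) ^ 9 := by
    have h2 := bc (s := fun j => {ω | (j : ℝ) ^ 9 ≤ |T a ω 0 (z j) - h a (z j)|})
      (C := 4 * (a ^ 2 * (1 + a))) (by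
        intro j hj
        have hj1 : (1 : ℝ) ≤ j := by exact_mod_cast hj
        have h3 := cheb ha 0 (z j) (s := (j : ℝ) ^ 9) (by positivity)
        rw [sub_zero] at h3
        refine h3.trans ?_
        rw [div_le_div_iff₀ (by positivity) (by positivity)]
        have h4 := hnz j hj
        have h5 : (j : ℝ) ^ 12 ≤ (j : ℝ) ^ 18 := pow_le_pow_right₀ hj1 (by norm_num)
        calc a ^ 2 * (1 + a) * (nrm (z j) : ℝ) * (j : ℝ) ^ 2
            ≤ a ^ 2 * (1 + a) * (4 * (j : ℝ) ^ 10) * (j : ℝ) ^ 2 := by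
              apply mul_le_mul_of_nonneg_right _ (by positivity)
              exact mul_le_mul_of_nonneg_left h4 (by positivity)
          _ = 4 * (a ^ 2 * (1 + a)) * (j : ℝ) ^ 12 := by ring
          _ ≤ 4 * (a ^ 2 * (1 + a)) * (j : ℝ) ^ 18 :=
              mul_le_mul_of_nonneg_left h5 (by positivity)
          _ = 4 * (a ^ 2 * (1 + a)) * ((j : ℝ) ^ 9) ^ 2 := by ring)
    filter_upwards [h2] with ω hω
    filter_upwards [hω] with j hj
    rw [not_le] at hj
    exact hj.le
  have h2 := transfer_ev h1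
  unfold IsTimeConstant
  filter_upwards [h2, ae_Bd ha] with τ hτ hB
  -- deterministic interpolation
  set M : ℝ := (1 + a) * (2 * 1023 + 4) + 1 + C + |μ| * 1023 with hM
  have key : ∀ᶠ j : ℕ in atTop, ∀ t : ℝ, (j : ℝ) ^ 10 ≤ t → t ≤ ((j : ℝ) + 1) ^ 10 →
      |passage τ 0 (rnd (t • y)) / t - μ| ≤ M / j := by
    filter_upwards [hτ, hC, eventually_ge_atTop 1] with j e1 e2 hj t ht1 ht2
    have hj1 : (1 : ℝ) ≤ j := by exact_mod_cast hj
    have hj0 : (0 : ℝ) < j := by linarith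
    have hp9 : (1 : ℝ) ≤ (j : ℝ) ^ 9 := one_le_pow₀ hj1
    have hdiff : ((j : ℝ) + 1) ^ 10 - (j : ℝ) ^ 10 ≤ 1023 * (j : ℝ) ^ 9 := by
      have p0 : (1 : ℝ) ≤ (j : ℝ) ^ 9 := hp9
      have p1 : (j : ℝ) ≤ (j : ℝ) ^ 9 := by
        calc (j : ℝ) = (j : ℝ) ^ 1 := (pow_one _).symm
          _ ≤ _ := pow_le_pow_right₀ hj1 (by norm_num)
      have p2 : (j : ℝ) ^ 2 ≤ (j : ℝ) ^ 9 := pow_le_pow_right₀ hj1 (by norm_num)
      have p3 : (j : ℝ) ^ 3 ≤ (j : ℝ) ^ 9 := pow_le_pow_right₀ hj1 (by norm_num)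
      have p4 : (j : ℝ) ^ 4 ≤ (j : ℝ) ^ 9 := pow_le_pow_right₀ hj1 (by norm_num)
      have p5 : (j : ℝ) ^ 5 ≤ (j : ℝ) ^ 9 := pow_le_pow_right₀ hj1 (by norm_num)
      have p6 : (j : ℝ) ^ 6 ≤ (j : ℝ) ^ 9 := pow_le_pow_right₀ hj1 (by norm_num)
      have p7 : (j : ℝ) ^ 7 ≤ (j : ℝ) ^ 9 := pow_le_pow_right₀ hj1 (by norm_num)
      have p8 : (j : ℝ) ^ 8 ≤ (j : ℝ) ^ 9 := pow_le_pow_right₀ hj1 (by norm_num)
      have e : ((j : ℝ) + 1) ^ 10 - (j : ℝ) ^ 10 = 10 * (j : ℝ) ^ 9 + 45 * (j : ℝ) ^ 8 +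
          120 * (j : ℝ) ^ 7 + 210 * (j : ℝ) ^ 6 + 252 * (j : ℝ) ^ 5 + 210 * (j : ℝ) ^ 4 +
          120 * (j : ℝ) ^ 3 + 45 * (j : ℝ) ^ 2 + 10 * j + 1 := by ring
      rw [e]
      linarith
    have ht0 : 0 < t := lt_of_lt_of_le (by positivity) ht1
    have f1 := passage_lip hB 0 (rnd (t • y)) (z j)
    have f2 : (nrm (rnd (t • y) - z j) : ℝ) ≤ (2 * 1023 + 4) * (j : ℝ) ^ 9 := by
      have := nrm_rnd_sub hy _ _ ht1
      linarith
    have f3 : (1 + a) * (nrm (rnd (t • y) - z j) : ℝ) ≤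
        (1 + a) * ((2 * 1023 + 4) * (j : ℝ) ^ 9) := mul_le_mul_of_nonneg_left f2 (by linarith)
    have f4 : |μ * (j : ℝ) ^ 10 - μ * t| ≤ |μ| * (1023 * (j : ℝ) ^ 9) := by
      rw [← mul_sub, abs_mul]
      apply mul_le_mul_of_nonneg_left _ (abs_nonneg _)
      rw [abs_sub_comm, abs_of_nonneg (by linarith)]
      linarith
    have f5 : |passage τ 0 (rnd (t • y)) - μ * t| ≤ M * (j : ℝ) ^ 9 := by
      have e3 : passage τ 0 (rnd (t • y)) - μ * t =
          (passage τ 0 (rnd (t • y)) - passage τ 0 (z j)) + (passage τ 0 (z j) - h a (z j)) +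
          (h a (z j) - μ * (j : ℝ) ^ 10) + (μ * (j : ℝ) ^ 10 - μ * t) := by ring
      rw [e3]
      refine (abs_add_le _ _).trans ?_
      have g1 := abs_add_le ((passage τ 0 (rnd (t • y)) - passage τ 0 (z j)) +
        (passage τ 0 (z j) - h a (z j))) (h a (z j) - μ * (j : ℝ) ^ 10)
      have g2 := abs_add_le (passage τ 0 (rnd (t • y)) - passage τ 0 (z j))
        (passage τ 0 (z j) - h a (z j))
      have g3 : M * (j : ℝ) ^ 9 = (1 + a) * ((2 * 1023 + 4) * (j : ℝ) ^ 9) + (j : ℝ) ^ 9 +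
          C * (j : ℝ) ^ 9 + |μ| * (1023 * (j : ℝ) ^ 9) := by rw [hM]; ring
      rw [g3]
      linarith
    have f6 : passage τ 0 (rnd (t • y)) / t - μ = (passage τ 0 (rnd (t • y)) - μ * t) / t := by
      field_simp
    rw [f6, abs_div, abs_of_pos ht0, div_le_div_iff₀ ht0 hj0]
    have hM0 : 0 ≤ M * (j : ℝ) ^ 9 := (abs_nonneg _).trans f5
    have hM1 : 0 ≤ M := by
      by_contra hc
      push Not at hc
      have : M * (j : ℝ) ^ 9 < 0 := mul_neg_of_neg_of_pos hc (by positivity)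
      linarith
    calc |passage τ 0 (rnd (t • y)) - μ * t| * (j : ℝ) ≤ M * (j : ℝ) ^ 9 * j :=
          mul_le_mul_of_nonneg_right f5 hj0.le
      _ = M * (j : ℝ) ^ 10 := by ring
      _ ≤ M * t := mul_le_mul_of_nonneg_left ht1 hM1
  rw [Metric.tendsto_atTop]
  intro ε hε
  obtain ⟨N₁, hN₁⟩ := eventually_atTop.1 key
  obtain ⟨N₂, hN₂⟩ := exists_nat_gt (M / ε)
  set N := max N₁ (max N₂ 1) with hN
  refine ⟨(N : ℝ) ^ 10, fun t ht => ?_⟩
  have ht0 : (0 : ℝ) ≤ t := le_trans (by positivity) ht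
  -- find `j`
  have hex : ∃ j : ℕ, t < ((j : ℝ) + 1) ^ 10 := by
    obtain ⟨j, hj⟩ := exists_nat_gt t
    refine ⟨j, ?_⟩
    have h3 : (1 : ℝ) ≤ (j : ℝ) + 1 := by
      have : (0 : ℝ) ≤ j := Nat.cast_nonneg _
      linarith
    calc t < j := hj
      _ ≤ (j : ℝ) + 1 := by linarith
      _ = ((j : ℝ) + 1) ^ 1 := (pow_one _).symm
      _ ≤ _ := pow_le_pow_right₀ h3 (by norm_num)
  classical
  set j := Nat.find hex with hj
  have hj1 := Nat.find_spec hex
  have hNj : N ≤ j := by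
    by_contra hc
    push Not at hc
    have h3 : ((j : ℝ) + 1) ≤ N := by exact_mod_cast hc
    have h4 : ((j : ℝ) + 1) ^ 10 ≤ (N : ℝ) ^ 10 := pow_le_pow_left₀ (by positivity) h3 10
    linarith
  have hN1 : 1 ≤ N := by omega
  have hj0 : 1 ≤ j := by omega
  have hj2 : (j : ℝ) ^ 10 ≤ t := by
    have h3 := Nat.find_min hex (m := j - 1) (by omega)
    push Not at h3
    have h4 : ((j - 1 : ℕ) : ℝ) + 1 = j := by
      rw [Nat.cast_sub hj0]; simp
    rwa [h4] at h3
  have h5 := hN₁ j (by omega) t hj2 hj1.le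
  rw [Real.dist_eq]
  refine lt_of_le_of_lt h5 ?_
  have hjR : (0 : ℝ) < j := by exact_mod_cast hj0
  rw [div_lt_iff₀ hjR]
  rw [div_lt_iff₀ hε] at hN₂
  have h6 : (N₂ : ℝ) ≤ j := by
    have : N₂ ≤ j := by omega
    exact_mod_cast this
  nlinarith

end Pool.Agent.W822.FPP
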