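import Pool.Agent.W822.Tube

/-!
The passage time in the minimising direction is not concentrated at the scale `t ^ (1 / 50)`.
-/

set_option autoImplicit false

open MeasureTheory ProbabilityTheory Filter Topology
open scoped ENNReal NNReal

namespace Pool.Agent.W822.FPP

variable {a : ℝ}

lemma inn_crs_le_eu {y : ℝ × ℝ} (hy : y.1 ^ 2 + y.2 ^ 2 = 1) (v : V) {s : ℝ} (hs0 : 0 ≤ s)
    (hs1 : s ≤ 1) : (1 - s ^ 2) * inn y v + s * |crs y v| ≤ eu v := by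
  apply le_of_sq_le_sq _ (eu_nonneg v)
  have h1 := inn_crs hy v
  rw [← h1, ← sq_abs (crs y v)]
  set α := inn y v
  set p := |crs y v|
  have h2 : ((1 - s ^ 2) * α + s * p) ^ 2 ≤ ((1 - s ^ 2) ^ 2 + s ^ 2) * (α ^ 2 + p ^ 2) := by
    nlinarith [sq_nonneg ((1 - s ^ 2) * p - s * α)]
  have h3 : (1 - s ^ 2) ^ 2 + s ^ 2 ≤ 1 := by
    have : s ^ 2 ≤ 1 := pow_le_one₀ hs0 hs1
    nlinarith [sq_nonneg s]
  nlinarith [sq_nonneg α, sq_nonneg p]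

/-- confinement, deterministic part -/
lemma confine (ha : 0 ≤ a) {y : ℝ × ℝ} (hy : y.1 ^ 2 + y.2 ^ 2 = 1) {L K : ℕ} {C₀ : ℝ}
    (hC0 : 0 ≤ C₀) (hL : C₀ + 3 * (5 + 4 * a) + 4 ≤ L) {z : V}
    (hz : h a z ≤ mm a * L ^ 50 + C₀ * L ^ 45)
    (hinz : (L : ℝ) ^ 50 - 2 ≤ inn y z) (hcrz : |crs y z| ≤ 2)
    (hK : (1 + a) * (nrm z : ℝ) ≤ K * (L : ℝ) ^ 50) {ω : Om}
    (h0 : ω ∈ Good a K (L ^ 10) 0) (h1 : ω ∈ Good a K (L ^ 10) z)
    {p : lat.Walk 0 z} (hp : Geo a ω p) {v : V} (hv : v ∈ p.support) :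
    v ∈ tube y (K * L ^ 50) ((L : ℝ) ^ 48) := by
  have hLpos : (1 : ℝ) ≤ L := by linarith
  have hlen : (p.length : ℝ) ≤ (K : ℝ) * (L : ℝ) ^ 50 := by
    have := hp.length_le ha
    rw [sub_zero] at this
    exact this.trans hK
  have e50 : ((L : ℤ) ^ 10) ^ 5 = (L : ℤ) ^ 50 := by rw [← pow_mul]
  have hlenZ : (p.length : ℤ) ≤ (K : ℤ) * (L : ℤ) ^ 50 := by exact_mod_cast hlen
  have hv0 : nrm (v - 0) ≤ (K : ℤ) * (L : ℤ) ^ 50 := (nrm_le_of_mem p hv).trans hlenZ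
  have hvz : nrm (v - z) ≤ (K : ℤ) * (L : ℤ) ^ 50 := by
    have h5 : v ∈ p.reverse.support := by simpa using hv
    have := nrm_le_of_mem p.reverse h5
    rw [SimpleGraph.Walk.length_reverse] at this
    exact this.trans hlenZ
  have hz0 : nrm (z - 0) ≤ (K : ℤ) * (L : ℤ) ^ 50 := (nrm_le_length p).trans hlenZ
  have b1 := h0 v (by push_cast; rw [e50]; exact hv0)
  have b2 := h1 v (by push_cast; rw [e50]; exact hvz)
  have b3 := h0 z (by push_cast; rw [e50]; exact hz0)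
  have e40 : ((L ^ 10 : ℕ) : ℝ) ^ 4 = (L : ℝ) ^ 40 := by push_cast; rw [← pow_mul]
  rw [e40] at b1 b2 b3
  rw [sub_zero] at b1 b3
  have b4 := hp.split ha hv
  rw [T_symm ha ω v z] at b4
  rw [h_sub_comm ha v z] at b2
  rw [abs_le] at b1 b2 b3
  have hm := one_le_mm ha
  have c1 := mm_mul_le ha v
  have c2 := mm_mul_le ha (z - v)
  have hp40 : (L : ℝ) ^ 40 ≤ L ^ 45 := pow_le_pow_right₀ hLpos (by norm_num)
  have hp45 : (0 : ℝ) ≤ (L : ℝ) ^ 45 := by positivity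
  have c3 : mm a * (eu v + eu (z - v)) ≤
      mm a * ((L : ℝ) ^ 50 + (C₀ + 3 * (5 + 4 * a)) * L ^ 45) := by
    have e1 : mm a * (eu v + eu (z - v)) ≤
        mm a * L ^ 50 + C₀ * L ^ 45 + 3 * ((5 + 4 * a) * L ^ 40) := by
      linarith [b1.1, b2.1, b3.2]
    have e2 : (5 + 4 * a) * (L : ℝ) ^ 40 ≤ (5 + 4 * a) * L ^ 45 :=
      mul_le_mul_of_nonneg_left hp40 (by linarith)
    have e3 : (C₀ + 3 * (5 + 4 * a)) * (L : ℝ) ^ 45 ≤
        mm a * ((C₀ + 3 * (5 + 4 * a)) * L ^ 45) := by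
      have : 0 ≤ (C₀ + 3 * (5 + 4 * a)) * (L : ℝ) ^ 45 := by positivity
      nlinarith
    linarith
  have c4 : eu v + eu (z - v) ≤ (L : ℝ) ^ 50 + (C₀ + 3 * (5 + 4 * a)) * L ^ 45 :=
    le_of_mul_le_mul_left c3 (by linarith)
  set s : ℝ := 1 / (L : ℝ) ^ 2 with hs
  have hL2 : (1 : ℝ) ≤ (L : ℝ) ^ 2 := one_le_pow₀ hLpos
  have hs0 : 0 ≤ s := by positivity
  have hs1 : s ≤ 1 := by rw [hs, div_le_one (by positivity)]; exact hL2
  have d1 := inn_crs_le_eu hy v hs0 hs1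
  have d2 := inn_crs_le_eu hy (z - v) hs0 hs1
  rw [inn_sub, crs_sub] at d2
  have d3 : |crs y v| - 2 ≤ |crs y z - crs y v| := by
    have := abs_sub_abs_le_abs_sub (crs y v) (crs y z)
    rw [abs_sub_comm (crs y v)] at this
    linarith
  have d4 : (1 - s ^ 2) * ((L : ℝ) ^ 50 - 2) ≤ (1 - s ^ 2) * inn y z := by
    apply mul_le_mul_of_nonneg_left hinz
    have : s ^ 2 ≤ 1 := pow_le_one₀ hs0 hs1
    linarith
  have d5 : s * (|crs y v| - 2) ≤ s * |crs y z - crs y v| := mul_le_mul_of_nonneg_left d3 hs0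
  have d6 : s ^ 2 * (L : ℝ) ^ 50 = L ^ 46 := by
    rw [hs]
    field_simp
  have d7 : s * (2 * |crs y v| - 2) ≤
      (C₀ + 3 * (5 + 4 * a)) * L ^ 45 + L ^ 46 + 2 := by
    have e1 : (1 - s ^ 2) * ((L : ℝ) ^ 50 - 2) = L ^ 50 - s ^ 2 * L ^ 50 - 2 * (1 - s ^ 2) := by
      ring
    rw [e1, d6] at d4
    have e2 : 0 ≤ s ^ 2 := sq_nonneg s
    have e3 : s * (2 * |crs y v| - 2) = s * |crs y v| + s * (|crs y v| - 2) := by ring
    rw [e3]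
    have e4 : (1 - s ^ 2) * (inn y z - inn y v) = (1 - s ^ 2) * inn y z - (1 - s ^ 2) * inn y v := by
      ring
    rw [e4] at d2
    linarith
  have d8 : 2 * |crs y v| - 2 ≤ (C₀ + 3 * (5 + 4 * a)) * L ^ 47 + L ^ 48 + 2 * L ^ 2 := by
    have e1 := mul_le_mul_of_nonneg_right d7 (by positivity : (0 : ℝ) ≤ (L : ℝ) ^ 2)
    have e2 : s * (2 * |crs y v| - 2) * (L : ℝ) ^ 2 = 2 * |crs y v| - 2 := by
      rw [hs]; field_simp
    rw [e2] at e1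
    refine e1.trans (le_of_eq ?_)
    ring
  have d9 : (L : ℝ) ^ 2 ≤ L ^ 47 := pow_le_pow_right₀ hLpos (by norm_num)
  have d10 : (1 : ℝ) ≤ (L : ℝ) ^ 47 := one_le_pow₀ hLpos
  have d11 : (C₀ + 3 * (5 + 4 * a) + 4) * (L : ℝ) ^ 47 ≤ L * L ^ 47 :=
    mul_le_mul_of_nonneg_right hL (by positivity)
  have d12 : (L : ℝ) * L ^ 47 = L ^ 48 := by ring
  rw [tube, Finset.mem_filter]
  constructor
  · apply mem_ball
    push_cast
    exact hv0
  · have d13 : (C₀ + 3 * (5 + 4 * a) + 4) * (L : ℝ) ^ 47 =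
        (C₀ + 3 * (5 + 4 * a)) * L ^ 47 + 4 * L ^ 47 := by ring
    linarith

/-- many high edges, deterministic part -/
lemma many_high (ha : 0 < a) {y : ℝ × ℝ} (hy : y.1 ^ 2 + y.2 ^ 2 = 1) {L : ℕ} (hL1 : 1 ≤ L)
    {C₀ : ℝ} (hC0 : 0 ≤ C₀)
    (hL : 2 * mm (2 * a) + (C₀ + (5 + 4 * a) + 1) ≤ (mm (2 * a) - mm a) / 2 * L) {z : V}
    (hz : h a z ≤ mm a * L ^ 50 + C₀ * L ^ 45)
    (hinz : (L : ℝ) ^ 50 - 2 ≤ inn y z) {ω : Om}
    (h0 : |T a ω 0 z - h a z| ≤ (5 + 4 * a) * L ^ 40)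
    (h1 : |T (2 * a) ω 0 z - h (2 * a) z| ≤ L ^ 40)
    {p : lat.Walk 0 z} (hp : Geo a ω p) :
    (mm (2 * a) - mm a) * L ^ 50 / (2 * a) ≤ hic ω p := by
  have hLpos : (1 : ℝ) ≤ L := by exact_mod_cast hL1
  have h2 := T_le_cost (a := 2 * a) (by linarith) ω p
  rw [cost_eq] at h2
  have h3 : cost a ω p = T a ω 0 z := hp
  rw [cost_eq] at h3
  have h4 := mm_mul_le (a := 2 * a) (by linarith) z
  have h5 := inn_le_eu hy z
  have hm2 := one_le_mm (a := 2 * a) (by linarith)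
  rw [abs_le] at h0 h1
  have h6 : mm (2 * a) * ((L : ℝ) ^ 50 - 2) ≤ mm (2 * a) * eu z :=
    mul_le_mul_of_nonneg_left (hinz.trans h5) (by linarith)
  have hp40 : (L : ℝ) ^ 40 ≤ L ^ 45 := pow_le_pow_right₀ hLpos (by norm_num)
  have hp45 : (1 : ℝ) ≤ (L : ℝ) ^ 45 := one_le_pow₀ hLpos
  have hp46 : (L : ℝ) ^ 46 ≤ L ^ 50 := pow_le_pow_right₀ hLpos (by norm_num)
  have h7 : (2 * mm (2 * a) + (C₀ + (5 + 4 * a) + 1)) * (L : ℝ) ^ 45 ≤
      (mm (2 * a) - mm a) / 2 * L ^ 46 := by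
    have := mul_le_mul_of_nonneg_right hL (by positivity : (0 : ℝ) ≤ (L : ℝ) ^ 45)
    refine this.trans (le_of_eq ?_)
    ring
  have hΔ : 0 ≤ (mm (2 * a) - mm a) / 2 := by
    by_contra hc
    push Not at hc
    have : (mm (2 * a) - mm a) / 2 * (L : ℝ) < 0 := mul_neg_of_neg_of_pos hc (by linarith)
    nlinarith
  have h8 : (mm (2 * a) - mm a) / 2 * (L : ℝ) ^ 46 ≤ (mm (2 * a) - mm a) / 2 * L ^ 50 :=
    mul_le_mul_of_nonneg_left hp46 hΔ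
  have h9 : 2 * mm (2 * a) * 1 ≤ 2 * mm (2 * a) * (L : ℝ) ^ 45 :=
    mul_le_mul_of_nonneg_left hp45 (by linarith)
  have h10 : (5 + 4 * a) * (L : ℝ) ^ 40 ≤ (5 + 4 * a) * L ^ 45 :=
    mul_le_mul_of_nonneg_left hp40 (by linarith)
  have h11 : (2 * mm (2 * a) + (C₀ + (5 + 4 * a) + 1)) * (L : ℝ) ^ 45 =
      2 * mm (2 * a) * L ^ 45 + C₀ * L ^ 45 + (5 + 4 * a) * L ^ 45 + L ^ 45 := by ring
  rw [h11] at h7
  have h12 : mm (2 * a) * ((L : ℝ) ^ 50 - 2) = mm (2 * a) * L ^ 50 - 2 * mm (2 * a) := by ring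
  rw [h12] at h6
  rw [div_le_iff₀ (by linarith)]
  have h13 : (mm (2 * a) - mm a) / 2 * (L : ℝ) ^ 50 =
      (mm (2 * a) * L ^ 50 - mm a * L ^ 50) / 2 := by ring
  rw [h13] at h8
  have h14 : (mm (2 * a) - mm a) * (L : ℝ) ^ 50 = mm (2 * a) * L ^ 50 - mm a * L ^ 50 := by ring
  rw [h14]
  have h15 : 2 * a * (hic ω p : ℝ) = a * hic ω p + a * hic ω p := by ring
  rw [h15] at h2
  linarith [h0.1, h0.2, h1.1, h1.2]

lemma abs_near {x t c : ℝ} (ht : 0 ≤ t) (hc : |c| ≤ 1) (hx : |x - t * c| ≤ 1) : |x| ≤ t + 1 := by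
  have h1 : |x| ≤ |x - t * c| + |t * c| := by
    have := abs_add_le (x - t * c) (t * c)
    rwa [sub_add_cancel] at this
  have h2 : |t * c| ≤ t := by
    rw [abs_mul, abs_of_nonneg ht]
    exact mul_le_of_le_one_right ht hc
  linarith

lemma numK {K : ℝ} (_ : 0 ≤ K) : (20 * (2 * K + 1)) * 500 ≤ (100 * (K + 1)) ^ 2 := by
  nlinarith [sq_nonneg K]

/-- geometry of a point near `t y` -/
lemma near_geom {y : ℝ × ℝ} (hyu : y.1 ^ 2 + y.2 ^ 2 = 1) {t : ℝ} (ht1 : 1 ≤ t) {z : V}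
    (hz1 : |(z.1 : ℝ) - t * y.1| ≤ 1) (hz2 : |(z.2 : ℝ) - t * y.2| ≤ 1) :
    t - 2 ≤ inn y z ∧ |crs y z| ≤ 2 ∧ (nrm z : ℝ) ≤ 4 * t := by
  obtain ⟨hy1, hy2⟩ := abs_le_one_of_unit hyu
  refine ⟨?_, ?_, ?_⟩
  · have e1 : inn y z = t * (y.1 ^ 2 + y.2 ^ 2) + ((z.1 : ℝ) - t * y.1) * y.1 +
        ((z.2 : ℝ) - t * y.2) * y.2 := by unfold inn; ring
    rw [e1, hyu, mul_one]
    have e2 : |((z.1 : ℝ) - t * y.1) * y.1| ≤ 1 := by
      rw [abs_mul]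
      exact mul_le_one₀ hz1 (abs_nonneg _) hy1
    have e3 : |((z.2 : ℝ) - t * y.2) * y.2| ≤ 1 := by
      rw [abs_mul]
      exact mul_le_one₀ hz2 (abs_nonneg _) hy2
    rw [abs_le] at e2 e3
    linarith [e2.1, e3.1]
  · have e1 : crs y z = ((z.2 : ℝ) - t * y.2) * y.1 - ((z.1 : ℝ) - t * y.1) * y.2 := by
      unfold crs; ring
    rw [e1]
    refine (abs_sub _ _).trans ?_
    have e2 : |((z.2 : ℝ) - t * y.2) * y.1| ≤ 1 := by
      rw [abs_mul]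
      exact mul_le_one₀ hz2 (abs_nonneg _) hy1
    have e3 : |((z.1 : ℝ) - t * y.1) * y.2| ≤ 1 := by
      rw [abs_mul]
      exact mul_le_one₀ hz1 (abs_nonneg _) hy2
    linarith
  · unfold nrm
    push_cast
    have e1 := abs_near (by linarith) hy1 hz1
    have e2 := abs_near (by linarith) hy2 hz2
    linarith

/-- non-concentration in the minimising direction -/
theorem NC (ha : 0 < a) (hstrict : mm a < mm (2 * a)) {y : ℝ × ℝ} (hy : MinDir a y) :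
    ∃ c : ℝ, 0 < c ∧ ∃ L₀ : ℕ, ∀ L : ℕ, L₀ ≤ L → ∀ z : V,
      |(z.1 : ℝ) - L ^ 50 * y.1| ≤ 1 → |(z.2 : ℝ) - L ^ 50 * y.2| ≤ 1 →
      ∀ A : ℝ, P.real {ω | |T a ω 0 z - A| ≤ c * L} ≤ 1 / 2 := by
  obtain ⟨C₀, hC0, L₁, hL₁⟩ := h_upper ha.le hy
  have hyu := hy.1
  set K : ℕ := ⌈4 * (1 + a)⌉₊ with hK
  have hKR : 4 * (1 + a) ≤ (K : ℝ) := Nat.le_ceil _
  set Δ := mm (2 * a) - mm a with hΔ
  have hΔ0 : 0 < Δ := by rw [hΔ]; linarith
  set c1 : ℝ := Δ / (100 * (K + 1)) with hc1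
  have hc10 : 0 < c1 := by positivity
  have hm2 := one_le_mm (a := 2 * a) (by linarith)
  set b1 : ℝ := C₀ + 3 * (5 + 4 * a) + 4 with hb1
  set b2 : ℝ := (2 * mm (2 * a) + (C₀ + (5 + 4 * a) + 1)) / (Δ / 2) with hb2
  set b3 : ℝ := 12 * cA a K with hb3
  set b4 : ℝ := 48 * ((2 * a) ^ 2 * (1 + 2 * a)) with hb4
  set b5 : ℝ := 2 * a / c1 + 1 with hb5
  have hb1n : 0 ≤ b1 := by positivity
  have hb2n : 0 ≤ b2 := by positivity
  have hb3n : 0 ≤ b3 := mul_nonneg (by norm_num) (cA_nonneg ha.le K)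
  have hb4n : 0 ≤ b4 := by positivity
  have hb5n : 0 ≤ b5 := by positivity
  refine ⟨c1 / 2, by positivity, ⌈b1 + b2 + b3 + b4 + b5⌉₊ + L₁ + 1, ?_⟩
  intro L hL z hz1 hz2 A
  have hLb : b1 + b2 + b3 + b4 + b5 ≤ L := by
    have e1 := Nat.le_ceil (b1 + b2 + b3 + b4 + b5)
    have e2 : ⌈b1 + b2 + b3 + b4 + b5⌉₊ ≤ L := by omega
    have e3 : (⌈b1 + b2 + b3 + b4 + b5⌉₊ : ℝ) ≤ L := by exact_mod_cast e2
    linarith
  have hL1 : 1 ≤ L := by omega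
  have hLpos : (1 : ℝ) ≤ L := by exact_mod_cast hL1
  have hL5 : L₁ ≤ L ^ 5 := by
    have : L ^ 1 ≤ L ^ 5 := Nat.pow_le_pow_right hL1 (by norm_num)
    rw [pow_one] at this
    omega
  set t : ℝ := (L : ℝ) ^ 50 with ht
  have ht1 : 1 ≤ t := one_le_pow₀ hLpos
  have e10 : ((L ^ 5 : ℕ) : ℝ) ^ 10 = t := by rw [ht]; push_cast; rw [← pow_mul]
  have e9 : ((L ^ 5 : ℕ) : ℝ) ^ 9 = (L : ℝ) ^ 45 := by push_cast; rw [← pow_mul]
  have hz := hL₁ (L ^ 5) hL5 z (by rw [e10]; exact hz1) (by rw [e10]; exact hz2)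
  rw [e10, e9] at hz
  -- geometry of `z`
  obtain ⟨hinz, hcrz, hnz⟩ := near_geom hyu ht1 hz1 hz2
  have hnz0 : (0 : ℝ) ≤ nrm z := by exact_mod_cast nrm_nonneg z
  have hKz : (1 + a) * (nrm z : ℝ) ≤ K * (L : ℝ) ^ 50 := by
    calc (1 + a) * (nrm z : ℝ) ≤ (1 + a) * (4 * t) := mul_le_mul_of_nonneg_left hnz (by linarith)
      _ = (4 * (1 + a)) * t := by ring
      _ ≤ K * t := mul_le_mul_of_nonneg_right hKR (by linarith)
  -- thresholds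
  have hT1 : C₀ + 3 * (5 + 4 * a) + 4 ≤ L := by linarith
  have hT2 : 2 * mm (2 * a) + (C₀ + (5 + 4 * a) + 1) ≤ Δ / 2 * L := by
    have e1 : b2 ≤ L := by linarith
    rw [hb2, div_le_iff₀ (by positivity)] at e1
    linarith
  -- the events
  set r := c1 / 2 * L with hr
  by_contra hcon
  push Not at hcon
  set E : Set Om := {ω | |T a ω 0 z - A| ≤ r} with hE
  set E4 : Set Om := {ω | |T (2 * a) ω 0 z - h (2 * a) z| < (L : ℝ) ^ 40} with hE4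
  have mE : MeasurableSet E := measurableSet_le (((meas_T ha.le 0 z).sub_const _).abs)
    measurable_const
  have mE4 : MeasurableSet E4 := measurableSet_lt
    (((meas_T (by linarith : 0 ≤ 2 * a) 0 z).sub_const _).abs) measurable_const
  set G : Set Om := Good a K (L ^ 10) 0 ∩ Good a K (L ^ 10) z ∩ E4 ∩ E with hG
  have mG : MeasurableSet G := (((measurableSet_Good ha.le _ _ _).inter
    (measurableSet_Good ha.le _ _ _)).inter mE4).inter mE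
  have hsub : E ⊆ G ∪ ((Good a K (L ^ 10) 0)ᶜ ∪ (Good a K (L ^ 10) z)ᶜ ∪ E4ᶜ) := by
    intro ω hω
    by_cases g1 : ω ∈ Good a K (L ^ 10) 0
    · by_cases g2 : ω ∈ Good a K (L ^ 10) z
      · by_cases g3 : ω ∈ E4
        · exact Or.inl ⟨⟨⟨g1, g2⟩, g3⟩, hω⟩
        · exact Or.inr (Or.inr g3)
      · exact Or.inr (Or.inl (Or.inr g2))
    · exact Or.inr (Or.inl (Or.inl g1))
  have hL10 : 1 ≤ L ^ 10 := Nat.one_le_pow _ _ hL1
  have p1 := prob_bad ha.le K (L ^ 10) hL10 0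
  have p2 := prob_bad ha.le K (L ^ 10) hL10 z
  have p3 : P.real E4ᶜ ≤ (2 * a) ^ 2 * (1 + 2 * a) * (4 * t) / ((L : ℝ) ^ 40) ^ 2 := by
    have e1 := cheb (a := 2 * a) (by linarith) 0 z (s := (L : ℝ) ^ 40) (by positivity)
    rw [sub_zero] at e1
    have e2 : E4ᶜ = {ω | (L : ℝ) ^ 40 ≤ |T (2 * a) ω 0 z - h (2 * a) z|} := by
      ext ω; simp [hE4]
    rw [e2]
    refine e1.trans ?_
    apply div_le_div_of_nonneg_right _ (by positivity)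
    exact mul_le_mul_of_nonneg_left hnz (by positivity)
  have hLL10 : (L : ℝ) ≤ ((L ^ 10 : ℕ) : ℝ) := by
    push_cast
    calc (L : ℝ) = L ^ 1 := (pow_one _).symm
      _ ≤ L ^ 10 := pow_le_pow_right₀ hLpos (by norm_num)
  have q1 : cA a K / ((L ^ 10 : ℕ) : ℝ) ≤ 1 / 12 := by
    rw [div_le_div_iff₀ (by linarith) (by norm_num)]
    linarith
  have q2 : (2 * a) ^ 2 * (1 + 2 * a) * (4 * t) / ((L : ℝ) ^ 40) ^ 2 ≤ 1 / 12 := by
    have e1 : ((L : ℝ) ^ 40) ^ 2 = t * L ^ 30 := by rw [ht, ← pow_mul, ← pow_add]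
    rw [e1, div_le_div_iff₀ (by positivity) (by norm_num)]
    have e2 : (L : ℝ) ≤ L ^ 30 := by
      calc (L : ℝ) = L ^ 1 := (pow_one _).symm
        _ ≤ L ^ 30 := pow_le_pow_right₀ hLpos (by norm_num)
    have e3 : b4 ≤ L ^ 30 := by linarith
    have e4 := mul_le_mul_of_nonneg_left e3 (by linarith : 0 ≤ t)
    rw [hb4] at e4
    calc (2 * a) ^ 2 * (1 + 2 * a) * (4 * t) * 12 =
        t * (48 * ((2 * a) ^ 2 * (1 + 2 * a))) := by ring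
      _ ≤ t * (L : ℝ) ^ 30 := e4
      _ = 1 * (t * (L : ℝ) ^ 30) := by ring
  have hPG : 1 / 4 ≤ P.real G := by
    have e1 := (measureReal_mono (μ := P) hsub (measure_ne_top _ _)).trans
      (measureReal_union_le _ _)
    have e2 := (measureReal_union_le (μ := P) ((Good a K (L ^ 10) 0)ᶜ ∪ (Good a K (L ^ 10) z)ᶜ)
      E4ᶜ)
    have e3 := (measureReal_union_le (μ := P) (Good a K (L ^ 10) 0)ᶜ (Good a K (L ^ 10) z)ᶜ)
    linarith
  -- apply the key inequality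
  have hgood : ∀ ω ∈ G, |T a ω 0 z - A| ≤ r ∧ ∀ p : lat.Walk 0 z, Geo a ω p → p.IsPath →
      (∀ e ∈ p.edges, e ∈ edgesOf (tube y (K * L ^ 50) ((L : ℝ) ^ 48))) ∧
      Δ * t / (2 * a) ≤ hic ω p := by
    rintro ω ⟨⟨⟨g1, g2⟩, g3⟩, g4⟩
    refine ⟨g4, fun p hp _ => ⟨?_, ?_⟩⟩
    · intro e he
      apply mem_edgesOf p _ he
      intro w hw
      exact confine ha.le hyu hC0.le hT1 hz hinz hcrz hKz g1 g2 hp hw
    · apply many_high ha hyu hL1 hC0.le hT2 hz hinz _ (le_of_lt g3) hp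
      have e1 := g1 z (by
        have e2 : (nrm (z - 0) : ℝ) ≤ K * (L : ℝ) ^ 50 := by
          rw [sub_zero]
          exact le_trans (le_mul_of_one_le_left hnz0 (by linarith)) hKz
        have e3 : nrm (z - 0) ≤ (K : ℤ) * (L : ℤ) ^ 50 := by exact_mod_cast e2
        push_cast
        rw [← pow_mul]
        exact e3)
      rw [sub_zero] at e1
      have e40 : ((L ^ 10 : ℕ) : ℝ) ^ 4 = (L : ℝ) ^ 40 := by push_cast; rw [← pow_mul]
      rwa [e40] at e1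
  have key := nonconc ha.le z (edgesOf (tube y (K * L ^ 50) ((L : ℝ) ^ 48))) A r
    (Δ * t / (2 * a)) (by positivity) (by positivity) G mG hgood
  -- the count
  have hcard : ((edgesOf (tube y (K * L ^ 50) ((L : ℝ) ^ 48))).card : ℝ) ≤
      20 * (2 * K + 1) * L ^ 98 := by
    have e1 : ((edgesOf (tube y (K * L ^ 50) ((L : ℝ) ^ 48))).card : ℝ) ≤
        4 * ((tube y (K * L ^ 50) ((L : ℝ) ^ 48)).card : ℝ) := by
      exact_mod_cast card_edgesOf _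
    have e2 := card_tube hyu (K * L ^ 50) (w := (L : ℝ) ^ 48) (by positivity)
    have e3 : (2 * ((K * L ^ 50 : ℕ) : ℝ) + 1) ≤ (2 * K + 1) * L ^ 50 := by
      push_cast
      have e31 : (2 * (K : ℝ) + 1) * (L : ℝ) ^ 50 = 2 * (K * (L : ℝ) ^ 50) + (L : ℝ) ^ 50 := by
        ring
      rw [e31]
      linarith
    have e4 : 4 * (L : ℝ) ^ 48 + 1 ≤ 5 * L ^ 48 := by
      have : (1 : ℝ) ≤ (L : ℝ) ^ 48 := one_le_pow₀ hLpos
      linarith
    have e5 : (2 * ((K * L ^ 50 : ℕ) : ℝ) + 1) * (4 * (L : ℝ) ^ 48 + 1) ≤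
        ((2 * K + 1) * L ^ 50) * (5 * L ^ 48) :=
      mul_le_mul e3 e4 (by positivity) (by positivity)
    have e6 : ((2 * K + 1) * (L : ℝ) ^ 50) * (5 * L ^ 48) = 5 * (2 * K + 1) * L ^ 98 := by ring
    rw [e6] at e5
    linarith
  have hkey2 : (1 - q) * (Δ * t / 8) ^ 2 ≤ (r + a) ^ 2 * (20 * (2 * K + 1) * L ^ 98) := by
    have e1 : a * (Δ * t / (2 * a)) = Δ * t / 2 := by field_simp
    rw [e1] at key
    have e2 : Δ * t / 8 ≤ Δ * t / 2 * P.real G := by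
      have e21 : 0 ≤ Δ * t / 2 := by positivity
      calc Δ * t / 8 = Δ * t / 2 * (1 / 4) := by ring
        _ ≤ _ := mul_le_mul_of_nonneg_left hPG e21
    have e3 : (Δ * t / 8) ^ 2 ≤ (Δ * t / 2 * P.real G) ^ 2 :=
      pow_le_pow_left₀ (by positivity) e2 2
    have e4 : q * ((edgesOf (tube y (K * L ^ 50) ((L : ℝ) ^ 48))).card : ℝ) ≤
        20 * (2 * K + 1) * L ^ 98 := by
      have := q_lt_one
      have e5 : q * ((edgesOf (tube y (K * L ^ 50) ((L : ℝ) ^ 48))).card : ℝ) ≤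
          1 * ((edgesOf (tube y (K * L ^ 50) ((L : ℝ) ^ 48))).card : ℝ) :=
        mul_le_mul_of_nonneg_right q_lt_one.le (Nat.cast_nonneg _)
      linarith
    calc (1 - q) * (Δ * t / 8) ^ 2 ≤ (1 - q) * (Δ * t / 2 * P.real G) ^ 2 :=
          mul_le_mul_of_nonneg_left e3 one_sub_q_pos.le
      _ ≤ (r + a) ^ 2 * (q * ((edgesOf (tube y (K * L ^ 50) ((L : ℝ) ^ 48))).card : ℝ)) := key
      _ ≤ _ := mul_le_mul_of_nonneg_left e4 (sq_nonneg _)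
  have hra : r + a < c1 * L := by
    have e1 : b5 ≤ L := by linarith
    have e2 : 2 * a / c1 < L := by linarith
    rw [div_lt_iff₀ hc10] at e2
    rw [hr]
    linarith
  have hra2 : (r + a) ^ 2 ≤ (c1 * L) ^ 2 := pow_le_pow_left₀ (by positivity) hra.le 2
  have hfin : (1 - q) * (Δ * t / 8) ^ 2 ≤ (c1 * L) ^ 2 * (20 * (2 * K + 1) * L ^ 98) :=
    hkey2.trans (mul_le_mul_of_nonneg_right hra2 (by positivity))
  have e1 : (Δ * t / 8) ^ 2 = Δ ^ 2 / 64 * L ^ 100 := by rw [ht]; ring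
  have e2 : (c1 * L) ^ 2 * (20 * (2 * K + 1) * (L : ℝ) ^ 98) =
      c1 ^ 2 * (20 * (2 * K + 1)) * L ^ 100 := by ring
  rw [e1, e2, ← mul_assoc] at hfin
  have hfin2 : (1 - q) * (Δ ^ 2 / 64) ≤ c1 ^ 2 * (20 * (2 * K + 1)) :=
    le_of_mul_le_mul_right hfin (by positivity)
  have hfin3 : c1 ^ 2 * (20 * (2 * K + 1)) ≤ Δ ^ 2 / 500 := by
    rw [hc1, div_pow, div_mul_eq_mul_div, div_le_div_iff₀ (by positivity) (by norm_num)]
    have e3 : (20 * (2 * (K : ℝ) + 1)) * 500 ≤ (100 * ((K : ℝ) + 1)) ^ 2 :=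
      numK (Nat.cast_nonneg _)
    have e4 := mul_le_mul_of_nonneg_left e3 (sq_nonneg Δ)
    linarith
  have hΔ2 : 0 < Δ ^ 2 := by positivity
  have hq : (1 / 2 : ℝ) ≤ 1 - q := by unfold q; norm_num
  have e5 := mul_le_mul_of_nonneg_right hq (by positivity : (0 : ℝ) ≤ Δ ^ 2 / 64)
  linarith

end Pool.Agent.W822.FPP
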