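import Mathlib

/-!
Product of Bernoulli measures: one coordinate resampling, Efron-Stein, linear statistics.
-/

set_option autoImplicit false

open MeasureTheory ProbabilityTheory Filter Topology
open scoped ENNReal NNReal

namespace Pool.Agent.W822.FPP

/-- the density of high edges -/
noncomputable def q : ℝ := 1 / 10000

lemma q_pos : 0 < q := by unfold q; norm_num
lemma q_lt_one : q < 1 := by unfold q; norm_num
lemma q_nonneg : 0 ≤ q := q_pos.le
lemma one_sub_q_pos : 0 < 1 - q := by linarith [q_lt_one]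

/-- Bernoulli law -/
noncomputable def bern : Measure Bool :=
  ENNReal.ofReal (1 - q) • Measure.dirac false + ENNReal.ofReal q • Measure.dirac true

instance : IsProbabilityMeasure bern := by
  constructor
  simp only [bern, Measure.coe_add, Measure.coe_smul, Pi.add_apply, Pi.smul_apply,
    measure_univ, smul_eq_mul, mul_one]
  rw [← ENNReal.ofReal_add one_sub_q_pos.le q_nonneg]
  simp

lemma int_bern (g : Bool → ℝ) : ∫ b, g b ∂bern = q * g true + (1 - q) * g false := by
  have hi : ∀ (c : ℝ≥0∞) (b : Bool), c ≠ ∞ → Integrable g (c • Measure.dirac b) := by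
    intro c b hc
    exact (Integrable.smul_measure (integrable_dirac (by simp)) hc)
  rw [bern, integral_add_measure (hi _ _ ENNReal.ofReal_ne_top) (hi _ _ ENNReal.ofReal_ne_top),
    integral_smul_measure, integral_smul_measure, integral_dirac, integral_dirac,
    ENNReal.toReal_ofReal one_sub_q_pos.le, ENNReal.toReal_ofReal q_nonneg]
  simp only [smul_eq_mul]
  ring

section prob

variable {κ : Type*}

/-- the product law -/
noncomputable def PP (κ : Type*) : Measure (κ → Bool) := Measure.infinitePi (fun _ : κ => bern)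

instance : IsProbabilityMeasure (PP κ) := by
  unfold PP; infer_instance

/-- dependence on finitely many coordinates -/
def Dep {α : Type*} (B : Finset κ) (f : (κ → Bool) → α) : Prop :=
  ∀ ω ω' : κ → Bool, (∀ e ∈ B, ω e = ω' e) → f ω = f ω'

lemma Dep.mono {α : Type*} {B B' : Finset κ} {f : (κ → Bool) → α} (h : Dep B f) (hB : B ⊆ B') :
    Dep B' f := fun ω ω' he => h ω ω' fun e h' => he e (hB h')

lemma Dep.comp {α β : Type*} {B : Finset κ} {f : (κ → Bool) → α} (h : Dep B f) (g : α → β) :
    Dep B (fun ω => g (f ω)) := fun ω ω' he => by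
  show g (f ω) = g (f ω')
  rw [h ω ω' he]

lemma Dep.comp₂ {α β γ : Type*} {B : Finset κ} {f : (κ → Bool) → α} {g : (κ → Bool) → β}
    (h : Dep B f) (h' : Dep B g) (F : α → β → γ) :
    Dep B (fun ω => F (f ω) (g ω)) := fun ω ω' he => by
  show F (f ω) (g ω) = F (f ω') (g ω')
  rw [h ω ω' he, h' ω ω' he]

open Classical in
lemma Dep.factor {α : Type*} {B : Finset κ} {f : (κ → Bool) → α} (h : Dep B f) :
    f = (fun η : B → Bool => f (fun e => if he : e ∈ B then η ⟨e, he⟩ else false)) ∘
      (fun (ω : κ → Bool) (e : B) => ω e) := by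
  funext ω
  apply h
  intro e he
  simp [he]

lemma Dep.measurable {α : Type*} [MeasurableSpace α] {B : Finset κ} {f : (κ → Bool) → α}
    (h : Dep B f) : Measurable f := by
  classical
  rw [h.factor]
  apply Measurable.comp
  · exact measurable_of_countable _
  · fun_prop

lemma Dep.bdd {B : Finset κ} {f : (κ → Bool) → ℝ} (h : Dep B f) : ∃ C, ∀ ω, |f ω| ≤ C := by
  classical
  have h1 : (Set.range f).Finite := by
    rw [h.factor]
    exact (Set.finite_range _).subset (Set.range_comp_subset_range _ _)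
  have h2 : ((fun x : ℝ => |x|) '' Set.range f).Finite := h1.image _
  obtain ⟨C, hC⟩ := h2.bddAbove
  exact ⟨C, fun ω => hC ⟨f ω, ⟨ω, rfl⟩, rfl⟩⟩

lemma integrable_bdd {f : (κ → Bool) → ℝ} (hm : Measurable f) (hb : ∃ C, ∀ ω, |f ω| ≤ C) :
    Integrable f (PP κ) := by
  obtain ⟨C, hC⟩ := hb
  exact Integrable.of_bound hm.aestronglyMeasurable C (Filter.Eventually.of_forall hC)

lemma Dep.integrable {B : Finset κ} {f : (κ → Bool) → ℝ} (h : Dep B f) : Integrable f (PP κ) :=
  integrable_bdd h.measurable h.bdd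

variable [DecidableEq κ]

lemma map_update (e : κ) :
    (bern.prod (PP κ)).map (fun z : Bool × (κ → Bool) => Function.update z.2 e z.1) = PP κ := by
  apply Measure.eq_infinitePi
  intro s t ht
  have hm : Measurable (fun z : Bool × (κ → Bool) => Function.update z.2 e z.1) := by
    apply measurable_pi_lambda
    intro a
    by_cases h : a = e
    · subst h
      simpa using measurable_fst
    · simp only [Function.update_of_ne h]
      exact (measurable_pi_apply a).comp measurable_snd
  rw [Measure.map_apply hm (.pi s.countable_toSet fun i _ => ht i)]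
  by_cases he : e ∈ s
  · have h1 : (fun z : Bool × (κ → Bool) => Function.update z.2 e z.1) ⁻¹' (Set.pi s t) =
        (t e) ×ˢ (Set.pi (s.erase e) t) := by
      ext z
      simp only [Set.mem_preimage, Set.mem_pi, Set.mem_prod, Finset.mem_coe, Finset.mem_erase]
      constructor
      · intro h
        refine ⟨by simpa using h e he, fun i hi => ?_⟩
        have := h i hi.2
        rwa [Function.update_of_ne hi.1] at this
      · rintro ⟨h1, h2⟩ i hi
        by_cases hie : i = e
        · subst hie; simpa using h1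
        · rw [Function.update_of_ne hie]; exact h2 i ⟨hie, hi⟩
    rw [h1, Measure.prod_prod, PP, Measure.infinitePi_pi _ (fun i _ => ht i),
      Finset.mul_prod_erase s (fun i => bern (t i)) he]
  · have h1 : (fun z : Bool × (κ → Bool) => Function.update z.2 e z.1) ⁻¹' (Set.pi s t) =
        Set.univ ×ˢ (Set.pi s t) := by
      ext z
      simp only [Set.mem_preimage, Set.mem_pi, Set.mem_prod, Finset.mem_coe, Set.mem_univ,
        true_and]
      have : ∀ i ∈ s, Function.update z.2 e z.1 i = z.2 i := by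
        intro i hi
        apply Function.update_of_ne
        rintro rfl
        exact he hi
      constructor
      · intro h i hi
        rw [← this i hi]; exact h i hi
      · intro h i hi
        rw [this i hi]; exact h i hi
    rw [h1, Measure.prod_prod, PP, Measure.infinitePi_pi _ (fun i _ => ht i), measure_univ,
      one_mul]

/-- raise / lower the coordinate `e` -/
def up (e : κ) (ω : κ → Bool) : κ → Bool := Function.update ω e true
/-- raise / lower the coordinate `e` -/
def dn (e : κ) (ω : κ → Bool) : κ → Bool := Function.update ω e false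

@[simp] lemma up_self (e : κ) (ω : κ → Bool) : up e ω e = true := by simp [up]
@[simp] lemma dn_self (e : κ) (ω : κ → Bool) : dn e ω e = false := by simp [dn]
lemma up_ne {e a : κ} (h : a ≠ e) (ω : κ → Bool) : up e ω a = ω a := by simp [up, h]
lemma dn_ne {e a : κ} (h : a ≠ e) (ω : κ → Bool) : dn e ω a = ω a := by simp [dn, h]
lemma up_comm {a b : κ} (h : a ≠ b) (ω : κ → Bool) : up a (up b ω) = up b (up a ω) :=
  Function.update_comm h.symm _ _ _
lemma dn_comm {a b : κ} (h : a ≠ b) (ω : κ → Bool) : dn a (dn b ω) = dn b (dn a ω) :=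
  Function.update_comm h.symm _ _ _
lemma up_dn {a b : κ} (h : a ≠ b) (ω : κ → Bool) : up a (dn b ω) = dn b (up a ω) :=
  Function.update_comm h.symm _ _ _
@[simp] lemma up_up (e : κ) (ω : κ → Bool) : up e (up e ω) = up e ω := by simp [up]
@[simp] lemma up_dn_self (e : κ) (ω : κ → Bool) : up e (dn e ω) = up e ω := by simp [up, dn]
@[simp] lemma dn_up_self (e : κ) (ω : κ → Bool) : dn e (up e ω) = dn e ω := by simp [up, dn]
@[simp] lemma dn_dn (e : κ) (ω : κ → Bool) : dn e (dn e ω) = dn e ω := by simp [dn]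
lemma up_eq {e : κ} {ω : κ → Bool} (h : ω e = true) : up e ω = ω := by
  rw [up, ← h]; simp
lemma dn_eq {e : κ} {ω : κ → Bool} (h : ω e = false) : dn e ω = ω := by
  rw [dn, ← h]; simp

/-- the indicator of a high coordinate -/
def ind (ω : κ → Bool) (e : κ) : ℝ := if ω e then 1 else 0

@[simp] lemma ind_up (e : κ) (ω : κ → Bool) : ind (up e ω) e = 1 := by simp [ind]
@[simp] lemma ind_dn (e : κ) (ω : κ → Bool) : ind (dn e ω) e = 0 := by simp [ind]
lemma ind_up_ne {e a : κ} (h : a ≠ e) (ω : κ → Bool) : ind (up e ω) a = ind ω a := by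
  simp [ind, up_ne h]
lemma ind_dn_ne {e a : κ} (h : a ≠ e) (ω : κ → Bool) : ind (dn e ω) a = ind ω a := by
  simp [ind, dn_ne h]
omit [DecidableEq κ] in
lemma ind_nonneg (ω : κ → Bool) (e : κ) : 0 ≤ ind ω e := by unfold ind; split_ifs <;> norm_num
omit [DecidableEq κ] in
lemma ind_le_one (ω : κ → Bool) (e : κ) : ind ω e ≤ 1 := by unfold ind; split_ifs <;> norm_num

lemma meas_up (e : κ) : Measurable (up (κ := κ) e) := by
  apply measurable_pi_lambda
  intro a
  by_cases h : a = e
  · subst h; simp only [up_self]; exact measurable_const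
  · simp only [up_ne h]; exact measurable_pi_apply a

lemma meas_dn (e : κ) : Measurable (dn (κ := κ) e) := by
  apply measurable_pi_lambda
  intro a
  by_cases h : a = e
  · subst h; simp only [dn_self]; exact measurable_const
  · simp only [dn_ne h]; exact measurable_pi_apply a

omit [DecidableEq κ] in
lemma meas_ind (e : κ) : Measurable (fun ω : κ → Bool => ind ω e) := by
  have : (fun ω : κ → Bool => ind ω e) = (fun b : Bool => if b then (1 : ℝ) else 0) ∘
      (fun ω : κ → Bool => ω e) := rfl
  rw [this]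
  exact (measurable_of_countable _).comp (measurable_pi_apply e)

/-- one coordinate resampling -/
lemma int_avg (e : κ) {f : (κ → Bool) → ℝ} (hm : Measurable f) (hb : ∃ C, ∀ ω, |f ω| ≤ C) :
    ∫ ω, f ω ∂(PP κ) = ∫ ω, (q * f (up e ω) + (1 - q) * f (dn e ω)) ∂(PP κ) := by
  have hu : Measurable (fun z : Bool × (κ → Bool) => Function.update z.2 e z.1) := by
    apply measurable_pi_lambda
    intro a
    by_cases h : a = e
    · subst h
      simpa using measurable_fst
    · simp only [Function.update_of_ne h]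
      exact (measurable_pi_apply a).comp measurable_snd
  have h1 : ∫ ω, f ω ∂(PP κ) =
      ∫ z, f (Function.update z.2 e z.1) ∂(bern.prod (PP κ)) := by
    conv_lhs => rw [← map_update e]
    exact integral_map hu.aemeasurable hm.aestronglyMeasurable
  rw [h1, integral_prod_symm]
  · apply integral_congr_ae
    refine Filter.Eventually.of_forall fun ω => ?_
    simp only
    rw [int_bern]
    rfl
  · obtain ⟨C, hC⟩ := hb
    exact Integrable.of_bound (hm.comp hu).aestronglyMeasurable C
      (Filter.Eventually.of_forall fun z => hC _)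

lemma Dep.avg (e : κ) {B : Finset κ} {f : (κ → Bool) → ℝ} (h : Dep B f) :
    ∫ ω, f ω ∂(PP κ) = ∫ ω, (q * f (up e ω) + (1 - q) * f (dn e ω)) ∂(PP κ) :=
  int_avg e h.measurable h.bdd

lemma Dep.up {α : Type*} {B : Finset κ} {f : (κ → Bool) → α} (h : Dep B f) (e : κ) :
    Dep (B.erase e) (fun ω => f (up e ω)) := by
  intro ω ω' he
  apply h
  intro a ha
  by_cases hae : a = e
  · subst hae; simp
  · rw [up_ne hae, up_ne hae]; exact he a (Finset.mem_erase.2 ⟨hae, ha⟩)

lemma Dep.dn {α : Type*} {B : Finset κ} {f : (κ → Bool) → α} (h : Dep B f) (e : κ) :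
    Dep (B.erase e) (fun ω => f (dn e ω)) := by
  intro ω ω' he
  apply h
  intro a ha
  by_cases hae : a = e
  · subst hae; simp
  · rw [dn_ne hae, dn_ne hae]; exact he a (Finset.mem_erase.2 ⟨hae, ha⟩)

/-- discrete derivative -/
def Dd (e : κ) (f : (κ → Bool) → ℝ) (ω : κ → Bool) : ℝ := f (FPP.up e ω) - f (FPP.dn e ω)

lemma Dep.Dd {B : Finset κ} {f : (κ → Bool) → ℝ} (h : Dep B f) (e : κ) :
    Dep (B.erase e) (Dd e f) :=
  (h.up e).comp₂ (h.dn e) (fun a b => a - b)

/-- Efron-Stein inequality -/
theorem efron (B : Finset κ) : ∀ {f : (κ → Bool) → ℝ}, Dep B f →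
    ∫ ω, f ω ^ 2 ∂(PP κ) - (∫ ω, f ω ∂(PP κ)) ^ 2 ≤
      q * (1 - q) * ∑ e ∈ B, ∫ ω, Dd e f ω ^ 2 ∂(PP κ) := by
  induction B using Finset.induction_on with
  | empty =>
    intro f hf
    have h : f = fun _ => f (fun _ => false) := by
      funext ω
      exact hf _ _ (by simp)
    rw [h]
    simp
  | insert e B he ih =>
    intro f hf
    set g : (κ → Bool) → ℝ := fun ω => q * f (up e ω) + (1 - q) * f (dn e ω) with hg
    have hBe : (insert e B).erase e = B := Finset.erase_insert he
    have hup : Dep B (fun ω => f (up e ω)) := by have := hf.up e; rwa [hBe] at this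
    have hdn : Dep B (fun ω => f (dn e ω)) := by have := hf.dn e; rwa [hBe] at this
    have hgd : Dep B g := hup.comp₂ hdn (fun a b => q * a + (1 - q) * b)
    have h1 : ∫ ω, f ω ∂(PP κ) = ∫ ω, g ω ∂(PP κ) := hf.avg e
    have hDd : Dep B (Dd e f) := by have := hf.Dd e; rwa [hBe] at this
    have h2 : ∫ ω, f ω ^ 2 ∂(PP κ) = ∫ ω, g ω ^ 2 ∂(PP κ) +
        q * (1 - q) * ∫ ω, Dd e f ω ^ 2 ∂(PP κ) := by
      rw [(hf.comp (fun x => x ^ 2)).avg e, ← integral_const_mul, ← integral_add
        (hgd.comp (fun x => x ^ 2)).integrable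
        ((hDd.comp (fun x => x ^ 2)).integrable.const_mul _)]
      apply integral_congr_ae
      refine Filter.Eventually.of_forall fun ω => ?_
      simp only [hg, Dd]
      ring
    have h3 := ih hgd
    have h4 : ∀ b ∈ B, ∫ ω, Dd b g ω ^ 2 ∂(PP κ) ≤ ∫ ω, Dd b f ω ^ 2 ∂(PP κ) := by
      intro b hb
      have hbe : b ≠ e := fun h => he (h ▸ hb)
      have hD : Dep (insert e B) (Dd b f) := (hf.Dd b).mono (Finset.erase_subset _ _)
      rw [(hD.comp (fun x => x ^ 2)).avg e]
      apply integral_mono ((hgd.Dd b).comp (fun x => x ^ 2)).integrable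
      · exact ((((hD.up e).comp (fun x => x ^ 2)).comp₂ ((hD.dn e).comp (fun x => x ^ 2))
          (fun a b => q * a + (1 - q) * b)).integrable)
      · intro ω
        have e1 : Dd b g ω = q * Dd b f (up e ω) + (1 - q) * Dd b f (dn e ω) := by
          simp only [Dd, hg]
          rw [up_comm hbe ω, up_dn hbe, dn_comm hbe, up_dn (Ne.symm hbe) ω]
          ring
        simp only [e1]
        nlinarith [mul_nonneg (mul_nonneg q_nonneg one_sub_q_pos.le)
          (sq_nonneg (Dd b f (up e ω) - Dd b f (dn e ω)))]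
    rw [Finset.sum_insert he, h1, h2]
    have h5 := Finset.sum_le_sum h4
    have h6 : 0 ≤ q * (1 - q) := mul_nonneg q_nonneg one_sub_q_pos.le
    nlinarith [mul_le_mul_of_nonneg_left h5 h6]

/-- covariance with one coordinate -/
lemma cov_ind {B : Finset κ} {f : (κ → Bool) → ℝ} (hf : Dep B f) (e : κ) :
    ∫ ω, f ω * (ind ω e - q) ∂(PP κ) = q * (1 - q) * ∫ ω, Dd e f ω ∂(PP κ) := by
  have hi : Dep {e} (fun ω : κ → Bool => ind ω e) := by
    intro ω ω' h
    have := h e (by simp)
    simp [ind, this]
  have hF : Dep (B ∪ {e}) (fun ω => f ω * (ind ω e - q)) :=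
    (hf.mono Finset.subset_union_left).comp₂ (hi.mono Finset.subset_union_right)
      (fun a b => a * (b - q))
  rw [hF.avg e, ← integral_const_mul]
  apply integral_congr_ae
  refine Filter.Eventually.of_forall fun ω => ?_
  simp only [ind_up, ind_dn, Dd]
  ring

lemma int_ind_Dd {B : Finset κ} {f : (κ → Bool) → ℝ} (hf : Dep B f) (e : κ) :
    ∫ ω, ind ω e * Dd e f ω ∂(PP κ) = q * ∫ ω, Dd e f ω ∂(PP κ) := by
  have hi : Dep {e} (fun ω : κ → Bool => ind ω e) := by
    intro ω ω' h
    have := h e (by simp)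
    simp [ind, this]
  have hF : Dep (B ∪ {e}) (fun ω => ind ω e * Dd e f ω) :=
    (hi.mono Finset.subset_union_right).comp₂
      (((hf.Dd e).mono (Finset.erase_subset _ _)).mono Finset.subset_union_left)
      (fun a b => a * b)
  rw [hF.avg e, ← integral_const_mul]
  apply integral_congr_ae
  refine Filter.Eventually.of_forall fun ω => ?_
  simp only [ind_up, ind_dn, Dd, up_up, dn_up_self]
  ring

lemma int_oneSub_ind_Dd {B : Finset κ} {f : (κ → Bool) → ℝ} (hf : Dep B f) (e : κ) :
    ∫ ω, (1 - ind ω e) * Dd e f ω ∂(PP κ) = (1 - q) * ∫ ω, Dd e f ω ∂(PP κ) := by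
  have hi : Dep {e} (fun ω : κ → Bool => ind ω e) := by
    intro ω ω' h
    have := h e (by simp)
    simp [ind, this]
  have hF : Dep (B ∪ {e}) (fun ω => ind ω e * Dd e f ω) :=
    (hi.mono Finset.subset_union_right).comp₂
      (((hf.Dd e).mono (Finset.erase_subset _ _)).mono Finset.subset_union_left)
      (fun a b => a * b)
  have h1 := int_ind_Dd hf e
  have h2 : ∫ ω, (1 - ind ω e) * Dd e f ω ∂(PP κ) =
      ∫ ω, Dd e f ω ∂(PP κ) - ∫ ω, ind ω e * Dd e f ω ∂(PP κ) := by
    rw [← integral_sub (hf.Dd e).integrable hF.integrable]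
    apply integral_congr_ae
    refine Filter.Eventually.of_forall fun ω => ?_
    simp only
    ring
  rw [h2, h1]
  ring

/-- centred number of high coordinates in `S` -/
noncomputable def XS (S : Finset κ) (ω : κ → Bool) : ℝ := ∑ e ∈ S, (ind ω e - q)

omit [DecidableEq κ] in
lemma dep_XS (S : Finset κ) : Dep S (XS S) := by
  intro ω ω' h
  apply Finset.sum_congr rfl
  intro e he
  simp [ind, h e he]

lemma int_XS_sq (S : Finset κ) : ∫ ω, XS S ω ^ 2 ∂(PP κ) = S.card * (q * (1 - q)) := by
  induction S using Finset.induction_on with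
  | empty => simp [XS]
  | insert e S he ih =>
    have h1 : ∀ ω, XS (insert e S) (up e ω) = XS S ω + (1 - q) := by
      intro ω
      unfold XS
      rw [Finset.sum_insert he, ind_up, add_comm]
      congr 1
      apply Finset.sum_congr rfl
      intro a ha
      rw [ind_up_ne (by rintro rfl; exact he ha)]
    have h2 : ∀ ω, XS (insert e S) (dn e ω) = XS S ω - q := by
      intro ω
      unfold XS
      rw [Finset.sum_insert he, ind_dn, zero_sub, add_comm, ← sub_eq_add_neg]
      congr 1
      apply Finset.sum_congr rfl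
      intro a ha
      rw [ind_dn_ne (by rintro rfl; exact he ha)]
    rw [((dep_XS (insert e S)).comp (fun x => x ^ 2)).avg e]
    have h3 : ∀ ω, q * XS (insert e S) (up e ω) ^ 2 + (1 - q) * XS (insert e S) (dn e ω) ^ 2 =
        XS S ω ^ 2 + q * (1 - q) := by
      intro ω
      rw [h1, h2]
      ring
    simp only [h3]
    rw [integral_add ((dep_XS S).comp (fun x => x ^ 2)).integrable (integrable_const _), ih,
      Finset.card_insert_of_notMem he]
    simp
    ring

/-- the key second moment inequality -/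
theorem key_ineq {B : Finset κ} {f : (κ → Bool) → ℝ} (hf : Dep B f) (S : Finset κ) {R : ℝ}
    (hR : ∀ ω, |f ω| ≤ R) :
    (1 - q) * (∑ e ∈ S, ∫ ω, ind ω e * Dd e f ω ∂(PP κ)) ^ 2 ≤ R ^ 2 * (q * S.card) := by
  have hf' : Dep (B ∪ S) f := hf.mono Finset.subset_union_left
  have hX' : Dep (B ∪ S) (XS S) := (dep_XS S).mono Finset.subset_union_right
  have h1 : ∫ ω, f ω * XS S ω ∂(PP κ) = q * (1 - q) * ∑ e ∈ S, ∫ ω, Dd e f ω ∂(PP κ) := by
    have h2 : ∀ ω, f ω * XS S ω = ∑ e ∈ S, f ω * (ind ω e - q) := by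
      intro ω
      rw [XS, Finset.mul_sum]
    simp only [h2]
    rw [integral_finsetSum]
    · rw [Finset.mul_sum]
      apply Finset.sum_congr rfl
      intro e _
      exact cov_ind hf e
    · intro e _
      have hi : Dep {e} (fun ω : κ → Bool => ind ω e) := by
        intro ω ω' h
        have := h e (by simp)
        simp [ind, this]
      exact ((hf.mono Finset.subset_union_left).comp₂ (hi.mono Finset.subset_union_right)
        (fun a b => a * (b - q))).integrable
  have h3 : ∑ e ∈ S, ∫ ω, ind ω e * Dd e f ω ∂(PP κ) = q * ∑ e ∈ S, ∫ ω, Dd e f ω ∂(PP κ) := by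
    rw [Finset.mul_sum]
    exact Finset.sum_congr rfl fun e _ => int_ind_Dd hf e
  set a := ∫ ω, f ω ^ 2 ∂(PP κ) with ha
  set b := ∫ ω, f ω * XS S ω ∂(PP κ) with hb
  set c := ∫ ω, XS S ω ^ 2 ∂(PP κ) with hc
  have hdisc : discrim a (-(2 * b)) c ≤ 0 := by
    apply discrim_le_zero
    intro s
    have h4 : a * (s * s) + -(2 * b) * s + c = ∫ ω, (s * f ω - XS S ω) ^ 2 ∂(PP κ) := by
      have e1 : ∀ ω, (s * f ω - XS S ω) ^ 2 =
          (s * s) * f ω ^ 2 + (-(2 * s)) * (f ω * XS S ω) + XS S ω ^ 2 := by
        intro ω; ring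
      simp only [e1]
      have i1 : Integrable (fun ω => (s * s) * f ω ^ 2) (PP κ) :=
        (hf.comp (fun x => (s * s) * x ^ 2)).integrable
      have i2 : Integrable (fun ω => (-(2 * s)) * (f ω * XS S ω)) (PP κ) :=
        (hf'.comp₂ hX' (fun x y => (-(2 * s)) * (x * y))).integrable
      have i3 : Integrable (fun ω => XS S ω ^ 2) (PP κ) :=
        ((dep_XS S).comp (fun x => x ^ 2)).integrable
      have i12 : Integrable (fun ω => (s * s) * f ω ^ 2 + (-(2 * s)) * (f ω * XS S ω)) (PP κ) :=
        i1.add i2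
      rw [integral_add i12 i3, integral_add i1 i2, integral_const_mul,
        integral_const_mul]
      ring
    rw [h4]
    exact integral_nonneg fun ω => sq_nonneg _
  have h5 : b ^ 2 ≤ a * c := by
    unfold discrim at hdisc
    nlinarith
  have ha' : a ≤ R ^ 2 := by
    have : a ≤ ∫ ω : κ → Bool, R ^ 2 ∂(PP κ) := by
      apply integral_mono (hf.comp (fun x => x ^ 2)).integrable (integrable_const _)
      intro ω
      have := abs_le.1 (hR ω)
      simp only
      nlinarith
    simpa using this
  rw [int_XS_sq] at hc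
  have hc0 : 0 ≤ c := by
    rw [hc]
    exact mul_nonneg (Nat.cast_nonneg _) (mul_nonneg q_nonneg one_sub_q_pos.le)
  have h6 : b ^ 2 ≤ R ^ 2 * c := h5.trans (mul_le_mul_of_nonneg_right ha' hc0)
  rw [h3]
  rw [h1, hc] at h6
  have h7 : (1 - q) * (q * ∑ e ∈ S, ∫ ω, Dd e f ω ∂(PP κ)) ^ 2 * (1 - q) ≤
      R ^ 2 * (q * S.card) * (1 - q) := by
    calc _ = (q * (1 - q) * ∑ e ∈ S, ∫ ω, Dd e f ω ∂(PP κ)) ^ 2 := by ring
      _ ≤ _ := h6
      _ = _ := by ring
  exact le_of_mul_le_mul_right h7 one_sub_q_pos

omit [DecidableEq κ] in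
/-- invariance of the law under permutations of the coordinates -/
lemma int_perm (σ : κ ≃ κ) {f : (κ → Bool) → ℝ} (hm : Measurable f) :
    ∫ ω, f (fun e => ω (σ e)) ∂(PP κ) = ∫ ω, f ω ∂(PP κ) := by
  have hmp : Measurable (fun (ω : κ → Bool) (e : κ) => ω (σ e)) := by fun_prop
  have h1 : (PP κ).map (fun (ω : κ → Bool) (e : κ) => ω (σ e)) = PP κ := by
    apply Measure.eq_infinitePi
    intro s t' ht
    obtain ⟨t, rfl⟩ : ∃ t : κ → Set Bool, t = t' := ⟨t', rfl⟩
    have htt : ∀ a, t (σ.symm (σ a)) = t a := fun a => congrArg t (σ.symm_apply_apply a)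
    rw [Measure.map_apply hmp (.pi s.countable_toSet fun i _ => ht i)]
    have h2 : (fun (ω : κ → Bool) (e : κ) => ω (σ e)) ⁻¹' (Set.pi s t) =
        Set.pi (s.map σ.toEmbedding) (fun e => t (σ.symm e)) := by
      ext ω
      simp only [Set.mem_preimage, Set.mem_pi, Finset.coe_map, Set.mem_image, Finset.mem_coe,
        forall_exists_index, and_imp, Equiv.coe_toEmbedding]
      constructor
      · rintro h _ a ha rfl
        rw [htt]; exact h a ha
      · intro h a ha
        rw [← htt]; exact h _ a ha rfl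
    rw [h2, PP, Measure.infinitePi_pi _ (fun i _ => ht _), Finset.prod_map]
    apply Finset.prod_congr rfl
    intro a _
    simp only [Equiv.coe_toEmbedding, htt]
  conv_rhs => rw [← h1]
  rw [integral_map hmp.aemeasurable hm.aestronglyMeasurable]

end prob

end Pool.Agent.W822.FPP
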