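import Pool.Agent.W822.ResVar

/-!
The almost sure longitudinal exponent depends on the direction.
-/

set_option autoImplicit false

open MeasureTheory ProbabilityTheory Filter Topology
open scoped ENNReal NNReal

namespace Pool.Agent.W822.FPP

variable {a : ℝ}

lemma rnd_dg {n : ℝ} (hn : 0 ≤ n) : ∃ k : ℕ, rnd (n • dg) = ((k : ℤ), (k : ℤ)) ∧
    |2 * (k : ℝ) - Real.sqrt 2 * n| ≤ 1 := by
  have h1 : (0 : ℝ) ≤ n * (Real.sqrt 2 / 2) := by positivity
  have h2 : 0 ≤ round (n * (Real.sqrt 2 / 2)) := by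
    rw [round_eq]
    exact Int.floor_nonneg.2 (by linarith)
  refine ⟨(round (n * (Real.sqrt 2 / 2))).toNat, ?_, ?_⟩
  · rw [Int.toNat_of_nonneg h2]
    rfl
  · have h3 : (((round (n * (Real.sqrt 2 / 2))).toNat : ℕ) : ℝ) =
        ((round (n * (Real.sqrt 2 / 2)) : ℤ) : ℝ) := by
      rw [← Int.cast_natCast, Int.toNat_of_nonneg h2]
    have h4 := abs_sub_round (n * (Real.sqrt 2 / 2))
    rw [h3]
    rw [abs_le] at h4 ⊢
    constructor <;> linarith [h4.1, h4.2]

lemma DD_mean_le (k : ℕ) : ∫ ω : Om, (DD ω k k : ℝ) ∂P ≤ 1 := by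
  refine le_trans ?_ (DD_sq_le k)
  apply integral_mono _ (DD_int k)
  · intro ω
    have : (DD ω k k) ≤ (DD ω k k) ^ 2 := Nat.le_self_pow two_ne_zero _
    show (DD ω k k : ℝ) ≤ (DD ω k k : ℝ) ^ 2
    exact_mod_cast this
  · apply integrable_bdd
    · exact (measurable_of_countable (fun n : ℕ => (n : ℝ))).comp (meas_DD k k)
    · refine ⟨(2 * k : ℝ), fun ω => ?_⟩
      rw [abs_of_nonneg (Nat.cast_nonneg _)]
      have := DD_le ω k k
      have h2 : DD ω k k ≤ 2 * k := by omega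
      exact_mod_cast h2

lemma h_diag (ha : 0 ≤ a) (k : ℕ) : 2 * (k : ℝ) ≤ h a ((k : ℤ), (k : ℤ)) ∧
    h a ((k : ℤ), (k : ℤ)) ≤ 2 * k + a := by
  constructor
  · have h1 : ∫ _ω : Om, 2 * (k : ℝ) ∂P ≤ h a ((k : ℤ), (k : ℤ)) := by
      apply integral_mono (integrable_const _) (integrable_T ha _ _)
      intro ω
      exact diag_ge ha ω k
    simpa using h1
  · have hi : Integrable (fun ω : Om => (DD ω k k : ℝ)) P := by
      apply integrable_bdd
      · exact (measurable_of_countable (fun n : ℕ => (n : ℝ))).comp (meas_DD k k)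
      · refine ⟨(2 * k : ℝ), fun ω => ?_⟩
        rw [abs_of_nonneg (Nat.cast_nonneg _)]
        have := DD_le ω k k
        have h2 : DD ω k k ≤ 2 * k := by omega
        exact_mod_cast h2
    have h1 : h a ((k : ℤ), (k : ℤ)) ≤ ∫ ω : Om, (2 * (k : ℝ) + a * DD ω k k) ∂P := by
      apply integral_mono (integrable_T ha _ _) ((integrable_const _).add (hi.const_mul _))
      intro ω
      exact diag_le ha ω k
    have h3 : ∫ ω : Om, a * (DD ω k k : ℝ) ∂P = a * ∫ ω : Om, (DD ω k k : ℝ) ∂P :=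
      integral_const_mul _ _
    rw [integral_add (integrable_const _) (hi.const_mul _), h3] at h1
    have h2 := DD_mean_le k
    simp only [integral_const, probReal_univ, smul_eq_mul, one_mul] at h1
    nlinarith

/-- the time constant on the diagonal -/
theorem tc_dg (ha : 0 ≤ a) : IsTimeConstant (Fa a) dg (Real.sqrt 2) := by
  apply time_constant ha dg_unit (C := 1 + a)
  filter_upwards [eventually_ge_atTop 1] with j hj
  have hj1 : (1 : ℝ) ≤ j := by exact_mod_cast hj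
  obtain ⟨k, hk1, hk2⟩ := rnd_dg (n := (j : ℝ) ^ 10) (by positivity)
  rw [hk1]
  obtain ⟨h1, h2⟩ := h_diag ha k
  have h3 : (1 : ℝ) ≤ (j : ℝ) ^ 9 := one_le_pow₀ hj1
  have h4 : 1 + a ≤ (1 + a) * (j : ℝ) ^ 9 := le_mul_of_one_le_right (by linarith) h3
  rw [abs_le] at hk2 ⊢
  constructor <;> linarith [hk2.1, hk2.2]

/-- the time constant in a minimising direction -/
theorem tc_min (ha : 0 ≤ a) {y : ℝ × ℝ} (hy : MinDir a y) : IsTimeConstant (Fa a) y (mm a) := by
  obtain ⟨C, hC, L₀, hL₀⟩ := h_upper ha hy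
  apply time_constant ha hy.1 (C := C + 2 * mm a)
  filter_upwards [eventually_ge_atTop 1, eventually_ge_atTop L₀] with j hj hjL
  have hj1 : (1 : ℝ) ≤ j := by exact_mod_cast hj
  obtain ⟨h1, h2⟩ := rnd_near ((j : ℝ) ^ 10) y
  have h3 := hL₀ j hjL _ h1 h2
  have h4 := near_geom hy.1 (one_le_pow₀ hj1) h1 h2
  have hm := one_le_mm ha
  have h5 := mm_mul_le ha (rnd (((j : ℝ) ^ 10) • y))
  have h6 : mm a * ((j : ℝ) ^ 10 - 2) ≤ mm a * eu (rnd (((j : ℝ) ^ 10) • y)) :=
    mul_le_mul_of_nonneg_left (h4.1.trans (inn_le_eu hy.1 _)) (by linarith)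
  have h7 : (1 : ℝ) ≤ (j : ℝ) ^ 9 := one_le_pow₀ hj1
  have h8 : mm a * 2 ≤ mm a * 2 * (j : ℝ) ^ 9 := le_mul_of_one_le_right (by linarith) h7
  have h9 : 0 ≤ C * (j : ℝ) ^ 9 := by positivity
  rw [abs_le]
  constructor <;> nlinarith

/-- almost surely the passage time on the diagonal is within a logarithm of its lower bound -/
theorem ae_diag (ha : 0 ≤ a) : ∀ᵐ τ ∂(law (Fa a)), ∀ᶠ k : ℕ in atTop,
    |passage τ 0 ((k : ℤ), (k : ℤ)) - 2 * k| ≤ 2 * a * (Real.log k + 1) := by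
  apply transfer_ev (z := fun k => ((k : ℤ), (k : ℤ))) (c := fun k => 2 * (k : ℝ))
    (d := fun k => 2 * a * (Real.log k + 1))
  have h1 := bc (s := fun k => {ω : Om | 2 * ⌈Real.log k⌉₊ < DD ω k k}) (C := 1) (by
    intro k hk
    refine (prob_DD k _).trans ?_
    have hk1 : (1 : ℝ) ≤ k := by exact_mod_cast hk
    have hk0 : (0 : ℝ) < k := by linarith
    have e1 : ((1 : ℝ) / 10) ^ ⌈Real.log k⌉₊ ≤ 1 / k := by
      have e2 : (1 / 10 : ℝ) ≤ Real.exp (-1) := by
        rw [Real.exp_neg, one_div]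
        apply inv_anti₀ (Real.exp_pos _)
        have := Real.exp_one_lt_d9
        linarith
      calc ((1 : ℝ) / 10) ^ ⌈Real.log k⌉₊ ≤ (Real.exp (-1)) ^ ⌈Real.log k⌉₊ :=
            pow_le_pow_left₀ (by norm_num) e2 _
        _ = Real.exp (-(⌈Real.log k⌉₊ : ℝ)) := by
            rw [← Real.exp_nat_mul]; congr 1; ring
        _ ≤ Real.exp (-Real.log k) := by
            apply Real.exp_le_exp.2
            have := Nat.le_ceil (Real.log k)
            linarith
        _ = 1 / k := by rw [Real.exp_neg, Real.exp_log hk0, one_div]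
    calc ((1 : ℝ) / 10) ^ (2 * ⌈Real.log k⌉₊ + 1) ≤ (1 / 10) ^ (2 * ⌈Real.log k⌉₊) :=
          pow_le_pow_of_le_one (by norm_num) (by norm_num) (by omega)
      _ = ((1 / 10) ^ ⌈Real.log k⌉₊) ^ 2 := by rw [← pow_mul]; congr 1; ring
      _ ≤ (1 / k) ^ 2 := pow_le_pow_left₀ (by positivity) e1 2
      _ = 1 / (k : ℝ) ^ 2 := by rw [div_pow, one_pow])
  filter_upwards [h1] with ω hω
  filter_upwards [hω, eventually_ge_atTop 1] with k hk hk1
  rw [not_lt] at hk
  have h2 := diag_ge ha ω k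
  have h3 := diag_le ha ω k
  have hkR : (1 : ℝ) ≤ k := by exact_mod_cast hk1
  have h4 : (DD ω k k : ℝ) ≤ 2 * (Real.log k + 1) := by
    have e1 : (DD ω k k : ℝ) ≤ 2 * (⌈Real.log k⌉₊ : ℝ) := by exact_mod_cast hk
    have e2 := Nat.ceil_lt_add_one (Real.log_nonneg hkR)
    linarith
  have h5 := mul_le_mul_of_nonneg_left h4 ha
  rw [abs_le]
  constructor
  · have : 0 ≤ 2 * a * (Real.log k + 1) := by
      have := Real.log_nonneg hkR
      positivity
    linarith
  · linarith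

/-- every positive exponent works on the diagonal -/
lemma diag_exp (ha : 0 ≤ a) {κ : ℝ} (hκ : 0 < κ) : ∀ᵐ τ ∂(law (Fa a)), ∀ᶠ t : ℝ in atTop,
    ∀ n : ℝ, 0 ≤ n →
    (n ≤ (Real.sqrt 2)⁻¹ * (t - t ^ κ) → passage τ 0 (rnd (n • dg)) ≤ t) ∧
    ((Real.sqrt 2)⁻¹ * (t + t ^ κ) ≤ n → t ≤ passage τ 0 (rnd (n • dg))) := by
  filter_upwards [ae_diag ha, ae_Bd ha] with τ hτ hB
  obtain ⟨K₀, hK₀⟩ := eventually_atTop.1 hτ
  -- growth comparison
  have hgrow : ∀ᶠ t : ℝ in atTop, 1 + 2 * a * (Real.log (t + 1) + 1) ≤ t ^ κ := by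
    have h1 : (fun t : ℝ => Real.log t) =o[atTop] fun t => t ^ κ := isLittleO_log_rpow_atTop hκ
    have h2 := h1.def (c := 1 / (4 * a + 1)) (by positivity)
    have h3 : Tendsto (fun t : ℝ => t ^ κ) atTop atTop := tendsto_rpow_atTop hκ
    have h4 := h3.eventually (eventually_ge_atTop (2 * (1 + 4 * a) + 2 * a))
    filter_upwards [h2, h4, eventually_ge_atTop 1] with t e1 e2 e3
    have e4 : Real.log (t + 1) ≤ Real.log t + 1 := by
      have e5 : t + 1 ≤ t * Real.exp 1 := by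
        have := Real.add_one_le_exp (1 : ℝ)
        nlinarith
      calc Real.log (t + 1) ≤ Real.log (t * Real.exp 1) :=
            Real.log_le_log (by linarith) e5
        _ = Real.log t + 1 := by
            rw [Real.log_mul (by linarith) (Real.exp_pos _).ne', Real.log_exp]
    have e6 : 0 ≤ Real.log t := Real.log_nonneg e3
    have e7 : 0 ≤ t ^ κ := Real.rpow_nonneg (by linarith) _
    rw [Real.norm_of_nonneg e6, Real.norm_of_nonneg e7] at e1
    have e8 : 2 * a * Real.log t ≤ t ^ κ / 2 := by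
      have : 2 * a * (1 / (4 * a + 1)) ≤ 1 / 2 := by
        rw [mul_one_div, div_le_div_iff₀ (by positivity) (by norm_num)]
        linarith
      calc 2 * a * Real.log t ≤ 2 * a * (1 / (4 * a + 1) * t ^ κ) :=
            mul_le_mul_of_nonneg_left e1 (by linarith)
        _ = 2 * a * (1 / (4 * a + 1)) * t ^ κ := by ring
        _ ≤ 1 / 2 * t ^ κ := mul_le_mul_of_nonneg_right this e7
        _ = t ^ κ / 2 := by ring
    have e9 : 2 * a * (Real.log (t + 1) + 1) ≤ 2 * a * (Real.log t + 1 + 1) :=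
      mul_le_mul_of_nonneg_left (by linarith) (by linarith)
    nlinarith
  filter_upwards [hgrow, eventually_ge_atTop (max 1 ((1 + a) * (2 * K₀)))] with t ht1 ht2 n hn
  have htm1 : 1 ≤ t := (le_max_left _ _).trans ht2
  have htm2 : (1 + a) * (2 * K₀) ≤ t := (le_max_right _ _).trans ht2
  obtain ⟨k, hk1, hk2⟩ := rnd_dg hn
  rw [hk1]
  rw [abs_le] at hk2
  have hs := sqrt2_pos
  have hlog : 0 ≤ Real.log (t + 1) := Real.log_nonneg (by linarith)
  have htk : 1 ≤ t ^ κ := by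
    have : 0 ≤ 2 * a * (Real.log (t + 1) + 1) := by positivity
    linarith
  constructor
  · intro h1
    rw [inv_mul_eq_div, le_div_iff₀ hs] at h1
    have h2 : 2 * (k : ℝ) ≤ t - t ^ κ + 1 := by linarith [hk2.2]
    rcases Nat.lt_or_ge k K₀ with hkK | hkK
    · have h3 := passage_le hB 0 ((k : ℤ), (k : ℤ))
      have h4 : nrm (((k : ℤ), (k : ℤ)) - 0) = 2 * k := by simp [nrm]; ring
      rw [h4] at h3
      push_cast at h3
      have h5 : (k : ℝ) ≤ K₀ := by exact_mod_cast hkK.le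
      have h6 : (1 + a) * (2 * (k : ℝ)) ≤ (1 + a) * (2 * K₀) :=
        mul_le_mul_of_nonneg_left (by linarith) (by linarith)
      linarith
    · have h3 := hK₀ k hkK
      rw [abs_le] at h3
      have h4 : Real.log k ≤ Real.log (t + 1) := by
        rcases Nat.eq_zero_or_pos k with h0 | h0
        · subst h0; simpa using hlog
        · apply Real.log_le_log (by exact_mod_cast h0)
          linarith
      have h5 : 2 * a * (Real.log k + 1) ≤ 2 * a * (Real.log (t + 1) + 1) :=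
        mul_le_mul_of_nonneg_left (by linarith) (by linarith)
      linarith [h3.2]
  · intro h1
    rw [inv_mul_eq_div, div_le_iff₀ hs] at h1
    have h3 := le_passage hB 0 ((k : ℤ), (k : ℤ))
    have h4 : nrm (((k : ℤ), (k : ℤ)) - 0) = 2 * k := by simp [nrm]; ring
    rw [h4] at h3
    push_cast at h3
    linarith [hk2.1]

/-- on the diagonal the longitudinal exponent vanishes -/
theorem chiLong_dg (ha : 0 ≤ a) : chiLong (Fa a) dg (Real.sqrt 2) = 0 := by
  apply le_antisymm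
  · by_contra hcon
    push Not at hcon
    obtain ⟨κ, h1, h2⟩ := EReal.lt_iff_exists_real_btwn.1 hcon
    have h3 : chiLong (Fa a) dg (Real.sqrt 2) ≤ (κ : EReal) := by
      apply sInf_le
      exact ⟨κ, rfl, diag_exp ha (by exact_mod_cast h1)⟩
    exact absurd h2 (not_lt.2 h3)
  · apply le_sInf
    rintro _ ⟨κ, rfl, hκ⟩
    rw [← EReal.coe_zero, EReal.coe_le_coe_iff]
    by_contra hneg
    push Not at hneg
    obtain ⟨τ, h1, hB⟩ := (hκ.and (ae_Bd ha)).exists
    have h2 : Tendsto (fun j : ℕ => 2 * (j : ℝ) + 3 / 2) atTop atTop := by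
      apply tendsto_atTop_add_const_right
      exact tendsto_natCast_atTop_atTop.const_mul_atTop (by norm_num)
    have h3 : Tendsto (fun j : ℕ => (2 * (j : ℝ) + 3 / 2) ^ κ) atTop (𝓝 0) := by
      have := (tendsto_rpow_neg_atTop (y := -κ) (by linarith)).comp h2
      simpa [Function.comp_def] using this
    have h4 := h2.eventually h1
    have h5 : ∀ᶠ j : ℕ in atTop, (2 * (j : ℝ) + 3 / 2) ^ κ < 1 / 2 :=
      h3.eventually (gt_mem_nhds (by norm_num))
    obtain ⟨j, e1, e2⟩ := (h4.and h5).exists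
    have hs := sqrt2_pos
    have hss := sqrt2_sq
    set n : ℝ := Real.sqrt 2 * (j + 1 / 2) with hn
    have hn0 : 0 ≤ n := by positivity
    have e3 := (e1 n hn0).1 (by
      rw [inv_mul_eq_div, le_div_iff₀ hs]
      have : n * Real.sqrt 2 = 2 * j + 1 := by
        rw [hn]
        calc Real.sqrt 2 * ((j : ℝ) + 1 / 2) * Real.sqrt 2 =
            (Real.sqrt 2 * Real.sqrt 2) * (j + 1 / 2) := by ring
          _ = 2 * j + 1 := by rw [hss]; ring
      rw [this]
      linarith)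
    have e4 : rnd (n • dg) = (((j + 1 : ℕ) : ℤ), ((j + 1 : ℕ) : ℤ)) := by
      have e5 : n * (Real.sqrt 2 / 2) = j + 1 / 2 := by
        rw [hn]
        calc Real.sqrt 2 * ((j : ℝ) + 1 / 2) * (Real.sqrt 2 / 2) =
            (Real.sqrt 2 * Real.sqrt 2) * (j + 1 / 2) / 2 := by ring
          _ = j + 1 / 2 := by rw [hss]; ring
      have e6 : round (n * (Real.sqrt 2 / 2)) = ((j + 1 : ℕ) : ℤ) := by
        rw [e5, round_eq]
        have : (j : ℝ) + 1 / 2 + 1 / 2 = (((j + 1 : ℕ) : ℤ) : ℝ) := by push_cast; ring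
        rw [this, Int.floor_intCast]
      have e7 : rnd (n • dg) = (round (n * (Real.sqrt 2 / 2)), round (n * (Real.sqrt 2 / 2))) := rfl
      rw [e7, e6]
    rw [e4] at e3
    have e8 := le_passage hB 0 (((j + 1 : ℕ) : ℤ), ((j + 1 : ℕ) : ℤ))
    have e9 : nrm ((((j + 1 : ℕ) : ℤ), ((j + 1 : ℕ) : ℤ)) - 0) = 2 * (j + 1) := by
      simp only [nrm, sub_zero, Nat.abs_cast]
      push_cast
      ring
    rw [e9] at e8
    push_cast at e8 e3
    linarith

/-- in a minimising direction the longitudinal exponent is positive -/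
theorem chiLong_min (ha : 0 < a) (hstrict : mm a < mm (2 * a)) {y : ℝ × ℝ} (hy : MinDir a y) :
    ((1 / 50 : ℝ) : EReal) ≤ chiLong (Fa a) y (mm a) := by
  obtain ⟨c, hc, L₀, hNC⟩ := NC ha hstrict hy
  apply le_sInf
  rintro _ ⟨κ, rfl, hκ⟩
  rw [EReal.coe_le_coe_iff]
  by_contra hcon
  push Not at hcon
  rw [law_Fa] at hκ
  have h1 := ae_of_ae_map (meas_Psi a).aemeasurable hκ
  simp only [passage_Psi] at h1
  set μ := mm a with hμ
  have hμ1 : 1 ≤ μ := one_le_mm ha.le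
  -- an auxiliary exponent
  set κ' := max κ (1 / 100) with hκ'
  have hκ'1 : κ' < 1 / 50 := max_lt hcon (by norm_num)
  have hκ'0 : 0 < κ' := lt_of_lt_of_le (by norm_num) (le_max_right _ _)
  -- growth: `((μ + c) L^50)^κ ≤ c L` eventually
  have hgrow : ∀ᶠ L : ℕ in atTop, ((μ + c) * (L : ℝ) ^ 50) ^ κ' ≤ c * L := by
    have e1 : Tendsto (fun L : ℕ => (L : ℝ) ^ (1 - 50 * κ')) atTop atTop :=
      (tendsto_rpow_atTop (by linarith)).comp tendsto_natCast_atTop_atTop
    have e2 := e1.eventually (eventually_ge_atTop ((μ + c) ^ κ' / c))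
    filter_upwards [e2, eventually_ge_atTop 1] with L h2 hL
    have hL0 : (0 : ℝ) < L := by exact_mod_cast hL
    have e3 : ((μ + c) * (L : ℝ) ^ 50) ^ κ' = (μ + c) ^ κ' * (L : ℝ) ^ (50 * κ') := by
      rw [Real.mul_rpow (by linarith) (by positivity), ← Real.rpow_natCast (L : ℝ) 50,
        ← Real.rpow_mul hL0.le]
      norm_num
    rw [e3]
    rw [div_le_iff₀ hc] at h2
    have e4 : (L : ℝ) ^ (1 - 50 * κ') * (L : ℝ) ^ (50 * κ') = L := by
      rw [← Real.rpow_add hL0]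
      simp
    calc (μ + c) ^ κ' * (L : ℝ) ^ (50 * κ') ≤ ((L : ℝ) ^ (1 - 50 * κ') * c) *
          (L : ℝ) ^ (50 * κ') := mul_le_mul_of_nonneg_right h2 (by positivity)
      _ = c * ((L : ℝ) ^ (1 - 50 * κ') * (L : ℝ) ^ (50 * κ')) := by ring
      _ = c * L := by rw [e4]
  set z : ℕ → V := fun L => rnd (((L : ℝ) ^ 50) • y) with hz
  set E : ℕ → Set Om := fun L => {ω | |T a ω 0 (z L) - μ * (L : ℝ) ^ 50| ≤ c * L} with hE
  have mE : ∀ L, MeasurableSet (E L) := fun L =>
    measurableSet_le ((meas_T ha.le 0 _).sub_const _).abs measurable_const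
  -- the two times
  have htp : Tendsto (fun L : ℕ => μ * (L : ℝ) ^ 50 + c * L) atTop atTop := by
    apply tendsto_atTop_mono (f := fun L : ℕ => c * (L : ℝ))
    · intro L; have : 0 ≤ μ * (L : ℝ) ^ 50 := by positivity
      linarith
    · exact tendsto_natCast_atTop_atTop.const_mul_atTop hc
  have htm : Tendsto (fun L : ℕ => μ * (L : ℝ) ^ 50 - c * L) atTop atTop := by
    have e1 : Tendsto (fun L : ℕ => (L : ℝ)) atTop atTop := tendsto_natCast_atTop_atTop
    apply tendsto_atTop_mono' (f₁ := fun L : ℕ => (L : ℝ)) atTop _ e1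
    have e2 : ∀ᶠ L : ℕ in atTop, c + 1 ≤ (L : ℝ) := e1.eventually (eventually_ge_atTop _)
    filter_upwards [e2] with L h2
    have hL1 : (1 : ℝ) ≤ L := by linarith
    have e3 : (L : ℝ) ^ 2 ≤ (L : ℝ) ^ 50 := pow_le_pow_right₀ hL1 (by norm_num)
    have e4 : (L : ℝ) ^ 50 ≤ μ * (L : ℝ) ^ 50 := le_mul_of_one_le_left (by positivity) hμ1
    nlinarith
  have hev : ∀ᵐ ω ∂P, ∀ᶠ L in atTop, ω ∈ E L := by
    filter_upwards [h1] with ω hω
    filter_upwards [hgrow, htp.eventually hω, htm.eventually hω,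
      htm.eventually (eventually_ge_atTop 1), eventually_ge_atTop 1] with L g1 g2 g3 g4 g5
    have hL1 : (1 : ℝ) ≤ L := by exact_mod_cast g5
    have hL50 : (L : ℝ) ≤ (L : ℝ) ^ 50 := by
      calc (L : ℝ) = (L : ℝ) ^ 1 := (pow_one _).symm
        _ ≤ _ := pow_le_pow_right₀ hL1 (by norm_num)
    have hcL : 0 ≤ c * (L : ℝ) := by positivity
    -- `t ^ κ ≤ c L` for both times
    have hsmall : ∀ t : ℝ, 1 ≤ t → t ≤ μ * (L : ℝ) ^ 50 + c * L → t ^ κ ≤ c * L := by
      intro t ht1 ht2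
      calc t ^ κ ≤ t ^ κ' := Real.rpow_le_rpow_of_exponent_le ht1 (le_max_left _ _)
        _ ≤ ((μ + c) * (L : ℝ) ^ 50) ^ κ' := by
            apply Real.rpow_le_rpow (by linarith) _ hκ'0.le
            have : c * (L : ℝ) ≤ c * (L : ℝ) ^ 50 := mul_le_mul_of_nonneg_left hL50 hc.le
            linarith
        _ ≤ c * L := g1
    have hμinv : μ⁻¹ * (μ * (L : ℝ) ^ 50) = (L : ℝ) ^ 50 := by
      rw [← mul_assoc, inv_mul_cancel₀ (by linarith), one_mul]
    have hμ0 : 0 ≤ μ⁻¹ := by positivity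
    have f1 : T a ω 0 (z L) ≤ μ * (L : ℝ) ^ 50 + c * L := by
      apply (g2 ((L : ℝ) ^ 50) (by positivity)).1
      calc (L : ℝ) ^ 50 = μ⁻¹ * (μ * (L : ℝ) ^ 50) := hμinv.symm
        _ ≤ _ := by
          apply mul_le_mul_of_nonneg_left _ hμ0
          have := hsmall (μ * (L : ℝ) ^ 50 + c * L) (by linarith) le_rfl
          linarith
    have f2 : μ * (L : ℝ) ^ 50 - c * L ≤ T a ω 0 (z L) := by
      apply (g3 ((L : ℝ) ^ 50) (by positivity)).2
      calc _ ≤ μ⁻¹ * (μ * (L : ℝ) ^ 50) := by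
            apply mul_le_mul_of_nonneg_left _ hμ0
            have := hsmall (μ * (L : ℝ) ^ 50 - c * L) g4 (by linarith)
            linarith
        _ = (L : ℝ) ^ 50 := hμinv
    show |T a ω 0 (z L) - μ * (L : ℝ) ^ 50| ≤ c * L
    rw [abs_le]
    constructor <;> linarith
  have hlim := prob_tendsto mE hev
  have h2 : ∀ᶠ L in atTop, 1 / 2 < P.real (E L) := hlim.eventually (lt_mem_nhds (by norm_num))
  obtain ⟨L, e1, e2⟩ := (h2.and (eventually_ge_atTop L₀)).exists
  obtain ⟨n1, n2⟩ := rnd_near ((L : ℝ) ^ 50) y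
  have e3 := hNC L e2 (z L) n1 n2 (μ * (L : ℝ) ^ 50)
  exact absurd e1 (not_lt.2 e3)

theorem final_long : ∃ F : Measure ℝ, IsProbabilityMeasure F ∧ F (Set.Iic 0) = 0 ∧
    (∀ γ : ℝ, Integrable (fun t => Real.exp (γ * t)) F) ∧
    IsTimeConstant F (Real.sqrt 2 / 2, Real.sqrt 2 / 2) (Real.sqrt 2) ∧
    chiLong F (Real.sqrt 2 / 2, Real.sqrt 2 / 2) (Real.sqrt 2) = 0 ∧
    ∃ y : ℝ × ℝ, y.1 ^ 2 + y.2 ^ 2 = 1 ∧ ∃ ν : ℝ, 0 < ν ∧ IsTimeConstant F y ν ∧
      ((1 / 50 : ℝ) : EReal) ≤ chiLong F y ν := by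
  obtain ⟨a, ha, hstrict⟩ := exists_strict
  obtain ⟨y, hy⟩ := exists_dir (a := a)
  have hm := one_le_mm ha.le
  refine ⟨Fa a, inferInstance, ?_, fun γ => integrable_Fa a (by fun_prop), tc_dg ha.le,
    chiLong_dg ha.le, y, hy.1, mm a, by linarith, tc_min ha.le hy, chiLong_min ha hstrict hy⟩
  apply Fa_null a measurableSet_Iic
  · simp
  · simp only [Set.mem_Iic, not_le]; linarith

end Pool.Agent.W822.FPP
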