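import Pool.Agent.W822.Model

/-!
The variance exponent depends on the direction.
-/

set_option autoImplicit false

open MeasureTheory ProbabilityTheory Filter Topology
open scoped ENNReal NNReal

namespace Pool.Agent.W822.FPP

/-- the diagonal direction -/
noncomputable def dg : ℝ × ℝ := (Real.sqrt 2 / 2, Real.sqrt 2 / 2)

lemma sqrt2_sq : Real.sqrt 2 * Real.sqrt 2 = 2 := Real.mul_self_sqrt (by norm_num)
lemma sqrt2_pos : 0 < Real.sqrt 2 := Real.sqrt_pos.2 (by norm_num)

lemma dg_unit : dg.1 ^ 2 + dg.2 ^ 2 = 1 := by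
  unfold dg
  have := sqrt2_sq
  simp only
  nlinarith

lemma meas_DD (x y : ℕ) : Measurable (fun ω : Om => DD ω x y) := by
  obtain ⟨n, hn⟩ : ∃ n, x + y = n := ⟨_, rfl⟩
  induction n generalizing x y with
  | zero =>
    obtain ⟨rfl, rfl⟩ : x = 0 ∧ y = 0 := by omega
    have : (fun ω : Om => DD ω 0 0) = fun _ => 0 := by funext ω; rw [DD]
    rw [this]; exact measurable_const
  | succ n ih =>
    cases x with
    | zero =>
      cases y with
      | zero => omega
      | succ y =>
        have : (fun ω : Om => DD ω 0 (y + 1)) = fun ω => DD ω 0 y + bit ω (vE 0 y) := by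
          funext ω; rw [DD]
        rw [this]; exact (ih 0 y (by omega)).add (meas_bit _)
    | succ x =>
      cases y with
      | zero =>
        have : (fun ω : Om => DD ω (x + 1) 0) = fun ω => DD ω x 0 + bit ω (hE x 0) := by
          funext ω; rw [DD]
        rw [this]; exact (ih x 0 (by omega)).add (meas_bit _)
      | succ y =>
        have : (fun ω : Om => DD ω (x + 1) (y + 1)) = fun ω =>
            min (DD ω x (y + 1) + bit ω (hE x (y + 1)))
              (DD ω (x + 1) y + bit ω (vE (x + 1) y)) := by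
          funext ω; rw [DD]
        rw [this]
        exact ((ih x (y + 1) (by omega)).add (meas_bit _)).min
          ((ih (x + 1) y (by omega)).add (meas_bit _))

lemma sq_le_sum (n k : ℕ) (h : n ≤ 2 * k) :
    (n : ℝ) ^ 2 ≤ ∑ s ∈ Finset.range k, (2 * (s : ℝ) + 2) ^ 2 * (if 2 * s < n then 1 else 0) := by
  by_cases h0 : n = 0
  · subst h0
    simp
  · set s₀ := (n - 1) / 2 with hs
    have h1 : s₀ < k := by omega
    have h2 : 2 * s₀ < n := by omega
    have h3 : n ≤ 2 * s₀ + 2 := by omega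
    have h4 : (2 * (s₀ : ℝ) + 2) ^ 2 * (if 2 * s₀ < n then 1 else 0) ≤
        ∑ s ∈ Finset.range k, (2 * (s : ℝ) + 2) ^ 2 * (if 2 * s < n then 1 else 0) := by
      apply Finset.single_le_sum (f := fun s : ℕ =>
        (2 * (s : ℝ) + 2) ^ 2 * (if 2 * s < n then (1 : ℝ) else 0)) _ (Finset.mem_range.2 h1)
      intro s _
      positivity
    rw [if_pos h2, mul_one] at h4
    refine le_trans ?_ h4
    apply pow_le_pow_left₀ (Nat.cast_nonneg _)
    exact_mod_cast h3

lemma DD_int (k : ℕ) : Integrable (fun ω : Om => (DD ω k k : ℝ) ^ 2) P := by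
  apply integrable_bdd
  · exact (measurable_of_countable (fun n : ℕ => (n : ℝ) ^ 2)).comp (meas_DD k k)
  · refine ⟨(2 * k : ℝ) ^ 2, fun ω => ?_⟩
    rw [abs_of_nonneg (sq_nonneg _)]
    apply pow_le_pow_left₀ (Nat.cast_nonneg _)
    have := DD_le ω k k
    have h2 : DD ω k k ≤ 2 * k := by omega
    exact_mod_cast h2

lemma DD_sq_le (k : ℕ) : ∫ ω : Om, (DD ω k k : ℝ) ^ 2 ∂P ≤ 1 := by
  have hmeas : ∀ s : ℕ, MeasurableSet {ω : Om | 2 * s < DD ω k k} := fun s =>
    measurableSet_lt measurable_const (meas_DD k k)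
  have h1 : ∫ ω : Om, (DD ω k k : ℝ) ^ 2 ∂P ≤
      ∫ ω : Om, ∑ s ∈ Finset.range k, (2 * (s : ℝ) + 2) ^ 2 *
        ({ω : Om | 2 * s < DD ω k k}.indicator (fun _ => (1 : ℝ)) ω) ∂P := by
    apply integral_mono (DD_int k)
    · apply integrable_finsetSum
      intro s _
      exact ((integrable_const _).indicator (hmeas s)).const_mul _
    · intro ω
      have h2 := sq_le_sum (DD ω k k) k (by have := DD_le ω k k; omega)
      refine h2.trans (le_of_eq ?_)
      apply Finset.sum_congr rfl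
      intro s _
      congr 1
      rw [Set.indicator_apply]
      rfl
  rw [integral_finsetSum] at h1
  · refine h1.trans ?_
    have h2 : ∀ s ∈ Finset.range k, ∫ ω : Om, (2 * (s : ℝ) + 2) ^ 2 *
        ({ω : Om | 2 * s < DD ω k k}.indicator (fun _ => (1 : ℝ)) ω) ∂P ≤
        4 / 10 * (4 / 100) ^ s := by
      intro s _
      rw [integral_const_mul, integral_indicator_const _ (hmeas s), smul_eq_mul, mul_one]
      have h3 := prob_DD k s
      have h4 : (1 / 10 : ℝ) ^ (2 * s + 1) = 1 / 10 * (1 / 100) ^ s := by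
        rw [pow_succ, pow_mul]; norm_num; ring
      rw [h4] at h3
      have h5 : ((s : ℝ) + 1) ^ 2 ≤ 4 ^ s := by
        have h6 : (s : ℝ) + 1 ≤ 2 ^ s := by
          have := @Nat.lt_two_pow_self s
          exact_mod_cast this
        calc ((s : ℝ) + 1) ^ 2 ≤ (2 ^ s) ^ 2 := pow_le_pow_left₀ (by positivity) h6 2
          _ = 4 ^ s := by rw [← pow_mul, mul_comm, pow_mul]; norm_num
      have h6 : (2 * (s : ℝ) + 2) ^ 2 = 4 * ((s : ℝ) + 1) ^ 2 := by ring
      rw [h6]
      calc 4 * ((s : ℝ) + 1) ^ 2 * P.real {ω : Om | 2 * s < DD ω k k}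
          ≤ 4 * 4 ^ s * (1 / 10 * (1 / 100) ^ s) := by
            apply mul_le_mul _ h3 measureReal_nonneg (by positivity)
            linarith
        _ = 4 / 10 * (4 ^ s * (1 / 100) ^ s) := by ring
        _ = 4 / 10 * (4 / 100) ^ s := by rw [← mul_pow]; norm_num
    refine (Finset.sum_le_sum h2).trans ?_
    rw [← Finset.mul_sum]
    have h3 : ∑ s ∈ Finset.range k, (4 / 100 : ℝ) ^ s ≤ (1 - 4 / 100)⁻¹ := by
      have h4 := (hasSum_geometric_of_lt_one (r := (4 / 100 : ℝ)) (by norm_num) (by norm_num))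
      rw [← h4.tsum_eq]
      exact h4.summable.sum_le_tsum _ (fun _ _ => by positivity)
    have h5 : (1 - 4 / 100 : ℝ)⁻¹ ≤ 2 := by norm_num
    linarith
  · intro s _
    exact ((integrable_const _).indicator (hmeas s)).const_mul _

variable {a : ℝ}

lemma diag_ge (ha : 0 ≤ a) (ω : Om) (k : ℕ) : (2 * k : ℝ) ≤ T a ω 0 ((k : ℤ), (k : ℤ)) := by
  have h1 := nrm_le_T ha ω 0 ((k : ℤ), (k : ℤ))
  have h2 : nrm (((k : ℤ), (k : ℤ)) - 0) = 2 * k := by
    simp [nrm]; ring
  rw [h2] at h1
  push_cast at h1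
  exact h1

lemma diag_le (ha : 0 ≤ a) (ω : Om) (k : ℕ) :
    T a ω 0 ((k : ℤ), (k : ℤ)) ≤ 2 * k + a * DD ω k k := by
  have := T_le_DD ha ω k k
  linarith

/-- the variance on the diagonal is bounded -/
theorem var_diag_le (ha : 0 ≤ a) (k : ℕ) :
    Var[fun ω => T a ω 0 ((k : ℤ), (k : ℤ)); P] ≤ a ^ 2 := by
  refine (var_le_sq ha _ (2 * k)).trans ?_
  have h1 : ∫ ω, (T a ω 0 ((k : ℤ), (k : ℤ)) - 2 * k) ^ 2 ∂P ≤
      ∫ ω : Om, a ^ 2 * (DD ω k k : ℝ) ^ 2 ∂P := by
    apply integral_mono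
    · exact ((dep_T ha 0 _).comp (fun x => (x - 2 * k) ^ 2)).integrable
    · exact (DD_int k).const_mul _
    · intro ω
      have h2 := diag_ge ha ω k
      have h3 := diag_le ha ω k
      simp only
      rw [← mul_pow]
      exact pow_le_pow_left₀ (by linarith) (by linarith) 2
  rw [integral_const_mul] at h1
  have h2 := DD_sq_le k
  nlinarith [sq_nonneg a]

/-- if both edges going out of the origin are high, the passage time is larger -/
lemma diag_ge_of_high (ha : 0 ≤ a) {ω : Om} {k : ℕ} (hk : 1 ≤ k) (h1 : ω (hE 0 0) = true)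
    (h2 : ω (vE 0 0) = true) : (2 * k : ℝ) + min a 2 ≤ T a ω 0 ((k : ℤ), (k : ℤ)) := by
  obtain ⟨p, hp⟩ := exists_min ha ω 0 ((k : ℤ), (k : ℤ))
  rw [← hp]
  have hne : (0 : V) ≠ ((k : ℤ), (k : ℤ)) := by
    intro h
    have := congrArg Prod.fst h
    simp only [Prod.fst_zero] at this
    omega
  cases p with
  | nil => exact absurd rfl hne
  | @cons _ w _ hadj p =>
    have h3 : cost a ω (SimpleGraph.Walk.cons hadj p) = (1 + a * ind ω s(0, w)) + cost a ω p := by
      simp [cost]
    rw [h3]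
    have h4 : (nrm (((k : ℤ), (k : ℤ)) - w) : ℝ) ≤ cost a ω p := by
      have e1 : (nrm (((k : ℤ), (k : ℤ)) - w) : ℝ) ≤ ((p.length : ℤ) : ℝ) := by
        exact_mod_cast nrm_le_length p
      exact e1.trans (by exact_mod_cast length_le_cost ha ω p)
    have h5 := sub_mem_dirs hadj
    rw [sub_zero] at h5
    have hm1 : min a 2 ≤ a := min_le_left _ _
    have hm2 : min a 2 ≤ 2 := min_le_right _ _
    simp only [dirs, Finset.mem_insert, Finset.mem_singleton] at h5
    have hi0 := mul_nonneg ha (ind_nonneg ω s(0, w))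
    rcases h5 with rfl | rfl | rfl | rfl
    · have e1 : ind ω s(0, ((1 : ℤ), (0 : ℤ))) = 1 := by
        have : hE 0 0 = s(0, ((1 : ℤ), (0 : ℤ))) := by simp [hE]
        rw [← this]; simp [ind, h1]
      have e2 : nrm (((k : ℤ), (k : ℤ)) - (1, 0)) = 2 * k - 1 := by
        simp only [nrm, Prod.mk_sub_mk]
        rw [abs_of_nonneg (by omega), abs_of_nonneg (by omega)]; ring
      rw [e2] at h4
      rw [e1]
      push_cast at h4
      linarith
    · have e2 : nrm (((k : ℤ), (k : ℤ)) - (-1, 0)) = 2 * k + 1 := by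
        simp only [nrm, Prod.mk_sub_mk]
        rw [abs_of_nonneg (by omega), abs_of_nonneg (by omega)]; ring
      rw [e2] at h4
      push_cast at h4
      linarith
    · have e1 : ind ω s(0, ((0 : ℤ), (1 : ℤ))) = 1 := by
        have : vE 0 0 = s(0, ((0 : ℤ), (1 : ℤ))) := by simp [vE]
        rw [← this]; simp [ind, h2]
      have e2 : nrm (((k : ℤ), (k : ℤ)) - (0, 1)) = 2 * k - 1 := by
        simp only [nrm, Prod.mk_sub_mk]
        rw [abs_of_nonneg (by omega), abs_of_nonneg (by omega)]; ring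
      rw [e2] at h4
      rw [e1]
      push_cast at h4
      linarith
    · have e2 : nrm (((k : ℤ), (k : ℤ)) - (0, -1)) = 2 * k + 1 := by
        simp only [nrm, Prod.mk_sub_mk]
        rw [abs_of_nonneg (by omega), abs_of_nonneg (by omega)]; ring
      rw [e2] at h4
      push_cast at h4
      linarith

/-- the variance on the diagonal is bounded away from zero -/
theorem var_diag_ge (ha : 0 < a) {k : ℕ} (hk : 1 ≤ k) :
    q ^ 2 * (min a 2 / 2) ^ 2 ≤ Var[fun ω => T a ω 0 ((k : ℤ), (k : ℤ)); P] := by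
  set z : V := ((k : ℤ), (k : ℤ)) with hz
  set b := min a 2 with hb
  have hb0 : 0 < b := lt_min ha (by norm_num)
  rw [var_eq ha.le]
  have hd := dep_T ha.le 0 z
  have key : ∀ E : Set Om, MeasurableSet E → q ^ 2 ≤ P.real E →
      (∀ ω ∈ E, b / 2 ≤ |T a ω 0 z - h a z|) →
      q ^ 2 * (b / 2) ^ 2 ≤ ∫ ω, (T a ω 0 z - h a z) ^ 2 ∂P := by
    intro E mE hE1 hE2
    have h1 : ∫ ω, E.indicator (fun _ => (b / 2) ^ 2) ω ∂P ≤
        ∫ ω, (T a ω 0 z - h a z) ^ 2 ∂P := by
      apply integral_mono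
      · exact (integrable_const _).indicator mE
      · exact (hd.comp (fun x => (x - h a z) ^ 2)).integrable
      · intro ω
        simp only
        by_cases hω : ω ∈ E
        · rw [Set.indicator_of_mem hω, ← sq_abs (T a ω 0 z - h a z)]
          exact pow_le_pow_left₀ (by positivity) (hE2 ω hω) 2
        · rw [Set.indicator_of_notMem hω]
          exact sq_nonneg _
    rw [integral_indicator_const _ mE, smul_eq_mul] at h1
    refine le_trans ?_ h1
    exact mul_le_mul_of_nonneg_right hE1 (sq_nonneg _)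
  rcases le_total (h a z) (2 * k + b / 2) with hcase | hcase
  · -- both edges high
    set K : Finset (Sym2 V) := {hE 0 0, vE 0 0} with hK
    have hKc : K.card = 2 := by
      rw [hK, Finset.card_pair]
      intro h
      unfold hE vE at h
      rw [Sym2.eq_iff] at h
      simp at h
    apply key {ω : Om | ∀ e ∈ K, ω e = true}
    · have : {ω : Om | ∀ e ∈ K, ω e = true} = ⋂ e ∈ K, {ω : Om | ω e = true} := by
        ext ω; simp
      rw [this]
      refine Finset.measurableSet_biInter _ fun e _ => ?_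
      exact measurableSet_eq_fun (measurable_pi_apply e) measurable_const
    · rw [prob_all_high, hKc]
    · intro ω hω
      have h1 := diag_ge_of_high ha.le hk (hω (hE 0 0) (by simp [hK])) (hω (vE 0 0) (by simp [hK]))
      have h2 : b / 2 ≤ T a ω 0 z - h a z := by
        have : (2 * k : ℝ) + b ≤ T a ω 0 z := h1
        linarith
      exact h2.trans (le_abs_self _)
  · -- no high edge
    apply key {ω : Om | ¬ 2 * 0 < DD ω k k}
    · exact (measurableSet_lt measurable_const (meas_DD k k)).compl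
    · have h1 := prob_DD k 0
      have h2 : P.real {ω : Om | ¬ 2 * 0 < DD ω k k} = 1 - P.real {ω : Om | 2 * 0 < DD ω k k} := by
        have := measureReal_compl (μ := P) (s := {ω : Om | 2 * 0 < DD ω k k})
          (measurableSet_lt measurable_const (meas_DD k k))
        rw [probReal_univ] at this
        exact this
      rw [h2]
      have h3 : q ^ 2 ≤ 1 / 2 := by unfold q; norm_num
      have h4 : ((1 : ℝ) / 10) ^ (2 * 0 + 1) = 1 / 10 := by norm_num
      rw [h4] at h1
      linarith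
    · intro ω hω
      have h0 : DD ω k k = 0 := by
        have : ¬ 2 * 0 < DD ω k k := hω
        omega
      have h1 := diag_le ha.le ω k
      rw [h0] at h1
      have h2 : b / 2 ≤ -(T a ω 0 z - h a z) := by
        have : T a ω 0 z ≤ 2 * k + a * ((0 : ℕ) : ℝ) := h1
        push_cast at this
        linarith
      exact h2.trans (neg_le_abs _)

/-- lower bounds for the variance exponent -/
theorem chiVar_ge {F : Measure ℝ} {x : ℝ × ℝ} {κ₀ c : ℝ} (hc : 0 < c) (n : ℕ → ℕ)
    (hn : Tendsto n atTop atTop)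
    (h : ∀ᶠ j in atTop, c * (n j : ℝ) ^ (2 * κ₀) ≤
      Var[fun τ => passage τ 0 (flo ((n j : ℝ) • x)); law F]) : (κ₀ : EReal) ≤ chiVar F x := by
  apply le_sInf
  rintro _ ⟨κ, rfl, hκ⟩
  rw [EReal.coe_le_coe_iff]
  by_contra hcon
  push Not at hcon
  obtain ⟨M, hM1, _⟩ := EReal.lt_iff_exists_real_btwn.1 hκ
  have h1 := eventually_lt_of_limsup_lt hM1
  have h2 := hn.eventually h1
  have h3 : Tendsto (fun j => c * (n j : ℝ) ^ (2 * (κ₀ - κ))) atTop atTop := by
    apply Tendsto.const_mul_atTop hc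
    exact (tendsto_rpow_atTop (by linarith)).comp
      (tendsto_natCast_atTop_atTop.comp hn)
  have h4 := h3.eventually (eventually_ge_atTop M)
  have h5 : ∀ᶠ j in atTop, 1 ≤ n j := hn.eventually (eventually_ge_atTop 1)
  obtain ⟨j, e1, e2, e3, e4⟩ := (h2.and (h4.and (h5.and h))).exists
  rw [EReal.coe_lt_coe_iff] at e1
  have hnj : (0 : ℝ) < n j := by exact_mod_cast e3
  have e5 : (n j : ℝ) ^ (-(2 * κ)) * (c * (n j : ℝ) ^ (2 * κ₀)) =
      c * (n j : ℝ) ^ (2 * (κ₀ - κ)) := by
    rw [mul_left_comm, ← Real.rpow_add hnj]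
    congr 2
    ring
  have e6 := mul_le_mul_of_nonneg_left e4 (Real.rpow_nonneg hnj.le (-(2 * κ)))
  rw [e5] at e6
  linarith

lemma flo_dg (n : ℕ) : flo ((n : ℝ) • dg) =
    (((⌊(n : ℝ) * (Real.sqrt 2 / 2)⌋₊ : ℕ) : ℤ), ((⌊(n : ℝ) * (Real.sqrt 2 / 2)⌋₊ : ℕ) : ℤ)) := by
  have h1 : (0 : ℝ) ≤ (n : ℝ) * (Real.sqrt 2 / 2) := by positivity
  have h2 : ((⌊(n : ℝ) * (Real.sqrt 2 / 2)⌋₊ : ℕ) : ℤ) = ⌊(n : ℝ) * (Real.sqrt 2 / 2)⌋ :=
    Int.natCast_floor_eq_floor h1
  rw [h2]
  rfl

/-- on the diagonal the variance exponent vanishes -/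
theorem chiVar_dg (ha : 0 < a) : chiVar (Fa a) dg = 0 := by
  apply le_antisymm
  · apply sInf_le
    refine ⟨0, by simp, ?_⟩
    refine lt_of_le_of_lt (b := ((a ^ 2 : ℝ) : EReal)) ?_ (EReal.coe_lt_top _)
    refine limsup_le_of_le (by isBoundedDefault) (Filter.Eventually.of_forall fun n => ?_)
    rw [EReal.coe_le_coe_iff]
    simp only [mul_zero, neg_zero, Real.rpow_zero, one_mul]
    rw [flo_dg, var_law]
    exact var_diag_le ha.le _
  · have hb0 : 0 < min a 2 := lt_min ha (by norm_num)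
    have := chiVar_ge (F := Fa a) (x := dg) (κ₀ := 0) (c := q ^ 2 * (min a 2 / 2) ^ 2)
      (by have := q_pos; positivity) id tendsto_id (by
        filter_upwards [eventually_ge_atTop 2] with n hn
        simp only [id, mul_zero, Real.rpow_zero, mul_one]
        rw [flo_dg, var_law]
        apply var_diag_ge ha
        apply Nat.le_floor
        have h1 : (2 : ℝ) ≤ n := by exact_mod_cast hn
        have h2 := sqrt2_pos
        have h3 := sqrt2_sq
        have h4 : 1 ≤ Real.sqrt 2 := by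
          rw [show (1 : ℝ) = Real.sqrt 1 by simp]
          exact Real.sqrt_le_sqrt (by norm_num)
        push_cast
        nlinarith)
    simpa using this

/-- in a minimising direction the variance exponent is positive -/
theorem chiVar_min (ha : 0 < a) (hstrict : mm a < mm (2 * a)) {y : ℝ × ℝ} (hy : MinDir a y) :
    ((1 / 50 : ℝ) : EReal) ≤ chiVar (Fa a) y := by
  obtain ⟨c, hc, L₀, hNC⟩ := NC ha hstrict hy
  apply chiVar_ge (c := c ^ 2 / 2) (by positivity) (fun j => j ^ 50)
    (tendsto_pow_atTop (by norm_num))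
  filter_upwards [eventually_ge_atTop L₀, eventually_ge_atTop 1] with L hL hL1
  set z := flo (((L ^ 50 : ℕ) : ℝ) • y) with hz
  obtain ⟨h1, h2⟩ := flo_near (((L ^ 50 : ℕ) : ℝ)) y
  push_cast at h1 h2
  have h3 := hNC L hL z (by rw [hz]; push_cast; exact h1) (by rw [hz]; push_cast; exact h2)
    (h a z)
  have h4 := var_ge ha.le z (r := c * L) (by positivity) h3
  rw [var_law]
  refine le_trans (le_of_eq ?_) h4
  have hL0 : (0 : ℝ) ≤ L := Nat.cast_nonneg _
  have h5 : (((L ^ 50 : ℕ) : ℝ)) ^ (2 * (1 / 50 : ℝ)) = (L : ℝ) ^ 2 := by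
    push_cast
    rw [← Real.rpow_natCast (L : ℝ) 50, ← Real.rpow_mul hL0, ← Real.rpow_natCast (L : ℝ) 2]
    norm_num
  rw [h5]
  ring

theorem final_var : ∃ F : Measure ℝ, IsProbabilityMeasure F ∧ F (Set.Iio 0) = 0 ∧
    Integrable (fun t => t ^ 2) F ∧
    chiVar F (Real.sqrt 2 / 2, Real.sqrt 2 / 2) = 0 ∧
    ∃ y : ℝ × ℝ, y.1 ^ 2 + y.2 ^ 2 = 1 ∧ ((1 / 50 : ℝ) : EReal) ≤ chiVar F y := by
  obtain ⟨a, ha, hstrict⟩ := exists_strict
  obtain ⟨y, hy⟩ := exists_dir (a := a)
  refine ⟨Fa a, inferInstance, ?_, integrable_Fa a (by fun_prop), chiVar_dg ha, y, hy.1,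
    chiVar_min ha hstrict hy⟩
  apply Fa_null a measurableSet_Iio
  · simp
  · simp only [Set.mem_Iio, not_lt]; linarith

end Pool.Agent.W822.FPP
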