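import Pool.Agent.W822.Dir

/-!
Geodesics in the minimising direction stay in a thin tube and use many high edges; hence the
passage time is not concentrated.
-/

set_option autoImplicit false

open MeasureTheory ProbabilityTheory Filter Topology
open scoped ENNReal NNReal

namespace Pool.Agent.W822.FPP

variable {a : ℝ}

/-! ### counting vertices in a tube -/

lemma card_strip (R : ℕ) (s c w : ℝ) (hs : 1 / 2 ≤ |s|) (hw : 0 ≤ w) :
    (((Finset.Icc (-(R : ℤ)) R).filter (fun k : ℤ => |(k : ℝ) * s - c| ≤ w)).card : ℝ) ≤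
      4 * w + 1 := by
  have hs0 : s ≠ 0 := by
    rintro rfl
    simp at hs
    linarith
  have hsub : (Finset.Icc (-(R : ℤ)) R).filter (fun k : ℤ => |(k : ℝ) * s - c| ≤ w) ⊆
      Finset.Icc ⌈c / s - 2 * w⌉ ⌊c / s + 2 * w⌋ := by
    intro k hk
    rw [Finset.mem_filter] at hk
    have h1 : |(k : ℝ) - c / s| * |s| ≤ w := by
      rw [← abs_mul, sub_mul, div_mul_cancel₀ _ hs0]
      exact hk.2
    have h2 : |(k : ℝ) - c / s| ≤ 2 * w := by
      have := abs_nonneg ((k : ℝ) - c / s)
      nlinarith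
    rw [abs_le] at h2
    rw [Finset.mem_Icc, Int.ceil_le, Int.le_floor]
    constructor <;> linarith
  have h1 := Finset.card_le_card hsub
  have h2 : ((Finset.Icc ⌈c / s - 2 * w⌉ ⌊c / s + 2 * w⌋).card : ℝ) ≤ 4 * w + 1 := by
    rw [Int.card_Icc]
    have h3 := Int.le_ceil (c / s - 2 * w)
    have h4 := Int.floor_le (c / s + 2 * w)
    rcases le_total 0 (⌊c / s + 2 * w⌋ + 1 - ⌈c / s - 2 * w⌉) with h0 | h0
    · have h5 : (((⌊c / s + 2 * w⌋ + 1 - ⌈c / s - 2 * w⌉).toNat : ℤ) : ℝ) =
          (⌊c / s + 2 * w⌋ + 1 - ⌈c / s - 2 * w⌉ : ℤ) := by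
        rw [Int.toNat_of_nonneg h0]
      have h6 : ((⌊c / s + 2 * w⌋ + 1 - ⌈c / s - 2 * w⌉).toNat : ℝ) =
          (⌊c / s + 2 * w⌋ : ℝ) + 1 - ⌈c / s - 2 * w⌉ := by
        rw [← Int.cast_natCast, h5]; push_cast; ring
      rw [h6]
      linarith
    · rw [Int.toNat_of_nonpos h0]
      simp
      linarith
  have h3 : (((Finset.Icc (-(R : ℤ)) R).filter (fun k : ℤ => |(k : ℝ) * s - c| ≤ w)).card : ℝ) ≤
      ((Finset.Icc ⌈c / s - 2 * w⌉ ⌊c / s + 2 * w⌋).card : ℝ) := by exact_mod_cast h1
  exact h3.trans h2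

/-- the vertices of the tube -/
noncomputable def tube (y : ℝ × ℝ) (R : ℕ) (w : ℝ) : Finset V :=
  (ball 0 R).filter (fun v => |crs y v| ≤ w)

lemma card_tube {y : ℝ × ℝ} (hy : y.1 ^ 2 + y.2 ^ 2 = 1) (R : ℕ) {w : ℝ} (hw : 0 ≤ w) :
    ((tube y R w).card : ℝ) ≤ (2 * R + 1) * (4 * w + 1) := by
  classical
  set I := Finset.Icc (-(R : ℤ)) R with hI
  have hIc : (I.card : ℝ) = 2 * R + 1 := by
    have : (I.card : ℤ) = 2 * R + 1 := by
      rw [hI, Int.card_Icc, Int.toNat_of_nonneg (by omega)]
      ring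
    exact_mod_cast this
  have hb : ball 0 R = I ×ˢ I := by
    unfold ball
    simp [hI]
  rcases le_or_gt (1 / 2) |y.1| with h1 | h1
  · have hsub : tube y R w ⊆ I.biUnion (fun i =>
        (I.filter (fun k : ℤ => |(k : ℝ) * y.1 - i * y.2| ≤ w)).image (fun k => (i, k))) := by
      intro v hv
      rw [tube, Finset.mem_filter, hb, Finset.mem_product] at hv
      rw [Finset.mem_biUnion]
      refine ⟨v.1, hv.1.1, ?_⟩
      rw [Finset.mem_image]
      exact ⟨v.2, Finset.mem_filter.2 ⟨hv.1.2, hv.2⟩, rfl⟩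
    have h2 : ((tube y R w).card : ℝ) ≤ ∑ i ∈ I, (4 * w + 1) := by
      have h3 := (Finset.card_le_card hsub).trans Finset.card_biUnion_le
      have h4 : ((tube y R w).card : ℝ) ≤ ((∑ i ∈ I, (Finset.image (fun k => (i, k))
        (I.filter (fun k : ℤ => |(k : ℝ) * y.1 - i * y.2| ≤ w))).card : ℕ) : ℝ) := by exact_mod_cast h3
      refine h4.trans ?_
      push_cast
      apply Finset.sum_le_sum
      intro i _
      refine le_trans (by exact_mod_cast Finset.card_image_le) (card_strip R y.1 _ w h1 hw)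
    rw [Finset.sum_const, nsmul_eq_mul, hIc] at h2
    exact h2
  · have h1' : 1 / 2 ≤ |y.2| := by
      by_contra hc
      push Not at hc
      have e1 := abs_nonneg y.1
      have e2 := abs_nonneg y.2
      rw [← sq_abs y.1, ← sq_abs y.2] at hy
      nlinarith
    have hsub : tube y R w ⊆ I.biUnion (fun i =>
        (I.filter (fun k : ℤ => |(k : ℝ) * y.2 - i * y.1| ≤ w)).image (fun k => (k, i))) := by
      intro v hv
      rw [tube, Finset.mem_filter, hb, Finset.mem_product] at hv
      rw [Finset.mem_biUnion]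
      refine ⟨v.2, hv.1.2, ?_⟩
      rw [Finset.mem_image]
      refine ⟨v.1, Finset.mem_filter.2 ⟨hv.1.1, ?_⟩, rfl⟩
      rw [abs_sub_comm]
      exact hv.2
    have h2 : ((tube y R w).card : ℝ) ≤ ∑ i ∈ I, (4 * w + 1) := by
      have h3 := (Finset.card_le_card hsub).trans Finset.card_biUnion_le
      have h4 : ((tube y R w).card : ℝ) ≤ ((∑ i ∈ I, (Finset.image (fun k => (k, i))
        (I.filter (fun k : ℤ => |(k : ℝ) * y.2 - i * y.1| ≤ w))).card : ℕ) : ℝ) := by exact_mod_cast h3
      refine h4.trans ?_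
      push_cast
      apply Finset.sum_le_sum
      intro i _
      refine le_trans (by exact_mod_cast Finset.card_image_le) (card_strip R y.2 _ w h1' hw)
    rw [Finset.sum_const, nsmul_eq_mul, hIc] at h2
    exact h2

/-- the four unit steps -/
def dirs : Finset V := {(1, 0), (-1, 0), (0, 1), (0, -1)}

lemma sub_mem_dirs {u v : V} (h : lat.Adj u v) : v - u ∈ dirs := by
  obtain ⟨u1, u2⟩ := u
  obtain ⟨v1, v2⟩ := v
  have h' : |u1 - v1| + |u2 - v2| = 1 := h
  have hcase : (v1 - u1 = 1 ∧ v2 - u2 = 0) ∨ (v1 - u1 = -1 ∧ v2 - u2 = 0) ∨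
      (v1 - u1 = 0 ∧ v2 - u2 = 1) ∨ (v1 - u1 = 0 ∧ v2 - u2 = -1) := by
    rcases abs_cases (u1 - v1) with ⟨h1, h2⟩ | ⟨h1, h2⟩ <;>
      rcases abs_cases (u2 - v2) with ⟨h3, h4⟩ | ⟨h3, h4⟩ <;> omega
  simp only [dirs, Prod.mk_sub_mk, Finset.mem_insert, Finset.mem_singleton, Prod.mk.injEq]
  tauto

/-- lattice edges starting in `Λ` -/
def edgesOf (Λ : Finset V) : Finset (Sym2 V) :=
  (Λ ×ˢ dirs).image (fun z => s(z.1, z.1 + z.2))

lemma card_edgesOf (Λ : Finset V) : (edgesOf Λ).card ≤ 4 * Λ.card := by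
  unfold edgesOf
  refine Finset.card_image_le.trans ?_
  rw [Finset.card_product, mul_comm]
  have : dirs.card ≤ 4 := by decide
  exact Nat.mul_le_mul_right _ this

lemma mem_edgesOf {Λ : Finset V} {u v : V} (p : lat.Walk u v) (hp : ∀ w ∈ p.support, w ∈ Λ)
    {e : Sym2 V} (he : e ∈ p.edges) : e ∈ edgesOf Λ := by
  induction e using Sym2.ind with
  | _ x y =>
    have h1 : lat.Adj x y := p.adj_of_mem_edges he
    have h2 : x ∈ p.support := p.fst_mem_support_of_mem_edges he
    rw [edgesOf, Finset.mem_image]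
    refine ⟨(x, y - x), Finset.mem_product.2 ⟨hp x h2, sub_mem_dirs h1⟩, ?_⟩
    simp

/-! ### non-concentration from a confining tube -/

/-- truncation -/
noncomputable def clampR (R x : ℝ) : ℝ := max (-R) (min R x)

lemma clampR_mono (R : ℝ) : Monotone (clampR R) := fun _ _ h =>
  max_le_max le_rfl (min_le_min le_rfl h)

lemma abs_clampR {R : ℝ} (hR : 0 ≤ R) (x : ℝ) : |clampR R x| ≤ R := by
  unfold clampR
  rw [abs_le]
  constructor
  · exact le_max_left _ _
  · exact max_le (by linarith) (min_le_left _ _)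

lemma clampR_of {R x : ℝ} (h : |x| ≤ R) : clampR R x = x := by
  rw [abs_le] at h
  unfold clampR
  rw [min_eq_right h.2, max_eq_right h.1]

theorem nonconc (ha : 0 ≤ a) (z : V) (S : Finset (Sym2 V)) (A r H : ℝ) (hH : 0 ≤ H) (hr : 0 ≤ r)
    (G : Set Om) (hG : MeasurableSet G)
    (hgood : ∀ ω ∈ G, |T a ω 0 z - A| ≤ r ∧ ∀ p : lat.Walk 0 z, Geo a ω p → p.IsPath →
      (∀ e ∈ p.edges, e ∈ S) ∧ H ≤ hic ω p) :
    (1 - q) * (a * H * P.real G) ^ 2 ≤ (r + a) ^ 2 * (q * S.card) := by
  classical
  set f : Om → ℝ := fun ω => clampR (r + a) (T a ω 0 z - A) with hf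
  have hd : Dep (ballE 0 (rad a 0 z)) f :=
    (dep_T ha 0 z).comp (fun x => clampR (r + a) (x - A))
  have h1 := key_ineq hd S (R := r + a) (fun ω => abs_clampR (by linarith) _)
  have hDf : ∀ e ω, 0 ≤ Dd e f ω := by
    intro e ω
    unfold Dd
    have h2 := Dd_T_nonneg ha e 0 z ω
    unfold Dd at h2
    have h3 : f (dn e ω) ≤ f (up e ω) := clampR_mono _ (by linarith)
    linarith
  have hi : ∀ e ∈ S, Integrable (fun ω => ind ω e * Dd e f ω) P := by
    intro e _
    have hi : Dep {e} (fun ω : Om => ind ω e) := by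
      intro ω ω' h
      have := h e (by simp)
      simp [ind, this]
    have hF : Dep (ballE 0 (rad a 0 z) ∪ {e}) (fun ω => ind ω e * Dd e f ω) :=
      (hi.mono Finset.subset_union_right).comp₂
        (((hd.Dd e).mono (Finset.erase_subset _ _)).mono Finset.subset_union_left)
        (fun a b => a * b)
    exact hF.integrable
  have h2 : a * H * P.real G ≤ ∑ e ∈ S, ∫ ω, ind ω e * Dd e f ω ∂P := by
    rw [← integral_finsetSum _ hi]
    have h3 : ∫ ω, G.indicator (fun _ => a * H) ω ∂P ≤
        ∫ ω, ∑ e ∈ S, ind ω e * Dd e f ω ∂P := by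
      apply integral_mono
      · exact (integrable_const _).indicator hG
      · exact integrable_finsetSum _ hi
      · intro ω
        simp only
        by_cases hω : ω ∈ G
        · rw [Set.indicator_of_mem hω]
          obtain ⟨g1, g2⟩ := hgood ω hω
          obtain ⟨p, hp, hP⟩ := exists_geo ha ω 0 z
          obtain ⟨g3, g4⟩ := g2 p hp hP
          set E := p.edges.toFinset.filter (fun e => ω e = true) with hE
          have hEc : (E.card : ℝ) = hic ω p := by
            have e1 : E.card = hic ω p := by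
              rw [hE, ← List.toFinset_filter, List.toFinset_card_of_nodup
                (hP.isTrail.edges_nodup.filter _), hic, List.countP_eq_length_filter]
            exact_mod_cast e1
          have hES : E ⊆ S := by
            intro e he
            rw [hE, Finset.mem_filter, List.mem_toFinset] at he
            exact g3 e he.1
          have h4 : ∀ e ∈ E, a ≤ ind ω e * Dd e f ω := by
            intro e he
            rw [hE, Finset.mem_filter, List.mem_toFinset] at he
            have e1 : ind ω e = 1 := by simp [ind, he.2]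
            rw [e1, one_mul]
            unfold Dd
            rw [up_eq he.2]
            have e2 := T_dn_le ha he.2 hp hP he.1
            have e3 := Dd_T_le ha e 0 z ω
            unfold Dd at e3
            rw [up_eq he.2] at e3
            have e4 : T a (dn e ω) 0 z = T a ω 0 z - a := by linarith
            simp only [hf]
            rw [e4, clampR_of (g1.trans (by linarith)), clampR_of]
            · linarith
            · rw [abs_le] at g1 ⊢
              constructor <;> linarith
          calc a * H ≤ a * E.card := by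
                rw [hEc]; exact mul_le_mul_of_nonneg_left g4 ha
            _ = ∑ e ∈ E, a := by rw [Finset.sum_const, nsmul_eq_mul, mul_comm]
            _ ≤ ∑ e ∈ E, ind ω e * Dd e f ω := Finset.sum_le_sum h4
            _ ≤ ∑ e ∈ S, ind ω e * Dd e f ω :=
                Finset.sum_le_sum_of_subset_of_nonneg hES fun e _ _ =>
                  mul_nonneg (ind_nonneg _ _) (hDf e ω)
        · rw [Set.indicator_of_notMem hω]
          exact Finset.sum_nonneg fun e _ => mul_nonneg (ind_nonneg _ _) (hDf e ω)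
    rw [integral_indicator_const _ hG, smul_eq_mul, mul_comm] at h3
    exact h3
  have h5 : 0 ≤ a * H * P.real G := by positivity
  refine le_trans ?_ h1
  apply mul_le_mul_of_nonneg_left _ one_sub_q_pos.le
  exact pow_le_pow_left₀ h5 h2 2

end Pool.Agent.W822.FPP
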